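import Pool.Agent.OMVU.Lang
import Pool.Agent.Work.MP_0f1f76_lc.Toric.Basic

/-!
# Digits, and greedy codes with few agreements
-/

namespace Pool.Agent.OMVU.CodeS

open Finset

/-- A sum over a product range. -/
theorem sum_range_prod {A : Type*} [AddCommMonoid A] (a b : ℕ) (f : ℕ → A) :
    ∑ y ∈ range (a * b), f y = ∑ d ∈ range b, ∑ z ∈ range a, f (z + a * d) := by
  induction b with
  | zero => simp
  | succ b ih =>
    rw [Nat.mul_succ, sum_range_add, sum_range_succ, ih]
    congr 1
    refine sum_congr rfl (fun z _ => ?_)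
    rw [add_comm]

/-- The digits of `z + S^n d`. -/
theorem digit_lt {S n z d j : ℕ} (hS : 0 < S) (hj : j < n) :
    (z + S ^ n * d) / S ^ j % S = z / S ^ j % S := by
  obtain ⟨k, rfl⟩ : ∃ k, n = j + 1 + k := ⟨n - (j + 1), by omega⟩
  have h1 : S ^ (j + 1 + k) * d = S ^ j * (S * (S ^ k * d)) := by ring
  rw [h1, Nat.add_mul_div_left _ _ (Nat.pow_pos hS), Nat.add_mul_mod_self_left]

theorem digit_eq {S n z d : ℕ} (hS : 0 < S) (hz : z < S ^ n) (hd : d < S) :
    (z + S ^ n * d) / S ^ n % S = d := by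
  rw [Nat.add_mul_div_left _ _ (Nat.pow_pos hS), Nat.div_eq_of_lt hz, zero_add,
    Nat.mod_eq_of_lt hd]

/-- The sum over all words of a product over the digits. -/
theorem sum_prod_digits {A : Type*} [CommSemiring A] {S : ℕ} (hS : 0 < S) (n : ℕ)
    (g : ℕ → ℕ → A) :
    ∑ y ∈ range (S ^ n), ∏ j ∈ range n, g j (y / S ^ j % S) =
      ∏ j ∈ range n, ∑ d ∈ range S, g j d := by
  induction n with
  | zero => simp
  | succ n ih =>
    rw [pow_succ, sum_range_prod, prod_range_succ, ← ih, sum_mul_sum, sum_comm]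
    refine sum_congr rfl (fun z hz => ?_)
    refine sum_congr rfl (fun d hd => ?_)
    rw [prod_range_succ, digit_eq hS (mem_range.1 hz) (mem_range.1 hd)]
    congr 1
    refine prod_congr rfl (fun j hj => ?_)
    rw [digit_lt hS (mem_range.1 hj)]

/-- The number of equal digits (base `S`, `n` digits). -/
def agr (S n x y : ℕ) : ℕ := ∑ j ∈ range n, if x / S ^ j % S = y / S ^ j % S then 1 else 0

theorem agr_le (S n x y : ℕ) : agr S n x y ≤ n := by
  unfold agr
  calc ∑ j ∈ range n, (if x / S ^ j % S = y / S ^ j % S then 1 else 0)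
      ≤ ∑ j ∈ range n, 1 := sum_le_sum (fun j _ => by split_ifs <;> omega)
    _ = n := by simp

theorem agr_comm (S n x y : ℕ) : agr S n x y = agr S n y x := by
  unfold agr
  refine sum_congr rfl (fun j _ => ?_)
  simp only [eq_comm]

theorem prod_agr (S n x y u v : ℕ) :
    ∏ j ∈ range n, (if x / S ^ j % S = y / S ^ j % S then u else v) =
      u ^ agr S n x y * v ^ (n - agr S n x y) := by
  induction n with
  | zero => simp [agr]
  | succ n ih =>
    have h1 : agr S (n + 1) x y =
        agr S n x y + if x / S ^ n % S = y / S ^ n % S then 1 else 0 := by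
      unfold agr
      rw [sum_range_succ]
    have h2 := agr_le S n x y
    rw [prod_range_succ, ih, h1]
    split_ifs with h
    · rw [show n + 1 - (agr S n x y + 1) = n - agr S n x y by omega, pow_succ]
      ring
    · rw [show n + 1 - (agr S n x y + 0) = n - agr S n x y + 1 by omega, pow_succ]
      ring

/-- The number of words with many agreements. -/
theorem count_agr {S n u v T : ℕ} (hS : 0 < S) (hvu : v ≤ u) (hT : T ≤ n) (x : ℕ) :
    u ^ T * v ^ (n - T) * ((range (S ^ n)).filter (fun y => T ≤ agr S n x y)).card ≤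
      (u + v * (S - 1)) ^ n := by
  have h1 : ∑ y ∈ range (S ^ n),
      ∏ j ∈ range n, (if x / S ^ j % S = y / S ^ j % S then u else v) =
      (u + v * (S - 1)) ^ n := by
    rw [sum_prod_digits hS n (fun j d => if x / S ^ j % S = d then u else v)]
    have h2 : ∀ j ∈ range n, ∑ d ∈ range S, (if x / S ^ j % S = d then u else v) =
        u + v * (S - 1) := by
      intro j _
      have hx : x / S ^ j % S < S := Nat.mod_lt _ hS
      rw [← Finset.add_sum_erase _ _ (mem_range.2 hx), if_pos rfl]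
      congr 1
      rw [sum_congr rfl (g := fun _ => v), sum_const, card_erase_of_mem (mem_range.2 hx),
        card_range, smul_eq_mul, mul_comm]
      intro d hd
      rw [if_neg (fun h => (mem_erase.1 hd).1 h.symm)]
    rw [prod_congr rfl h2, prod_const, card_range]
  rw [← h1, mul_comm, ← smul_eq_mul, ← sum_const]
  calc ∑ _y ∈ (range (S ^ n)).filter (fun y => T ≤ agr S n x y), u ^ T * v ^ (n - T)
      ≤ ∑ y ∈ (range (S ^ n)).filter (fun y => T ≤ agr S n x y),
        ∏ j ∈ range n, (if x / S ^ j % S = y / S ^ j % S then u else v) := by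
        refine sum_le_sum (fun y hy => ?_)
        rw [prod_agr]
        have hy' := (mem_filter.1 hy).2
        have hle := agr_le S n x y
        obtain ⟨k, hk⟩ : ∃ k, agr S n x y = T + k := ⟨_, (Nat.add_sub_cancel' hy').symm⟩
        rw [hk] at hle ⊢
        have e1 : n - T = k + (n - (T + k)) := by omega
        rw [e1, pow_add, pow_add, mul_assoc]
        refine Nat.mul_le_mul_left _ (Nat.mul_le_mul_right _ ?_)
        exact Nat.pow_le_pow_left hvu k
    _ ≤ _ := sum_le_sum_of_subset (filter_subset _ _)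

/-- The greedy step: there is a word with few agreements with `c` given words. -/
theorem exists_word {S n u v T c : ℕ} (hS : 0 < S) (hvu : v ≤ u) (hT : T ≤ n)
    (hc : c * (u + v * (S - 1)) ^ n < u ^ T * v ^ (n - T) * S ^ n) (f : ℕ → ℕ) :
    ∃ y < S ^ n, ∀ i < c, agr S n (f i) y < T := by
  by_contra hcon
  push Not at hcon
  have h1 : range (S ^ n) ⊆ (range c).biUnion
      (fun i => (range (S ^ n)).filter (fun y => T ≤ agr S n (f i) y)) := by
    intro y hy
    obtain ⟨i, hi, hyi⟩ := hcon y (mem_range.1 hy)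
    exact mem_biUnion.2 ⟨i, mem_range.2 hi, mem_filter.2 ⟨hy, hyi⟩⟩
  have h2 := (card_le_card h1).trans card_biUnion_le
  rw [card_range] at h2
  have h3 : u ^ T * v ^ (n - T) * S ^ n ≤ c * (u + v * (S - 1)) ^ n := by
    calc u ^ T * v ^ (n - T) * S ^ n
        ≤ u ^ T * v ^ (n - T) * ∑ i ∈ range c,
          ((range (S ^ n)).filter (fun y => T ≤ agr S n (f i) y)).card :=
          Nat.mul_le_mul_left _ h2
      _ = ∑ i ∈ range c, u ^ T * v ^ (n - T) *
          ((range (S ^ n)).filter (fun y => T ≤ agr S n (f i) y)).card := mul_sum _ _ _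
      _ ≤ ∑ _i ∈ range c, (u + v * (S - 1)) ^ n :=
          sum_le_sum (fun i _ => count_agr hS hvu hT _)
      _ = _ := by rw [sum_const, card_range, smul_eq_mul]
  omega

/-- The first word which satisfies a condition. -/
theorem firstPos_spec (f : ℕ → ℕ) (n : ℕ) (h : ∃ x < n, 0 < f x) :
    firstPos f n < n ∧ 0 < f (firstPos f n) := by
  induction n with
  | zero =>
    obtain ⟨x, hx, _⟩ := h
    omega
  | succ n ih =>
    obtain ⟨x, hx, hfx⟩ := h
    rw [firstPos]
    by_cases h1 : firstPos f n < n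
    · rw [if_pos h1]
      refine ⟨by omega, ?_⟩
      by_contra h2
      have h3 : ∃ y < n, 0 < f y := by
        by_contra h4
        push Not at h4
        -- then the search up to `n` fails
        have h5 : ∀ m ≤ n, firstPos f m = m := by
          intro m hm
          induction m with
          | zero => rfl
          | succ m ihm =>
            have h6 := ihm (by omega)
            rw [firstPos, h6, if_neg (lt_irrefl m), if_neg]
            have := h4 m (by omega)
            omega
        have := h5 n le_rfl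
        omega
      exact h2 (ih h3).2
    · rw [if_neg h1]
      by_cases h2 : 0 < f n
      · rw [if_pos h2]
        exact ⟨by omega, h2⟩
      · have h3 : x < n := by
          rcases Nat.lt_or_ge x n with h4 | h4
          · exact h4
          · have : x = n := by omega
            rw [this] at hfx
            exact absurd hfx h2
        exact absurd (ih ⟨x, h3, hfx⟩).1 h1

/-- The greedy step for the code. -/
theorem code_step {b : ℕ} (hb : 2 ≤ b) {c : ℕ} (hc : c ≤ 2 ^ 2 ^ b) (f : ℕ → ℕ) :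
    ∃ y < 4096 ^ (2 * 2 ^ b - 1), ∀ i < c, 4 * agr 4096 (2 * 2 ^ b - 1) (f i) y ≤ 2 ^ b := by
  obtain ⟨d, hd⟩ : ∃ d, 2 ^ b = 4 * d := by
    refine ⟨2 ^ (b - 2), ?_⟩
    rw [show (4 : ℕ) = 2 ^ 2 by norm_num, ← pow_add]
    congr 1; omega
  have hd1 : 1 ≤ d := by
    have : 0 < 2 ^ b := by positivity
    omega
  obtain ⟨n, hn⟩ : ∃ n, n = 2 * 2 ^ b - 1 := ⟨_, rfl⟩
  rw [← hn]
  have h1 : c * (4096 + 1 * (4096 - 1)) ^ n < 4096 ^ (d + 1) * 1 ^ (n - (d + 1)) * 4096 ^ n := by
    have e1 : (4096 + 1 * (4096 - 1)) ^ n ≤ 2 ^ n * 4096 ^ n := by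
      rw [← mul_pow]
      exact Nat.pow_le_pow_left (by norm_num) n
    calc c * (4096 + 1 * (4096 - 1)) ^ n ≤ 2 ^ 2 ^ b * (2 ^ n * 4096 ^ n) :=
          Nat.mul_le_mul hc e1
      _ = 2 ^ (2 ^ b + n) * 4096 ^ n := by rw [pow_add]; ring
      _ < 4096 ^ (d + 1) * 4096 ^ n := by
          refine Nat.mul_lt_mul_of_pos_right ?_ (by positivity)
          rw [show (4096 : ℕ) = 2 ^ 12 by norm_num, ← pow_mul]
          exact Nat.pow_lt_pow_right (by norm_num) (by omega)
      _ = _ := by rw [one_pow, mul_one]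
  obtain ⟨y, hy, hyi⟩ := exists_word (by norm_num) (by norm_num) (by omega) h1 f
  refine ⟨y, hy, fun i hi => ?_⟩
  have := hyi i hi
  omega

/-- The greedy step for the signs. -/
theorem sign_step {b : ℕ} {c : ℕ} (hc : c ≤ 2 ^ 2 ^ b) (f : ℕ → ℕ) :
    ∃ y < 2 ^ 2 ^ (b + 18), ∀ i < c, 8 * agr 2 (2 ^ (b + 18)) (f i) y ≤ 5 * 2 ^ (b + 18) := by
  obtain ⟨k, hk⟩ : ∃ k, k = 2 ^ (b + 15) := ⟨_, rfl⟩
  have hM : 2 ^ (b + 18) = 8 * k := by
    rw [hk, show b + 18 = (b + 15) + 3 by omega, pow_add]
    ring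
  have hkb : k = 32768 * 2 ^ b := by
    rw [hk, pow_add]
    ring
  rw [hM]
  have h0 : 0 < 2 ^ b := by positivity
  have h1 : c * (5 + 3 * (2 - 1)) ^ (8 * k) <
      5 ^ (5 * k) * 3 ^ (8 * k - 5 * k) * 2 ^ (8 * k) := by
    have e0 : 2 ^ 2 ^ b * 65536 ^ k < 84375 ^ k := by
      have e1 : ∀ m, 2 * 65536 ^ (m + 4) < 84375 ^ (m + 4) := by
        intro m
        have e2 : 2 * 65536 ^ 4 < 84375 ^ 4 := by norm_num
        calc 2 * 65536 ^ (m + 4) = (2 * 65536 ^ 4) * 65536 ^ m := by
              rw [pow_add]; ring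
          _ < 84375 ^ 4 * 65536 ^ m := Nat.mul_lt_mul_of_pos_right e2 (by positivity)
          _ ≤ 84375 ^ 4 * 84375 ^ m :=
              Nat.mul_le_mul_left _ (Nat.pow_le_pow_left (by norm_num) _)
          _ = 84375 ^ (m + 4) := by rw [pow_add]; ring
      obtain ⟨m, hm⟩ : ∃ m, m + 4 = 32768 := ⟨32764, rfl⟩
      have e5 := e1 m
      rw [← hm] at hkb
      calc 2 ^ 2 ^ b * 65536 ^ k = (2 * 65536 ^ (m + 4)) ^ 2 ^ b := by
            rw [hkb, mul_pow, ← pow_mul]
        _ < (84375 ^ (m + 4)) ^ 2 ^ b := Nat.pow_lt_pow_left e5 h0.ne'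
        _ = 84375 ^ k := by rw [hkb, ← pow_mul]
    have e3 : (5 + 3 * (2 - 1)) ^ (8 * k) = 65536 ^ k * 2 ^ (8 * k) := by
      rw [pow_mul, pow_mul, ← mul_pow]
      norm_num
    have e4 : 5 ^ (5 * k) * 3 ^ (8 * k - 5 * k) = 84375 ^ k := by
      have : 8 * k - 5 * k = 3 * k := by omega
      rw [this, pow_mul, pow_mul, ← mul_pow]
      norm_num
    rw [e3, e4, ← mul_assoc]
    refine Nat.mul_lt_mul_of_pos_right ?_ (by positivity)
    exact (Nat.mul_le_mul_right _ hc).trans_lt e0
  obtain ⟨y, hy, hyi⟩ := exists_word (by norm_num) (by norm_num) (by omega) h1 f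
  refine ⟨y, hy, fun i hi => ?_⟩
  have := hyi i hi
  omega

end Pool.Agent.OMVU.CodeS
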