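import Pool.Agent.OMVU.Spec
import Pool.Agent.OMVU.CodeS

/-! The greedy choices succeed. -/

namespace Pool.Agent.OMVU

open Finset

theorem agr_eq_codeS (B m x y : ℕ) : agr B m x y = CodeS.agr B m x y := rfl

/-- The greedy choice of the next code word succeeds. -/
theorem code_step {b : ℕ} (hb : 2 ≤ b) (f : ℕ → ℕ) {c : ℕ} (hc : c < pC b) :
    ∃ y < 4096 ^ pl b, ∀ i < c, 4 * agr 4096 (pl b) y (f i) ≤ pD b := by
  obtain ⟨y, hy, h⟩ := CodeS.code_step hb (c := c) hc.le f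
  refine ⟨y, hy, fun i hi => ?_⟩
  rw [agr_eq_codeS, CodeS.agr_comm]
  exact h i hi

/-- The greedy choice of the next sign word succeeds. -/
theorem sign_step {b : ℕ} (f : ℕ → ℕ) {c : ℕ} (hc : c < pC b) :
    ∃ y < pB b, ∀ i < c, 8 * agr 2 (pM b) y (f i) ≤ 5 * pM b := by
  obtain ⟨y, hy, h⟩ := CodeS.sign_step (b := b) (c := c) hc.le f
  refine ⟨y, hy, fun i hi => ?_⟩
  rw [agr_eq_codeS, CodeS.agr_comm]
  exact h i hi

end Pool.Agent.OMVU
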