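import Pool.Agent.OMVU.Folds
import Pool.Agent.OMVU.CodeStep

/-! The code and the signs. -/

namespace Pool.Agent.OMVU

open Finset

variable {m n b : ℕ} {X : ℕ → ℕ → ℕ} {a : Ar}

/-- If there is a positive value then `firstPos` finds the first one. -/
theorem firstPos_spec {f : ℕ → ℕ} {n : ℕ} (h : ∃ x < n, 0 < f x) :
    firstPos f n < n ∧ 0 < f (firstPos f n) ∧ ∀ y < firstPos f n, f y = 0 := by
  have key : ∀ n, (firstPos f n < n → 0 < f (firstPos f n)) ∧
      (∀ y < firstPos f n, f y = 0) ∧ firstPos f n ≤ n := by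
    intro n
    induction n with
    | zero => simp [firstPos]
    | succ n ih =>
      obtain ⟨h1, h2, h3⟩ := ih
      rw [firstPos]
      split_ifs with h4 h5
      · exact ⟨fun _ => h1 h4, h2, by omega⟩
      · have h6 : firstPos f n = n := by omega
        rw [h6] at h2
        exact ⟨fun _ => h5, h2, by omega⟩
      · have h6 : firstPos f n = n := by omega
        rw [h6] at h2
        refine ⟨fun h => absurd h (lt_irrefl _), fun y hy => ?_, le_refl _⟩
        rcases Nat.lt_succ_iff_lt_or_eq.1 hy with h7 | h7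
        · exact h2 y h7
        · rw [h7]
          omega
  obtain ⟨h1, h2, h3⟩ := key n
  have h4 : firstPos f n < n := by
    obtain ⟨x, hx, hfx⟩ := h
    by_contra h5
    have := h2 x (by omega)
    omega
  exact ⟨h4, h1 h4, h2⟩

theorem pl12_le (b : ℕ) : 12 * pl b ≤ 16 * pE b := by
  have h1 : 2 ^ (b + 20) = 1048576 * 2 ^ b := by
    rw [pow_add]
    norm_num
    ring
  have h3 : 1 ≤ 2 ^ b := Nat.one_le_two_pow
  unfold pE pl pD
  rw [h1]
  have h4 : 1048576 * 2 ^ b * 1 ≤ 1048576 * 2 ^ b * (2 * b + 21) :=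
    Nat.mul_le_mul_left _ (by omega)
  omega

theorem pM_le' (b : ℕ) : pM b ≤ 16 * pE b := by
  have h1 : 2 ^ (b + 20) = 4 * 2 ^ (b + 18) := by
    rw [pow_add, pow_add]
    norm_num
    ring
  have h3 : 1 ≤ 2 ^ (b + 18) := Nat.one_le_two_pow
  unfold pE pM
  rw [h1]
  nlinarith

private theorem RE.eval_numC (a : Ar) (ρ : Loc) (c : ℕ) :
    RE.eval a (no_index (OfNat.ofNat c : RE)) ρ = c := rfl

theorem gCD_sat (hE : Eqs m n X a) (hS : ScalOK m n b a) {c : ℕ} (hc : c < pC b) :
    a aCD c = min (firstPos (fun y => if (∑ i ∈ range c,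
      if pD b < 4 * agr 4096 (pl b) y (a aCD i) then 1 else 0) = 0 then 1 else 0) (4096 ^ pl b))
      (4096 ^ pl b) := by
  obtain ⟨o, ho⟩ := hE.sat gCD (by simp [preL, preCode])
  have h1 := ho c (by
    change c < a sC 0
    rw [hS.C0]
    exact hc)
  rw [h1]
  simp only [cdE, P2, RE.eval_fnd, RE.eval_eq, RE.eval_sum, RE.eval_lt, RE.eval_sc, RE.eval_mul,
    RE.eval_mod, RE.eval_div, RE.eval_get, RE.eval_var, RE.eval_numC, Loc.set_apply, loc0_zero]
  have e1 : ¬ (sD = aCD) := by decide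
  have e2 : ¬ (sl = aCD) := by decide
  have e3 : ¬ (aP2 = aCD) := by decide
  have e4 : ¬ (sS = aCD) := by decide
  simp only [Nat.reduceEqDiff, OfNat.ofNat_ne_one, OfNat.one_ne_ofNat, e1, e2, e3, e4,
    false_and, true_and, if_false, reduceIte]
  rw [hS.S0, hS.D0, hS.l0]
  refine congrArg (fun f => min (firstPos f (4096 ^ pl b)) (4096 ^ pl b)) (funext fun y => ?_)
  refine congrArg (fun t => if t = 0 then 1 else 0) (sum_congr rfl fun i hi => ?_)
  rw [if_neg (show ¬ c ≤ i by have := mem_range.1 hi; omega)]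
  have h2 : (∑ j ∈ range (pl b), if y / a aP2 (12 * j) % 4096 = a aCD i / a aP2 (12 * j) % 4096
      then 1 else 0) = agr 4096 (pl b) y (a aCD i) := by
    unfold agr
    refine sum_congr rfl fun j hj => ?_
    have h3 : 12 * j ≤ 16 * pE b := by
      have := mem_range.1 hj
      have := pl12_le b
      omega
    have h4 : (2 : ℕ) ^ (12 * j) = 4096 ^ j := by
      rw [pow_mul]
      norm_num
    rw [hS.p2 _ h3, h4]
    rfl
  rw [h2]

theorem gSG_sat (hE : Eqs m n X a) (hS : ScalOK m n b a) {c : ℕ} (hc : c < pC b) :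
    a aSG c = min (firstPos (fun y => if (∑ i ∈ range c,
      if 5 * pM b < 8 * agr 2 (pM b) y (a aSG i) then 1 else 0) = 0 then 1 else 0) (pB b))
      (pB b) := by
  obtain ⟨o, ho⟩ := hE.sat gSG (by simp [preL, preCode])
  have h1 := ho c (by
    change c < a sC 0
    rw [hS.C0]
    exact hc)
  rw [h1]
  simp only [bitE, P2, RE.eval_fnd, RE.eval_eq, RE.eval_sum, RE.eval_lt, RE.eval_sc, RE.eval_mul,
    RE.eval_mod, RE.eval_div, RE.eval_get, RE.eval_var, RE.eval_numC, Loc.set_apply, loc0_zero]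
  have e1 : ¬ (sM = aSG) := by decide
  have e2 : ¬ (sB = aSG) := by decide
  have e3 : ¬ (aP2 = aSG) := by decide
  simp only [Nat.reduceEqDiff, OfNat.ofNat_ne_one, OfNat.one_ne_ofNat, e1, e2, e3,
    false_and, true_and, if_false, reduceIte]
  rw [hS.B0, hS.M0]
  refine congrArg (fun f => min (firstPos f (pB b)) (pB b)) (funext fun y => ?_)
  refine congrArg (fun t => if t = 0 then 1 else 0) (sum_congr rfl fun i hi => ?_)
  rw [if_neg (show ¬ c ≤ i by have := mem_range.1 hi; omega)]
  have h2 : (∑ j ∈ range (pM b), if y / a aP2 j % 2 = a aSG i / a aP2 j % 2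
      then 1 else 0) = agr 2 (pM b) y (a aSG i) := by
    unfold agr
    refine sum_congr rfl fun j hj => ?_
    have h3 : j ≤ 16 * pE b := by
      have := mem_range.1 hj
      have := pM_le' b
      omega
    rw [hS.p2 _ h3]
    rfl
  rw [h2]

/-- A greedy choice which exists is found. -/
theorem greedy_ok {c S T : ℕ} {r : ℕ → ℕ → ℕ} {x : ℕ}
    (hx : x = min (firstPos (fun y => if (∑ i ∈ range c,
      if T < r y i then 1 else 0) = 0 then 1 else 0) S) S)
    (h : ∃ y < S, ∀ i < c, r y i ≤ T) : x < S ∧ ∀ i < c, r x i ≤ T := by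
  obtain ⟨y, hy, hyi⟩ := h
  obtain ⟨h1, h2, -⟩ := firstPos_spec (f := fun y => if (∑ i ∈ range c,
      if T < r y i then 1 else 0) = 0 then 1 else 0) (n := S) ⟨y, hy, by
    have : (∑ i ∈ range c, if T < r y i then 1 else 0) = 0 :=
      sum_eq_zero fun i hi => if_neg (by have := hyi i (mem_range.1 hi); omega)
    simp only [this, if_true]
    exact Nat.one_pos⟩
  rw [min_eq_left h1.le] at hx
  rw [← hx] at h1 h2
  refine ⟨h1, fun i hi => ?_⟩
  by_contra hT
  have h3 : (∑ i ∈ range c, if T < r x i then 1 else 0) ≠ 0 := by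
    intro h0
    have := (sum_eq_zero_iff.1 h0) i (mem_range.2 hi)
    rw [if_pos (by omega)] at this
    exact one_ne_zero this
  simp only [h3, if_false] at h2
  exact lt_irrefl _ h2

theorem code_ok (hE : Eqs m n X a) (hB : Big m n b) (hS : ScalOK m n b a) :
    CodeOK b (a aCD) := by
  have h := fun c (hc : c < pC b) => greedy_ok (r := fun y i => 4 * agr 4096 (pl b) y (a aCD i))
    (gCD_sat hE hS hc) (code_step (by have := hB.four; omega) (a aCD) hc)
  exact ⟨fun c hc => (h c hc).1, fun c hc c' hc' => (h c hc).2 c' hc'⟩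

theorem sign_ok (hE : Eqs m n X a) (hB : Big m n b) (hS : ScalOK m n b a) :
    SignOK b (a aSG) := by
  have h := fun c (hc : c < pC b) => greedy_ok (r := fun y i => 8 * agr 2 (pM b) y (a aSG i))
    (gSG_sat hE hS hc) (sign_step (a aSG) hc)
  exact ⟨fun c hc => (h c hc).1, fun c hc c' hc' => (h c hc).2 c' hc'⟩

end Pool.Agent.OMVU
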