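import Pool.Agent.OMVU.Lang

/-!
# A finite field of characteristic two on the numbers `0, ..., 2^e - 1`, found by search
-/

namespace Pool.Agent.OMVU.FldA

open Finset Polynomial

/-- Multiplication by `X` modulo `X^e + p` (numbers as bit vectors, `q = 2^e`). -/
def xtime (q p a : ℕ) : ℕ := if a + a < q then a + a else (a + a - q) ^^^ p

/-- The product modulo `X^e + p`. -/
def mulp (q e p x y : ℕ) : ℕ :=
  iter (fun k w => xtime q p w ^^^ ((y / 2 ^ (e - 1 - k) % 2) * x)) 0 e

/-- No zero divisors. -/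
def NoZD (q e p : ℕ) : Prop := ∀ x < q, ∀ y < q, mulp q e p x y = 0 → x = 0 ∨ y = 0

section Ev

variable {A : Type*} [CommRing A] (x : A)

/-- The value of the polynomial with the coefficients of the binary expansion. -/
def ev (e a : ℕ) : A := ∑ i ∈ range e, if a.testBit i then x ^ i else 0

theorem ev_zero (e : ℕ) : ev x e 0 = 0 := by
  unfold ev
  exact sum_eq_zero (fun i _ => by simp)

theorem ev_one {e : ℕ} (he : 1 ≤ e) : ev x e 1 = 1 := by
  unfold ev
  rw [sum_eq_single 0]
  · simp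
  · intro i _ hi
    rw [if_neg]
    rw [Nat.testBit_one_eq_true_iff_self_eq_zero]
    exact hi
  · intro h
    exact absurd (mem_range.2 (by omega)) h

theorem ev_xor [CharP A 2] (e a b : ℕ) : ev x e (a ^^^ b) = ev x e a + ev x e b := by
  unfold ev
  rw [← sum_add_distrib]
  refine sum_congr rfl (fun i _ => ?_)
  rw [Nat.testBit_xor]
  cases a.testBit i <;> cases b.testBit i <;> simp [CharTwo.add_self_eq_zero]

theorem ev_double (e a : ℕ) : ev x (e + 1) (2 * a) = x * ev x e a := by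
  unfold ev
  rw [sum_range_succ', mul_sum]
  have h0 : (2 * a).testBit 0 = false := by simp
  rw [h0]
  simp only [Bool.false_eq_true, if_false, add_zero]
  refine sum_congr rfl (fun i _ => ?_)
  rw [Nat.testBit_add_one]
  have : 2 * a / 2 = a := by omega
  rw [this, mul_ite, mul_zero, pow_succ']

theorem ev_mod (e c : ℕ) : ev x e (c % 2 ^ e) = ev x e c := by
  unfold ev
  refine sum_congr rfl (fun i hi => ?_)
  rw [Nat.testBit_mod_two_pow]
  have := mem_range.1 hi
  simp [this]

theorem ev_succ_of_lt {e c : ℕ} (hc : c < 2 ^ e) : ev x (e + 1) c = ev x e c := by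
  unfold ev
  rw [sum_range_succ, Nat.testBit_lt_two_pow hc]
  simp

theorem ev_succ_of_ge {e c : ℕ} (hc : 2 ^ e ≤ c) (hc' : c < 2 ^ (e + 1)) :
    ev x (e + 1) c = ev x e (c - 2 ^ e) + x ^ e := by
  have h1 : c.testBit e = true := by
    have h2 := Nat.testBit_eq_decide_div_mod_eq (x := c) (i := e)
    rw [h2]
    have h3 : c / 2 ^ e = 1 := by
      refine Nat.div_eq_of_lt_le ?_ ?_
      · omega
      · rw [pow_succ] at hc'
        omega
    rw [h3]
    decide
  have h4 : c - 2 ^ e = c % 2 ^ e := by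
    rw [Nat.mod_eq_sub_mod hc, Nat.mod_eq_of_lt]
    rw [pow_succ] at hc'
    omega
  rw [h4, ev_mod]
  unfold ev
  rw [sum_range_succ, h1]
  simp

theorem xtime_lt {e p a : ℕ} (hp : p < 2 ^ e) (ha : a < 2 ^ e) : xtime (2 ^ e) p a < 2 ^ e := by
  unfold xtime
  split_ifs with h
  · exact h
  · exact Nat.xor_lt_two_pow (by omega) hp

theorem ev_xtime [CharP A 2] {e p a : ℕ} (hx : x ^ e = ev x e p) (ha : a < 2 ^ e) :
    ev x e (xtime (2 ^ e) p a) = x * ev x e a := by
  unfold xtime
  rw [← ev_double, ← two_mul]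
  split_ifs with h
  · rw [ev_succ_of_lt x h]
  · rw [ev_succ_of_ge x (by omega) (by rw [pow_succ]; omega), ev_xor, hx]

/-- The first `i` rounds of Horner's rule. -/
def mulAux (e p x y i : ℕ) : ℕ :=
  iter (fun k w => xtime (2 ^ e) p w ^^^ ((y / 2 ^ (e - 1 - k) % 2) * x)) 0 i

theorem mulAux_lt {e p a b : ℕ} (hp : p < 2 ^ e) (hb : b < 2 ^ e) (i : ℕ) :
    mulAux e p b a i < 2 ^ e := by
  induction i with
  | zero => exact Nat.two_pow_pos e
  | succ i ih =>
    refine Nat.xor_lt_two_pow (xtime_lt hp ih) ?_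
    rcases Nat.mod_two_eq_zero_or_one (a / 2 ^ (e - 1 - i)) with h | h
    · rw [h, zero_mul]; exact Nat.two_pow_pos e
    · rw [h, one_mul]; exact hb

theorem mulp_lt {e p a b : ℕ} (hp : p < 2 ^ e) (ha : a < 2 ^ e) : mulp (2 ^ e) e p a b < 2 ^ e :=
  mulAux_lt hp ha e

theorem ev_mulAux [CharP A 2] {e p a b : ℕ} (hx : x ^ e = ev x e p) (hp : p < 2 ^ e)
    (ha : a < 2 ^ e) (hb : b < 2 ^ e) {i : ℕ} (hi : i ≤ e) :
    ev x e (mulAux e p b a i) = ev x e (a / 2 ^ (e - i)) * ev x e b := by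
  induction i with
  | zero =>
    have h0 : mulAux e p b a 0 = 0 := rfl
    rw [h0, ev_zero, Nat.sub_zero, Nat.div_eq_of_lt ha, ev_zero, zero_mul]
  | succ i ih =>
    have hs : mulAux e p b a (i + 1) = xtime (2 ^ e) p (mulAux e p b a i) ^^^
      ((a / 2 ^ (e - 1 - i) % 2) * b) := rfl
    rw [hs, ev_xor, ev_xtime x hx (mulAux_lt hp hb i), ih (by omega)]
    obtain ⟨c, hc⟩ : ∃ c, c = a / 2 ^ (e - (i + 1)) := ⟨_, rfl⟩
    have h1 : a / 2 ^ (e - i) = c / 2 := by
      rw [hc, Nat.div_div_eq_div_mul, ← pow_succ]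
      congr 2
      omega
    have h2 : e - 1 - i = e - (i + 1) := by omega
    rw [h1, h2, ← hc]
    have hcl : c < 2 ^ e := lt_of_le_of_lt (hc ▸ Nat.div_le_self _ _) ha
    have h3 : ev x e c = x * ev x e (c / 2) + ev x e (c % 2) := by
      have h4 : c = (2 * (c / 2)) ^^^ (c % 2) := by
        refine Nat.eq_of_testBit_eq (fun j => ?_)
        rw [Nat.testBit_xor]
        cases j with
        | zero =>
          rw [Nat.testBit_zero, Nat.testBit_zero, Nat.testBit_zero]
          have : 2 * (c / 2) % 2 = 0 := by omega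
          rw [this]
          simp
        | succ j =>
          rw [Nat.testBit_add_one, Nat.testBit_add_one, Nat.testBit_add_one]
          have h5 : 2 * (c / 2) / 2 = c / 2 := by omega
          have h6 : c % 2 / 2 = 0 := by omega
          rw [h5, h6]
          simp
      conv_lhs => rw [h4]
      rw [ev_xor]
      congr 1
      rw [← ev_double, ev_succ_of_lt x (by omega)]
    rw [h3]
    have he : 1 ≤ e := by omega
    rcases Nat.mod_two_eq_zero_or_one c with h4 | h4
    · rw [h4, zero_mul, ev_zero]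
      ring
    · rw [h4, one_mul, ev_one x he]
      ring

theorem ev_mulp [CharP A 2] {e p a b : ℕ} (hx : x ^ e = ev x e p) (hp : p < 2 ^ e)
    (ha : a < 2 ^ e) (hb : b < 2 ^ e) :
    ev x e (mulp (2 ^ e) e p a b) = ev x e a * ev x e b := by
  have h1 := ev_mulAux x hx hp hb ha (le_refl e)
  rw [Nat.sub_self, pow_zero, Nat.div_one, mul_comm] at h1
  exact h1

end Ev

/-- the polynomial of a number -/
theorem coeff_ev (e a i : ℕ) : (ev (X : (ZMod 2)[X]) e a).coeff i =
    if i < e ∧ a.testBit i then 1 else 0 := by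
  unfold ev
  rw [finsetSum_coeff]
  have h1 : ∀ j ∈ range e, (if a.testBit j then (X : (ZMod 2)[X]) ^ j else 0).coeff i =
      if j = i then (if a.testBit j then 1 else 0) else 0 := by
    intro j _
    split_ifs with h h' h'
    · rw [h']; simp
    · rw [coeff_X_pow, if_neg (fun hh => h' hh.symm)]
    · simp
    · simp
  rw [sum_congr rfl h1, sum_ite_eq' (range e) i]
  by_cases h2 : i < e <;> simp [h2]

theorem degree_ev_lt (e a : ℕ) : (ev (X : (ZMod 2)[X]) e a).degree < e := by
  rw [degree_lt_iff_coeff_zero]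
  intro m hm
  rw [coeff_ev, if_neg]
  rintro ⟨h, _⟩
  omega

theorem ev_inj {e a b : ℕ} (ha : a < 2 ^ e) (hb : b < 2 ^ e)
    (h : ev (X : (ZMod 2)[X]) e a = ev X e b) : a = b := by
  refine Nat.eq_of_testBit_eq (fun i => ?_)
  rcases lt_or_ge i e with hi | hi
  · have h1 := congrArg (fun f => f.coeff i) h
    simp only [coeff_ev] at h1
    cases h2 : a.testBit i <;> cases h3 : b.testBit i <;> simp [h2, h3, hi] at h1 ⊢
  · rw [Nat.testBit_lt_two_pow (ha.trans_le (Nat.pow_le_pow_right (by norm_num) hi)),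
      Nat.testBit_lt_two_pow (hb.trans_le (Nat.pow_le_pow_right (by norm_num) hi))]

theorem ev_surj (e : ℕ) (f : (ZMod 2)[X]) (hf : f.degree < e) :
    ∃ a < 2 ^ e, ev (X : (ZMod 2)[X]) e a = f := by
  induction e generalizing f with
  | zero =>
    refine ⟨0, by norm_num, ?_⟩
    rw [ev_zero]
    symm
    rw [← degree_eq_bot]
    by_contra hcon
    rw [degree_eq_natDegree (by rw [ne_eq, ← degree_eq_bot]; exact hcon)] at hf
    exact absurd hf (by norm_cast)
  | succ e ih =>
    obtain ⟨g, hg⟩ : ∃ g, g = f.divX := ⟨_, rfl⟩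
    have hf1 : f = X * g + C (f.coeff 0) := by
      rw [hg, X_mul_divX_add]
    have hgd : g.degree < e := by
      rw [degree_lt_iff_coeff_zero] at hf ⊢
      intro m hm
      rw [hg, coeff_divX]
      exact hf (m + 1) (by omega)
    obtain ⟨a, ha, hag⟩ := ih g hgd
    rcases (by decide : ∀ z : ZMod 2, z = 0 ∨ z = 1) (f.coeff 0) with h0 | h0
    · refine ⟨2 * a, by rw [pow_succ]; omega, ?_⟩
      rw [ev_double, hag]
      rw [h0, map_zero, add_zero] at hf1
      exact hf1.symm
    · refine ⟨(2 * a) ^^^ 1, Nat.xor_lt_two_pow (by rw [pow_succ]; omega)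
        (Nat.one_lt_two_pow (by omega)), ?_⟩
      rw [ev_xor, ev_double, hag, ev_one X (by omega)]
      rw [h0, map_one] at hf1
      exact hf1.symm

theorem ev_map {A : Type*} [CommRing A] [Algebra (ZMod 2) A] (x : A) (e a : ℕ) :
    Polynomial.aeval x (ev (X : (ZMod 2)[X]) e a) = ev x e a := by
  unfold ev
  rw [map_sum]
  refine sum_congr rfl (fun i _ => ?_)
  split_ifs <;> simp

/-- A suitable `p` exists. -/
theorem exists_noZD {e : ℕ} (he : 1 ≤ e) : ∃ p < 2 ^ e, NoZD (2 ^ e) e p := by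
  have hfin : FiniteDimensional (ZMod 2) (GaloisField 2 e) := Module.Finite.of_finite
  obtain ⟨θ, hθ⟩ := Field.exists_primitive_element (ZMod 2) (GaloisField 2 e)
  have hint : IsIntegral (ZMod 2) θ := IsIntegral.of_finite (ZMod 2) θ
  have hdeg : (minpoly (ZMod 2) θ).natDegree = e := by
    rw [← IntermediateField.adjoin.finrank hint, hθ, IntermediateField.finrank_top',
      GaloisField.finrank 2 (by omega)]
  have hmon := minpoly.monic hint
  have hd : (minpoly (ZMod 2) θ - X ^ e).degree < (e : WithBot ℕ) := by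
    have h1 : (minpoly (ZMod 2) θ).degree = (e : WithBot ℕ) := by
      rw [degree_eq_natDegree hmon.ne_zero, hdeg]
    rw [← h1]
    refine degree_sub_lt_left ?_ hmon.ne_zero ?_
    · rw [h1, degree_X_pow]
    · rw [hmon.leadingCoeff, leadingCoeff_X_pow]
  obtain ⟨p, hp, hpe⟩ := ev_surj e _ hd
  refine ⟨p, hp, fun a ha b hb hab => ?_⟩
  have hchar : CharP (GaloisField 2 e) 2 := inferInstance
  have hx : θ ^ e = ev θ e p := by
    have h1 := ev_map θ e p
    rw [hpe, map_sub, minpoly.aeval, map_pow, aeval_X, zero_sub, CharTwo.neg_eq] at h1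
    exact h1
  have h1 := ev_mulp θ hx hp ha hb
  rw [hab, ev_zero] at h1
  have hinj : ∀ c < 2 ^ e, ev θ e c = 0 → c = 0 := by
    intro c hc h
    rw [← ev_map] at h
    have h2 : ev (X : (ZMod 2)[X]) e c = 0 := by
      by_contra hne
      have h3 := minpoly.degree_le_of_ne_zero (ZMod 2) θ hne h
      have h4 := degree_ev_lt e c
      rw [degree_eq_natDegree hmon.ne_zero, hdeg] at h3
      exact absurd (h3.trans_lt h4) (lt_irrefl _)
    exact ev_inj hc (Nat.two_pow_pos e) (h2.trans (ev_zero X e).symm)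
  rcases mul_eq_zero.1 h1.symm with h | h
  · exact Or.inl (hinj a ha h)
  · exact Or.inr (hinj b hb h)

/-- A finite field of characteristic two on the numbers below `q`, with the multiplication
table `mt`. -/
structure FD (q : ℕ) (mt : ℕ → ℕ → ℕ) where
  F : Type
  [field : Field F]
  [fintype : Fintype F]
  [char : CharP F 2]
  card : Fintype.card F = q
  φ : ℕ → F
  φ_zero : φ 0 = 0
  φ_one : φ 1 = 1
  φ_xor : ∀ x y, φ (x ^^^ y) = φ x + φ y
  mt_lt : ∀ x < q, ∀ y < q, mt x y < q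
  φ_mul : ∀ x < q, ∀ y < q, φ (mt x y) = φ x * φ y
  inj : ∀ x < q, ∀ y < q, φ x = φ y → x = y
  surj : ∀ z, ∃ x < q, φ x = z

attribute [instance] FD.field FD.fintype FD.char

/-- The field of a suitable `p`. -/
theorem exists_field {e p : ℕ} (he : 1 ≤ e) (hp : p < 2 ^ e) (hg : NoZD (2 ^ e) e p) :
    Nonempty (FD (2 ^ e) (mulp (2 ^ e) e p)) := by
  classical
  obtain ⟨f, hf⟩ : ∃ f : (ZMod 2)[X], f = X ^ e + ev X e p := ⟨_, rfl⟩
  have hd := degree_ev_lt e p
  have hmon : f.Monic := by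
    rw [hf]
    exact monic_X_pow_add (by exact_mod_cast hd)
  have hdeg : f.natDegree = e := by
    rw [hf]
    exact natDegree_eq_of_degree_eq_some (by
      rw [degree_add_eq_left_of_degree_lt (by rwa [degree_X_pow]), degree_X_pow])
  have hnt : Nontrivial (AdjoinRoot f) := AdjoinRoot.nontrivial f (by
    rw [degree_eq_natDegree hmon.ne_zero, hdeg]
    norm_cast
    omega)
  have hchar : CharP (AdjoinRoot f) 2 :=
    charP_of_injective_algebraMap (algebraMap (ZMod 2) (AdjoinRoot f)).injective 2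
  have hφmk : ∀ a, ev (AdjoinRoot.root f) e a = AdjoinRoot.mk f (ev X e a) := by
    intro a
    rw [← ev_map, AdjoinRoot.aeval_eq]
  have hx : (AdjoinRoot.root f) ^ e = ev (AdjoinRoot.root f) e p := by
    have h1 : AdjoinRoot.mk f f = 0 := AdjoinRoot.mk_self
    have h2 : AdjoinRoot.mk f (X ^ e + ev X e p) = 0 := by
      rw [← hf]
      exact h1
    rw [map_add, map_pow, AdjoinRoot.mk_X, ← hφmk] at h2
    exact CharTwo.add_eq_zero.1 h2
  have hinj : ∀ a < 2 ^ e, ∀ b < 2 ^ e,
      ev (AdjoinRoot.root f) e a = ev (AdjoinRoot.root f) e b → a = b := by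
    intro a ha b hb hab
    rw [hφmk, hφmk, AdjoinRoot.mk_eq_mk] at hab
    refine ev_inj ha hb (sub_eq_zero.1 (eq_zero_of_dvd_of_degree_lt hab ?_))
    rw [degree_eq_natDegree hmon.ne_zero, hdeg]
    exact lt_of_le_of_lt (degree_sub_le _ _) (max_lt (degree_ev_lt _ _) (degree_ev_lt _ _))
  have hsurj : ∀ y : AdjoinRoot f, ∃ a < 2 ^ e, ev (AdjoinRoot.root f) e a = y := by
    intro y
    obtain ⟨g, rfl⟩ := AdjoinRoot.mk_surjective y
    obtain ⟨a, ha, hag⟩ := ev_surj e (g %ₘ f) (by
      have h1 := degree_modByMonic_lt g hmon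
      rwa [degree_eq_natDegree hmon.ne_zero, hdeg] at h1)
    refine ⟨a, ha, ?_⟩
    rw [hφmk, hag, AdjoinRoot.mk_eq_mk]
    refine ⟨-(g /ₘ f), ?_⟩
    have h1 := modByMonic_add_div g f
    linear_combination h1
  have hmul : ∀ a < 2 ^ e, ∀ b < 2 ^ e, ev (AdjoinRoot.root f) e (mulp (2 ^ e) e p a b) =
      ev (AdjoinRoot.root f) e a * ev (AdjoinRoot.root f) e b :=
    fun a ha b hb => ev_mulp _ hx hp ha hb
  have hnz : NoZeroDivisors (AdjoinRoot f) := by
    refine ⟨fun {y z} hyz => ?_⟩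
    obtain ⟨a, ha, rfl⟩ := hsurj y
    obtain ⟨b, hb, rfl⟩ := hsurj z
    rw [← hmul a ha b hb, ← ev_zero (AdjoinRoot.root f) e] at hyz
    rcases hg a ha b hb (hinj _ (mulp_lt hp ha) _ (Nat.two_pow_pos e) hyz) with h | h
    · exact Or.inl (by rw [h, ev_zero])
    · exact Or.inr (by rw [h, ev_zero])
  have hdom : IsDomain (AdjoinRoot f) := NoZeroDivisors.to_isDomain _
  let eqv : Fin (2 ^ e) ≃ AdjoinRoot f := Equiv.ofBijective
    (fun a => ev (AdjoinRoot.root f) e a)
    ⟨fun a b hab => Fin.ext (hinj _ a.2 _ b.2 hab), fun y => by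
      obtain ⟨a, ha, hy⟩ := hsurj y
      exact ⟨⟨a, ha⟩, hy⟩⟩
  let _ : Fintype (AdjoinRoot f) := Fintype.ofEquiv _ eqv
  let _ : Field (AdjoinRoot f) := Fintype.fieldOfDomain (AdjoinRoot f)
  exact ⟨{
    F := AdjoinRoot f
    char := hchar
    card := by rw [← Fintype.card_congr eqv, Fintype.card_fin]
    φ := ev (AdjoinRoot.root f) e
    φ_zero := ev_zero _ e
    φ_one := ev_one _ he
    φ_xor := fun a b => ev_xor _ e a b
    mt_lt := fun a ha b _ => mulp_lt hp ha
    φ_mul := hmul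
    inj := hinj
    surj := hsurj }⟩

theorem sum_eq_zero_add_units {F : Type*} [Field F] [Fintype F] [DecidableEq F] (f : F → F) :
    ∑ y, f y = f 0 + ∑ u : Fˣ, f u := by
  rw [Fintype.sum_eq_add_sum_subtype_ne f 0]
  congr 1
  exact ((unitsEquivNeZero (G₀ := F)).sum_comp (fun z => f z.1)).symm

namespace FD

variable {q : ℕ} {mt : ℕ → ℕ → ℕ} (fd : FD q mt)

include fd in
theorem two_le : 2 ≤ q := by
  have := Fintype.one_lt_card (α := fd.F)
  rw [fd.card] at this
  exact this

/-- The numbers below `q` are the elements of the field. -/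
noncomputable def equiv : Fin q ≃ fd.F := Equiv.ofBijective (fun x => fd.φ x)
  ⟨fun _ _ h => Fin.ext (fd.inj _ (Fin.is_lt _) _ (Fin.is_lt _) h),
    fun y => (fd.surj y).elim fun a h => ⟨⟨a, h.1⟩, h.2⟩⟩

theorem equiv_apply (x : Fin q) : fd.equiv x = fd.φ x := rfl

theorem injective : Function.Injective (fun x : Fin q => fd.φ x) := fd.equiv.injective

/-- The dual basis of the full grid. -/
theorem sum_pow {n k : ℕ} (hn : 1 ≤ n) (hn' : n + 2 ≤ q) (hk : k < q) :
    ∑ x : Fin q, fd.φ x ^ (q - 1 - n) * fd.φ x ^ k = if k = n then 1 else 0 := by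
  classical
  have h1 : ∀ x : Fin q, fd.φ x ^ (q - 1 - n) * fd.φ x ^ k =
      (fun y : fd.F => y ^ (q - 1 - n + k)) (fd.equiv x) := by
    intro x
    rw [← pow_add]
    rfl
  rw [sum_congr rfl (fun x _ => h1 x),
    fd.equiv.sum_comp (fun y : fd.F => y ^ (q - 1 - n + k)), sum_eq_zero_add_units,
    zero_pow (by omega), zero_add]
  have h2 := FiniteField.sum_pow_units fd.F (q - 1 - n + k)
  rw [fd.card] at h2
  rw [h2]
  by_cases hkn : k = n
  · rw [if_pos hkn, if_pos, CharTwo.neg_eq]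
    refine ⟨1, ?_⟩
    omega
  · rw [if_neg hkn, if_neg]
    rintro ⟨c, hc⟩
    rcases Nat.lt_or_ge c 2 with h | h
    · interval_cases c
      · omega
      · omega
    · have h3 : (q - 1) * 2 ≤ (q - 1) * c := Nat.mul_le_mul_left _ h
      omega

/-- A dual basis which is given by powers in the middle of the range. -/
theorem exists_dual : ∃ d : ℕ → Fin q → fd.F,
    (∀ n < q, ∀ k < q, ∑ x, d n x * fd.φ x ^ k = if k = n then 1 else 0) ∧
      ∀ n, 1 ≤ n → n + 2 ≤ q → ∀ x, d n x = fd.φ x ^ (q - 1 - n) := by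
  classical
  have hdet : IsUnit (Matrix.vandermonde (fun x : Fin q => fd.φ x)).det :=
    isUnit_iff_ne_zero.2 (Matrix.det_vandermonde_ne_zero_iff.2 fd.injective)
  refine ⟨fun n x => if 1 ≤ n ∧ n + 2 ≤ q then fd.φ x ^ (q - 1 - n) else
    if h : n < q then (Matrix.vandermonde (fun x : Fin q => fd.φ x))⁻¹ ⟨n, h⟩ x else 0, ?_, ?_⟩
  · intro n hn k hk
    by_cases h : 1 ≤ n ∧ n + 2 ≤ q
    · simp only [if_pos h]
      exact fd.sum_pow h.1 h.2 hk
    · simp only [if_neg h, dif_pos hn]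
      have h1 := Matrix.nonsing_inv_mul (Matrix.vandermonde (fun x : Fin q => fd.φ x)) hdet
      have h2 := congrFun (congrFun h1 ⟨n, hn⟩) ⟨k, hk⟩
      rw [Matrix.mul_apply, Matrix.one_apply] at h2
      simp only [Matrix.vandermonde_apply, Fin.mk.injEq] at h2
      rw [h2]
      simp only [eq_comm]
  · intro n h1 h2 x
    simp only [if_pos (And.intro h1 h2)]

end FD

end Pool.Agent.OMVU.FldA
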