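import Pool.Agent.OMVU.Spec
import Pool.Agent.OMVU.FldA
import Pool.Agent.Work.MP_0f1f76_lc.Fast.Conv

/-! The field with `2 ^ e` elements as the numbers below `2 ^ e`. -/

namespace Pool.Agent.OMVU

open Finset

theorem mulp_eq (q e p x y : ℕ) : FldA.mulp q e p x y = mulp q e p x y := rfl

theorem mulp_lt {e p x y : ℕ} (hp : p < 2 ^ e) (hx : x < 2 ^ e) :
    mulp (2 ^ e) e p x y < 2 ^ e := by
  rw [← mulp_eq]
  exact FldA.mulp_lt hp hx

theorem exists_noZD (e : ℕ) (he : 1 ≤ e) : ∃ p < 2 ^ e, NoZD (2 ^ e) e p := by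
  obtain ⟨p, hp, h⟩ := FldA.exists_noZD he
  refine ⟨p, hp, fun x hx y hy hx0 hy0 => ?_⟩
  by_contra hcon
  have h0 : FldA.mulp (2 ^ e) e p x y = 0 := by
    rw [mulp_eq]
    omega
  rcases h x hx y hy h0 with h1 | h1 <;> omega

theorem field_of_noZD {e p : ℕ} (he : 1 ≤ e) (hp : p < 2 ^ e) (h : NoZD (2 ^ e) e p) :
    Nonempty (FD e (2 ^ e) (mulp (2 ^ e) e p)) := by
  have hg : FldA.NoZD (2 ^ e) e p := by
    intro x hx y hy hxy
    by_contra hcon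
    push Not at hcon
    have := h x hx y hy (Nat.pos_of_ne_zero hcon.1) (Nat.pos_of_ne_zero hcon.2)
    rw [mulp_eq] at hxy
    omega
  obtain ⟨fd⟩ := FldA.exists_field he hp hg
  exact ⟨{
    F := fd.F
    card := fd.card
    φ := fd.φ
    inj := fd.inj
    surj := fd.surj
    zero := fd.φ_zero
    one := fd.φ_one
    add := fun x _ y _ => fd.φ_xor x y
    lt := fd.mt_lt
    mul := fd.φ_mul }⟩

theorem cast_xor_div (a b j : ℕ) : (((a ^^^ b) / 2 ^ j % 2 : ℕ) : ZMod 2) =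
    ((a / 2 ^ j % 2 : ℕ) : ZMod 2) + ((b / 2 ^ j % 2 : ℕ) : ZMod 2) := by
  have h1 : (a ^^^ b) / 2 ^ j = (a / 2 ^ j) ^^^ (b / 2 ^ j) := Nat.xor_div_two_pow ..
  rw [h1, Nat.xor_mod_two_eq, ← Nat.cast_add, ZMod.natCast_eq_natCast_iff']
  omega

/-- Every functional is given by a multiplier. -/
theorem exists_mu {e q : ℕ} {mt : ℕ → ℕ → ℕ} (he : 1 ≤ e) (hq : q = 2 ^ e) (fd : FD e q mt)
    (b : ℕ) (f : ℕ) :
    ∃ μ < q, ∀ x < q, ∀ z < q, fd.φ z = fd.φ μ * fd.φ x ^ 2 ^ b → z % 2 = par e f x := by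
  classical
  subst hq
  let _ : Algebra (ZMod 2) fd.F := ZMod.algebra fd.F 2
  choose inv hinv1 hinv2 using fd.surj
  have hinv3 : ∀ x < 2 ^ e, inv (fd.φ x) = x := fun x hx =>
    fd.inj _ (hinv1 _) _ hx (hinv2 _)
  have hadd : ∀ y z, inv (y + z) = inv y ^^^ inv z := by
    intro y z
    refine fd.inj _ (hinv1 _) _ (Nat.xor_lt_two_pow (hinv1 _) (hinv1 _)) ?_
    rw [hinv2, fd.add _ (hinv1 _) _ (hinv1 _), hinv2, hinv2]
  have h0 : inv 0 = 0 := by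
    rw [← fd.zero]
    exact hinv3 0 (Nat.two_pow_pos e)
  let τ0 : fd.F →+ ZMod 2 :=
    { toFun := fun y => (inv y : ZMod 2)
      map_zero' := by rw [h0, Nat.cast_zero]
      map_add' := by
        intro y z
        rw [hadd, ← Nat.cast_add, ZMod.natCast_eq_natCast_iff', Nat.xor_mod_two_eq] }
  let g0 : fd.F →+ ZMod 2 :=
    { toFun := fun y => ∑ j ∈ range e, ((f / 2 ^ j % 2 : ℕ) : ZMod 2) *
        ((inv y / 2 ^ j % 2 : ℕ) : ZMod 2)
      map_zero' := by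
        rw [h0]
        refine sum_eq_zero (fun j _ => ?_)
        rw [Nat.zero_div, Nat.zero_mod, Nat.cast_zero, mul_zero]
      map_add' := by
        intro y z
        rw [← sum_add_distrib]
        refine sum_congr rfl (fun j _ => ?_)
        rw [hadd, cast_xor_div, mul_add] }
  obtain ⟨μ, hμ⟩ := Pool.Agent.OMV.exists_mul_functional b (τ0.toZModLinearMap 2) (by
    intro h
    have h1 : (τ0.toZModLinearMap 2) (fd.φ 1) = 0 := by rw [h]; rfl
    have h2 : (τ0.toZModLinearMap 2) (fd.φ 1) = ((inv (fd.φ 1) : ℕ) : ZMod 2) := rfl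
    rw [h2, hinv3 1 (Nat.one_lt_two_pow (by omega))] at h1
    exact absurd h1 (by decide)) (g0.toZModLinearMap 2)
  refine ⟨inv μ, hinv1 μ, fun x hx z hz hxz => ?_⟩
  have h1 := hμ (fd.φ x)
  have h2 : (g0.toZModLinearMap 2) (fd.φ x) = ∑ j ∈ range e, ((f / 2 ^ j % 2 : ℕ) : ZMod 2) *
        ((inv (fd.φ x) / 2 ^ j % 2 : ℕ) : ZMod 2) := rfl
  rw [hinv2] at hxz
  have h3 : (τ0.toZModLinearMap 2) (μ * fd.φ x ^ 2 ^ b) =
      ((inv (μ * fd.φ x ^ 2 ^ b) : ℕ) : ZMod 2) := rfl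
  rw [h2, h3, hinv3 x hx, ← hxz, hinv3 z hz] at h1
  have h4 : ((∑ j ∈ range e, f / 2 ^ j % 2 * (x / 2 ^ j % 2) : ℕ) : ZMod 2) = (z : ZMod 2) := by
    rw [← h1]
    push_cast
    rfl
  rw [ZMod.natCast_eq_natCast_iff'] at h4
  unfold par
  omega

/-- The dual basis of the powers. -/
theorem dual {e q : ℕ} {mt : ℕ → ℕ → ℕ} (fd : FD e q mt) {k k' : ℕ} (h1 : 1 ≤ k)
    (h2 : k + 2 ≤ q) (h3 : k' < q) :
    ∑ x ∈ range q, fd.φ x ^ (q - 1 - k) * fd.φ x ^ k' = if k' = k then 1 else 0 := by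
  classical
  let eqv : Fin q ≃ fd.F := Equiv.ofBijective (fun x => fd.φ x)
    ⟨fun _ _ h => Fin.ext (fd.inj _ (Fin.is_lt _) _ (Fin.is_lt _) h),
      fun y => (fd.surj y).elim fun a h => ⟨⟨a, h.1⟩, h.2⟩⟩
  rw [sum_range]
  have h4 : ∀ x : Fin q, fd.φ x ^ (q - 1 - k) * fd.φ x ^ k' =
      (fun y : fd.F => y ^ (q - 1 - k + k')) (eqv x) := by
    intro x
    rw [← pow_add]
    rfl
  rw [sum_congr rfl (fun x _ => h4 x),
    eqv.sum_comp (fun y : fd.F => y ^ (q - 1 - k + k')), FldA.sum_eq_zero_add_units,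
    zero_pow (by omega), zero_add]
  have h5 := FiniteField.sum_pow_units fd.F (q - 1 - k + k')
  rw [fd.card] at h5
  rw [h5]
  by_cases hkn : k' = k
  · rw [if_pos hkn, if_pos, CharTwo.neg_eq]
    refine ⟨1, ?_⟩
    omega
  · rw [if_neg hkn, if_neg]
    rintro ⟨c, hc⟩
    rcases Nat.lt_or_ge c 2 with h | h
    · interval_cases c
      · omega
      · omega
    · have h6 : (q - 1) * 2 ≤ (q - 1) * c := Nat.mul_le_mul_left _ h
      omega

end Pool.Agent.OMVU
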