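import Pool.Agent.OMVU.Folds
import Pool.Agent.OMVU.Fld
import Pool.Agent.OMVU.CodeT

/-! The multipliers. -/

namespace Pool.Agent.OMVU

open Finset

variable {m n b : ℕ} {X : ℕ → ℕ → ℕ} {a : Ar} {mt : ℕ → ℕ → ℕ} {fd : FD (pe b) (pq b) mt}

private theorem bits_both {e : ℕ} {f : ℕ → ℕ} (hf : ∀ j < e, f j ≤ 1) :
    (∑ j ∈ range e, f j * 2 ^ j < 2 ^ e) ∧
      ∀ j < e, (∑ j ∈ range e, f j * 2 ^ j) / 2 ^ j % 2 = f j := by
  induction e with
  | zero => exact ⟨by simp, fun k hk => absurd hk (Nat.not_lt_zero _)⟩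
  | succ K ih =>
    obtain ⟨h1, h2⟩ := ih fun k hk => hf k (by omega)
    have hK := hf K (by omega)
    rw [sum_range_succ]
    refine ⟨?_, fun k hk => ?_⟩
    · calc ∑ k ∈ range K, f k * 2 ^ k + f K * 2 ^ K < 2 ^ K + f K * 2 ^ K := by omega
        _ = (f K + 1) * 2 ^ K := by ring
        _ ≤ 2 * 2 ^ K := Nat.mul_le_mul_right _ (by omega)
        _ = 2 ^ (K + 1) := by ring
    · rcases Nat.lt_or_ge k K with hkK | hkK
      · rw [← h2 k hkK]
        obtain ⟨d, rfl⟩ : ∃ d, K = k + (d + 1) := ⟨K - k - 1, by omega⟩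
        have e : f (k + (d + 1)) * 2 ^ (k + (d + 1)) = 2 ^ k * (2 * (2 ^ d * f (k + (d + 1)))) := by
          ring
        rw [e, Nat.add_mul_div_left _ _ (by positivity), Nat.add_mul_mod_self_left]
      · obtain rfl : k = K := by omega
        rw [Nat.add_mul_div_right _ _ (by positivity), Nat.div_eq_of_lt h1, Nat.zero_add,
          Nat.mod_eq_of_lt (by omega)]

/-- A number below `2 ^ e` with given bits. -/
theorem sum_bits_lt {e : ℕ} {f : ℕ → ℕ} (hf : ∀ j < e, f j ≤ 1) :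
    ∑ j ∈ range e, f j * 2 ^ j < 2 ^ e := (bits_both hf).1

/-- The bits of such a number. -/
theorem sum_bits_bit {e : ℕ} {f : ℕ → ℕ} (hf : ∀ j < e, f j ≤ 1) {j : ℕ} (hj : j < e) :
    (∑ j ∈ range e, f j * 2 ^ j) / 2 ^ j % 2 = f j := (bits_both hf).2 j hj

private theorem pe_le_mul (b : ℕ) : pe b ≤ 16 * pE b := by
  have h1 : 1 ≤ 2 ^ (b + 20) := Nat.one_le_two_pow
  have h2 : pe b ≤ pE b := by
    unfold pE pe
    exact Nat.le_mul_of_pos_left _ h1
  omega

private theorem D_lt_q (b : ℕ) : pD b < pq b := by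
  unfold pD pq pe
  exact Nat.pow_lt_pow_right (by norm_num) (by omega)

private theorem mulIdx {g τ l R N : ℕ} (hτ : τ < R) (hl : l < N) :
    ((g * R + τ) * N + l) / (R * N) = g ∧ ((g * R + τ) * N + l) / N % R = τ ∧
      ((g * R + τ) * N + l) % N = l := by
  have e1 : (g * R + τ) * N + l = g * (R * N) + (τ * N + l) := by ring
  refine ⟨?_, ?_, ?_⟩
  · rw [e1]
    exact idx_div (idx_lt hτ hl)
  · rw [idx_div hl]
    exact idx_mod hτ
  · exact idx_mod hl

theorem mul_ok (hE : Eqs m n X a) (hB : Big m n b) (hX : ∀ r c, X r c ≤ 1)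
    (hS : ScalOK m n b a) (hF : FldOK b a fd) : MulOK m n b X a fd := by
  have z0 : ∀ ρ : Loc, RE.eval a 0 ρ = 0 := fun _ => rfl
  have z1 : ∀ ρ : Loc, RE.eval a 1 ρ = 1 := fun _ => rfl
  have z2 : ∀ ρ : Loc, RE.eval a 2 ρ = 2 := fun _ => rfl
  have hMU := hE.sat gMU (by simp [preL, preGad])
  have hMM := hE.sat gMM (by simp [preL, preGad])
  simp only [gMU, mtE, pwE, bitE, P2, Stg.Sat, RE.eval_sc, RE.eval_get, RE.eval_add, RE.eval_mul,
    RE.eval_sub, RE.eval_mod, RE.eval_div, RE.eval_fnd, RE.eval_eq,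
    RE.eval_sum, RE.eval_var, loc0_zero, hS.q0, hS.D0, hS.e0, Loc.set_apply, z0, z1, z2] at hMU
  simp only [Nat.reduceEqDiff, reduceIte, OfNat.zero_ne_ofNat, OfNat.one_ne_ofNat,
    zero_ne_one, OfNat.ofNat_ne_one] at hMU
  simp only [gMM, matE, P2, Stg.Sat, RE.eval_sc, RE.eval_get, RE.eval_add, RE.eval_mul,
    RE.eval_mod, RE.eval_div, RE.eval_lt,
    RE.eval_sum, RE.eval_var, loc0_zero, hS.J0, hS.Gc0, hS.R0, hS.N0, hS.Ne0, hS.e0, hS.m0,
    hS.n0, Loc.set_apply] at hMM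
  simp only [reduceIte, zero_ne_one] at hMM
  -- the multipliers
  have key : ∀ f < pq b, a aMU f < pq b ∧ ∀ x < pq b,
      a aMT (a aMQ (a aMU f) + a aPW (a aMQ x + pD b)) % 2 = par (pe b) f x := by
    intro f hf
    obtain ⟨μ, hμ, hμx⟩ := exists_mu (e := pe b) (q := pq b) (by unfold pe; omega) rfl fd b f
    have hpar : ∀ x, (∑ j ∈ range (pe b), f / a aP2 j % 2 * (x / a aP2 j % 2)) % 2 =
        par (pe b) f x := by
      intro x
      unfold par
      congr 1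
      refine sum_congr rfl fun j hj => ?_
      rw [hS.p2 j ((mem_range.1 hj).le.trans (pe_le_mul b))]
    have hz : ∀ μ' < pq b, ∀ x < pq b,
        fd.φ (a aMT (a aMQ μ' + a aPW (a aMQ x + pD b))) = fd.φ μ' * fd.φ x ^ pD b := by
      intro μ' hμ' x hx
      rw [hF.mq x hx, hF.mq μ' hμ', hF.mtt μ' hμ' _ (hF.pw_lt x hx _ (D_lt_q b)),
        fd.mul _ hμ' _ (hF.pw_lt x hx _ (D_lt_q b)), hF.pw x hx _ (D_lt_q b)]
    have hT := hMU f hf
    have hsp := firstPos_spec (n := pq b) (f := fun k => if (∑ x ∈ range (pq b),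
        (1 - if a aMT (a aMQ k + a aPW (a aMQ x + pD b)) % 2 =
          (∑ j ∈ range (pe b), f / a aP2 j % 2 * (x / a aP2 j % 2)) % 2 then 1 else 0)) = 0
        then 1 else 0) ⟨μ, hμ, by
      have h0 : (∑ x ∈ range (pq b),
        (1 - if a aMT (a aMQ μ + a aPW (a aMQ x + pD b)) % 2 =
          (∑ j ∈ range (pe b), f / a aP2 j % 2 * (x / a aP2 j % 2)) % 2 then 1 else 0)) = 0 := by
        refine sum_eq_zero fun x hx => ?_
        have hlt : a aMT (a aMQ μ + a aPW (a aMQ x + pD b)) < pq b := by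
          rw [hF.mq x (mem_range.1 hx), hF.mq μ hμ, hF.mtt μ hμ _
            (hF.pw_lt x (mem_range.1 hx) _ (D_lt_q b))]
          exact fd.lt _ hμ _ (hF.pw_lt x (mem_range.1 hx) _ (D_lt_q b))
        rw [hpar, if_pos (hμx x (mem_range.1 hx) _ hlt (hz μ hμ x (mem_range.1 hx))),
          Nat.sub_self]
      simp only [h0, if_true]
      exact Nat.one_pos⟩
    rw [← hT] at hsp
    refine ⟨hsp.1, fun x hx => ?_⟩
    have h2 := hsp.2.1
    by_contra hne
    rw [← hpar] at hne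
    have h3 : (∑ x ∈ range (pq b),
        (1 - if a aMT (a aMQ (a aMU f) + a aPW (a aMQ x + pD b)) % 2 =
          (∑ j ∈ range (pe b), f / a aP2 j % 2 * (x / a aP2 j % 2)) % 2 then 1 else 0)) ≠ 0 := by
      intro h0
      have h4 := (sum_eq_zero_iff.1 h0) x (mem_range.2 hx)
      rw [if_neg hne] at h4
      omega
    rw [if_neg h3] at h2
    exact absurd h2 (lt_irrefl _)
  have hxm : ∀ r c, xm m n X r c ≤ 1 := by
    intro r c
    unfold xm
    split_ifs
    · exact hX r c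
    · omega
  refine ⟨fun f hf => (key f hf).1, ?_, fun g τ l => ?_, ?_⟩
  · intro f hf x hx z hz hzx
    have hμ := (key f hf).1
    rw [← (key f hf).2 x hx]
    congr 1
    have hpw := hF.pw_lt x hx _ (D_lt_q b)
    rw [hF.mq x hx, hF.mq _ hμ, hF.mtt _ hμ _ hpw]
    refine fd.inj _ hz _ (fd.lt _ hμ _ hpw) ?_
    rw [fd.mul _ hμ _ hpw, hF.pw x hx _ (D_lt_q b), hzx]
  · exact sum_bits_lt (fun j _ => hxm _ _)
  · intro g hg τ hτ l hl
    obtain ⟨i1, i2, i3⟩ := mulIdx (g := g) hτ hl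
    have hlt : (g * pR b + τ) * pN b + l < nJ m b * (nGc n b * (pR b * pN b)) := by
      have := idx_lt (idx_lt hg hτ) hl
      calc (g * pR b + τ) * pN b + l < nJ m b * nGc n b * pR b * pN b := this
        _ = _ := by ring
    rw [hMM _ hlt, i1, i2, i3]
    refine congrArg (a aMU) (sum_congr rfl fun j hj => ?_)
    rw [hS.p2 j ((mem_range.1 hj).le.trans (pe_le_mul b))]
    congr 1
    unfold xm
    obtain ⟨r, hr⟩ : ∃ r, r = g / nGc n b * pR b + τ := ⟨_, rfl⟩
    obtain ⟨c, hc⟩ : ∃ c, c = g % nGc n b * (pN b * pe b) + (l * pe b + j) := ⟨_, rfl⟩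
    rw [← hr, ← hc]
    by_cases h1 : r < m
    · by_cases h2 : c < n
      · rw [if_pos h1, if_pos h2, if_pos ⟨h1, h2⟩, one_mul, one_mul, hE.mat r h1 c h2]
      · simp [h2]
    · simp [h1]

end Pool.Agent.OMVU
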