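import Pool.Agent.OMVU.Folds
import Pool.Agent.OMVU.MulT

/-! Symbols and addresses. -/

namespace Pool.Agent.OMVU

open Finset

variable {m n b : ℕ} {X : ℕ → ℕ → ℕ} {x : ℕ → ℕ} {a : Ar} {mt : ℕ → ℕ → ℕ}
  {fd : FD (pe b) (pq b) mt}

/-- The digits of a sum of digits times powers. -/
theorem dg_sum {B K : ℕ} (hB : 0 < B) {f : ℕ → ℕ} (hf : ∀ k < K, f k < B) :
    (∑ k ∈ range K, f k * B ^ k < B ^ K) ∧
      ∀ k < K, dg B (∑ k ∈ range K, f k * B ^ k) k = f k := by
  induction K with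
  | zero => exact ⟨by simp, fun k hk => absurd hk (Nat.not_lt_zero _)⟩
  | succ K ih =>
    obtain ⟨h1, h2⟩ := ih fun k hk => hf k (by omega)
    have hK := hf K (by omega)
    rw [sum_range_succ]
    refine ⟨?_, fun k hk => ?_⟩
    · calc ∑ k ∈ range K, f k * B ^ k + f K * B ^ K < B ^ K + f K * B ^ K := by omega
        _ = (f K + 1) * B ^ K := by ring
        _ ≤ B * B ^ K := Nat.mul_le_mul_right _ hK
        _ = B ^ (K + 1) := by ring
    · rcases Nat.lt_or_ge k K with hkK | hkK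
      · rw [← h2 k hkK]
        unfold dg
        obtain ⟨d, rfl⟩ : ∃ d, K = k + (d + 1) := ⟨K - k - 1, by omega⟩
        have e : f (k + (d + 1)) * B ^ (k + (d + 1)) = B ^ k * (B * (B ^ d * f (k + (d + 1)))) := by
          ring
        rw [e, Nat.add_mul_div_left _ _ (by positivity), Nat.add_mul_mod_self_left]
      · obtain rfl : k = K := by omega
        unfold dg
        rw [Nat.add_mul_div_right _ _ (by positivity), Nat.div_eq_of_lt h1, Nat.zero_add,
          Nat.mod_eq_of_lt hK]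

private theorem pe_le_adr (b : ℕ) : pe b ≤ 16 * pE b := by
  have h1 : 1 ≤ 2 ^ (b + 20) := Nat.one_le_two_pow
  have h2 : pe b ≤ pE b := by
    unfold pE pe
    exact Nat.le_mul_of_pos_left _ h1
  omega

theorem adr_ok (hE : Full m n X x a) (hB : Big m n b) (hx : ∀ c, x c ≤ 1)
    (hS : ScalOK m n b a) (hF : FldOK b a fd) (hR : RowOK n b a) (hG : GadOK b a fd)
    (hI : Idx1 m n b a) : AdrOK n b x a fd := by
  have e0 : ∀ ρ : Loc, RE.eval a 0 ρ = 0 := fun _ => rfl
  have hXS := hE.qry gXS (by simp [qryL])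
  have hAD := hE.qry gAD (by simp [qryL])
  simp only [gXS, P2, Stg.Sat, RE.eval_sc, RE.eval_get, RE.eval_add, RE.eval_mul, RE.eval_sum,
    RE.eval_var, loc0_zero, hS.Gc0, hS.N0, hS.e0, Loc.set_self,
    Loc.set_ne _ _ (show (0 : ℕ) ≠ 1 by decide)] at hXS
  simp only [gAD, xorE, mtE, Stg.Sat, RE.eval_sc, RE.eval_get, RE.eval_add, RE.eval_mul,
    RE.eval_sum, RE.eval_fold, RE.eval_var, loc0_zero, hR.Gt0, hS.K0, hS.N0, hS.q0, e0,
    Loc.set_self, Loc.set_ne _ _ (show (0 : ℕ) ≠ 1 by decide),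
    Loc.set_ne _ _ (show (0 : ℕ) ≠ 2 by decide), Loc.set_ne _ _ (show (0 : ℕ) ≠ 3 by decide),
    Loc.set_ne _ _ (show (1 : ℕ) ≠ 2 by decide), Loc.set_ne _ _ (show (1 : ℕ) ≠ 3 by decide),
    Loc.set_ne _ _ (show (2 : ℕ) ≠ 3 by decide)] at hAD
  have hvec : ∀ c, a aV c = xv n x c := fun c => by
    unfold xv
    split_ifs with h
    · exact hE.vec c h
    · exact hE.vec0 c (by omega)
  have hxv : ∀ c, xv n x c ≤ 1 := fun c => by
    unfold xv
    split_ifs
    · exact hx c
    · exact Nat.zero_le _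
  have hxs : ∀ i < nGc n b, ∀ l < pN b, a aXS (i * pN b + l) =
      ∑ j ∈ range (pe b), xv n x (i * (pN b * pe b) + (l * pe b + j)) * 2 ^ j := by
    intro i hi l hl
    rw [hXS _ (idx_lt hi hl)]
    refine sum_congr rfl fun j hj => ?_
    have hj' := mem_range.1 hj
    have e : pe b * (i * pN b + l) + j = i * (pN b * pe b) + (l * pe b + j) := by ring
    rw [e, hvec, hS.p2 j (hj'.le.trans (pe_le_adr b))]
  have hxs_lt : ∀ i < nGc n b, ∀ l < pN b, a aXS (i * pN b + l) < pq b := by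
    intro i hi l hl
    have h2 := (dg_sum (B := 2) (K := pe b) two_pos
      (f := fun j => xv n x (i * (pN b * pe b) + (l * pe b + j)))
      fun j _ => Nat.lt_succ_of_le (hxv _)).1
    rw [hxs i hi l hl]
    unfold pq
    exact h2
  -- the symbols of the addresses
  set sy : ℕ → ℕ → ℕ → ℕ := fun i u k => iter (fun l w => min (a aXT (a aMQ w +
    a aMT (a aMQ (a aCA (u * (pK b * pN b) + k * pN b + l)) + a aXS (i * pN b + l)))) (pq b)) 0
    (pN b) with hsy
  have hsyF : ∀ i < nGc n b, ∀ u < nt b (a aSG), ∀ k < pK b, sy i u k < pq b ∧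
      fd.φ (sy i u k) = ∑ l ∈ range (pN b),
        coefA fd (a aCD) (a aSG) (a aBL) u k l * fd.φ (a aXS (i * pN b + l)) := by
    intro i hi u hu k hk
    have hidx : ∀ l, u * (pK b * pN b) + k * pN b + l = (u * pK b + k) * pN b + l := fun l => by
      ring
    have h1 := xor_fold hF (n := pN b) (i := 0)
      (f := fun l => a aMT (a aMQ (a aCA (u * (pK b * pN b) + k * pN b + l)) +
        a aXS (i * pN b + l))) (pq_pos b)
      (fun l hl => mul_lt hF (by rw [hidx]; exact hG.ca_lt u hu k hk l hl) (hxs_lt i hi l hl))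
      (g := fun l w => min (a aXT (a aMQ w +
        a aMT (a aMQ (a aCA (u * (pK b * pN b) + k * pN b + l)) + a aXS (i * pN b + l)))) (pq b))
      (fun l _ w => rfl)
    refine ⟨h1.1, h1.2.trans ?_⟩
    rw [fd.zero, zero_add]
    refine sum_congr rfl fun l hl => ?_
    have hl' := mem_range.1 hl
    rw [mul_phi hF (by rw [hidx]; exact hG.ca_lt u hu k hk l hl') (hxs_lt i hi l hl'), hidx,
      hG.ca u hu k hk l hl']
  have had : ∀ i < nGc n b, ∀ u < nt b (a aSG), a aAD (i * nt b (a aSG) + u) =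
      ∑ k ∈ range (pK b), sy i u k * pq b ^ k := by
    intro i hi u hu
    rw [hAD _ (idx_lt hi hu), hI.ub i hi u hu, hI.xb i hi u hu]
    refine sum_congr rfl fun k hk => ?_
    have hk' := mem_range.1 hk
    rw [hI.kn k hk', hI.pqq k hk']
  refine ⟨hxs, hxs_lt, fun i hi u hu => ?_, fun i hi u hu k hk => ?_⟩
  · rw [had i hi u hu]
    exact (dg_sum (pq_pos b) fun k hk => (hsyF i hi u hu k hk).1).1
  · rw [had i hi u hu, (dg_sum (pq_pos b) fun k hk => (hsyF i hi u hu k hk).1).2 k hk]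
    exact (hsyF i hi u hu k hk).2

end Pool.Agent.OMVU
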