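import Pool.Agent.OMVU.Spec

/-! The choice of `b`. -/

namespace Pool.Agent.OMVU

open Finset

theorem pE_mono {x y : ℕ} (h : x ≤ y) : pE x ≤ pE y :=
  Nat.mul_le_mul (Nat.pow_le_pow_right (by norm_num) (by omega)) (by omega)

theorem pF_mono {x y : ℕ} (h : x ≤ y) : pF x ≤ pF y :=
  Nat.pow_le_pow_right (by norm_num) (by omega)

theorem lt_pE (b : ℕ) : b < pE b := by
  have h1 : b + 20 < 2 ^ (b + 20) := Nat.lt_two_pow_self
  have h2 : 2 ^ (b + 20) * 1 ≤ 2 ^ (b + 20) * (2 * b + 21) :=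
    Nat.mul_le_mul le_rfl (by omega)
  have h3 : pE b = 2 ^ (b + 20) * (2 * b + 21) := rfl
  omega

/-- An initial segment given by a predicate. -/
theorem filter_eq_range {P : ℕ → Prop} [DecidablePred P] (hP : ∀ x y, x ≤ y → P y → P x) (L : ℕ) :
    (range L).filter P = range ((range L).filter P).card := by
  refine eq_of_subset_of_card_le (fun x hx => ?_) (by rw [card_range])
  rw [mem_filter, mem_range] at hx
  have h1 : range (x + 1) ⊆ (range L).filter P := by
    intro y hy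
    rw [mem_range] at hy
    rw [mem_filter, mem_range]
    exact ⟨by omega, hP y x (by omega) hx.2⟩
  have h2 := card_le_card h1
  rw [card_range] at h2
  rw [mem_range]
  omega

theorem bsel_spec {m n K : ℕ} (hK : 1 ≤ K) (h1 : 16 * pE K ≤ Nat.log 2 m)
    (h2 : 16 * pF K ≤ Nat.log 2 n) :
    K ≤ bsel m n ∧ 16 * pE (bsel m n) ≤ Nat.log 2 m ∧ 16 * pF (bsel m n) ≤ Nat.log 2 n ∧
      ¬ (16 * pE (bsel m n + 1) ≤ Nat.log 2 m ∧ 16 * pF (bsel m n + 1) ≤ Nat.log 2 n) := by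
  have hcard : bsel m n = ((range (Nat.log 2 m)).filter (fun x =>
      16 * pE (x + 1) ≤ Nat.log 2 m ∧ 16 * pF (x + 1) ≤ Nat.log 2 n)).card := by
    unfold bsel
    rw [card_filter]
  have hset := filter_eq_range (P := fun x =>
      16 * pE (x + 1) ≤ Nat.log 2 m ∧ 16 * pF (x + 1) ≤ Nat.log 2 n) (fun x y hxy hy =>
      ⟨le_trans (Nat.mul_le_mul le_rfl (pE_mono (by omega))) hy.1,
        le_trans (Nat.mul_le_mul le_rfl (pF_mono (by omega))) hy.2⟩) (Nat.log 2 m)
  rw [← hcard] at hset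
  have hmem : ∀ x, x < bsel m n ↔ x < Nat.log 2 m ∧
      16 * pE (x + 1) ≤ Nat.log 2 m ∧ 16 * pF (x + 1) ≤ Nat.log 2 n := by
    intro x
    rw [← mem_range, ← hset, mem_filter, mem_range]
  have hKl := lt_pE K
  have hb : K ≤ bsel m n := by
    have := (hmem (K - 1)).2 (by
      rw [Nat.sub_add_cancel hK]
      exact ⟨by omega, h1, h2⟩)
    omega
  have h3 := (hmem (bsel m n - 1)).1 (by omega)
  rw [Nat.sub_add_cancel (by omega)] at h3
  refine ⟨hb, h3.2.1, h3.2.2, fun h => ?_⟩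
  have h4 := lt_pE (bsel m n)
  have := (hmem (bsel m n)).2 ⟨by omega, h⟩
  omega

/-- large numbers -/
theorem log_ge {e m : ℕ} (h : 2 ^ e ≤ m) : e ≤ Nat.log 2 m := by
  have := Nat.log_mono_right (b := 2) h
  rwa [Nat.log_pow (by norm_num)] at this

theorem big_exists : ∃ n₀ : ℕ, ∀ m n, n₀ ≤ m → n₀ ≤ n → Big m n (bsel m n) := by
  refine ⟨2 ^ (16 * pE 4 + 16 * pF 4), fun m n hm hn => ?_⟩
  have h1 := log_ge hm
  have h2 := log_ge hn
  generalize hE : 16 * pE 4 = e1 at *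
  generalize hF : 16 * pF 4 = e2 at *
  obtain ⟨h3, h4, h5, -⟩ := bsel_spec (m := m) (n := n) (K := 4) (by norm_num)
    (by rw [hE]; omega) (by rw [hF]; omega)
  exact ⟨rfl, h3, h4, h5⟩

/-- The exponent of the saving. -/
noncomputable def gain (m n : ℕ) : ℝ := min (Real.log n) (Real.log m / Real.log (Real.log m))

/-- the binary logarithm and the natural logarithm -/
theorem log_lt_of_nat_log {m x : ℕ} (h : Nat.log 2 m < x) : Real.log m ≤ x := by
  rcases Nat.eq_zero_or_pos m with rfl | hm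
  · simp
  have h1 : m < 2 ^ x := Nat.lt_pow_of_log_lt (by norm_num) h
  have h2 : (m : ℝ) ≤ 2 ^ x := by exact_mod_cast h1.le
  have h3 : Real.log m ≤ Real.log ((2 : ℝ) ^ x) :=
    Real.log_le_log (by exact_mod_cast hm) h2
  rw [Real.log_pow] at h3
  have h4 : Real.log 2 ≤ 1 := by
    have := Real.log_two_lt_d9
    linarith
  have h5 : (x : ℝ) * Real.log 2 ≤ x * 1 := mul_le_mul_of_nonneg_left h4 (Nat.cast_nonneg x)
  linarith

theorem le_log_of_nat_log {m x : ℕ} (hm : 0 < m) (h : 2 * x ≤ Nat.log 2 m) :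
    (x : ℝ) ≤ Real.log m := by
  have h1 : 2 ^ (2 * x) ≤ m := Nat.pow_le_of_le_log hm.ne' h
  have h2 : ((2 : ℝ) ^ (2 * x)) ≤ m := by exact_mod_cast h1
  have h3 : Real.log ((2 : ℝ) ^ (2 * x)) ≤ Real.log m := Real.log_le_log (by positivity) h2
  rw [Real.log_pow] at h3
  have h4 : (1 : ℝ) / 2 ≤ Real.log 2 := by
    have := Real.log_two_gt_d9
    linarith
  push_cast at h3
  have h5 : (x : ℝ) * (1 / 2) ≤ x * Real.log 2 := mul_le_mul_of_nonneg_left h4 (Nat.cast_nonneg x)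
  linarith

theorem gain_le {m n b : ℕ} (hb : 4 ≤ b) (h1 : 16 * pE b ≤ Nat.log 2 m)
    (h : ¬ (16 * pE (b + 1) ≤ Nat.log 2 m ∧ 16 * pF (b + 1) ≤ Nat.log 2 n)) :
    gain m n ≤ 2 ^ 29 * (pD b : ℝ) := by
  have hD : (pD b : ℝ) = 2 ^ b := by
    unfold pD
    push_cast
    rfl
  have hD1 : (1 : ℝ) ≤ 2 ^ b := one_le_pow₀ (by norm_num)
  rw [hD]
  by_cases h2 : 16 * pF (b + 1) ≤ Nat.log 2 n
  · have h3 : Nat.log 2 m < 16 * pE (b + 1) := by
      by_contra h4
      exact h ⟨by omega, h2⟩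
    refine (min_le_right _ _).trans ?_
    have hm : 0 < m := by
      rcases Nat.eq_zero_or_pos m with rfl | hm
      · have := lt_pE b
        simp at h1
        omega
      · exact hm
    have h4 := log_lt_of_nat_log h3
    -- `D ≤ log m`
    have h5 : (2 : ℝ) ^ b ≤ Real.log m := by
      have e1 : 2 * 2 ^ b ≤ 16 * pE b := by
        unfold pE
        have : 2 ^ b * 1 ≤ 2 ^ b * (2 ^ 20 * (2 * b + 21)) :=
          Nat.mul_le_mul le_rfl (Nat.mul_pos (by positivity) (by omega))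
        calc 2 * 2 ^ b ≤ 16 * (2 ^ b * 1) := by omega
          _ ≤ 16 * (2 ^ b * (2 ^ 20 * (2 * b + 21))) := Nat.mul_le_mul le_rfl this
          _ = 16 * (2 ^ (b + 20) * (2 * b + 21)) := by rw [pow_add]; ring
      have := le_log_of_nat_log hm (e1.trans h1)
      push_cast at this
      exact this
    have h6 : (b : ℝ) * Real.log 2 ≤ Real.log (Real.log m) := by
      have := Real.log_le_log (by positivity) h5
      rwa [Real.log_pow] at this
    have h7 : (1 : ℝ) / 2 ≤ Real.log 2 := by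
      have := Real.log_two_gt_d9
      linarith
    have hb0 : (4 : ℝ) ≤ b := by exact_mod_cast hb
    have h8 : (b : ℝ) / 2 ≤ Real.log (Real.log m) := by
      have : (b : ℝ) * (1 / 2) ≤ b * Real.log 2 := mul_le_mul_of_nonneg_left h7 (by positivity)
      linarith
    have h9 : 0 < Real.log (Real.log m) := by linarith
    rw [div_le_iff₀ h9]
    refine h4.trans ?_
    have e2 : ((16 * pE (b + 1) : ℕ) : ℝ) = 2 ^ 25 * 2 ^ b * (2 * b + 23) := by
      unfold pE
      push_cast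
      rw [show b + 1 + 20 = 21 + b by ring, pow_add]
      ring
    rw [e2]
    have h10 : (2 * (b : ℝ) + 23) ≤ 2 ^ 4 * Real.log (Real.log m) := by linarith
    calc (2 : ℝ) ^ 25 * 2 ^ b * (2 * b + 23) ≤
        2 ^ 25 * 2 ^ b * (2 ^ 4 * Real.log (Real.log m)) :=
          mul_le_mul_of_nonneg_left h10 (by positivity)
      _ = 2 ^ 29 * 2 ^ b * Real.log (Real.log m) := by ring
  · have h3 : Nat.log 2 n < 16 * pF (b + 1) := by omega
    refine (min_le_left _ _).trans ?_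
    refine (log_lt_of_nat_log h3).trans ?_
    have e2 : ((16 * pF (b + 1) : ℕ) : ℝ) = 2 ^ 25 * 2 ^ b := by
      unfold pF
      push_cast
      rw [show b + 1 + 20 = 21 + b by ring, pow_add]
      ring
    rw [e2]
    exact mul_le_mul_of_nonneg_right (by norm_num) (by positivity)

theorem gain_bound : ∃ δ : ℝ, 0 < δ ∧ ∀ A : ℝ, 0 < A → ∃ n₀ : ℕ, ∀ m n, n₀ ≤ m → n₀ ≤ n →
    A * 2 ^ (δ * gain m n) ≤ 2 ^ pD (bsel m n) := by
  refine ⟨1 / 2 ^ 30, by positivity, fun A hA => ?_⟩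
  obtain ⟨K, hK⟩ := exists_nat_ge A
  refine ⟨2 ^ (16 * pE (K + 4) + 16 * pF (K + 4)), fun m n hm hn => ?_⟩
  have h1 := log_ge hm
  have h2 := log_ge hn
  generalize hE : 16 * pE (K + 4) = e1 at *
  generalize hF : 16 * pF (K + 4) = e2 at *
  obtain ⟨h3, h4, h5, h6⟩ := bsel_spec (m := m) (n := n) (K := K + 4) (by omega)
    (by rw [hE]; omega) (by rw [hF]; omega)
  generalize bsel m n = b at *
  have h7 := gain_le (by omega) h4 h6
  have h8 : (1 / 2 ^ 30 : ℝ) * gain m n ≤ (pD b : ℝ) / 2 := by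
    have := mul_le_mul_of_nonneg_left h7 (by positivity : (0 : ℝ) ≤ 1 / 2 ^ 30)
    refine this.trans (le_of_eq ?_)
    ring
  -- `A ≤ 2 ^ (D / 2)`
  have h9 : A ≤ (2 : ℝ) ^ ((pD b : ℝ) / 2) := by
    have e1 : (K : ℝ) ≤ (pD b : ℝ) / 2 := by
      have e2 : K + 4 < 2 ^ (K + 4) := Nat.lt_two_pow_self
      have e3 : 2 ^ (K + 4) ≤ 2 ^ b := Nat.pow_le_pow_right (by norm_num) h3
      have e4 : 2 * K ≤ pD b := by
        unfold pD
        have e5 : K < 2 ^ K := Nat.lt_two_pow_self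
        have e6 : 2 ^ (K + 4) = 16 * 2 ^ K := by rw [pow_add]; ring
        omega
      have : ((2 * K : ℕ) : ℝ) ≤ (pD b : ℝ) := by exact_mod_cast e4
      push_cast at this
      linarith
    calc A ≤ K := hK
      _ ≤ (2 : ℝ) ^ K := by exact_mod_cast (Nat.lt_two_pow_self (n := K)).le
      _ = (2 : ℝ) ^ (K : ℝ) := (Real.rpow_natCast _ _).symm
      _ ≤ _ := Real.rpow_le_rpow_of_exponent_le (by norm_num) e1
  calc A * 2 ^ ((1 / 2 ^ 30 : ℝ) * gain m n) ≤
      (2 : ℝ) ^ ((pD b : ℝ) / 2) * (2 : ℝ) ^ ((pD b : ℝ) / 2) :=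
        mul_le_mul h9 (Real.rpow_le_rpow_of_exponent_le (by norm_num) h8) (by positivity)
          (by positivity)
    _ = 2 ^ pD b := by
      rw [← Real.rpow_add (by norm_num), add_halves, Real.rpow_natCast]

end Pool.Agent.OMVU
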