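import Mathlib

/-! A small language of bounded formulas over arrays of natural numbers.

An expression is evaluated with respect to arrays `a` (`a A i` is the cell `i` of the array `A`)
and local variables `ρ`.  A stage changes the arrays: it writes one cell, or it fills an array
with the values of an expression in the local variable `0` (the index). -/

namespace Pool.Agent.OMVU

open Finset

/-- Arrays. -/
abbrev Ar := ℕ → ℕ → ℕ

/-- Iteration with a counter. -/
def iter {α : Type*} (f : ℕ → α → α) (x : α) : ℕ → α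
  | 0 => x
  | n + 1 => f n (iter f x n)

/-- The least `x < n` with `0 < f x`, and `n` if there is none. -/
def firstPos (f : ℕ → ℕ) : ℕ → ℕ
  | 0 => 0
  | n + 1 => if firstPos f n < n then firstPos f n else if 0 < f n then n else n + 1

/-- Expressions. -/
inductive RE : Type
  | const : ℕ → RE
  | var : ℕ → RE
  | add : RE → RE → RE
  | sub : RE → RE → RE
  | mul : RE → RE → RE
  | div : RE → RE → RE
  | mod : RE → RE → RE
  /-- `get A i`: the cell `i` of the array `A` -/
  | get : ℕ → RE → RE
  /-- `ite a b p q`: if `a < b` then `p` else `q` -/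
  | ite : RE → RE → RE → RE → RE
  /-- `sum x n e`: the sum of `e` for `x = 0, ..., n - 1` -/
  | sum : ℕ → RE → RE → RE
  /-- `fnd x n e`: the least `x < n` with `0 < e`, or `n` -/
  | fnd : ℕ → RE → RE → RE
  /-- `fold x y n i c e`: `y := i`, then for `x = 0, ..., n - 1`: `y := min e c` -/
  | fold : ℕ → ℕ → RE → RE → RE → RE → RE

/-- Local variables. -/
abbrev Loc := ℕ → ℕ

/-- Change of a local variable. -/
def Loc.set (ρ : Loc) (x v : ℕ) : Loc := fun y => if y = x then v else ρ y

namespace RE

/-- The value of an expression. -/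
def eval (a : Ar) : RE → Loc → ℕ
  | const c, _ => c
  | var x, ρ => ρ x
  | add p q, ρ => eval a p ρ + eval a q ρ
  | sub p q, ρ => eval a p ρ - eval a q ρ
  | mul p q, ρ => eval a p ρ * eval a q ρ
  | div p q, ρ => eval a p ρ / eval a q ρ
  | mod p q, ρ => eval a p ρ % eval a q ρ
  | get A i, ρ => a A (eval a i ρ)
  | ite u v p q, ρ => if eval a u ρ < eval a v ρ then eval a p ρ else eval a q ρ
  | sum x n e, ρ => ∑ k ∈ range (eval a n ρ), eval a e (ρ.set x k)
  | fnd x n e, ρ => firstPos (fun k => eval a e (ρ.set x k)) (eval a n ρ)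
  | fold x y n i c e, ρ =>
      iter (fun k w => min (eval a e ((ρ.set x k).set y w)) (eval a c ρ)) (eval a i ρ)
        (eval a n ρ)

/-- A bound for the time. -/
def cost (a : Ar) : RE → Loc → ℕ
  | const _, _ => 99
  | var _, _ => 99
  | add p q, ρ => cost a p ρ + cost a q ρ + 99
  | sub p q, ρ => cost a p ρ + cost a q ρ + 99
  | mul p q, ρ => cost a p ρ + cost a q ρ + 99 * eval a p ρ + 99
  | div p q, ρ => cost a p ρ + cost a q ρ + 99 * (eval a p ρ / eval a q ρ) + 99
  | mod p q, ρ => cost a p ρ + cost a q ρ + 99 * (eval a p ρ / eval a q ρ) + 99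
  | get _ i, ρ => cost a i ρ + 99
  | ite u v p q, ρ => cost a u ρ + cost a v ρ +
      (if eval a u ρ < eval a v ρ then cost a p ρ else cost a q ρ) + 99
  | sum x n e, ρ => cost a n ρ +
      ∑ k ∈ range (eval a n ρ), (cost a e (ρ.set x k) + 99) + 99
  | fnd x n e, ρ => cost a n ρ +
      ∑ k ∈ range (eval a n ρ), (cost a e (ρ.set x k) + 99) + 99
  | fold x y n i c e, ρ => cost a n ρ + cost a i ρ + cost a c ρ +
      ∑ k ∈ range (eval a n ρ), (cost a e ((ρ.set x k).set y
        (iter (fun k w => min (eval a e ((ρ.set x k).set y w)) (eval a c ρ)) (eval a i ρ) k))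
          + 99) + 99

/-- A bound for all numbers which occur. -/
def wt (a : Ar) : RE → Loc → ℕ
  | const c, _ => c + 99
  | var x, ρ => ρ x + 99
  | add p q, ρ => wt a p ρ + wt a q ρ + 99
  | sub p q, ρ => wt a p ρ + wt a q ρ + 99
  | mul p q, ρ => wt a p ρ + wt a q ρ + eval a p ρ * eval a q ρ + 99 * eval a p ρ + 99
  | div p q, ρ => wt a p ρ + wt a q ρ + 99 * eval a p ρ + 99
  | mod p q, ρ => wt a p ρ + wt a q ρ + 99 * eval a p ρ + 99
  | get A i, ρ => wt a i ρ + a A (eval a i ρ) + 99
  | ite u v p q, ρ => wt a u ρ + wt a v ρ +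
      (if eval a u ρ < eval a v ρ then wt a p ρ else wt a q ρ) + 99
  | sum x n e, ρ => wt a n ρ +
      ∑ k ∈ range (eval a n ρ), (wt a e (ρ.set x k) + 99) + ρ x + 99
  | fnd x n e, ρ => wt a n ρ +
      ∑ k ∈ range (eval a n ρ), (wt a e (ρ.set x k) + 99) + ρ x + 99
  | fold x y n i c e, ρ => wt a n ρ + wt a i ρ + wt a c ρ +
      ∑ k ∈ range (eval a n ρ), (wt a e ((ρ.set x k).set y
        (iter (fun k w => min (eval a e ((ρ.set x k).set y w)) (eval a c ρ)) (eval a i ρ) k))
          + 99) + ρ x + ρ y + 99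

/-- The constants, local variables and arrays are small, and `B` is not read. -/
def wf (B : ℕ) : RE → Bool
  | const _ => true
  | var x => decide (x < 100)
  | add p q => wf B p && wf B q
  | sub p q => wf B p && wf B q
  | mul p q => wf B p && wf B q
  | div p q => wf B p && wf B q
  | mod p q => wf B p && wf B q
  | get A i => decide (A < 120) && decide (A ≠ B) && wf B i
  | ite u v p q => wf B u && wf B v && wf B p && wf B q
  | sum x n e => decide (x < 100) && wf B n && wf B e
  | fnd x n e => decide (x < 100) && wf B n && wf B e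
  | fold x y n i c e => decide (x < 100) && decide (y < 100) && decide (x ≠ y) &&
      wf B n && wf B i && wf B c && wf B e

instance : Add RE := ⟨RE.add⟩
instance : Sub RE := ⟨RE.sub⟩
instance : Mul RE := ⟨RE.mul⟩
instance : Div RE := ⟨RE.div⟩
instance : Mod RE := ⟨RE.mod⟩
instance (n : ℕ) : OfNat RE n := ⟨RE.const n⟩

/-- `1` if `p < q`, else `0` -/
def lt (p q : RE) : RE := ite p q (const 1) (const 0)
/-- `1` if `p = q`, else `0` -/
def eq (p q : RE) : RE := ite p q (const 0) (ite q p (const 0) (const 1))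

/-- A scalar (the cell 0 of an array). -/
def sc (A : ℕ) : RE := get A (const 0)

section eval_lemmas

variable (a : Ar) (ρ : Loc)

@[simp] theorem eval_const (c : ℕ) : (const c).eval a ρ = c := rfl
@[simp] theorem eval_ofNat (c : ℕ) : RE.eval a (OfNat.ofNat c : RE) ρ = c := rfl
@[simp] theorem eval_var (x : ℕ) : (var x).eval a ρ = ρ x := rfl
@[simp] theorem eval_add (p q : RE) : (p + q).eval a ρ = p.eval a ρ + q.eval a ρ := rfl
@[simp] theorem eval_sub (p q : RE) : (p - q).eval a ρ = p.eval a ρ - q.eval a ρ := rfl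
@[simp] theorem eval_mul (p q : RE) : (p * q).eval a ρ = p.eval a ρ * q.eval a ρ := rfl
@[simp] theorem eval_div (p q : RE) : (p / q).eval a ρ = p.eval a ρ / q.eval a ρ := rfl
@[simp] theorem eval_mod (p q : RE) : (p % q).eval a ρ = p.eval a ρ % q.eval a ρ := rfl
@[simp] theorem eval_get (A : ℕ) (i : RE) : (get A i).eval a ρ = a A (i.eval a ρ) := rfl
@[simp] theorem eval_ite (u v p q : RE) : (ite u v p q).eval a ρ =
    if u.eval a ρ < v.eval a ρ then p.eval a ρ else q.eval a ρ := rfl
@[simp] theorem eval_sum (x : ℕ) (n e : RE) : (sum x n e).eval a ρ =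
    ∑ k ∈ range (n.eval a ρ), e.eval a (ρ.set x k) := rfl
@[simp] theorem eval_fnd (x : ℕ) (n e : RE) : (fnd x n e).eval a ρ =
    firstPos (fun k => e.eval a (ρ.set x k)) (n.eval a ρ) := rfl
@[simp] theorem eval_fold (x y : ℕ) (n i c e : RE) : (fold x y n i c e).eval a ρ =
    iter (fun k w => min (e.eval a ((ρ.set x k).set y w)) (c.eval a ρ)) (i.eval a ρ)
      (n.eval a ρ) := rfl
@[simp] theorem eval_sc (A : ℕ) : (sc A).eval a ρ = a A 0 := rfl

@[simp] theorem eval_lt (p q : RE) : (lt p q).eval a ρ =
    if p.eval a ρ < q.eval a ρ then 1 else 0 := rfl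

@[simp] theorem eval_eq (p q : RE) : (eq p q).eval a ρ =
    if p.eval a ρ = q.eval a ρ then 1 else 0 := by
  simp only [eq, eval_ite, eval_const]
  by_cases h1 : p.eval a ρ < q.eval a ρ
  · simp [h1, h1.ne]
  · by_cases h2 : q.eval a ρ < p.eval a ρ
    · simp [h1, h2, h2.ne']
    · have : p.eval a ρ = q.eval a ρ := by omega
      simp [this]

end eval_lemmas

end RE

@[simp] theorem Loc.set_self (ρ : Loc) (x v : ℕ) : (ρ.set x v) x = v := by simp [Loc.set]

theorem Loc.set_ne (ρ : Loc) {x y : ℕ} (v : ℕ) (h : y ≠ x) : (ρ.set x v) y = ρ y := by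
  simp [Loc.set, h]

theorem Loc.set_apply (ρ : Loc) (x v y : ℕ) : (ρ.set x v) y = if y = x then v else ρ y := rfl

/-- The local variables in a stage: `0` is the index. -/
def loc0 (k : ℕ) : Loc := fun x => if x = 0 then k else 0

@[simp] theorem loc0_zero (k : ℕ) : loc0 k 0 = k := rfl

/-- Write a cell. -/
def setA (a : Ar) (A i v : ℕ) : Ar := fun B j => if B = A ∧ j = i then v else a B j

/-- Stages. -/
inductive Stg : Type
  /-- `put A i e`: the cell `i` of `A` becomes `e` -/
  | put : ℕ → RE → RE → Stg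
  /-- `fill A n e`: the cells `0, ..., n - 1` of `A` become `e` -/
  | fill : ℕ → RE → RE → Stg
  /-- `recf A n c e`: the cells `0, ..., n - 1` of `A` become `min e c`, one after the other;
  `e` may read the cells of `A` computed before -/
  | recf : ℕ → RE → RE → RE → Stg

namespace Stg

/-- The array written by a stage. -/
def tgt : Stg → ℕ
  | put A _ _ => A
  | fill A _ _ => A
  | recf A _ _ _ => A

/-- The effect of a stage. -/
def run (a : Ar) : Stg → Ar
  | put A i e => setA a A (i.eval a (loc0 0)) (e.eval a (loc0 0))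
  | fill A n e => iter (fun k b => setA b A k (e.eval b (loc0 k))) a (n.eval a (loc0 0))
  | recf A n c e => iter (fun k b => setA b A k (min (e.eval b (loc0 k)) (c.eval a (loc0 0)))) a
      (n.eval a (loc0 0))

/-- A bound for the time. -/
def cost (a : Ar) : Stg → ℕ
  | put _ i e => i.cost a (loc0 0) + e.cost a (loc0 0) + 99
  | fill A n e => n.cost a (loc0 0) + 99 + ∑ k ∈ range (n.eval a (loc0 0)),
      (e.cost (iter (fun k b => setA b A k (e.eval b (loc0 k))) a k) (loc0 k) + 99)
  | recf A n c e => n.cost a (loc0 0) + c.cost a (loc0 0) + 99 + ∑ k ∈ range (n.eval a (loc0 0)),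
      (e.cost (iter (fun k b => setA b A k (min (e.eval b (loc0 k)) (c.eval a (loc0 0)))) a k)
        (loc0 k) + 99)

/-- A bound for the numbers. -/
def wt (a : Ar) : Stg → ℕ
  | put _ i e => i.wt a (loc0 0) + e.wt a (loc0 0) + 99
  | fill A n e => n.wt a (loc0 0) + 99 + ∑ k ∈ range (n.eval a (loc0 0)),
      (e.wt (iter (fun k b => setA b A k (e.eval b (loc0 k))) a k) (loc0 k) + 99)
  | recf A n c e => n.wt a (loc0 0) + c.wt a (loc0 0) + 99 + ∑ k ∈ range (n.eval a (loc0 0)),
      (e.wt (iter (fun k b => setA b A k (min (e.eval b (loc0 k)) (c.eval a (loc0 0)))) a k)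
        (loc0 k) + 99)

/-- Well formed stages. -/
def wf : Stg → Bool
  | put A i e => decide (A < 120) && i.wf 120 && e.wf 120
  | fill A n e => decide (A < 120) && n.wf 120 && e.wf A
  | recf A n c e => decide (A < 120) && n.wf 120 && c.wf 120 && e.wf 120

/-- The effect of a list of stages. -/
def runs : List Stg → Ar → Ar
  | [], a => a
  | g :: l, a => runs l (g.run a)

/-- A bound for the time. -/
def costs : List Stg → Ar → ℕ
  | [], _ => 99
  | g :: l, a => g.cost a + costs l (g.run a) + 99

/-- A bound for the numbers. -/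
def wts : List Stg → Ar → ℕ
  | [], _ => 99
  | g :: l, a => g.wt a + wts l (g.run a) + 99

end Stg

end Pool.Agent.OMVU
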