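import Mathlib
import Pool.Agent.OMVU.Lang

/-! The numbers which occur in the algorithm. -/

namespace Pool.Agent.OMVU

open Finset

/-- The digit `p` of `v` in base `B`. -/
def dg (B v p : ℕ) : ℕ := v / B ^ p % B

/-- The degree `D`. -/
def pD (b : ℕ) : ℕ := 2 ^ b
/-- The number of blocks `M`. -/
def pM (b : ℕ) : ℕ := 2 ^ (b + 18)
/-- The degree of the field. -/
def pe (b : ℕ) : ℕ := 2 * b + 21
/-- The size of the field. -/
def pq (b : ℕ) : ℕ := 2 ^ pe b
/-- `h`, so that `q = D (2 h + 2)`. -/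
def ph (b : ℕ) : ℕ := 4 * pM b - 1
/-- The length of the code. -/
def pl (b : ℕ) : ℕ := 2 * pD b - 1
/-- The number of symbols of an address. -/
def pK (b : ℕ) : ℕ := pl b * 4096
/-- The number of addresses. -/
def pQ (b : ℕ) : ℕ := pq b ^ pK b
/-- The number of classes. -/
def pC (b : ℕ) : ℕ := 2 ^ pD b
/-- The number of bit vectors. -/
def pB (b : ℕ) : ℕ := 2 ^ pM b
/-- The number of columns (symbols) in a group. -/
def pN (b : ℕ) : ℕ := pC b * pB b
/-- The number of values of one block of a row. -/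
def pRb (b : ℕ) : ℕ := pD b * pD b * (2 * ph b * ph b)
/-- The number of rows in a group. -/
def pR (b : ℕ) : ℕ := pRb b ^ pM b
/-- The number of grid cells. -/
def pG (b : ℕ) : ℕ := pq b ^ (2 * pM b)

/-- The size condition for the number of rows of the matrix. -/
def pE (b : ℕ) : ℕ := 2 ^ (b + 20) * (2 * b + 21)
/-- The size condition for the number of columns of the matrix. -/
def pF (b : ℕ) : ℕ := 2 ^ (b + 20)

/-- The choice of `b`. -/
def bsel (m n : ℕ) : ℕ := ∑ x ∈ range (Nat.log 2 m),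
  if 16 * pE (x + 1) ≤ Nat.log 2 m ∧ 16 * pF (x + 1) ≤ Nat.log 2 n then 1 else 0

/-- `m` and `n` are large. -/
structure Big (m n b : ℕ) : Prop where
  sel : b = bsel m n
  four : 4 ≤ b
  hm : 16 * pE b ≤ Nat.log 2 m
  hn : 16 * pF b ≤ Nat.log 2 n

/-- The exponent of the row `τ` at the coordinate `p = 2 i + ω`. -/
def rv (b τ p : ℕ) : ℕ :=
  if p % 2 = 0 then
    pD b * (dg (pRb b) τ (p / 2) / (pD b * pD b) % (2 * ph b) + 1) +
      dg (pRb b) τ (p / 2) % pD b
  else
    pD b * (2 * (dg (pRb b) τ (p / 2) / (pD b * pD b) / (2 * ph b)) +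
      (dg (pRb b) τ (p / 2) / (pD b * pD b) % (2 * ph b) + 1) % 2 + 1) +
      dg (pRb b) τ (p / 2) / pD b % pD b

/-- The exponent of the column `l` at the coordinate `p`; `sg c` is the sign word of the
class `c`. -/
def uv (b : ℕ) (sg : ℕ → ℕ) (l p : ℕ) : ℕ :=
  if l % pB b / 2 ^ (p / 2) % 2 = 1 ∧ sg (l / pB b) / 2 ^ (p / 2) % 2 = p % 2 then 1 else 0

/-- The block `i` is clean for the row `τ` and the bits `β`. -/
def cln (b τ β i : ℕ) : ℕ :=
  β / 2 ^ i % 2 * (if 16 * (rv b τ (2 * i) % pD b) < pD b then 1 else 0) *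
    (if 16 * (rv b τ (2 * i + 1) % pD b) < pD b then 1 else 0)

/-- The number of clean blocks where `x` and `y` agree. -/
def agc (b τ β x y : ℕ) : ℕ := ∑ i ∈ range (pM b),
  cln b τ β i * (if x / 2 ^ i % 2 = y / 2 ^ i % 2 then 1 else 0)

/-- The number of clean blocks where `x` and `y` differ. -/
def dfc (b τ β x y : ℕ) : ℕ := ∑ i ∈ range (pM b),
  cln b τ β i * (1 - (if x / 2 ^ i % 2 = y / 2 ^ i % 2 then 1 else 0))

/-- `1` if the pair (row, bits) with the number `p = τ 2^M + β` is bad, else `0`. -/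
def bad (b : ℕ) (sg : ℕ → ℕ) (p : ℕ) : ℕ :=
  if 0 < ∑ c ∈ range (pC b), ∑ c' ∈ range c,
    (if 3 * dfc b (p / pB b) (p % pB b) (sg c) (sg c') <
      agc b (p / pB b) (p % pB b) (sg c) (sg c') + 1 then 1 else 0) then 1 else 0

/-- The number of agreements of two words of length `m` over `{0, ..., B - 1}`. -/
def agr (B m x y : ℕ) : ℕ := ∑ j ∈ range m, if dg B x j = dg B y j then 1 else 0

/-- Properties of the code. -/
structure CodeOK (b : ℕ) (cd : ℕ → ℕ) : Prop where
  lt : ∀ c < pC b, cd c < 4096 ^ pl b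
  agr : ∀ c < pC b, ∀ c' < c, 4 * agr 4096 (pl b) (cd c) (cd c') ≤ pD b

/-- Properties of the sign words. -/
structure SignOK (b : ℕ) (sg : ℕ → ℕ) : Prop where
  lt : ∀ c < pC b, sg c < pB b
  agr : ∀ c < pC b, ∀ c' < c, 8 * OMVU.agr 2 (pM b) (sg c) (sg c') ≤ 5 * pM b

/-! ### The field -/

/-- Multiplication by the variable. -/
def xtime (q p a : ℕ) : ℕ := if a + a < q then a + a else (a + a - q) ^^^ p

/-- Multiplication of polynomials modulo `X ^ e + p`. -/
def mulp (q e p x y : ℕ) : ℕ :=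
  iter (fun k w => xtime q p w ^^^ (y / 2 ^ (e - 1 - k) % 2 * x)) 0 e

/-- No zero divisors. -/
def NoZD (q e p : ℕ) : Prop := ∀ x < q, ∀ y < q, 0 < x → 0 < y → 0 < mulp q e p x y

/-- A field of characteristic two on the numbers below `q = 2 ^ e`, with exclusive or as
addition and `mt` as multiplication. -/
structure FD (e q : ℕ) (mt : ℕ → ℕ → ℕ) where
  F : Type
  [fld : Field F]
  [fin : Fintype F]
  [chr : CharP F 2]
  card : Fintype.card F = q
  φ : ℕ → F
  inj : ∀ x < q, ∀ y < q, φ x = φ y → x = y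
  surj : ∀ z : F, ∃ x < q, φ x = z
  zero : φ 0 = 0
  one : φ 1 = 1
  add : ∀ x < q, ∀ y < q, φ (x ^^^ y) = φ x + φ y
  lt : ∀ x < q, ∀ y < q, mt x y < q
  mul : ∀ x < q, ∀ y < q, φ (mt x y) = φ x * φ y

attribute [instance] FD.fld FD.fin FD.chr

/-- The scalar product of two bit words, modulo two. -/
def par (e f x : ℕ) : ℕ := (∑ j ∈ range e, f / 2 ^ j % 2 * (x / 2 ^ j % 2)) % 2

end Pool.Agent.OMVU
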