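import Pool.Agent.OMVU.Sat
import Pool.Agent.OMVU.Spec

/-! The formulas of the algorithm: the stages of the preprocessing and of a query. -/

namespace Pool.Agent.OMVU

open RE Stg

/-! ### Names of the arrays and the scalars -/

/-- matrix: `r * n + c` -/
abbrev aX := 1
/-- vector -/
abbrev aV := 2
/-- powers of two -/
abbrev aP2 := 3
/-- exclusive or: `x * q + y` -/
abbrev aXT := 4
/-- `x * q` -/
abbrev aMQ := 5
/-- product: `x * q + y` -/
abbrev aMT := 6
/-- powers: `x * q + k` -/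
abbrev aPW := 7
/-- code words -/
abbrev aCD := 8
/-- sign words -/
abbrev aSG := 9
/-- powers of `Rb` -/
abbrev aRP := 10
/-- exponents of the rows: `τ * 2M + p` -/
abbrev aRV := 11
/-- bad pairs: `τ * 2^M + β` -/
abbrev aBD := 12
/-- list of the bad pairs -/
abbrev aBL := 13
/-- monomials of the columns: `v * N + l` -/
abbrev aMC := 14
/-- coefficients of the addresses: `(u * K + k) * N + l` -/
abbrev aCA := 15
/-- number of bad pairs before the row `τ` -/
abbrev aBS := 16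
/-- elementary symmetric functions: `c * Q + w` -/
abbrev aED := 17
/-- multipliers of functionals -/
abbrev aMU := 18
/-- multipliers of the matrix: `((g * R) + τ) * N + l`, `g = jj * Gc + i` -/
abbrev aMM := 19
/-- monomials of the pairs (row, column): `(v * R + τ) * N + l` -/
abbrev aMK := 20
/-- the tables: `(g * t + u) * Q + w` -/
abbrev aTT := 21
abbrev aUB := 22
abbrev aXB := 23
abbrev aPQ := 24
abbrev aKN := 25
abbrev aPV := 26
abbrev aTQ := 27
abbrev aKM := 28
abbrev aDD := 29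
abbrev aWF := 30
abbrev aWP := 31
abbrev aWS := 32
abbrev aWD := 33
abbrev aKA := 34
abbrev aOW := 35
abbrev aOZ := 36
abbrev aON := 37
/-- symbols of the vector -/
abbrev aXS := 38
/-- addresses -/
abbrev aAD := 39
/-- prefix sums of the table values -/
abbrev aZ := 40
/-- the transform -/
abbrev aW := 41
/-- output -/
abbrev aOUT := 42

/-- number of rows of the matrix -/
abbrev sm := 50
/-- number of columns of the matrix -/
abbrev sn := 51
abbrev slm := 52
abbrev sln := 53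
abbrev sb := 54
abbrev sD := 55
abbrev sM := 56
abbrev se := 57
abbrev sq := 58
abbrev sh := 59
abbrev sl := 60
abbrev sK := 61
abbrev sQ := 62
abbrev sC := 63
abbrev sB := 64
abbrev sN := 65
abbrev sRb := 66
abbrev sR := 67
abbrev sM2 := 68
abbrev sG := 69
abbrev sS := 70
abbrev sNe := 71
/-- number of column groups -/
abbrev sGc := 72
/-- number of row groups -/
abbrev sJ := 73
abbrev sp := 74
abbrev snb := 75
abbrev st := 76
abbrev sGt := 77
abbrev sZn := 78
abbrev sWn := 79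

/-! ### Abbreviations for expressions -/

def P2 (i : RE) : RE := get aP2 i
/-- the bit `i` of `x` -/
def bitE (x i : RE) : RE := x / P2 i % 2
def xorE (x y : RE) : RE := get aXT (get aMQ x + y)
def mtE (x y : RE) : RE := get aMT (get aMQ x + y)
def pwE (x k : RE) : RE := get aPW (get aMQ x + k)
/-- `if 0 < c then p else q` -/
def ifE (c p q : RE) : RE := ite 0 c p q
def xtE (w p : RE) : RE := ite (w + w) (sc sq) (w + w) (xorE (w + w - sc sq) p)
def mulE (p x y : RE) : RE :=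
  fold 10 11 (sc se) 0 (sc sq) (xorE (xtE (var 11) p) (bitE y (sc se - 1 - var 10) * x))
/-- digit `p` of `v` in base `q` -/
def dgE (v p : RE) : RE := v / P2 (sc se * p) % sc sq
/-- digit `j` of a code word -/
def cdE (y j : RE) : RE := y / P2 (12 * j) % 4096
/-- the exponent of the column `l` at `p` -/
def uE (l p : RE) : RE :=
  eq (bitE (l % sc sB) (p / 2)) 1 * eq (bitE (get aSG (l / sc sB)) (p / 2)) (p % 2)

/-! ### Preprocessing: scalars -/

def gP2 : Stg := recf aP2 (sc sm + sc sn + 100) (sc sm + sc sn + 1)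
  (ite (var 0) 1 1 (get aP2 (var 0 - 1) + get aP2 (var 0 - 1)))
def glm : Stg := put slm 0 (sum 1 (sc sm) (lt (P2 (var 1 + 1)) (sc sm + 1)))
def gln : Stg := put sln 0 (sum 1 (sc sn) (lt (P2 (var 1 + 1)) (sc sn + 1)))
def gb : Stg := put sb 0 (sum 1 (sc slm)
  (lt (16 * (P2 (var 1 + 21) * (2 * var 1 + 23))) (sc slm + 1) *
    lt (16 * P2 (var 1 + 21)) (sc sln + 1)))
def gD : Stg := put sD 0 (P2 (sc sb))
def gM : Stg := put sM 0 (P2 (sc sb + 18))
def ge : Stg := put se 0 (2 * sc sb + 21)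
def gq : Stg := put sq 0 (P2 (sc se))
def gh : Stg := put sh 0 (4 * sc sM - 1)
def gl : Stg := put sl 0 (2 * sc sD - 1)
def gK : Stg := put sK 0 (sc sl * 4096)
def gQ : Stg := put sQ 0 (P2 (sc se * sc sK))
def gC : Stg := put sC 0 (P2 (sc sD))
def gB : Stg := put sB 0 (P2 (sc sM))
def gN : Stg := put sN 0 (sc sC * sc sB)
def gRb : Stg := put sRb 0 (sc sD * sc sD * (2 * sc sh * sc sh))
def gRP : Stg := recf aRP (sc sM + 1) (sc sm + 1) (ite (var 0) 1 1 (get aRP (var 0 - 1) * sc sRb))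
def gR : Stg := put sR 0 (get aRP (sc sM))
def gM2 : Stg := put sM2 0 (2 * sc sM)
def gG : Stg := put sG 0 (P2 (sc se * sc sM2))
def gS : Stg := put sS 0 (P2 (12 * sc sl))
def gNe : Stg := put sNe 0 (sc sN * sc se)
def gGc : Stg := put sGc 0 (sc sn / sc sNe + 1)
def gJ : Stg := put sJ 0 (sc sm / sc sR + 1)

def preScal : List Stg := [gP2, glm, gln, gb, gD, gM, ge, gq, gh, gl, gK, gQ, gC, gB, gN, gRb,
  gRP, gR, gM2, gG, gS, gNe, gGc, gJ]

/-! ### Preprocessing: the field -/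

def gXT : Stg := fill aXT (sc sq * sc sq) (sum 1 (sc se)
  ((var 0 / sc sq / P2 (var 1) + var 0 % sc sq / P2 (var 1)) % 2 * P2 (var 1)))
def gMQ : Stg := fill aMQ (sc sq) (var 0 * sc sq)
def gp : Stg := put sp 0 (fnd 1 (sc sq) (eq (sum 2 (sc sq) (sum 3 (sc sq)
  (lt 0 (var 2) * lt 0 (var 3) * eq (mulE (var 1) (var 2) (var 3)) 0))) 0))
def gMT : Stg := fill aMT (sc sq * sc sq) (mulE (sc sp) (var 0 / sc sq) (var 0 % sc sq))
def gPW : Stg := fill aPW (sc sq * sc sq)
  (fold 1 2 (var 0 % sc sq) 1 (sc sq) (mtE (var 2) (var 0 / sc sq)))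

def preField : List Stg := [gXT, gMQ, gp, gMT, gPW]

/-! ### Preprocessing: code, signs, rows, bad pairs -/

def gCD : Stg := recf aCD (sc sC) (sc sS) (fnd 1 (sc sS) (eq (sum 2 (var 0)
  (lt (sc sD) (4 * sum 3 (sc sl) (eq (cdE (var 1) (var 3)) (cdE (get aCD (var 2)) (var 3)))))) 0))
def gSG : Stg := recf aSG (sc sC) (sc sB) (fnd 1 (sc sB) (eq (sum 2 (var 0)
  (lt (5 * sc sM) (8 * sum 3 (sc sM)
    (eq (bitE (var 1) (var 3)) (bitE (get aSG (var 2)) (var 3)))))) 0))

/-- the digit of the row -/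
def rdE : RE := var 0 / sc sM2 / get aRP (var 0 % sc sM2 / 2) % sc sRb

def gRV : Stg := fill aRV (sc sR * sc sM2) (ite (var 0 % sc sM2 % 2) 1
  (sc sD * (rdE / (sc sD * sc sD) % (2 * sc sh) + 1) + rdE % sc sD)
  (sc sD * (2 * (rdE / (sc sD * sc sD) / (2 * sc sh)) +
    (rdE / (sc sD * sc sD) % (2 * sc sh) + 1) % 2 + 1) + rdE / sc sD % sc sD))

/-- the block `i` is clean -/
def clE (i : RE) : RE := bitE (var 0 % sc sB) i *
  lt (16 * (get aRV (var 0 / sc sB * sc sM2 + 2 * i) % sc sD)) (sc sD) *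
  lt (16 * (get aRV (var 0 / sc sB * sc sM2 + (2 * i + 1)) % sc sD)) (sc sD)

def gBD : Stg := fill aBD (sc sR * sc sB) (lt 0 (sum 1 (sc sC) (sum 2 (var 1)
  (lt (3 * sum 3 (sc sM) (clE (var 3) *
      (1 - eq (bitE (get aSG (var 1)) (var 3)) (bitE (get aSG (var 2)) (var 3)))))
    (sum 3 (sc sM) (clE (var 3) *
      eq (bitE (get aSG (var 1)) (var 3)) (bitE (get aSG (var 2)) (var 3))) + 1)))))
def gnb : Stg := put snb 0 (sum 1 (sc sR * sc sB) (get aBD (var 1)))
def gBL : Stg := recf aBL (sc snb) (sc sR * sc sB) (fnd 1 (sc sR * sc sB)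
  (ite (var 0) 1 1 (lt (get aBL (var 0 - 1)) (var 1)) * get aBD (var 1)))
def gt : Stg := put st 0 (sc sG + sc snb * sc sC)
def gGt : Stg := put sGt 0 (sc sGc * sc st)
def gBS : Stg := fill aBS (sc sR + 1) (sum 1 (var 0 * sc sB) (get aBD (var 1)))

def preCode : List Stg := [gCD, gSG, gRV, gBD, gnb, gBL, gt, gGt, gBS]

/-! ### Preprocessing: the gadget -/

def gMC : Stg := fill aMC (sc sG * sc sN) (fold 1 2 (sc sM2) 1 (sc sq)
  (mtE (var 2) (ifE (uE (var 0 % sc sN) (var 1)) (dgE (var 0 / sc sN) (var 1)) 1)))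

/-- the cell `u` in `gCA` -/
def cuE : RE := var 0 / (sc sK * sc sN)
/-- the symbol `k` in `gCA` -/
def ckE : RE := var 0 / sc sN % sc sK
/-- the column `l` in `gCA` -/
def clmE : RE := var 0 % sc sN

def gCA : Stg := fill aCA (sc st * (sc sK * sc sN)) (ite cuE (sc sG)
  (eq (cdE (get aCD (clmE / sc sB)) (ckE / 4096)) (ckE % 4096) * get aMC (cuE * sc sN + clmE))
  (eq ckE 0 * eq clmE ((cuE - sc sG) % sc sC * sc sB +
    get aBL ((cuE - sc sG) / sc sC) % sc sB)))

/-- the symbol read by the class `c` in the coordinate `j`, from the address `w` -/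
def symE (c w j : RE) : RE := dgE w (j * 4096 + cdE (get aCD c) j)

def gED : Stg := fill aED (sc sC * sc sQ) (fold 1 2 (P2 (sc sl)) 0 (sc sq) (xorE (var 2)
  (ifE (eq (sum 3 (sc sl) (bitE (var 1) (var 3))) (sc sD))
    (fold 4 5 (sc sl) 1 (sc sq) (mtE (var 5)
      (ifE (bitE (var 1) (var 4)) (symE (var 0 / sc sQ) (var 0 % sc sQ) (var 4)) 1))) 0)))

def gMU : Stg := fill aMU (sc sq) (fnd 1 (sc sq) (eq (sum 2 (sc sq)
  (1 - eq (mtE (var 1) (pwE (var 2) (sc sD)) % 2)
    (sum 3 (sc se) (bitE (var 0) (var 3) * bitE (var 2) (var 3)) % 2))) 0))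

/-- the entry of the matrix (zero outside) -/
def matE (r c : RE) : RE := lt r (sc sm) * lt c (sc sn) * get aX (r * sc sn + c)

def gMM : Stg := fill aMM (sc sJ * (sc sGc * (sc sR * sc sN))) (get aMU (sum 1 (sc se)
  (matE (var 0 / (sc sR * sc sN) / sc sGc * sc sR + var 0 / sc sN % sc sR)
    (var 0 / (sc sR * sc sN) % sc sGc * sc sNe + (var 0 % sc sN * sc se + var 1)) *
    P2 (var 1))))

def gMK : Stg := fill aMK (sc sG * (sc sR * sc sN)) (fold 1 2 (sc sM2) 1 (sc sq) (mtE (var 2)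
  (pwE (dgE (var 0 / (sc sR * sc sN)) (var 1))
    (get aRV (var 0 / sc sN % sc sR * sc sM2 + var 1) - sc sD * uE (var 0 % sc sN) (var 1)))))

/-- the block `g` in `gTT` -/
def tgE : RE := var 0 / (sc st * sc sQ)
/-- the cell `u` in `gTT` -/
def tuE : RE := var 0 / sc sQ % sc st
/-- the address `w` in `gTT` -/
def twE : RE := var 0 % sc sQ
/-- the bad pair of a cell -/
def tbE : RE := get aBL ((tuE - sc sG) / sc sC)

def gTT : Stg := fill aTT (sc sJ * (sc sGc * (sc st * sc sQ))) (ite tuE (sc sG)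
  (fold 1 2 (sc sR) 0 (sc sq) (xorE (var 2) (fold 3 4 (sc sN) 0 (sc sq) (xorE (var 4)
    (ite (get aBD (var 1 * sc sB + var 3 % sc sB)) 1
      (mtE (mtE (get aMM ((tgE * sc sR + var 1) * sc sN + var 3))
          (get aMK ((tuE * sc sR + var 1) * sc sN + var 3)))
        (get aED (var 3 / sc sB * sc sQ + twE))) 0)))))
  (mtE (get aMM ((tgE * sc sR + tbE / sc sB) * sc sN +
      ((tuE - sc sG) % sc sC * sc sB + tbE % sc sB)))
    (pwE (twE % sc sq) (sc sD))))

def preGad : List Stg := [gMC, gCA, gED, gMU, gMM, gMK, gTT]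

/-! ### Preprocessing: index tables for the query -/

def gUB : Stg := fill aUB (sc sGt) (var 0 % sc st * (sc sK * sc sN))
def gXB : Stg := fill aXB (sc sGt) (var 0 / sc st * sc sN)
def gPQ : Stg := fill aPQ (sc sK) (P2 (sc se * var 0))
def gKN : Stg := fill aKN (sc sK) (var 0 * sc sN)
def gZn : Stg := put sZn 0 (sc sJ * sc sGt + 1)
def gPV : Stg := fill aPV (sc sZn) (ite ((var 0 - 1) / sc st % sc sGc) 1 0 (var 0 - sc st))
def gTQ : Stg := fill aTQ (sc sZn) ((var 0 - 1) * sc sQ)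
def gKM : Stg := fill aKM (sc sZn) ((var 0 - 1) % sc sGt)
def gDD : Stg := fill aDD (sc sq * sc sq) (pwE (var 0 % sc sq) (sc sq - 1 - var 0 / sc sq))
def gWn : Stg := put sWn 0 (sc sJ * ((sc sM2 + 1) * sc sG))
/-- the step `s` of the transform -/
def wsE : RE := var 0 / sc sG % (sc sM2 + 1)
/-- the row group -/
def wjE : RE := var 0 / ((sc sM2 + 1) * sc sG)
/-- the point `v` -/
def wvE : RE := var 0 % sc sG
def gWF : Stg := fill aWF (sc sWn) wsE
def gWP : Stg := fill aWP (sc sWn) (ite wsE 1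
  ((wjE * sc sGc + (sc sGc - 1)) * sc st + 1 + wvE)
  (var 0 - sc sG - dgE wvE (wsE - 1) * P2 (sc se * (wsE - 1))))
def gWS : Stg := fill aWS (sc sWn) (P2 (sc se * (wsE - 1)))
def gWD : Stg := fill aWD (sc sWn) (dgE wvE (wsE - 1) * sc sq)
def gKA : Stg := fill aKA (sc sR) (sum 1 (sc sM2)
  (get aRV (var 0 * sc sM2 + var 1) * P2 (sc se * var 1)))
def gOW : Stg := fill aOW (sc sm) ((var 0 / sc sR * (sc sM2 + 1) + sc sM2) * sc sG +
  get aKA (var 0 % sc sR))
def gOZ : Stg := fill aOZ (sc sm) ((var 0 / sc sR * sc sGc + (sc sGc - 1)) * sc st + 1 +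
  (sc sG + get aBS (var 0 % sc sR) * sc sC))
def gON : Stg := fill aON (sc sm)
  ((get aBS (var 0 % sc sR + 1) - get aBS (var 0 % sc sR)) * sc sC)

def preIdx : List Stg := [gUB, gXB, gPQ, gKN, gZn, gPV, gTQ, gKM, gDD, gWn, gWF, gWP, gWS, gWD,
  gKA, gOW, gOZ, gON]

/-- The preprocessing. -/
def preL : List Stg := preScal ++ preField ++ preCode ++ preGad ++ preIdx

/-! ### The query -/

def gXS : Stg := fill aXS (sc sGc * sc sN)
  (sum 1 (sc se) (get aV (sc se * var 0 + var 1) * P2 (var 1)))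
def gAD : Stg := fill aAD (sc sGt) (sum 1 (sc sK)
  (fold 2 3 (sc sN) 0 (sc sq) (xorE (var 3)
    (mtE (get aCA (get aUB (var 0) + get aKN (var 1) + var 2))
      (get aXS (get aXB (var 0) + var 2)))) * get aPQ (var 1)))
def gZ : Stg := recf aZ (sc sZn) (sc sq) (ite (var 0) 1 0
  (xorE (get aZ (get aPV (var 0))) (get aTT (get aTQ (var 0) + get aAD (get aKM (var 0))))))
def gW : Stg := recf aW (sc sWn) (sc sq) (ite (get aWF (var 0)) 1
  (get aZ (get aWP (var 0)))
  (fold 1 2 (sc sq) 0 (sc sq) (xorE (var 2) (mtE (get aDD (get aWD (var 0) + var 1))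
    (get aW (get aWP (var 0) + var 1 * get aWS (var 0)))))))
def gOUT : Stg := fill aOUT (sc sm) (fold 1 2 (get aON (var 0)) (get aW (get aOW (var 0)))
  (sc sq) (xorE (var 2) (get aZ (get aOZ (var 0) + var 1))) % 2)

/-- A query. -/
def qryL : List Stg := [gXS, gAD, gZ, gW, gOUT]

theorem preL_ord : Stg.ord preL = true := by decide +kernel

theorem qryL_ord : Stg.ord qryL = true := by decide +kernel

/-- The final arrays of the preprocessing. -/
structure Eqs (m n : ℕ) (X : ℕ → ℕ → ℕ) (a : Ar) : Prop where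
  m0 : a sm 0 = m
  n0 : a sn 0 = n
  mat : ∀ r < m, ∀ c < n, a aX (r * n + c) = X r c
  sat : ∀ g ∈ preL, Stg.Sat a g

end Pool.Agent.OMVU
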