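import Pool.Agent.OMVU.Folds

/-! The coefficients of the addresses. -/

namespace Pool.Agent.OMVU

open Finset

variable {m n b : ℕ} {X : ℕ → ℕ → ℕ} {a : Ar} {mt : ℕ → ℕ → ℕ} {fd : FD (pe b) (pq b) mt}

private theorem pl_le_ca (b : ℕ) : 12 * pl b ≤ 16 * pE b := by
  have h2 : pl b ≤ 2 * 2 ^ b := by unfold pl pD; omega
  have h3 : (2 : ℕ) ^ (b + 20) = 2 ^ b * 1048576 := by rw [pow_add]; norm_num
  have h4 : 2 ^ (b + 20) ≤ pE b := by
    unfold pE
    exact Nat.le_mul_of_pos_right _ (by omega)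
  omega

theorem ca_ok (hE : Eqs m n X a) (hB : Big m n b) (hS : ScalOK m n b a) (hF : FldOK b a fd)
    (hR : RowOK n b a)
    (hmc : ∀ v < pG b, ∀ l < pN b, a aMC (v * pN b + l) < pq b ∧
      fd.φ (a aMC (v * pN b + l)) = monC fd (a aSG) v l) :
    ∀ u < nt b (a aSG), ∀ k < pK b, ∀ l < pN b, a aCA ((u * pK b + k) * pN b + l) < pq b ∧
      fd.φ (a aCA ((u * pK b + k) * pN b + l)) = coefA fd (a aCD) (a aSG) (a aBL) u k l := by
  intro u hu k hk l hl
  have e0 : ∀ ρ : Loc, RE.eval a 0 ρ = 0 := fun _ => rfl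
  have e12 : ∀ ρ : Loc, RE.eval a 12 ρ = 12 := fun _ => rfl
  have e4096 : ∀ ρ : Loc, RE.eval a 4096 ρ = 4096 := fun _ => rfl
  have h0 := hE.sat gCA (by simp [preL, preGad])
  simp only [gCA, cuE, ckE, clmE, cdE, P2, Stg.Sat, RE.eval_sc, RE.eval_get,
    RE.eval_add, RE.eval_sub, RE.eval_mul, RE.eval_div, RE.eval_mod, RE.eval_eq, RE.eval_ite,
    e0, e12, e4096, RE.eval_var, loc0_zero, hS.G0, hS.N0, hS.K0, hS.C0,
    hS.B0, hR.t0] at h0
  have hix : (u * pK b + k) * pN b + l < nt b (a aSG) * (pK b * pN b) := by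
    rw [← mul_assoc]; exact idx_lt (idx_lt hu hk) hl
  have h1 := h0 _ hix
  have hd1 : ((u * pK b + k) * pN b + l) / (pK b * pN b) = u := by
    rw [mul_comm (pK b), ← Nat.div_div_eq_div_mul, idx_div hl, idx_div hk]
  have hd2 : ((u * pK b + k) * pN b + l) / pN b = u * pK b + k := idx_div hl
  have hk' : k / 4096 < pl b := by
    have : k < pl b * 4096 := hk
    omega
  rw [hd1, hd2, idx_mod hk, idx_mod hl,
    hS.p2 (12 * (k / 4096)) (by have := pl_le_ca b; omega)] at h1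
  have h4096 : (2 : ℕ) ^ (12 * (k / 4096)) = 4096 ^ (k / 4096) := by
    rw [pow_mul]; norm_num
  rw [h4096] at h1
  have hq1 : 1 < pq b := by
    unfold pq pe
    exact Nat.one_lt_two_pow (by omega)
  unfold coefA
  by_cases hu' : u < pG b
  · rw [if_pos hu'] at h1 ⊢
    have h2 : a aCD (l / pB b) / 4096 ^ (k / 4096) % 4096 = dg 4096 (a aCD (l / pB b)) (k / 4096) :=
      rfl
    rw [h2] at h1
    obtain ⟨h3, h4⟩ := hmc u hu' l hl
    split_ifs at h1 ⊢ with h5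
    · rw [h1, one_mul]; exact ⟨h3, h4⟩
    · rw [h1, zero_mul, fd.zero]; exact ⟨pq_pos b, rfl⟩
  · rw [if_neg hu'] at h1 ⊢
    by_cases h5 : k = 0
    · rw [if_pos h5] at h1
      by_cases h6 : l = (u - pG b) % pC b * pB b + a aBL ((u - pG b) / pC b) % pB b
      · rw [if_pos h6, one_mul] at h1
        rw [if_pos ⟨h5, h6⟩, h1, fd.one]; exact ⟨hq1, rfl⟩
      · rw [if_neg h6, mul_zero] at h1
        rw [if_neg (fun h => h6 h.2), h1, fd.zero]; exact ⟨pq_pos b, rfl⟩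
    · rw [if_neg h5, zero_mul] at h1
      rw [if_neg (fun h => h5 h.1), h1, fd.zero]; exact ⟨pq_pos b, rfl⟩

end Pool.Agent.OMVU
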