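import Pool.Agent.OMVU.Folds

/-! The elementary symmetric functions. -/

namespace Pool.Agent.OMVU

open Finset

variable {m n b : ℕ} {X : ℕ → ℕ → ℕ} {a : Ar} {mt : ℕ → ℕ → ℕ} {fd : FD (pe b) (pq b) mt}

private theorem bits_inj_ed {l J J' : ℕ} (hJ : J < 2 ^ l) (hJ' : J' < 2 ^ l)
    (h : ∀ j < l, J / 2 ^ j % 2 = J' / 2 ^ j % 2) : J = J' := by
  refine Nat.eq_of_testBit_eq fun j => ?_
  rcases Nat.lt_or_ge j l with hj | hj
  · rw [Nat.testBit_eq_decide_div_mod_eq, Nat.testBit_eq_decide_div_mod_eq, h j hj]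
  · rw [Nat.testBit_lt_two_pow (hJ.trans_le (Nat.pow_le_pow_right (by norm_num) hj)),
      Nat.testBit_lt_two_pow (hJ'.trans_le (Nat.pow_le_pow_right (by norm_num) hj))]

/-- The sum over the subsets of `range l` as a sum over numbers. -/
theorem sum_subsets {R : Type*} [CommSemiring R] (l d : ℕ) (y : ℕ → R) :
    ∑ J ∈ powersetCard d (range l), ∏ j ∈ J, y j =
      ∑ J ∈ range (2 ^ l), if ∑ j ∈ range l, J / 2 ^ j % 2 = d then
        ∏ j ∈ range l, (if 0 < J / 2 ^ j % 2 then y j else 1) else 0 := by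
  classical
  set sof : ℕ → Finset ℕ := fun J => (range l).filter fun j => 0 < J / 2 ^ j % 2 with hsof
  have hcard : ∀ J, (sof J).card = ∑ j ∈ range l, J / 2 ^ j % 2 := by
    intro J
    simp only [hsof]
    rw [card_filter]
    refine sum_congr rfl fun j _ => ?_
    split_ifs with h <;> omega
  have hprod : ∀ J, ∏ j ∈ sof J, y j =
      ∏ j ∈ range l, (if 0 < J / 2 ^ j % 2 then y j else 1) := fun J => prod_filter _ _
  have hinj : Set.InjOn sof (range (2 ^ l) : Set ℕ) := by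
    intro J hJ J' hJ' h
    refine bits_inj_ed (mem_range.1 (mem_coe.1 hJ)) (mem_range.1 (mem_coe.1 hJ')) fun j hj => ?_
    have h1 : j ∈ sof J ↔ j ∈ sof J' := by rw [h]
    simp only [hsof, mem_filter, mem_range, hj, true_and] at h1
    omega
  have himg : (range (2 ^ l)).image sof = powerset (range l) := by
    refine eq_of_subset_of_card_le ?_ ?_
    · intro S hS
      obtain ⟨J, -, rfl⟩ := mem_image.1 hS
      exact mem_powerset.2 (filter_subset _ _)
    · rw [card_powerset, card_range, card_image_of_injOn hinj, card_range]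
  calc _ = ∑ S ∈ powerset (range l), if S.card = d then ∏ j ∈ S, y j else 0 := by
        rw [← sum_filter, powersetCard_eq_filter]
    _ = _ := by
        rw [← himg, sum_image hinj]
        refine sum_congr rfl fun J _ => ?_
        rw [hcard, hprod]

private theorem pe_mul_le_ed {k : ℕ} (hk : k < pK b) : pe b * k ≤ 16 * pE b := by
  have h1 : pK b ≤ 16 * 2 ^ (b + 20) := by
    have h2 : pl b ≤ 2 * 2 ^ b := by unfold pl pD; omega
    have h3 : (2 : ℕ) ^ (b + 20) = 2 ^ b * 1048576 := by rw [pow_add]; norm_num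
    unfold pK
    omega
  calc pe b * k ≤ pe b * (16 * 2 ^ (b + 20)) := Nat.mul_le_mul_left _ (by omega)
    _ = 16 * pE b := by unfold pE pe; ring

private theorem pl_le_ed (b : ℕ) : 12 * pl b ≤ 16 * pE b := by
  have h2 : pl b ≤ 2 * 2 ^ b := by unfold pl pD; omega
  have h3 : (2 : ℕ) ^ (b + 20) = 2 ^ b * 1048576 := by rw [pow_add]; norm_num
  have h4 : 2 ^ (b + 20) ≤ pE b := by
    unfold pE
    exact Nat.le_mul_of_pos_right _ (by omega)
  omega

theorem ed_ok (hE : Eqs m n X a) (hB : Big m n b) (hS : ScalOK m n b a) (hF : FldOK b a fd)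
    (hcd : ∀ c < pC b, a aCD c < 4096 ^ pl b) :
    ∀ c < pC b, ∀ w < pQ b, a aED (c * pQ b + w) < pq b ∧ fd.φ (a aED (c * pQ b + w)) =
      esy fd (a aCD c) (fun k => fd.φ (dg (pq b) w k)) := by
  intro c hc w hw
  have e0 : ∀ ρ : Loc, RE.eval a 0 ρ = 0 := fun _ => rfl
  have e1 : ∀ ρ : Loc, RE.eval a 1 ρ = 1 := fun _ => rfl
  have hED := hE.sat gED (by simp [preL, preGad])
  have hl2 : a aP2 (pl b) = 2 ^ pl b := hS.p2 _ (by have := pl_le_ed b; omega)
  simp only [gED, xorE, mtE, ifE, symE, dgE, cdE, bitE, P2, Stg.Sat, RE.eval_sc, RE.eval_get,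
    RE.eval_add, RE.eval_mul, RE.eval_div, RE.eval_mod, RE.eval_eq, RE.eval_ite, RE.eval_sum,
    RE.eval_fold, e0, e1, RE.eval_var, Loc.set_apply, loc0_zero, hS.C0, hS.Q0,
    hS.l0, hS.D0, hS.q0, hS.e0, hl2] at hED
  have e2 : ∀ ρ : Loc, RE.eval a 2 ρ = 2 := fun _ => rfl
  have e12 : ∀ ρ : Loc, RE.eval a 12 ρ = 12 := fun _ => rfl
  have e4096 : ∀ ρ : Loc, RE.eval a 4096 ρ = 4096 := fun _ => rfl
  simp only [e2, e12, e4096, Nat.reduceEqDiff, reduceIte] at hED
  have h1 := hED _ (idx_lt hc hw)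
  rw [idx_div hw, idx_mod hw] at h1
  have hp2 : ∀ j < pl b, a aP2 j = 2 ^ j := fun j hj =>
    hS.p2 _ (by have := pl_le_ed b; omega)
  have hsy : ∀ j < pl b, w / a aP2 (pe b * (j * 4096 + a aCD c / a aP2 (12 * j) % 4096)) % pq b =
      dg (pq b) w (j * 4096 + dg 4096 (a aCD c) j) := by
    intro j hj
    have h2 : a aP2 (12 * j) = 4096 ^ j := by
      rw [hS.p2 _ (by have := pl_le_ed b; omega), pow_mul]
      norm_num
    have h3 : a aCD c / 4096 ^ j % 4096 < 4096 := Nat.mod_lt _ (by norm_num)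
    have h4 : j * 4096 + a aCD c / 4096 ^ j % 4096 < pK b := by
      unfold pK
      omega
    rw [h2, hS.p2 _ (pe_mul_le_ed h4)]
    unfold dg
    rw [pow_mul]
    rfl
  have hq1 : 1 < pq b := by
    unfold pq pe
    exact Nat.one_lt_two_pow (by omega)
  set G : ℕ → ℕ := fun J => iter (fun k_1 w_2 => min (a aMT (a aMQ w_2 +
    if 0 < J / a aP2 k_1 % 2 then
      w / a aP2 (pe b * (k_1 * 4096 + a aCD c / a aP2 (12 * k_1) % 4096)) % pq b
    else 1)) (pq b)) 1 (pl b) with hG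
  have hin : ∀ J, G J < pq b ∧ fd.φ (G J) = ∏ j ∈ range (pl b),
      (if 0 < J / 2 ^ j % 2 then fd.φ (dg (pq b) w (j * 4096 + dg 4096 (a aCD c) j)) else 1) := by
    intro J
    obtain ⟨h2, h3⟩ := mul_fold (fd := fd) hF (n := pl b) (i := 1)
      (f := fun j => if 0 < J / a aP2 j % 2 then
        w / a aP2 (pe b * (j * 4096 + a aCD c / a aP2 (12 * j) % 4096)) % pq b else 1) hq1
      (fun j _ => by
        show (if 0 < J / a aP2 j % 2 then _ else 1) < pq b
        split_ifs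
        · exact Nat.mod_lt _ (pq_pos b)
        · exact hq1) (fun j _ v => rfl)
    refine ⟨h2, h3.trans ?_⟩
    rw [fd.one, one_mul]
    refine prod_congr rfl fun j hj => ?_
    have hj' := mem_range.1 hj
    show fd.φ (if 0 < J / a aP2 j % 2 then _ else 1) = _
    rw [hp2 j hj', hsy j hj']
    split_ifs
    · rfl
    · exact fd.one
  have h1' : a aED (c * pQ b + w) = iter (fun k w_1 => min (a aXT (a aMQ w_1 +
      if 0 < if ∑ x ∈ range (pl b), k / a aP2 x % 2 = pD b then 1 else 0 then G k else 0))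
      (pq b)) 0 (2 ^ pl b) := h1
  obtain ⟨h2, h3⟩ := xor_fold (fd := fd) hF (n := 2 ^ pl b) (i := 0)
    (f := fun k => if 0 < if ∑ x ∈ range (pl b), k / a aP2 x % 2 = pD b then 1 else 0 then
      G k else 0) (pq_pos b)
    (fun j _ => by
      show (if 0 < if ∑ x ∈ range (pl b), j / a aP2 x % 2 = pD b then 1 else 0 then
        G j else 0) < pq b
      split_ifs <;> first | exact (hin j).1 | exact pq_pos b) (fun j _ v => rfl)
  rw [h1']
  refine ⟨h2, h3.trans ?_⟩
  rw [fd.zero, zero_add]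
  unfold esy
  rw [sum_subsets]
  refine sum_congr rfl fun J _ => ?_
  have h5 : ∑ x ∈ range (pl b), J / a aP2 x % 2 = ∑ x ∈ range (pl b), J / 2 ^ x % 2 :=
    sum_congr rfl fun x hx => by rw [hp2 x (mem_range.1 hx)]
  show fd.φ (if 0 < if ∑ x ∈ range (pl b), J / a aP2 x % 2 = pD b then 1 else 0 then
    G J else 0) = _
  rw [h5]
  by_cases h6 : ∑ x ∈ range (pl b), J / 2 ^ x % 2 = pD b
  · rw [if_pos h6, if_pos h6, if_pos one_pos]
    exact (hin J).2
  · rw [if_neg h6, if_neg h6, if_neg (lt_irrefl 0)]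
    exact fd.zero

end Pool.Agent.OMVU
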