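import Pool.Agent.OMVU.Folds
import Pool.Agent.OMVU.Fld

/-! The tables of the field. -/

namespace Pool.Agent.OMVU

open Finset

variable {m n b : ℕ} {X : ℕ → ℕ → ℕ} {a : Ar}

namespace FieldT

theorem fp_pos (f : ℕ → ℕ) : ∀ n, firstPos f n < n → 0 < f (firstPos f n) := by
  intro n
  induction n with
  | zero => intro h; exact absurd h (Nat.not_lt_zero _)
  | succ n ih =>
    intro h
    rw [firstPos] at h ⊢
    split_ifs at h ⊢ with h1 h2
    · exact ih h1
    · exact h2
    · exact absurd h (lt_irrefl _)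

theorem fp_lt (f : ℕ → ℕ) : ∀ n, (∃ x < n, 0 < f x) → firstPos f n < n := by
  intro n
  induction n with
  | zero => rintro ⟨x, hx, _⟩; exact absurd hx (Nat.not_lt_zero _)
  | succ n ih =>
    rintro ⟨x, hx, hfx⟩
    rw [firstPos]
    split_ifs with h1 h2
    · omega
    · omega
    · exfalso
      rcases Nat.lt_succ_iff_lt_or_eq.1 hx with h3 | h3
      · exact h1 (ih ⟨x, h3, hfx⟩)
      · subst h3
        exact h2 hfx

theorem xor_sum (e : ℕ) : ∀ x y, x < 2 ^ e → y < 2 ^ e →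
    ∑ i ∈ range e, (x / 2 ^ i + y / 2 ^ i) % 2 * 2 ^ i = x ^^^ y := by
  induction e with
  | zero =>
    intro x y hx hy
    have h1 : x = 0 := by simpa using hx
    have h2 : y = 0 := by simpa using hy
    subst h1 h2
    rfl
  | succ e ih =>
    intro x y hx hy
    rw [sum_range_succ']
    have h1 : ∑ i ∈ range e, (x / 2 ^ (i + 1) + y / 2 ^ (i + 1)) % 2 * 2 ^ (i + 1) =
        2 * (x / 2 ^^^ y / 2) := by
      rw [← ih (x / 2) (y / 2) (by rw [pow_succ] at hx; omega) (by rw [pow_succ] at hy; omega),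
        mul_sum]
      refine sum_congr rfl fun i _ => ?_
      rw [pow_succ', ← Nat.div_div_eq_div_mul, ← Nat.div_div_eq_div_mul]
      ring
    rw [h1, pow_zero, Nat.div_one, Nat.div_one, mul_one, ← Nat.xor_mod_two_eq,
      ← Nat.xor_div_two]
    exact Nat.div_add_mod _ 2

end FieldT

open FieldT

/-- the tables before the choice of the field -/
theorem xt_mq (hE : Eqs m n X a) (hS : ScalOK m n b a) :
    (∀ x < pq b, ∀ y < pq b, a aXT (x * pq b + y) = x ^^^ y) ∧
      (∀ x < pq b, a aMQ x = x * pq b) := by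
  have h1 : ∀ k < a sq 0 * a sq 0, a aXT k = ∑ i ∈ range (a se 0),
      ((k / a sq 0 / a aP2 i + k % a sq 0 / a aP2 i) % 2 * a aP2 i) :=
    hE.sat gXT (by simp [preL, preField])
  have h2 : ∀ k < a sq 0, a aMQ k = k * a sq 0 := hE.sat gMQ (by simp [preL, preField])
  rw [hS.q0] at h1 h2
  rw [hS.e0] at h1
  refine ⟨fun x hx y hy => ?_, h2⟩
  rw [h1 _ (idx_lt hx hy), idx_div hy, idx_mod hy, ← xor_sum (pe b) x y hx hy]
  refine sum_congr rfl fun i hi => ?_
  rw [hS.p2 i]
  have := mem_range.1 hi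
  unfold pE
  unfold pe at this
  have h4 : 1 ≤ 2 ^ (b + 20) := Nat.one_le_two_pow
  nlinarith

theorem p2_le (hS : ScalOK m n b a) {i : ℕ} (hi : i < pe b) : a aP2 i = 2 ^ i := by
  refine hS.p2 i ?_
  unfold pE
  unfold pe at hi
  have h4 : 1 ≤ 2 ^ (b + 20) := Nat.one_le_two_pow
  nlinarith

theorem xtime_lt {e p w : ℕ} (hp : p < 2 ^ e) (hw : w < 2 ^ e) : xtime (2 ^ e) p w < 2 ^ e := by
  unfold xtime
  split_ifs with h
  · exact h
  · exact Nat.xor_lt_two_pow (by omega) hp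

theorem bit_mul_lt {q x y k : ℕ} (hx : x < q) : y / k % 2 * x < q := by
  rcases Nat.mod_two_eq_zero_or_one (y / k) with h | h
  · rw [h, zero_mul]
    omega
  · rw [h, one_mul]
    exact hx

/-- The value computed by `mulE`. -/
def mulv (a : Ar) (p x y : ℕ) : ℕ :=
  iter (fun k w => min (a aXT (a aMQ (if w + w < a sq 0 then w + w else
    a aXT (a aMQ (w + w - a sq 0) + p)) + y / a aP2 (a se 0 - 1 - k) % 2 * x)) (a sq 0)) 0
    (a se 0)

theorem mulv_eq (hE : Eqs m n X a) (hS : ScalOK m n b a) {p x y : ℕ} (hp : p < pq b)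
    (hx : x < pq b) : mulv a p x y = mulp (pq b) (pe b) p x y := by
  obtain ⟨hxt, hmq⟩ := xt_mq hE hS
  unfold mulv mulp
  rw [hS.q0, hS.e0]
  refine (iter_ind (f := _) (x := 0) (n := pe b)
    (fun k w => w < pq b ∧ w = iter (fun k w => xtime (pq b) p w ^^^
      (y / 2 ^ (pe b - 1 - k) % 2 * x)) 0 k) ⟨pq_pos b, rfl⟩ ?_).2
  rintro k hk w ⟨h1, h2⟩
  rw [iter_succ, ← h2]
  have e1 : (if w + w < pq b then w + w else a aXT (a aMQ (w + w - pq b) + p)) =
      xtime (pq b) p w := by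
    unfold xtime
    by_cases h : w + w < pq b
    · rw [if_pos h, if_pos h]
    · rw [if_neg h, if_neg h, hmq _ (by omega), hxt _ (by omega) _ hp]
  have h3 : xtime (pq b) p w < pq b := xtime_lt hp h1
  have h4 : y / 2 ^ (pe b - 1 - k) % 2 * x < pq b := bit_mul_lt hx
  have h5 : xtime (pq b) p w ^^^ (y / 2 ^ (pe b - 1 - k) % 2 * x) < pq b :=
    Nat.xor_lt_two_pow h3 h4
  rw [e1, p2_le hS (by omega), hmq _ h3, hxt _ h3 _ h4, min_eq_left h5.le]
  exact ⟨h5, rfl⟩

theorem fld_ok (hE : Eqs m n X a) (hB : Big m n b) (hS : ScalOK m n b a) :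
    ∃ (mt : ℕ → ℕ → ℕ) (fd : FD (pe b) (pq b) mt), FldOK b a fd := by
  obtain ⟨hxt, hmq⟩ := xt_mq hE hS
  have he : 1 ≤ pe b := by
    unfold pe
    omega
  -- the choice of `p`
  let S : ℕ → ℕ := fun p => ∑ x ∈ range (pq b), ∑ y ∈ range (pq b),
    (if 0 < x then 1 else 0) * (if 0 < y then 1 else 0) *
      (if mulv a p x y < 0 then 0 else if 0 < mulv a p x y then 0 else 1)
  let f : ℕ → ℕ := fun p => if S p < 0 then 0 else if 0 < S p then 0 else 1
  have h1 : a sp 0 = firstPos f (a sq 0) := by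
    have h2 : a sp 0 = firstPos (fun p => if (∑ x ∈ range (a sq 0), ∑ y ∈ range (a sq 0),
      (if 0 < x then 1 else 0) * (if 0 < y then 1 else 0) *
        (if mulv a p x y < 0 then 0 else if 0 < mulv a p x y then 0 else 1)) < 0 then 0 else
        if 0 < (∑ x ∈ range (a sq 0), ∑ y ∈ range (a sq 0),
      (if 0 < x then 1 else 0) * (if 0 < y then 1 else 0) *
        (if mulv a p x y < 0 then 0 else if 0 < mulv a p x y then 0 else 1)) then 0 else 1)
          (a sq 0) := hE.sat gp (by simp [preL, preField])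
    rw [h2, hS.q0]
  rw [hS.q0] at h1
  have hf : ∀ p < pq b, (0 < f p ↔ NoZD (pq b) (pe b) p) := by
    intro p hp
    have hterm : ∀ x < pq b, ∀ y < pq b, (((if 0 < x then 1 else 0) * (if 0 < y then 1 else 0) *
        (if mulv a p x y < 0 then 0 else if 0 < mulv a p x y then 0 else 1) : ℕ) = 0 ↔
        (0 < x → 0 < y → 0 < mulp (pq b) (pe b) p x y)) := by
      intro x hx y hy
      rw [mulv_eq hE hS hp hx]
      by_cases h3 : 0 < x <;> by_cases h4 : 0 < y <;>
        by_cases h5 : 0 < mulp (pq b) (pe b) p x y <;> simp [h3, h4, h5]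
    have h6 : 0 < f p ↔ S p = 0 := by
      show 0 < (if S p < 0 then 0 else if 0 < S p then 0 else 1) ↔ _
      by_cases h7 : 0 < S p
      · simp [h7]
        omega
      · have : S p = 0 := by omega
        simp [this]
    rw [h6]
    show (∑ x ∈ range (pq b), ∑ y ∈ range (pq b), _) = 0 ↔ _
    rw [sum_eq_zero_iff]
    constructor
    · intro h8 x hx y hy
      exact (hterm x hx y hy).1 (sum_eq_zero_iff.1 (h8 x (mem_range.2 hx)) y (mem_range.2 hy))
    · intro h8 x hx
      exact sum_eq_zero_iff.2 fun y hy =>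
        (hterm x (mem_range.1 hx) y (mem_range.1 hy)).2 (h8 x (mem_range.1 hx) y
          (mem_range.1 hy))
  obtain ⟨p', hp', hz'⟩ := exists_noZD (pe b) he
  have hlt : a sp 0 < pq b := by
    rw [h1]
    exact fp_lt f (pq b) ⟨p', hp', (hf p' hp').2 hz'⟩
  have hz : NoZD (pq b) (pe b) (a sp 0) := by
    refine (hf _ hlt).1 ?_
    rw [h1]
    exact fp_pos f (pq b) (by rw [← h1]; exact hlt)
  obtain ⟨fd⟩ := field_of_noZD he hlt hz
  have hmt : ∀ k < a sq 0 * a sq 0, a aMT k = mulv a (a sp 0) (k / a sq 0) (k % a sq 0) :=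
    hE.sat gMT (by simp [preL, preField])
  have hpw : ∀ k < a sq 0 * a sq 0, a aPW k = iter (fun _ w => min (a aMT (a aMQ w +
      k / a sq 0)) (a sq 0)) 1 (k % a sq 0) :=
    hE.sat gPW (by simp [preL, preField])
  rw [hS.q0] at hmt hpw
  have hmt' : ∀ x < pq b, ∀ y < pq b, a aMT (x * pq b + y) =
      mulp (pq b) (pe b) (a sp 0) x y := by
    intro x hx y hy
    rw [hmt _ (idx_lt hx hy), idx_div hy, idx_mod hy, mulv_eq hE hS hlt hx]
  have h1q : 1 < pq b := by
    unfold pq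
    exact Nat.one_lt_two_pow (by omega)
  have key : ∀ x < pq b, ∀ k < pq b, a aPW (x * pq b + k) < pq b ∧
      fd.φ (a aPW (x * pq b + k)) = fd.φ x ^ k := by
    intro x hx k hk
    rw [hpw _ (idx_lt hx hk), idx_div hk, idx_mod hk]
    refine iter_ind (f := _) (x := 1) (n := k)
      (fun j w => w < pq b ∧ fd.φ w = fd.φ x ^ j) ⟨h1q, by rw [pow_zero]; exact fd.one⟩ ?_
    rintro j _ w ⟨h2, h3⟩
    rw [hmq w h2, hmt' w h2 x hx]
    have h4 : mulp (pq b) (pe b) (a sp 0) w x < pq b := fd.lt w h2 x hx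
    have h5 : fd.φ (mulp (pq b) (pe b) (a sp 0) w x) = fd.φ w * fd.φ x := fd.mul w h2 x hx
    rw [min_eq_left h4.le, h5, h3, pow_succ]
    exact ⟨h4, rfl⟩
  exact ⟨_, fd, hxt, hmq, hmt', fun x hx k hk => (key x hx k hk).1,
    fun x hx k hk => (key x hx k hk).2⟩

end Pool.Agent.OMVU
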