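import Pool.Agent.OMVU.Folds

/-! The index tables, part 1, and the table of the decoder. -/

namespace Pool.Agent.OMVU

open Finset

variable {m n b : ℕ} {X : ℕ → ℕ → ℕ} {a : Ar} {mt : ℕ → ℕ → ℕ} {fd : FD (pe b) (pq b) mt}

private theorem pe_mul_le_idx1 {k : ℕ} (hk : k < pK b) : pe b * k ≤ 16 * pE b := by
  have h1 : pK b ≤ 16 * 2 ^ (b + 20) := by
    have h2 : pl b ≤ 2 * 2 ^ b := by unfold pl pD; omega
    have h3 : (2 : ℕ) ^ (b + 20) = 2 ^ b * 1048576 := by rw [pow_add]; norm_num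
    unfold pK
    omega
  calc pe b * k ≤ pe b * (16 * 2 ^ (b + 20)) := Nat.mul_le_mul_left _ (by omega)
    _ = 16 * pE b := by unfold pE pe; ring

theorem idx1_ok (hE : Eqs m n X a) (hB : Big m n b) (hS : ScalOK m n b a) (hR : RowOK n b a) :
    Idx1 m n b a := by
  have e0 : ∀ ρ : Loc, RE.eval a 0 ρ = 0 := fun _ => rfl
  have e1 : ∀ ρ : Loc, RE.eval a 1 ρ = 1 := fun _ => rfl
  have hUB := hE.sat gUB (by simp [preL, preIdx])
  have hXB := hE.sat gXB (by simp [preL, preIdx])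
  have hPQ := hE.sat gPQ (by simp [preL, preIdx])
  have hKN := hE.sat gKN (by simp [preL, preIdx])
  have hZn := hE.sat gZn (by simp [preL, preIdx])
  have hPV := hE.sat gPV (by simp [preL, preIdx])
  have hTQ := hE.sat gTQ (by simp [preL, preIdx])
  have hKM := hE.sat gKM (by simp [preL, preIdx])
  simp only [gUB, Stg.Sat, RE.eval_sc, RE.eval_mul, RE.eval_mod, RE.eval_var, loc0_zero, hR.Gt0,
    hR.t0, hS.K0, hS.N0] at hUB
  simp only [gXB, Stg.Sat, RE.eval_sc, RE.eval_mul, RE.eval_div, RE.eval_var, loc0_zero, hR.Gt0,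
    hR.t0, hS.N0] at hXB
  simp only [gPQ, P2, Stg.Sat, RE.eval_sc, RE.eval_get, RE.eval_mul, RE.eval_var, loc0_zero,
    hS.K0, hS.e0] at hPQ
  simp only [gKN, Stg.Sat, RE.eval_sc, RE.eval_mul, RE.eval_var, loc0_zero, hS.K0, hS.N0] at hKN
  simp only [gZn, Stg.Sat, RE.eval_sc, RE.eval_mul, RE.eval_add, e0, e1, hR.Gt0,
    hS.J0] at hZn
  simp only [gPV, Stg.Sat, RE.eval_sc, RE.eval_ite, RE.eval_sub, RE.eval_div, RE.eval_mod,
    e0, e1, RE.eval_var, loc0_zero, hZn, hR.t0, hS.Gc0] at hPV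
  simp only [gTQ, Stg.Sat, RE.eval_sc, RE.eval_mul, RE.eval_sub,
    e1, RE.eval_var, loc0_zero, hZn, hS.Q0] at hTQ
  simp only [gKM, Stg.Sat, RE.eval_sc, RE.eval_mod, RE.eval_sub,
    e1, RE.eval_var, loc0_zero, hZn, hR.Gt0] at hKM
  have key : ∀ jj < nJ m b, ∀ i < nGc n b, ∀ u < nt b (a aSG),
      (jj * nGc n b + i) * nt b (a aSG) + u + 1 <
        nJ m b * (nGc n b * nt b (a aSG)) + 1 := by
    intro jj hj i hi u hu
    have := idx_lt (idx_lt hj hi) hu
    rw [Nat.mul_assoc (nJ m b)] at this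
    omega
  refine ⟨?_, ?_, ?_, ?_, hZn, ?_, ?_, ?_, ?_⟩
  · intro i hi u hu
    rw [hUB _ (idx_lt hi hu), idx_mod hu]
  · intro i hi u hu
    rw [hXB _ (idx_lt hi hu), idx_div hu]
  · intro k hk
    rw [hPQ k hk, hS.p2 _ (pe_mul_le_idx1 hk), pq, pow_mul]
  · intro k hk
    rw [hKN k hk]
  · intro jj hj u hu
    have h0 : 0 < nGc n b := Nat.succ_pos _
    have h1 : jj * nGc n b * nt b (a aSG) + u + 1 < nJ m b * (nGc n b * nt b (a aSG)) + 1 :=
      key jj hj 0 h0 u hu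
    rw [hPV _ h1, Nat.add_sub_cancel, idx_div hu, Nat.mul_mod_left, if_pos Nat.one_pos]
  · intro jj hj i hi u hu
    rw [hPV _ (key jj hj (i + 1) hi u hu), Nat.add_sub_cancel, idx_div hu, idx_mod hi,
      if_neg (by omega)]
    have : (jj * nGc n b + (i + 1)) * nt b (a aSG) =
      (jj * nGc n b + i) * nt b (a aSG) + nt b (a aSG) := by ring
    omega
  · intro k hk
    rw [hTQ _ (by omega), Nat.add_sub_cancel]
  · intro jj hj i hi u hu
    rw [hKM _ (key jj hj i hi u hu), Nat.add_sub_cancel]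
    have h1 : (jj * nGc n b + i) * nt b (a aSG) + u =
      jj * (nGc n b * nt b (a aSG)) + (i * nt b (a aSG) + u) := by ring
    rw [h1, idx_mod (idx_lt hi hu)]

theorem dec_ok (hE : Eqs m n X a) (hB : Big m n b) (hS : ScalOK m n b a) (hF : FldOK b a fd) :
    DecOK b a fd := by
  have e1 : ∀ ρ : Loc, RE.eval a 1 ρ = 1 := fun _ => rfl
  have hDD := hE.sat gDD (by simp [preL, preIdx])
  simp only [gDD, pwE, Stg.Sat, RE.eval_sc, RE.eval_get, RE.eval_add, RE.eval_sub, RE.eval_mul,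
    RE.eval_div, RE.eval_mod, e1, RE.eval_var, loc0_zero, hS.q0] at hDD
  refine ⟨?_, ?_⟩
  · intro y hy x hx
    rw [hDD _ (idx_lt hy hx), idx_div hx, idx_mod hx]
    exact pw_lt' hF hx (by omega)
  · intro y hy x hx
    rw [hDD _ (idx_lt hy hx), idx_div hx, idx_mod hx]
    exact pw_phi hF hx (by omega)

end Pool.Agent.OMVU
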