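import Pool.Agent.OMVU.Folds

/-! The index tables, part 2. -/

namespace Pool.Agent.OMVU

open Finset

variable {m n b : ℕ} {X : ℕ → ℕ → ℕ} {a : Ar}

private theorem pE_eq (b : ℕ) : pE b = 4 * pM b * pe b := by
  unfold pE pM pe
  rw [show b + 20 = (b + 18) + 2 by ring, pow_add]
  ring

private theorem pe_mul_le {b s : ℕ} (hs : s ≤ 2 * pM b) : pe b * s ≤ 16 * pE b := by
  rw [pE_eq]
  calc pe b * s ≤ pe b * (2 * pM b) := Nat.mul_le_mul_left _ hs
    _ ≤ 16 * (4 * pM b * pe b) := by nlinarith [Nat.zero_le (pM b * pe b)]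

private theorem p2_pe (hS : ScalOK m n b a) {s : ℕ} (hs : s ≤ 2 * pM b) :
    a aP2 (pe b * s) = pq b ^ s := by
  rw [hS.p2 _ (pe_mul_le hs), pq, pow_mul]

private theorem pG_pos (b : ℕ) : 0 < pG b := pow_pos (pq_pos b) _

private theorem pR_pos (b : ℕ) : 0 < pR b := by
  have h1 : 0 < pD b := Nat.pow_pos (by omega)
  have h2 : 0 < ph b := by
    have h : 0 < pM b := Nat.pow_pos (by omega)
    show 0 < 4 * pM b - 1
    omega
  exact Nat.pow_pos (Nat.mul_pos (Nat.mul_pos h1 h1) (Nat.mul_pos (Nat.mul_pos (by omega) h2) h2))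

private theorem ev0 (ρ : Loc) : RE.eval a (0 : RE) ρ = 0 := rfl
private theorem ev1 (ρ : Loc) : RE.eval a (1 : RE) ρ = 1 := rfl
private theorem ev2 (ρ : Loc) : RE.eval a (2 : RE) ρ = 2 := rfl

/-- The step. -/
private theorem ix_s {jj s v M G : ℕ} (hs : s < M) (hv : v < G) :
    ((jj * M + s) * G + v) / G % M = s := by
  rw [idx_div hv, idx_mod hs]

/-- The group. -/
private theorem ix_j {jj s v M G : ℕ} (hs : s < M) (hv : v < G) :
    ((jj * M + s) * G + v) / (M * G) = jj := by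
  rw [mul_comm M G, ← Nat.div_div_eq_div_mul, idx_div hv, idx_div hs]

private theorem ix_lt {jj s v J M G : ℕ} (hj : jj < J) (hs : s < M) (hv : v < G) :
    (jj * M + s) * G + v < J * (M * G) := by
  rw [← mul_assoc]
  exact idx_lt (idx_lt hj hs) hv

private theorem dg_mul_le (B v s : ℕ) : dg B v s * B ^ s ≤ v := by
  unfold dg
  calc v / B ^ s % B * B ^ s ≤ v / B ^ s * B ^ s := Nat.mul_le_mul_right _ (Nat.mod_le _ _)
    _ ≤ v := Nat.div_mul_le_self _ _

private theorem ka_ok (hE : Eqs m n X a) (hS : ScalOK m n b a) (hR : RowOK n b a) :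
    ∀ τ < pR b, a aKA τ = rnum b τ := by
  have h := hE.sat gKA (by simp [preL, preIdx])
  intro τ hτ
  simp only [Stg.Sat, gKA, P2, RE.eval_sum, RE.eval_add, RE.eval_mul, RE.eval_get, RE.eval_sc,
      RE.eval_var, hS.R0, hS.M20, hS.e0] at h
  rw [h τ hτ, rnum]
  apply Finset.sum_congr rfl
  intro p hp
  have hp' := mem_range.1 hp
  simp only [Loc.set_self, Loc.set_ne _ _ (show (0 : ℕ) ≠ 1 by decide), loc0_zero]
  rw [hR.rv τ hτ p hp', p2_pe hS hp'.le]

theorem idx2_ok (hE : Eqs m n X a) (hB : Big m n b) (hS : ScalOK m n b a) (hR : RowOK n b a) :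
    Idx2 m n b a := by
  have hG := pG_pos b
  have hRp := pR_pos b
  have hWn : a sWn 0 = nJ m b * ((2 * pM b + 1) * pG b) := by
    have h := hE.sat gWn (by simp [preL, preIdx])
    simpa [Stg.Sat, gWn, ev0, ev1, hS.J0, hS.M20, hS.G0] using h
  have hWF : ∀ k < nJ m b * ((2 * pM b + 1) * pG b),
      a aWF k = k / pG b % (2 * pM b + 1) := by
    have h := hE.sat gWF (by simp [preL, preIdx])
    simpa [Stg.Sat, gWF, wsE, ev1, hS.M20, hS.G0, hWn] using h
  have hWP : ∀ k < nJ m b * ((2 * pM b + 1) * pG b),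
      a aWP k = if k / pG b % (2 * pM b + 1) < 1 then
        (k / ((2 * pM b + 1) * pG b) * nGc n b + (nGc n b - 1)) * nt b (a aSG) + 1 + k % pG b
        else k - pG b - k % pG b / a aP2 (pe b * (k / pG b % (2 * pM b + 1) - 1)) % pq b *
          a aP2 (pe b * (k / pG b % (2 * pM b + 1) - 1)) := by
    have h := hE.sat gWP (by simp [preL, preIdx])
    simpa only [Stg.Sat, gWP, wsE, wjE, wvE, dgE, P2, RE.eval_ite, RE.eval_add, RE.eval_sub,
      RE.eval_mul, RE.eval_div, RE.eval_mod, RE.eval_get, RE.eval_sc, ev0, ev1, ev2, RE.eval_var,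
      loc0_zero, hS.M20, hS.G0, hWn, hS.e0, hS.q0, hS.Gc0, hR.t0] using h
  have hWS : ∀ k < nJ m b * ((2 * pM b + 1) * pG b),
      a aWS k = a aP2 (pe b * (k / pG b % (2 * pM b + 1) - 1)) := by
    have h := hE.sat gWS (by simp [preL, preIdx])
    simpa only [Stg.Sat, gWS, wsE, wjE, wvE, dgE, P2, RE.eval_ite, RE.eval_add, RE.eval_sub,
      RE.eval_mul, RE.eval_div, RE.eval_mod, RE.eval_get, RE.eval_sc, ev0, ev1, ev2, RE.eval_var,
      loc0_zero, hS.M20, hS.G0, hWn, hS.e0, hS.q0, hS.Gc0, hR.t0] using h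
  have hWD : ∀ k < nJ m b * ((2 * pM b + 1) * pG b),
      a aWD k = k % pG b / a aP2 (pe b * (k / pG b % (2 * pM b + 1) - 1)) % pq b * pq b := by
    have h := hE.sat gWD (by simp [preL, preIdx])
    simpa only [Stg.Sat, gWD, wsE, wjE, wvE, dgE, P2, RE.eval_ite, RE.eval_add, RE.eval_sub,
      RE.eval_mul, RE.eval_div, RE.eval_mod, RE.eval_get, RE.eval_sc, ev0, ev1, ev2, RE.eval_var,
      loc0_zero, hS.M20, hS.G0, hWn, hS.e0, hS.q0, hS.Gc0, hR.t0] using h
  have hKA := ka_ok hE hS hR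
  have hdg : ∀ s < 2 * pM b, ∀ v, v / a aP2 (pe b * s) % pq b = dg (pq b) v s := by
    intro s hs v
    rw [p2_pe hS hs.le, dg]
  have e0 : ∀ jj v : ℕ, (jj * (2 * pM b + 1)) * pG b + v =
      (jj * (2 * pM b + 1) + 0) * pG b + v := by
    intro jj v
    rw [Nat.add_zero (jj * (2 * pM b + 1))]
  refine ⟨hWn, ?_, ?_, ?_, ?_, ?_, ?_, ?_, ?_, ?_⟩
  · intro jj hj v hv
    rw [e0, hWF _ (ix_lt hj (by omega) hv), ix_s (by omega) hv]
  · intro jj hj s hs v hv
    rw [hWF _ (ix_lt hj (by omega) hv), ix_s (by omega) hv]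
  · intro jj hj v hv
    rw [e0, hWP _ (ix_lt hj (by omega) hv), ix_s (by omega) hv, if_pos (by omega),
      ix_j (by omega) hv, idx_mod hv]
  · intro jj hj s hs v hv
    rw [hWP _ (ix_lt hj (by omega) hv), ix_s (by omega) hv, if_neg (by omega),
      Nat.add_sub_cancel, idx_mod hv, hdg s hs v, p2_pe hS hs.le]
    have h1 := dg_mul_le (pq b) v s
    have h2 : (jj * (2 * pM b + 1) + (s + 1)) * pG b =
        (jj * (2 * pM b + 1) + s) * pG b + pG b := by ring
    rw [h2]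
    omega
  · intro jj hj s hs v hv
    rw [hWS _ (ix_lt hj (by omega) hv), ix_s (by omega) hv, Nat.add_sub_cancel,
      p2_pe hS hs.le]
  · intro jj hj s hs v hv
    rw [hWD _ (ix_lt hj (by omega) hv), ix_s (by omega) hv, Nat.add_sub_cancel, idx_mod hv,
      hdg s hs v]
  · intro r hr
    have h := hE.sat gOW (by simp [preL, preIdx])
    simp only [Stg.Sat, gOW, RE.eval_add, RE.eval_mul, RE.eval_div, RE.eval_mod, RE.eval_get,
      RE.eval_sc, ev1, RE.eval_var, loc0_zero, hS.m0, hS.R0, hS.M20, hS.G0] at h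
    rw [h r hr, hKA _ (Nat.mod_lt _ hRp)]
  · intro r hr
    have h := hE.sat gOZ (by simp [preL, preIdx])
    simp only [Stg.Sat, gOZ, RE.eval_add, RE.eval_sub, RE.eval_mul, RE.eval_div, RE.eval_mod,
      RE.eval_get, RE.eval_sc, ev1, RE.eval_var, loc0_zero, hS.m0, hS.R0, hS.Gc0,
      hR.t0, hS.G0, hS.C0] at h
    rw [h r hr, hR.bs _ (Nat.mod_lt _ hRp).le]
  · intro r hr
    have h := hE.sat gON (by simp [preL, preIdx])
    simp only [Stg.Sat, gON, RE.eval_add, RE.eval_sub, RE.eval_mul, RE.eval_mod, RE.eval_get,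
      RE.eval_sc, ev1, RE.eval_var, loc0_zero, hS.m0, hS.R0, hS.C0] at h
    rw [h r hr, hR.bs _ (Nat.mod_lt _ hRp).le, hR.bs _ (Nat.mod_lt _ hRp)]

end Pool.Agent.OMVU
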