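import Pool.Agent.OMVU.Folds

/-! Monomials. -/

namespace Pool.Agent.OMVU

open Finset

variable {m n b : ℕ} {X : ℕ → ℕ → ℕ} {a : Ar} {mt : ℕ → ℕ → ℕ} {fd : FD (pe b) (pq b) mt}

private theorem pM_le_mon (b : ℕ) : pM b ≤ 16 * pE b := by
  have h3 : (2 : ℕ) ^ (b + 20) = 2 ^ (b + 18) * 4 := by
    rw [show b + 20 = (b + 18) + 2 from rfl, pow_add]; norm_num
  have h4 : 2 ^ (b + 20) ≤ pE b := by
    unfold pE
    exact Nat.le_mul_of_pos_right _ (by omega)
  unfold pM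
  omega

private theorem pe_mul_le_mon {p : ℕ} (hp : p < 2 * pM b) : pe b * p ≤ 16 * pE b := by
  calc pe b * p ≤ pe b * (2 * pM b) := Nat.mul_le_mul_left _ hp.le
    _ ≤ pe b * (16 * 2 ^ (b + 20)) := by
        refine Nat.mul_le_mul_left _ ?_
        unfold pM
        have h3 : (2 : ℕ) ^ (b + 20) = 2 ^ b * 1048576 := by rw [pow_add]; norm_num
        have h4 : (2 : ℕ) ^ (b + 18) = 2 ^ b * 262144 := by rw [pow_add]; norm_num
        omega
    _ = 16 * pE b := by unfold pE pe; ring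

/-- The value of the exponent formula. -/
private theorem uE_mon (hS : ScalOK m n b a) (l : ℕ) {p : ℕ} (hp : p < 2 * pM b) :
    ((if l % pB b / a aP2 (p / 2) % 2 = 1 then 1 else 0) *
      (if a aSG (l / pB b) / a aP2 (p / 2) % 2 = p % 2 then 1 else 0)) =
      uv b (a aSG) l p := by
  rw [hS.p2 (p / 2) (by have := pM_le_mon b; omega)]
  unfold uv
  split_ifs with h1 h2 h3 h3 <;> simp_all

private theorem dg_mon (hS : ScalOK m n b a) (v : ℕ) {p : ℕ} (hp : p < 2 * pM b) :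
    v / a aP2 (pe b * p) % pq b = dg (pq b) v p := by
  rw [hS.p2 _ (pe_mul_le_mon hp), pow_mul]
  rfl

private theorem one_lt_mon (b : ℕ) : 1 < pq b := by
  unfold pq pe
  exact Nat.one_lt_two_pow (by omega)

private theorem uv_mon (b : ℕ) (sg : ℕ → ℕ) (l p : ℕ) : uv b sg l p = 0 ∨ uv b sg l p = 1 := by
  unfold uv
  split_ifs <;> simp

theorem mc_ok (hE : Eqs m n X a) (hB : Big m n b) (hS : ScalOK m n b a) (hF : FldOK b a fd) :
    ∀ v < pG b, ∀ l < pN b, a aMC (v * pN b + l) < pq b ∧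
      fd.φ (a aMC (v * pN b + l)) = monC fd (a aSG) v l := by
  intro v hv l hl
  have e0 : ∀ ρ : Loc, RE.eval a 0 ρ = 0 := fun _ => rfl
  have e1 : ∀ ρ : Loc, RE.eval a 1 ρ = 1 := fun _ => rfl
  have e2 : ∀ ρ : Loc, RE.eval a 2 ρ = 2 := fun _ => rfl
  have h0 := hE.sat gMC (by simp [preL, preGad])
  simp only [gMC, mtE, ifE, uE, dgE, bitE, P2, Stg.Sat, RE.eval_sc, RE.eval_get,
    RE.eval_add, RE.eval_mul, RE.eval_div, RE.eval_mod, RE.eval_eq, RE.eval_ite,
    RE.eval_fold, e0, e1, e2, RE.eval_var, Loc.set_apply, loc0_zero, hS.G0, hS.N0, hS.M20,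
    hS.B0, hS.q0, hS.e0, Nat.reduceEqDiff, reduceIte] at h0
  have h1 := h0 _ (idx_lt hv hl)
  rw [idx_div hl, idx_mod hl] at h1
  obtain ⟨h2, h3⟩ := mul_fold (fd := fd) hF (n := 2 * pM b) (i := 1)
    (f := fun p => if 0 < uv b (a aSG) l p then dg (pq b) v p else 1) (one_lt_mon b)
    (fun p _ => by
      show (if 0 < uv b (a aSG) l p then dg (pq b) v p else 1) < pq b
      split_ifs
      · exact dg_lt (pq_pos b)
      · exact one_lt_mon b)
    (g := fun k w => min (a aMT (a aMQ w + if 0 < (if l % pB b / a aP2 (k / 2) % 2 = 1 then 1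
        else 0) * (if a aSG (l / pB b) / a aP2 (k / 2) % 2 = k % 2 then 1 else 0) then
          v / a aP2 (pe b * k) % pq b else 1)) (pq b))
    (fun p hp w => by
      show min _ _ = min _ _
      rw [uE_mon hS l hp, dg_mon hS v hp])
  rw [h1]
  refine ⟨h2, h3.trans ?_⟩
  rw [fd.one, one_mul]
  unfold monC
  refine prod_congr rfl fun p _ => ?_
  show fd.φ (if 0 < uv b (a aSG) l p then dg (pq b) v p else 1) = _
  rcases uv_mon b (a aSG) l p with h4 | h4 <;> rw [h4]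
  · rw [if_neg (lt_irrefl _), pow_zero, fd.one]
  · rw [if_pos Nat.one_pos, pow_one]

theorem mk_ok (hE : Eqs m n X a) (hB : Big m n b) (hS : ScalOK m n b a) (hF : FldOK b a fd)
    (hrv : ∀ τ < pR b, ∀ p < 2 * pM b, a aRV (τ * (2 * pM b) + p) = rv b τ p)
    (hrl : ∀ τ < pR b, ∀ p < 2 * pM b, rv b τ p < pq b) :
    ∀ v < pG b, ∀ τ < pR b, ∀ l < pN b, a aMK ((v * pR b + τ) * pN b + l) < pq b ∧
      fd.φ (a aMK ((v * pR b + τ) * pN b + l)) = monK fd (a aSG) v τ l := by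
  intro v hv τ hτ l hl
  have e1 : ∀ ρ : Loc, RE.eval a 1 ρ = 1 := fun _ => rfl
  have e2 : ∀ ρ : Loc, RE.eval a 2 ρ = 2 := fun _ => rfl
  have h0 := hE.sat gMK (by simp [preL, preGad])
  simp only [gMK, mtE, pwE, uE, dgE, bitE, P2, Stg.Sat, RE.eval_sc, RE.eval_get,
    RE.eval_add, RE.eval_sub, RE.eval_mul, RE.eval_div, RE.eval_mod, RE.eval_eq,
    RE.eval_fold, e1, e2, RE.eval_var, Loc.set_apply, loc0_zero, hS.G0, hS.N0, hS.M20,
    hS.B0, hS.q0, hS.e0, hS.R0, hS.D0, Nat.reduceEqDiff, reduceIte] at h0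
  have hk : (v * pR b + τ) * pN b + l < pG b * (pR b * pN b) := by
    rw [← mul_assoc]; exact idx_lt (idx_lt hv hτ) hl
  have h1 := h0 _ hk
  have hd1 : ((v * pR b + τ) * pN b + l) / (pR b * pN b) = v := by
    rw [mul_comm (pR b), ← Nat.div_div_eq_div_mul, idx_div hl, idx_div hτ]
  have hd2 : ((v * pR b + τ) * pN b + l) / pN b = v * pR b + τ := idx_div hl
  rw [hd1, hd2, idx_mod hτ, idx_mod hl] at h1
  obtain ⟨h2, h3⟩ := mul_fold (fd := fd) hF (n := 2 * pM b) (i := 1)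
    (f := fun p => a aPW (a aMQ (dg (pq b) v p) + (rv b τ p - pD b * uv b (a aSG) l p)))
    (one_lt_mon b)
    (fun p hp => pw_lt' hF (dg_lt (pq_pos b)) (lt_of_le_of_lt (Nat.sub_le _ _) (hrl τ hτ p hp)))
    (g := fun k w => min (a aMT (a aMQ w + a aPW (a aMQ (v / a aP2 (pe b * k) % pq b) +
      (a aRV (τ * (2 * pM b) + k) - pD b * ((if l % pB b / a aP2 (k / 2) % 2 = 1 then 1
        else 0) * (if a aSG (l / pB b) / a aP2 (k / 2) % 2 = k % 2 then 1 else 0)))))) (pq b))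
    (fun p hp w => by
      show min _ _ = min _ _
      rw [uE_mon hS l hp, dg_mon hS v hp, hrv τ hτ p hp])
  rw [h1]
  refine ⟨h2, h3.trans ?_⟩
  rw [fd.one, one_mul]
  unfold monK
  refine prod_congr rfl fun p hp => ?_
  have hp' := mem_range.1 hp
  exact pw_phi hF (dg_lt (pq_pos b)) (lt_of_le_of_lt (Nat.sub_le _ _) (hrl τ hτ p hp'))

end Pool.Agent.OMVU
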