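import Pool.Agent.OMVU.Folds

/-! The rows and the bad pairs. -/

namespace Pool.Agent.OMVU

open Finset

variable {m n b : ℕ} {X : ℕ → ℕ → ℕ} {a : Ar}

private theorem dg_row (B v p : ℕ) : dg B v p = v / B ^ p % B := rfl

theorem rv_ok (hE : Eqs m n X a) (hB : Big m n b) (hS : ScalOK m n b a) :
    ∀ τ < pR b, ∀ p < 2 * pM b, a aRV (τ * (2 * pM b) + p) = rv b τ p := by
  have e1 : ∀ ρ : Loc, RE.eval a 1 ρ = 1 := fun _ => rfl
  have e2 : ∀ ρ : Loc, RE.eval a 2 ρ = 2 := fun _ => rfl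
  have h := hE.sat gRV (by simp [preL, preCode])
  simp only [gRV, rdE, Stg.Sat, RE.eval_sc, RE.eval_get, RE.eval_ite, RE.eval_add, RE.eval_mul,
    RE.eval_div, RE.eval_mod, e1, e2, RE.eval_var, loc0_zero, hS.R0, hS.M20, hS.D0, hS.h0,
    hS.Rb0] at h
  intro τ hτ p hp
  rw [h _ (idx_lt hτ hp), idx_div hp, idx_mod hp, hS.rp (p / 2) (by omega), ← dg_row, rv]
  by_cases h0 : p % 2 = 0
  · rw [if_pos h0, if_pos (by omega)]
  · rw [if_neg h0, if_neg (by omega)]

theorem bd_ok (hE : Eqs m n X a) (hB : Big m n b) (hS : ScalOK m n b a)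
    (hrv : ∀ τ < pR b, ∀ p < 2 * pM b, a aRV (τ * (2 * pM b) + p) = rv b τ p) :
    ∀ p < pR b * pB b, a aBD p = bad b (a aSG) p := by
  have e0 : ∀ ρ : Loc, RE.eval a 0 ρ = 0 := fun _ => rfl
  have e1 : ∀ ρ : Loc, RE.eval a 1 ρ = 1 := fun _ => rfl
  have e2 : ∀ ρ : Loc, RE.eval a 2 ρ = 2 := fun _ => rfl
  have e3 : ∀ ρ : Loc, RE.eval a 3 ρ = 3 := fun _ => rfl
  have e16 : ∀ ρ : Loc, RE.eval a 16 ρ = 16 := fun _ => rfl
  have hp2 : ∀ i < pM b, a aP2 i = 2 ^ i := by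
    intro i hi
    refine hS.p2 i ?_
    have h1 : pM b ≤ 16 * pE b := by
      unfold pM pE
      have h2 : (2 : ℕ) ^ (b + 20) = 2 ^ (b + 18) * 4 := by rw [pow_add, pow_add]; ring
      rw [h2]
      nlinarith [Nat.zero_le (2 ^ (b + 18) * b), Nat.zero_le (2 ^ (b + 18))]
    omega
  have h := hE.sat gBD (by simp [preL, preCode])
  simp only [gBD, clE, bitE, P2, Stg.Sat, RE.eval_sc, RE.eval_get, RE.eval_lt, RE.eval_eq,
    RE.eval_add, RE.eval_mul, RE.eval_sub, RE.eval_sum,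
    RE.eval_div, RE.eval_mod, e0, e1, e2, e3, e16, RE.eval_var, loc0_zero, hS.R0, hS.B0, hS.C0,
    hS.M0, hS.M20, hS.D0, Loc.set_apply] at h
  simp only [Nat.reduceEqDiff, reduceIte, OfNat.zero_ne_ofNat, OfNat.one_ne_ofNat,
    zero_ne_one] at h
  intro p hp
  have hτ : p / pB b < pR b := Nat.div_lt_of_lt_mul (by rw [Nat.mul_comm]; exact hp)
  rw [h p hp]
  have S1 : ∀ x y, (∑ i ∈ range (pM b),
      (p % pB b / a aP2 i % 2 *
        (if 16 * (a aRV (p / pB b * (2 * pM b) + 2 * i) % pD b) < pD b then 1 else 0) *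
        (if 16 * (a aRV (p / pB b * (2 * pM b) + (2 * i + 1)) % pD b) < pD b then 1 else 0)) *
      (1 - if a aSG x / a aP2 i % 2 = a aSG y / a aP2 i % 2 then 1 else 0)) =
        dfc b (p / pB b) (p % pB b) (a aSG x) (a aSG y) := by
    intro x y
    unfold dfc cln
    refine sum_congr rfl fun i hi => ?_
    rw [mem_range] at hi
    rw [hp2 i hi, hrv _ hτ (2 * i) (by omega), hrv _ hτ (2 * i + 1) (by omega)]
  have S2 : ∀ x y, (∑ i ∈ range (pM b),
      (p % pB b / a aP2 i % 2 *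
        (if 16 * (a aRV (p / pB b * (2 * pM b) + 2 * i) % pD b) < pD b then 1 else 0) *
        (if 16 * (a aRV (p / pB b * (2 * pM b) + (2 * i + 1)) % pD b) < pD b then 1 else 0)) *
      (if a aSG x / a aP2 i % 2 = a aSG y / a aP2 i % 2 then 1 else 0)) =
        agc b (p / pB b) (p % pB b) (a aSG x) (a aSG y) := by
    intro x y
    unfold agc cln
    refine sum_congr rfl fun i hi => ?_
    rw [mem_range] at hi
    rw [hp2 i hi, hrv _ hτ (2 * i) (by omega), hrv _ hτ (2 * i + 1) (by omega)]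
  simp only [S1, S2]
  rfl

/-- The exponents of the rows. -/
theorem rv_bounds {b τ p : ℕ} (hτ : τ < pR b) (hp : p < 2 * pM b) :
    pD b ≤ rv b τ p ∧ rv b τ p < pq b - pD b := by
  clear hτ hp
  have hD : 0 < pD b := by unfold pD; positivity
  have hM : 0 < pM b := by unfold pM; positivity
  have hh : 2 * ph b + 2 = 8 * pM b := by unfold ph; omega
  have hh0 : 0 < ph b := by unfold ph; omega
  have hq : pq b = pD b * (2 * ph b + 2) := by
    rw [hh]; unfold pq pe pD pM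
    rw [show 2 * b + 21 = b + (b + 18) + 3 by ring, pow_add, pow_add]; ring
  have hq2 : pq b - pD b = pD b * (2 * ph b) + pD b := by
    rw [hq, Nat.mul_add]; omega
  rw [hq2]
  have hRbe : pRb b = pD b * pD b * (2 * ph b * ph b) := by rw [pRb]
  have hRb : 0 < pRb b := by
    rw [hRbe]
    exact Nat.mul_pos (Nat.mul_pos hD hD) (Nat.mul_pos (by omega) hh0)
  have hdg : dg (pRb b) τ (p / 2) < pD b * pD b * (2 * ph b * ph b) := by
    have h1 : dg (pRb b) τ (p / 2) < pRb b := dg_lt hRb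
    rwa [hRbe] at h1 ⊢
  set d := dg (pRb b) τ (p / 2) with hd
  have key : ∀ x y, x + 1 ≤ 2 * ph b → y < pD b →
      pD b ≤ pD b * (x + 1) + y ∧ pD b * (x + 1) + y < pD b * (2 * ph b) + pD b := by
    intro x y hx hy
    have h1 : pD b * (x + 1) ≤ pD b * (2 * ph b) := Nat.mul_le_mul_left _ hx
    have h2 : pD b * 1 ≤ pD b * (x + 1) := Nat.mul_le_mul_left _ (by omega)
    omega
  unfold rv
  rw [← hd]
  split_ifs with h0
  · refine key _ _ ?_ (Nat.mod_lt _ hD)
    have := Nat.mod_lt (d / (pD b * pD b)) (show 0 < 2 * ph b by omega)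
    omega
  · refine key _ _ ?_ (Nat.mod_lt _ hD)
    have h3 : d / (pD b * pD b) / (2 * ph b) < ph b := by
      refine Nat.div_lt_of_lt_mul (Nat.div_lt_of_lt_mul ?_)
      exact hdg
    have h4 : (d / (pD b * pD b) % (2 * ph b) + 1) % 2 < 2 := Nat.mod_lt _ (by norm_num)
    omega

end Pool.Agent.OMVU
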