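import Pool.Agent.OMVU.Folds

/-! The list of the bad pairs. -/

namespace Pool.Agent.OMVU

open Finset

variable {m n b : ℕ} {X : ℕ → ℕ → ℕ} {a : Ar}

private theorem firstPos_spec_row {f : ℕ → ℕ} {n : ℕ} (h : ∃ x < n, 0 < f x) :
    firstPos f n < n ∧ 0 < f (firstPos f n) ∧ ∀ y < firstPos f n, f y = 0 := by
  have key : ∀ n : ℕ, (firstPos f n < n ∧ 0 < f (firstPos f n) ∧ ∀ y < firstPos f n, f y = 0) ∨
      (firstPos f n = n ∧ ∀ y < n, f y = 0) := by
    intro n
    induction n with
    | zero => exact Or.inr ⟨rfl, fun y hy => absurd hy (Nat.not_lt_zero y)⟩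
    | succ n ih =>
      rcases ih with ⟨h1, h2, h3⟩ | ⟨h1, h2⟩
      · left
        have e : firstPos f (n + 1) = firstPos f n := by
          simp only [firstPos]
          rw [if_pos h1]
        rw [e]
        exact ⟨by omega, h2, h3⟩
      · by_cases h4 : 0 < f n
        · left
          have e : firstPos f (n + 1) = n := by
            simp only [firstPos]
            rw [if_neg (by omega), if_pos h4]
          rw [e]
          exact ⟨by omega, h4, h2⟩
        · right
          have e : firstPos f (n + 1) = n + 1 := by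
            simp only [firstPos]
            rw [if_neg (by omega), if_neg h4]
          refine ⟨e, fun y hy => ?_⟩
          rcases Nat.lt_succ_iff_lt_or_eq.1 hy with h5 | h5
          · exact h2 y h5
          · rw [h5]; omega
  rcases key n with h1 | ⟨_, h2⟩
  · exact h1
  · obtain ⟨x, hx, hx2⟩ := h
    have := h2 x hx
    omega

private theorem pre_mono {g : ℕ → ℕ} {x y : ℕ} (h : x ≤ y) :
    ∑ p ∈ range x, g p ≤ ∑ p ∈ range y, g p :=
  sum_le_sum_of_subset (fun _ hz => mem_range.2 (lt_of_lt_of_le (mem_range.1 hz) h))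

private theorem pre_const {g : ℕ → ℕ} {x y : ℕ} (h : x ≤ y) (h0 : ∀ z, x ≤ z → z < y → g z = 0) :
    ∑ p ∈ range y, g p = ∑ p ∈ range x, g p := by
  induction y, h using Nat.le_induction with
  | base => rfl
  | succ y hy ih =>
    rw [sum_range_succ, ih (fun z h1 h2 => h0 z h1 (by omega)), h0 y hy (by omega), add_zero]

private theorem pre_inj {g : ℕ → ℕ} {x y : ℕ} (hx : g x = 1) (hy : g y = 1)
    (h : ∑ p ∈ range x, g p = ∑ p ∈ range y, g p) : x = y := by
  rcases lt_trichotomy x y with h1 | h1 | h1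
  · have := pre_mono (g := g) (show x + 1 ≤ y from h1)
    rw [sum_range_succ] at this
    omega
  · exact h1
  · have := pre_mono (g := g) (show y + 1 ≤ x from h1)
    rw [sum_range_succ] at this
    omega

/-- The recursion lists the places where `g` is one. -/
private theorem list_spec {g L : ℕ → ℕ} {P : ℕ} (hg : ∀ p < P, g p = 0 ∨ g p = 1)
    (hL : ∀ k < ∑ p ∈ range P, g p, L k = min
      (firstPos (fun x => (if k < 1 then 1 else if L (k - 1) < x then 1 else 0) * g x) P) P) :
    ∀ k < ∑ p ∈ range P, g p, L k < P ∧ g (L k) = 1 ∧ ∑ p ∈ range (L k), g p = k := by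
  intro k
  induction k with
  | zero =>
    intro hk
    have he : ∃ x < P, 0 < (fun x => (if 0 < 1 then 1 else if L (0 - 1) < x then 1 else 0) *
        g x) x := by
      by_contra hc
      push Not at hc
      have h0 : ∀ z, 0 ≤ z → z < P → g z = 0 := by
        intro z _ hz
        have := hc z hz
        simpa using this
      have := pre_const (g := g) (Nat.zero_le P) h0
      simp only [range_zero, sum_empty] at this
      omega
    obtain ⟨h1, h2, h3⟩ := firstPos_spec_row he
    have e := hL 0 hk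
    rw [min_eq_left h1.le] at e
    rw [← e] at h1 h2 h3
    refine ⟨h1, ?_, ?_⟩
    · have h4 : 0 < g (L 0) := by simpa using h2
      rcases hg (L 0) h1 with h5 | h5 <;> omega
    · refine sum_eq_zero fun z hz => ?_
      have := h3 z (mem_range.1 hz)
      simpa using this
  | succ k ih =>
    intro hk
    obtain ⟨i1, i2, i3⟩ := ih (by omega)
    have i4 : ∑ p ∈ range (L k + 1), g p = k + 1 := by rw [sum_range_succ, i3, i2]
    have he : ∃ x < P, 0 < (fun x => (if k + 1 < 1 then 1 else if L (k + 1 - 1) < x then 1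
        else 0) * g x) x := by
      by_contra hc
      push Not at hc
      have h0 : ∀ z, L k + 1 ≤ z → z < P → g z = 0 := by
        intro z hz1 hz
        have := hc z hz
        have h5 : L k < z := hz1
        simpa [h5] using this
      have := pre_const (g := g) (show L k + 1 ≤ P from i1) h0
      omega
    obtain ⟨h1, h2, h3⟩ := firstPos_spec_row he
    have e := hL (k + 1) hk
    rw [min_eq_left h1.le] at e
    rw [← e] at h1 h2 h3
    have h6 : L k < L (k + 1) := by
      by_contra hc
      simp [hc] at h2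
    have h4 : g (L (k + 1)) = 1 := by
      rcases hg (L (k + 1)) h1 with h5 | h5
      · simp [h5] at h2
      · exact h5
    refine ⟨h1, h4, ?_⟩
    have h7 : ∀ z, L k + 1 ≤ z → z < L (k + 1) → g z = 0 := by
      intro z hz1 hz
      have := h3 z hz
      have h5 : L k < z := hz1
      simpa [h5] using this
    rw [pre_const h6 h7, i4]

private theorem bad_cases (b : ℕ) (sg : ℕ → ℕ) (p : ℕ) : bad b sg p = 0 ∨ bad b sg p = 1 := by
  unfold bad
  split_ifs
  · exact Or.inr rfl
  · exact Or.inl rfl

/-- The remaining part of `RowOK`, from the first two fields. -/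
theorem row_ok (hE : Eqs m n X a) (hB : Big m n b) (hS : ScalOK m n b a)
    (hrv : ∀ τ < pR b, ∀ p < 2 * pM b, a aRV (τ * (2 * pM b) + p) = rv b τ p)
    (hbd : ∀ p < pR b * pB b, a aBD p = bad b (a aSG) p) : RowOK n b a := by
  have e0 : ∀ (a : Ar) (ρ : Loc), RE.eval a 0 ρ = 0 := fun _ _ => rfl
  have e1 : ∀ (a : Ar) (ρ : Loc), RE.eval a 1 ρ = 1 := fun _ _ => rfl
  have hnb := hE.sat gnb (by simp [preL, preCode])
  have hBL := hE.sat gBL (by simp [preL, preCode])
  have ht := hE.sat gt (by simp [preL, preCode])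
  have hGt := hE.sat gGt (by simp [preL, preCode])
  have hBS := hE.sat gBS (by simp [preL, preCode])
  have hsum : ∀ P ≤ pR b * pB b, ∑ p ∈ range P, a aBD p = nbad b (a aSG) P := by
    intro P hP
    refine sum_congr rfl fun p hp => hbd p ?_
    exact lt_of_lt_of_le (mem_range.1 hp) hP
  simp only [gnb, Stg.Sat, RE.eval_sc, RE.eval_sum, RE.eval_get, RE.eval_mul, e0, RE.eval_var,
    Loc.set_self, hS.R0, hS.B0, hsum _ le_rfl] at hnb
  simp only [gt, Stg.Sat, RE.eval_sc, RE.eval_mul, RE.eval_add, e0, hS.G0, hS.C0, hnb] at ht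
  simp only [gGt, Stg.Sat, RE.eval_sc, RE.eval_mul, e0, hS.Gc0, ht] at hGt
  simp only [gBS, Stg.Sat, RE.eval_sc, RE.eval_sum, RE.eval_get, RE.eval_mul, RE.eval_add, e1,
    RE.eval_var, Loc.set_self, loc0_zero, hS.R0, hS.B0] at hBS
  simp only [gBL, Stg.Sat, RE.eval_sc, RE.eval_fnd, RE.eval_ite, RE.eval_lt, RE.eval_sub,
    RE.eval_get, RE.eval_mul, e1, RE.eval_var, Loc.set_self, Loc.set_apply, loc0_zero] at hBL
  obtain ⟨o, hBL⟩ := hBL
  have hn1 : aBD ≠ aBL := by decide
  have hn2 : sR ≠ aBL := by decide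
  have hn3 : sB ≠ aBL := by decide
  have hP := hsum (pR b * pB b) le_rfl
  have hlist := list_spec (g := a aBD) (L := a aBL) (P := pR b * pB b)
    (fun p hp => by rw [hbd p hp]; exact bad_cases b _ p) (by
      intro k hk
      rw [hP, ← hnb] at hk
      have h1 := hBL k hk
      simp only [hn1, hn2, hn3, false_and, if_false, true_and, zero_ne_one, hS.R0, hS.B0] at h1
      refine h1.trans (congrArg (fun f => min (firstPos f (pR b * pB b)) (pR b * pB b))
        (funext fun x => congrArg (fun y => y * a aBD x) ?_))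
      by_cases h2 : k < 1
      · rw [if_pos h2, if_pos h2]
      · rw [if_neg h2, if_neg h2, if_neg (show ¬ k ≤ k - 1 by omega)])
  rw [hP] at hlist
  have hbl : ∀ k < nbad b (a aSG) (pR b * pB b), a aBL k < pR b * pB b ∧
      bad b (a aSG) (a aBL k) = 1 ∧ nbad b (a aSG) (a aBL k) = k := by
    intro k hk
    obtain ⟨h1, h2, h3⟩ := hlist k hk
    refine ⟨h1, ?_, ?_⟩
    · rw [← hbd _ h1]; exact h2
    · rw [← hsum _ h1.le]; exact h3
  refine ⟨hrv, hbd, hnb, ht, hGt, fun k hk => (hbl k hk).1, fun k hk => (hbl k hk).2.1,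
    fun k hk => (hbl k hk).2.2, ?_, ?_⟩
  · intro p hp h1
    have h2 : nbad b (a aSG) p < nbad b (a aSG) (pR b * pB b) := by
      have h3 := pre_mono (g := bad b (a aSG)) (show p + 1 ≤ pR b * pB b from hp)
      rw [sum_range_succ, h1] at h3
      exact h3
    obtain ⟨_, h4, h5⟩ := hbl _ h2
    exact pre_inj h4 h1 h5
  · intro τ hτ
    rw [hBS τ (by omega)]
    exact hsum _ (Nat.mul_le_mul_right _ hτ)

end Pool.Agent.OMVU
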