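import Pool.Agent.OMVU.Folds

/-! The scalars. -/

namespace Pool.Agent.OMVU

open Finset

variable {m n b : ℕ} {X : ℕ → ℕ → ℕ} {a : Ar}

private theorem RE.eval_numS (a : Ar) (ρ : Loc) (c : ℕ) :
    RE.eval a (no_index (OfNat.ofNat c : RE)) ρ = c := rfl

theorem Eqs.satS (hE : Eqs m n X a) {g : Stg} (hg : g ∈ preScal) : Stg.Sat a g :=
  hE.sat g (by
    unfold preL
    simp only [List.mem_append]
    exact Or.inl (Or.inl (Or.inl (Or.inl hg))))

/-- The powers of two. -/
theorem p2_all (hE : Eqs m n X a) {i : ℕ} (hi : i < m + n + 100) :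
    a aP2 i = min (2 ^ i) (m + n + 1) := by
  have h := hE.satS (g := gP2) (by simp [preScal])
  obtain ⟨o, ho⟩ := h
  have hm := hE.m0
  have hn := hE.n0
  simp only [RE.eval_add, RE.eval_sc, RE.eval_numS, RE.eval_ite, RE.eval_var, RE.eval_get,
    RE.eval_sub, loc0_zero, hm, hn] at ho
  induction i with
  | zero =>
    rw [ho 0 hi]
    simp
  | succ i ih =>
    rw [ho (i + 1) hi]
    have h1 := ih (by omega)
    simp only [Nat.add_sub_cancel]
    rw [if_neg (by omega), if_neg (by omega), h1, pow_succ]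
    omega

/-- Exponents which are small enough. -/
theorem exps_le (b : ℕ) : pe b * pK b ≤ 16 * pE b ∧ pe b * (2 * pM b) ≤ 16 * pE b ∧
    12 * pl b ≤ 16 * pE b ∧ pD b ≤ 16 * pE b ∧ pM b ≤ 16 * pE b ∧ pe b ≤ 16 * pE b ∧
    pl b ≤ 16 * pE b := by
  have h1 : 2 ^ (b + 20) = 1048576 * 2 ^ b := by rw [pow_add]; norm_num; ring
  have h2 : 2 ^ (b + 18) = 262144 * 2 ^ b := by rw [pow_add]; norm_num; ring
  have h3 : 1 ≤ 2 ^ b := Nat.one_le_two_pow
  unfold pE pK pl pD pM pe
  rw [h1, h2]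
  set t := 2 ^ b with ht
  refine ⟨?_, ?_, ?_, ?_, ?_, ?_, ?_⟩
  · have : (2 * b + 21) * ((2 * t - 1) * 4096) ≤ (2 * b + 21) * ((2 * t) * 4096) := by
      gcongr
      omega
    nlinarith
  · nlinarith
  · have : 12 * (2 * t - 1) ≤ 24 * t := by omega
    nlinarith
  · nlinarith
  · nlinarith
  · nlinarith
  · have : (2 * t - 1) ≤ 2 * t := by omega
    nlinarith

theorem le_pE (b : ℕ) : b + 18 ≤ 16 * pE b := by
  unfold pE
  have h1 : b + 20 < 2 ^ (b + 20) := Nat.lt_two_pow_self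
  nlinarith

theorem pRb_pos (b : ℕ) : 0 < pRb b := by
  have h1 : 0 < ph b := by
    unfold ph pM
    have : 0 < 2 ^ (b + 18) := Nat.pow_pos (by norm_num)
    omega
  have h2 : 0 < pD b := Nat.pow_pos (by norm_num)
  exact Nat.mul_pos (Nat.mul_pos h2 h2) (Nat.mul_pos (Nat.mul_pos (by norm_num) h1) h1)

theorem pRb_pow_le (b : ℕ) : pRb b ^ pM b ≤ 2 ^ (16 * pE b) := by
  have h1 : pRb b ≤ 2 ^ (4 * b + 41) := by
    unfold pRb ph pM pD
    have h2 : 4 * 2 ^ (b + 18) - 1 ≤ 2 ^ (b + 20) := by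
      have : (2 : ℕ) ^ (b + 20) = 4 * 2 ^ (b + 18) := by rw [pow_add, pow_add 2 b 18]; norm_num; ring
      omega
    calc 2 ^ b * 2 ^ b * (2 * (4 * 2 ^ (b + 18) - 1) * (4 * 2 ^ (b + 18) - 1))
        ≤ 2 ^ b * 2 ^ b * (2 * 2 ^ (b + 20) * 2 ^ (b + 20)) := by gcongr
      _ = 2 ^ (4 * b + 41) := by
        rw [← pow_add, ← pow_succ', ← pow_add, ← pow_add]
        congr 1
        ring
  calc pRb b ^ pM b ≤ (2 ^ (4 * b + 41)) ^ pM b := Nat.pow_le_pow_left h1 _
    _ = 2 ^ ((4 * b + 41) * pM b) := by rw [← pow_mul]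
    _ ≤ 2 ^ (16 * pE b) := by
      apply Nat.pow_le_pow_right (by norm_num)
      unfold pM pE
      have h3 : 2 ^ (b + 20) = 4 * 2 ^ (b + 18) := by
        rw [pow_add, pow_add 2 b 18]; norm_num; ring
      rw [h3]
      nlinarith [Nat.one_le_two_pow (n := b + 18)]

/-- The number of powers of two up to `m`. -/
theorem sum_log {m K : ℕ} (hm : 0 < m) {f : ℕ → ℕ} (hK : Nat.log 2 m ≤ K)
    (hf : ∀ k < K, f k = if 2 ^ (k + 1) ≤ m then 1 else 0) :
    ∑ k ∈ range K, f k = Nat.log 2 m := by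
  have h1 : ∀ k ∈ range K, f k = if k < Nat.log 2 m then 1 else 0 := by
    intro k hk
    rw [hf k (mem_range.1 hk)]
    have h2 : 2 ^ (k + 1) ≤ m ↔ k < Nat.log 2 m := by
      rw [← Nat.le_log_iff_pow_le (by norm_num) hm.ne']
      omega
    simp only [h2]
  rw [sum_congr rfl h1, sum_ite, sum_const_zero, add_zero, sum_const, smul_eq_mul, mul_one]
  have h3 : (range K).filter (fun k => k < Nat.log 2 m) = range (Nat.log 2 m) := by
    ext k
    simp only [mem_filter, mem_range]
    omega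
  rw [h3, card_range]

theorem pE_pos (b : ℕ) : 0 < pE b := by
  unfold pE
  positivity

theorem Big.m_pos (hB : Big m n b) : 0 < m := by
  rcases Nat.eq_zero_or_pos m with rfl | h
  · have h1 := hB.hm
    have h2 := pE_pos b
    simp at h1
    omega
  · exact h

theorem Big.n_pos (hB : Big m n b) : 0 < n := by
  rcases Nat.eq_zero_or_pos n with rfl | h
  · have h1 := hB.hn
    have h2 : 0 < pF b := by
      unfold pF
      positivity
    simp at h1
    omega
  · exact h

theorem Big.pow_le (hB : Big m n b) : 2 ^ (16 * pE b) ≤ m :=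
  (Nat.pow_le_pow_right (by norm_num) hB.hm).trans (Nat.pow_log_le_self 2 hB.m_pos.ne')

theorem lm_eq (hE : Eqs m n X a) (hm : 0 < m) : a slm 0 = Nat.log 2 m := by
  have h := hE.satS (g := glm) (by simp [preScal])
  simp only [glm, P2, Stg.Sat, RE.eval_sum, RE.eval_sc, RE.eval_lt, RE.eval_get, RE.eval_add,
    RE.eval_var, Loc.set_self, RE.eval_numS, hE.m0] at h
  rw [h]
  refine sum_log hm (Nat.log_le_self 2 m) fun k hk => ?_
  rw [p2_all hE (by omega)]
  have h1 : min (2 ^ (k + 1)) (m + n + 1) < m + 1 ↔ 2 ^ (k + 1) ≤ m := by omega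
  simp only [h1]

theorem ln_eq (hE : Eqs m n X a) (hn : 0 < n) : a sln 0 = Nat.log 2 n := by
  have h := hE.satS (g := gln) (by simp [preScal])
  simp only [gln, P2, Stg.Sat, RE.eval_sum, RE.eval_sc, RE.eval_lt, RE.eval_get, RE.eval_add,
    RE.eval_var, Loc.set_self, RE.eval_numS, hE.n0] at h
  rw [h]
  refine sum_log hn (Nat.log_le_self 2 n) fun k hk => ?_
  rw [p2_all hE (by omega)]
  have h1 : min (2 ^ (k + 1)) (m + n + 1) < n + 1 ↔ 2 ^ (k + 1) ≤ n := by omega
  simp only [h1]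

theorem b_eq (hE : Eqs m n X a) (hm : 0 < m) (hn : 0 < n) : a sb 0 = bsel m n := by
  have h := hE.satS (g := gb) (by simp [preScal])
  simp only [gb, P2, Stg.Sat, RE.eval_sum, RE.eval_sc, RE.eval_lt, RE.eval_get, RE.eval_add,
    RE.eval_mul, RE.eval_var, Loc.set_self, RE.eval_numS, lm_eq hE hm, ln_eq hE hn] at h
  rw [h]
  unfold bsel
  refine sum_congr rfl fun k hk => ?_
  have hk' := mem_range.1 hk
  have hlm : Nat.log 2 m ≤ m := Nat.log_le_self 2 m
  have hln : Nat.log 2 n ≤ n := Nat.log_le_self 2 n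
  rw [p2_all hE (by omega)]
  unfold pE pF
  have e1 : k + 1 + 20 = k + 21 := by ring
  have e2 : 2 * (k + 1) + 21 = 2 * k + 23 := by ring
  rw [e1, e2]
  rcases le_total (2 ^ (k + 21)) (m + n + 1) with h1 | h1
  · rw [min_eq_left h1]
    simp only [Nat.lt_add_one_iff]
    by_cases h2 : 16 * (2 ^ (k + 21) * (2 * k + 23)) ≤ Nat.log 2 m
    · by_cases h3 : 16 * 2 ^ (k + 21) ≤ Nat.log 2 n
      · simp [h2, h3]
      · simp [h3]
    · simp [h2]
  · rw [min_eq_right h1]
    have h2 : ¬ (16 * (2 ^ (k + 21) * (2 * k + 23)) ≤ Nat.log 2 m) := by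
      intro h3
      have h4 : m + n + 1 ≤ Nat.log 2 m := by nlinarith
      omega
    have h3 : ¬ (16 * ((m + n + 1) * (2 * k + 23)) < Nat.log 2 m + 1) := by
      intro h3
      have h4 : m + n + 1 ≤ Nat.log 2 m := by nlinarith
      omega
    rw [if_neg h3, zero_mul, if_neg (fun h4 => h2 h4.1)]

theorem scal_ok (hE : Eqs m n X a) (hB : Big m n b) : ScalOK m n b a := by
  have hm := hB.m_pos
  have hn := hB.n_pos
  have hpow := hB.pow_le
  have m0 := hE.m0
  have n0 := hE.n0
  obtain ⟨x1, x2, x3, x4, x5, x6, x7⟩ := exps_le b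
  have x8 := le_pE b
  have p2 : ∀ i ≤ 16 * pE b, a aP2 i = 2 ^ i := by
    intro i hi
    have h1 : 2 ^ i ≤ m := (Nat.pow_le_pow_right (by norm_num) hi).trans hpow
    have h2 : i < 2 ^ i := Nat.lt_two_pow_self
    rw [p2_all hE (by omega), min_eq_left (by omega)]
  have b0 : a sb 0 = b := (b_eq hE hm hn).trans hB.sel.symm
  have D0 : a sD 0 = pD b := by
    have h := hE.satS (g := gD) (by simp [preScal])
    simp only [gD, P2, Stg.Sat, RE.eval_sc, RE.eval_get, RE.eval_numS, b0] at h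
    rw [h, p2 b (by omega)]
    rfl
  have M0 : a sM 0 = pM b := by
    have h := hE.satS (g := gM) (by simp [preScal])
    simp only [gM, P2, Stg.Sat, RE.eval_sc, RE.eval_get, RE.eval_add, RE.eval_numS, b0] at h
    rw [h, p2 (b + 18) (by omega)]
    rfl
  have e0 : a se 0 = pe b := by
    have h := hE.satS (g := ge) (by simp [preScal])
    simp only [ge, Stg.Sat, RE.eval_sc, RE.eval_add, RE.eval_mul, RE.eval_numS, b0] at h
    rw [h]
    rfl
  have q0 : a sq 0 = pq b := by
    have h := hE.satS (g := gq) (by simp [preScal])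
    simp only [gq, P2, Stg.Sat, RE.eval_sc, RE.eval_get, RE.eval_numS, e0] at h
    rw [h, p2 (pe b) x6]
    rfl
  have h0 : a sh 0 = ph b := by
    have h := hE.satS (g := gh) (by simp [preScal])
    simp only [gh, Stg.Sat, RE.eval_sc, RE.eval_sub, RE.eval_mul, RE.eval_numS, M0] at h
    rw [h]
    rfl
  have l0 : a sl 0 = pl b := by
    have h := hE.satS (g := gl) (by simp [preScal])
    simp only [gl, Stg.Sat, RE.eval_sc, RE.eval_sub, RE.eval_mul, RE.eval_numS, D0] at h
    rw [h]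
    rfl
  have K0 : a sK 0 = pK b := by
    have h := hE.satS (g := gK) (by simp [preScal])
    simp only [gK, Stg.Sat, RE.eval_sc, RE.eval_mul, RE.eval_numS, l0] at h
    rw [h]
    rfl
  have Q0 : a sQ 0 = pQ b := by
    have h := hE.satS (g := gQ) (by simp [preScal])
    simp only [gQ, P2, Stg.Sat, RE.eval_sc, RE.eval_get, RE.eval_mul, RE.eval_numS, e0, K0] at h
    rw [h, p2 _ x1, pow_mul]
    rfl
  have C0 : a sC 0 = pC b := by
    have h := hE.satS (g := gC) (by simp [preScal])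
    simp only [gC, P2, Stg.Sat, RE.eval_sc, RE.eval_get, RE.eval_numS, D0] at h
    rw [h, p2 _ x4]
    rfl
  have B0 : a sB 0 = pB b := by
    have h := hE.satS (g := gB) (by simp [preScal])
    simp only [gB, P2, Stg.Sat, RE.eval_sc, RE.eval_get, RE.eval_numS, M0] at h
    rw [h, p2 _ x5]
    rfl
  have N0 : a sN 0 = pN b := by
    have h := hE.satS (g := gN) (by simp [preScal])
    simp only [gN, Stg.Sat, RE.eval_sc, RE.eval_mul, RE.eval_numS, C0, B0] at h
    rw [h]
    rfl
  have Rb0 : a sRb 0 = pRb b := by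
    have h := hE.satS (g := gRb) (by simp [preScal])
    simp only [gRb, Stg.Sat, RE.eval_sc, RE.eval_mul, RE.eval_numS, D0, h0] at h
    rw [h]
    rfl
  have hRb1 : 1 ≤ pRb b := pRb_pos b
  have hRle : ∀ i ≤ pM b, pRb b ^ i ≤ m := fun i hi =>
    ((Nat.pow_le_pow_right hRb1 hi).trans (pRb_pow_le b)).trans hpow
  have rp : ∀ i ≤ pM b, a aRP i = pRb b ^ i := by
    have h := hE.satS (g := gRP) (by simp [preScal])
    obtain ⟨o, ho⟩ := h
    simp only [RE.eval_add, RE.eval_sc, RE.eval_numS, RE.eval_ite, RE.eval_var, RE.eval_get,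
      RE.eval_sub, RE.eval_mul, loc0_zero, m0, M0] at ho
    intro i hi
    induction i with
    | zero =>
      rw [ho 0 (by omega)]
      simp
    | succ i ih =>
      rw [ho (i + 1) (by omega)]
      have h1 := ih (by omega)
      have h2 := hRle (i + 1) hi
      simp only [Nat.add_sub_cancel]
      have h3 : ¬ (i + 1 ≤ i) := by omega
      have h4 : ¬ (sRb = aRP) := by decide
      simp only [h3, h4, and_false, false_and, if_false, Rb0, h1]
      rw [if_neg (by omega), ← pow_succ]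
      omega
  have R0 : a sR 0 = pR b := by
    have h := hE.satS (g := gR) (by simp [preScal])
    simp only [gR, Stg.Sat, RE.eval_sc, RE.eval_get, RE.eval_numS, M0] at h
    rw [h, rp _ le_rfl]
    rfl
  have M20 : a sM2 0 = 2 * pM b := by
    have h := hE.satS (g := gM2) (by simp [preScal])
    simp only [gM2, Stg.Sat, RE.eval_sc, RE.eval_mul, RE.eval_numS, M0] at h
    exact h
  have G0 : a sG 0 = pG b := by
    have h := hE.satS (g := gG) (by simp [preScal])
    simp only [gG, P2, Stg.Sat, RE.eval_sc, RE.eval_get, RE.eval_mul, RE.eval_numS, e0, M20] at h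
    rw [h, p2 _ x2, pow_mul]
    rfl
  have S0 : a sS 0 = 4096 ^ pl b := by
    have h := hE.satS (g := gS) (by simp [preScal])
    simp only [gS, P2, Stg.Sat, RE.eval_sc, RE.eval_get, RE.eval_mul, RE.eval_numS, l0] at h
    rw [h, p2 _ x3, pow_mul]
    norm_num
  have Ne0 : a sNe 0 = pN b * pe b := by
    have h := hE.satS (g := gNe) (by simp [preScal])
    simp only [gNe, Stg.Sat, RE.eval_sc, RE.eval_mul, RE.eval_numS, N0, e0] at h
    exact h
  have Gc0 : a sGc 0 = nGc n b := by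
    have h := hE.satS (g := gGc) (by simp [preScal])
    simp only [gGc, Stg.Sat, RE.eval_sc, RE.eval_div, RE.eval_add, RE.eval_numS, Ne0, n0] at h
    exact h
  have J0 : a sJ 0 = nJ m b := by
    have h := hE.satS (g := gJ) (by simp [preScal])
    simp only [gJ, Stg.Sat, RE.eval_sc, RE.eval_div, RE.eval_add, RE.eval_numS, R0, m0] at h
    exact h
  exact ⟨m0, n0, p2, b0, D0, M0, e0, q0, h0, l0, K0, Q0, C0, B0, N0, Rb0, rp, R0, M20, G0, S0,
    Ne0, Gc0, J0⟩

end Pool.Agent.OMVU
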