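import Pool.Agent.OMVU.Folds

/-! The tables. -/

namespace Pool.Agent.OMVU

open Finset

variable {m n b : ℕ} {X : ℕ → ℕ → ℕ} {a : Ar} {mt : ℕ → ℕ → ℕ} {fd : FD (pe b) (pq b) mt}

theorem TabT.pD_lt_pq (b : ℕ) : pD b < pq b := by
  unfold pD pq pe
  exact Nat.pow_lt_pow_right (by norm_num) (by omega)

/-- The equation of the tables. -/
theorem TabT.eqn (hE : Eqs m n X a) (hS : ScalOK m n b a) (hR : RowOK n b a) :
    ∀ g < nJ m b * nGc n b, ∀ u < nt b (a aSG), ∀ w < pQ b,
      a aTT ((g * nt b (a aSG) + u) * pQ b + w) =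
      if u < pG b then
        iter (fun τ s => min (a aXT (a aMQ s +
          iter (fun l s' => min (a aXT (a aMQ s' +
            if a aBD (τ * pB b + l % pB b) < 1 then
              a aMT (a aMQ (a aMT (a aMQ (a aMM ((g * pR b + τ) * pN b + l)) +
                a aMK ((u * pR b + τ) * pN b + l))) + a aED (l / pB b * pQ b + w))
            else 0)) (pq b)) 0 (pN b))) (pq b)) 0 (pR b)
      else
        a aMT (a aMQ (a aMM ((g * pR b + a aBL ((u - pG b) / pC b) / pB b) * pN b +
          ((u - pG b) % pC b * pB b + a aBL ((u - pG b) / pC b) % pB b))) +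
            a aPW (a aMQ (w % pq b) + pD b)) := by
  have h := hE.sat gTT (by simp [preL, preGad])
  have z0 : ∀ ρ, RE.eval a 0 ρ = 0 := fun _ => rfl
  have z1 : ∀ ρ, RE.eval a 1 ρ = 1 := fun _ => rfl
  simp only [gTT, Stg.Sat, tgE, tuE, twE, tbE, xorE, mtE, pwE, RE.eval_mul, RE.eval_add,
    RE.eval_sub, RE.eval_div, RE.eval_mod, RE.eval_get, RE.eval_ite, RE.eval_fold, RE.eval_sc,
    RE.eval_var, loc0_zero, Loc.set_apply, hS.J0, hS.Gc0, hR.t0, hS.Q0, hS.G0, hS.R0, hS.q0,
    hS.N0, hS.B0, hS.C0, hS.D0, z0, z1] at h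
  simp only [Nat.reduceEqDiff, reduceIte, OfNat.zero_ne_ofNat, OfNat.one_ne_ofNat,
    zero_ne_one] at h
  intro g hg u hu w hw
  have h1 := h ((g * nt b (a aSG) + u) * pQ b + w) (by
    rw [show nJ m b * (nGc n b * (nt b (a aSG) * pQ b)) =
      (nJ m b * nGc n b * nt b (a aSG)) * pQ b by ring]
    exact idx_lt (idx_lt hg hu) hw)
  have e1 : ((g * nt b (a aSG) + u) * pQ b + w) / pQ b = g * nt b (a aSG) + u := idx_div hw
  have e2 : ((g * nt b (a aSG) + u) * pQ b + w) % pQ b = w := idx_mod hw
  have e3 : (g * nt b (a aSG) + u) % nt b (a aSG) = u := idx_mod hu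
  have e4 : ((g * nt b (a aSG) + u) * pQ b + w) / (nt b (a aSG) * pQ b) = g := by
    rw [Nat.mul_comm (nt b (a aSG)) (pQ b), ← Nat.div_div_eq_div_mul, e1]
    exact idx_div hu
  rw [e1, e2, e3, e4] at h1
  exact h1

theorem tab_ok (hE : Eqs m n X a) (hB : Big m n b) (hS : ScalOK m n b a) (hF : FldOK b a fd)
    (hR : RowOK n b a) (hG : GadOK b a fd) (hM : MulOK m n b X a fd) : TabOK m n b a fd := by
  have key := TabT.eqn hE hS hR
  have hmm : ∀ g < nJ m b * nGc n b, ∀ τ < pR b, ∀ l < pN b,
      a aMM ((g * pR b + τ) * pN b + l) < pq b := by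
    intro g hg τ hτ l hl
    rw [hM.mm g hg τ hτ l hl]
    exact hM.mu_lt _ (hM.arg_lt g τ l)
  have hC : 0 < pC b := by unfold pC; positivity
  have hPB : 0 < pB b := by unfold pB; positivity
  have main : ∀ g < nJ m b * nGc n b, ∀ u < nt b (a aSG), ∀ w < pQ b,
      a aTT ((g * nt b (a aSG) + u) * pQ b + w) < pq b ∧
      fd.φ (a aTT ((g * nt b (a aSG) + u) * pQ b + w)) =
        tabF fd (a aCD) (a aSG) (a aBL) (fun τ l => fd.φ (a aMM ((g * pR b + τ) * pN b + l))) u
          (fun k => fd.φ (dg (pq b) w k)) := by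
    intro g hg u hu w hw
    rw [key g hg u hu w hw]
    unfold tabF
    by_cases hug : u < pG b
    · rw [if_pos hug, if_pos hug]
      -- one term
      have hterm : ∀ τ < pR b, ∀ l < pN b,
          (if a aBD (τ * pB b + l % pB b) < 1 then
              a aMT (a aMQ (a aMT (a aMQ (a aMM ((g * pR b + τ) * pN b + l)) +
                a aMK ((u * pR b + τ) * pN b + l))) + a aED (l / pB b * pQ b + w))
            else 0) < pq b ∧
          fd.φ (if a aBD (τ * pB b + l % pB b) < 1 then
              a aMT (a aMQ (a aMT (a aMQ (a aMM ((g * pR b + τ) * pN b + l)) +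
                a aMK ((u * pR b + τ) * pN b + l))) + a aED (l / pB b * pQ b + w))
            else 0) = if bad b (a aSG) (τ * pB b + l % pB b) = 0 then
              fd.φ (a aMM ((g * pR b + τ) * pN b + l)) * monK fd (a aSG) u τ l *
                esy fd (a aCD (l / pB b)) (fun k => fd.φ (dg (pq b) w k)) else 0 := by
        intro τ hτ l hl
        have hc : l / pB b < pC b := Nat.div_lt_of_lt_mul (by
          rw [Nat.mul_comm]; exact hl)
        rw [hR.bd _ (idx_lt hτ (Nat.mod_lt _ hPB))]
        have a1 := hmm g hg τ hτ l hl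
        have a2 := hG.mk_lt u hug τ hτ l hl
        have a3 := hG.ed_lt _ hc w hw
        by_cases hb : bad b (a aSG) (τ * pB b + l % pB b) = 0
        · rw [if_pos (by omega), if_pos hb]
          have a4 := mul_lt hF a1 a2
          refine ⟨mul_lt hF a4 a3, ?_⟩
          rw [mul_phi hF a4 a3, mul_phi hF a1 a2, hG.mkk u hug τ hτ l hl, hG.ed _ hc w hw]
        · rw [if_neg (by omega), if_neg hb]
          exact ⟨pq_pos b, fd.zero⟩
      have hin : ∀ τ < pR b,
          iter (fun l s' => min (a aXT (a aMQ s' +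
            if a aBD (τ * pB b + l % pB b) < 1 then
              a aMT (a aMQ (a aMT (a aMQ (a aMM ((g * pR b + τ) * pN b + l)) +
                a aMK ((u * pR b + τ) * pN b + l))) + a aED (l / pB b * pQ b + w))
            else 0)) (pq b)) 0 (pN b) < pq b ∧
          fd.φ (iter (fun l s' => min (a aXT (a aMQ s' +
            if a aBD (τ * pB b + l % pB b) < 1 then
              a aMT (a aMQ (a aMT (a aMQ (a aMM ((g * pR b + τ) * pN b + l)) +
                a aMK ((u * pR b + τ) * pN b + l))) + a aED (l / pB b * pQ b + w))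
            else 0)) (pq b)) 0 (pN b)) =
            ∑ l ∈ range (pN b), if bad b (a aSG) (τ * pB b + l % pB b) = 0 then
              fd.φ (a aMM ((g * pR b + τ) * pN b + l)) * monK fd (a aSG) u τ l *
                esy fd (a aCD (l / pB b)) (fun k => fd.φ (dg (pq b) w k)) else 0 := by
        intro τ hτ
        have := xor_fold hF (n := pN b) (f := fun l => if a aBD (τ * pB b + l % pB b) < 1 then
              a aMT (a aMQ (a aMT (a aMQ (a aMM ((g * pR b + τ) * pN b + l)) +
                a aMK ((u * pR b + τ) * pN b + l))) + a aED (l / pB b * pQ b + w))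
            else 0) (i := 0) (pq_pos b) (fun l hl => (hterm τ hτ l hl).1)
            (g := fun l s' => min (a aXT (a aMQ s' +
            if a aBD (τ * pB b + l % pB b) < 1 then
              a aMT (a aMQ (a aMT (a aMQ (a aMM ((g * pR b + τ) * pN b + l)) +
                a aMK ((u * pR b + τ) * pN b + l))) + a aED (l / pB b * pQ b + w))
            else 0)) (pq b)) (fun _ _ _ => rfl)
        refine ⟨this.1, this.2.trans ?_⟩
        rw [fd.zero, zero_add]
        exact sum_congr rfl fun l hl => (hterm τ hτ l (mem_range.1 hl)).2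
      have := xor_fold hF (n := pR b) (f := fun τ => iter (fun l s' => min (a aXT (a aMQ s' +
            if a aBD (τ * pB b + l % pB b) < 1 then
              a aMT (a aMQ (a aMT (a aMQ (a aMM ((g * pR b + τ) * pN b + l)) +
                a aMK ((u * pR b + τ) * pN b + l))) + a aED (l / pB b * pQ b + w))
            else 0)) (pq b)) 0 (pN b)) (i := 0) (pq_pos b) (fun τ hτ => (hin τ hτ).1)
            (g := fun τ s => min (a aXT (a aMQ s + iter (fun l s' => min (a aXT (a aMQ s' +
            if a aBD (τ * pB b + l % pB b) < 1 then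
              a aMT (a aMQ (a aMT (a aMQ (a aMM ((g * pR b + τ) * pN b + l)) +
                a aMK ((u * pR b + τ) * pN b + l))) + a aED (l / pB b * pQ b + w))
            else 0)) (pq b)) 0 (pN b))) (pq b)) (fun _ _ _ => rfl)
      refine ⟨this.1, this.2.trans ?_⟩
      rw [fd.zero, zero_add]
      exact sum_congr rfl fun τ hτ => (hin τ (mem_range.1 hτ)).2
    · rw [if_neg hug, if_neg hug]
      have hk : (u - pG b) / pC b < nbad b (a aSG) (pR b * pB b) := by
        refine Nat.div_lt_of_lt_mul ?_
        have : u < pG b + nbad b (a aSG) (pR b * pB b) * pC b := hu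
        rw [Nat.mul_comm (nbad b (a aSG) (pR b * pB b))] at this
        omega
      have hbl := hR.bl_lt _ hk
      have hτ : a aBL ((u - pG b) / pC b) / pB b < pR b := Nat.div_lt_of_lt_mul (by
        rw [Nat.mul_comm]; exact hbl)
      have hl : (u - pG b) % pC b * pB b + a aBL ((u - pG b) / pC b) % pB b < pN b :=
        idx_lt (Nat.mod_lt _ hC) (Nat.mod_lt _ hPB)
      have hx : w % pq b < pq b := Nat.mod_lt _ (pq_pos b)
      have a1 := hmm g hg _ hτ _ hl
      have a2 := pw_lt' hF hx (TabT.pD_lt_pq b)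
      refine ⟨mul_lt hF a1 a2, ?_⟩
      rw [mul_phi hF a1 a2, pw_phi hF hx (TabT.pD_lt_pq b)]
      simp only [dg, pow_zero, Nat.div_one]
  exact ⟨fun g hg u hu w hw => (main g hg u hu w hw).1,
    fun g hg u hu w hw => (main g hg u hu w hw).2⟩

end Pool.Agent.OMVU
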