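import Pool.Agent.OMVU.Folds

/-! The transform. -/

namespace Pool.Agent.OMVU

open Finset

variable {m n b : ℕ} {X : ℕ → ℕ → ℕ} {x : ℕ → ℕ} {a : Ar} {mt : ℕ → ℕ → ℕ}
  {fd : FD (pe b) (pq b) mt}

namespace WT

/-- Replace the digit `s` of `v` by `x`. -/
def rpl (B v s x : ℕ) : ℕ := v - dg B v s * B ^ s + x * B ^ s

theorem dg_decomp (B v s : ℕ) : v = v / B ^ (s + 1) * B ^ (s + 1) + dg B v s * B ^ s + v % B ^ s := by
  unfold dg
  have h1 := Nat.div_add_mod (v / B ^ s) B
  have h2 := Nat.div_add_mod v (B ^ s)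
  have h3 : v / B ^ s / B = v / B ^ (s + 1) := by rw [Nat.div_div_eq_div_mul, pow_succ]
  rw [h3] at h1
  calc v = B ^ s * (v / B ^ s) + v % B ^ s := h2.symm
    _ = B ^ s * (B * (v / B ^ (s + 1)) + v / B ^ s % B) + v % B ^ s := by rw [h1]
    _ = _ := by ring

theorem rpl_eq (B v s x : ℕ) :
    rpl B v s x = (v / B ^ (s + 1) * B + x) * B ^ s + v % B ^ s := by
  unfold rpl
  have h := dg_decomp B v s
  have h' : v - dg B v s * B ^ s = v / B ^ (s + 1) * B ^ (s + 1) + v % B ^ s := by
    refine Nat.sub_eq_of_eq_add ?_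
    calc v = _ := h
      _ = _ := by ring
  rw [h']
  ring

theorem rpl_lt {B v s x M : ℕ} (hB : 0 < B) (hs : s < M) (hv : v < B ^ M) (hx : x < B) :
    rpl B v s x < B ^ M := by
  rw [rpl_eq]
  have h1 : v / B ^ (s + 1) < B ^ (M - (s + 1)) := by
    rw [Nat.div_lt_iff_lt_mul (by positivity), ← pow_add]
    rwa [Nat.sub_add_cancel (by omega)]
  have h2 : v / B ^ (s + 1) * B + x < B ^ (M - (s + 1)) * B := idx_lt h1 hx
  have h3 := idx_lt h2 (Nat.mod_lt v (show 0 < B ^ s by positivity))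
  calc _ < B ^ (M - (s + 1)) * B * B ^ s := h3
    _ = B ^ M := by
      rw [mul_assoc, mul_comm B, ← pow_succ, ← pow_add, Nat.sub_add_cancel (by omega)]

theorem rpl_div {B v s x : ℕ} (hB : 0 < B) :
    rpl B v s x / B ^ s = v / B ^ (s + 1) * B + x := by
  rw [rpl_eq, idx_div (Nat.mod_lt v (by positivity))]

theorem dg_mod {B v s p : ℕ} (h : p < s) : dg B (v % B ^ s) p = dg B v p := by
  unfold dg
  have h1 : B ^ s = B ^ p * (B * B ^ (s - (p + 1))) := by
    rw [← pow_succ', ← pow_add]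
    congr 1
    omega
  rw [h1, Nat.mod_mul_right_div_self, Nat.mod_mul_right_mod]

theorem dg_rpl {B v s x p : ℕ} (hp : p < s) : dg B (rpl B v s x) p = dg B v p := by
  rw [← dg_mod hp, rpl_eq, Nat.add_comm, Nat.add_mul_mod_self_right, Nat.mod_mod, dg_mod hp]

theorem dg_idx_lt {B Q x y s p : ℕ} (hQ : Q = B ^ s) (hp : p < s) :
    dg B (x * Q + y) p = dg B y p := by
  subst hQ
  rw [← dg_mod hp, Nat.add_comm, Nat.add_mul_mod_self_right, dg_mod hp]

theorem dg_idx_eq {B x y s : ℕ} (hy : y < B ^ s) (hx : x < B) :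
    dg B (x * B ^ s + y) s = x := by
  unfold dg
  rw [idx_div hy, Nat.mod_eq_of_lt hx]

theorem sum_range_mul' {R : Type*} [AddCommMonoid R] (f : ℕ → R) (A B : ℕ) :
    ∑ y ∈ range (A * B), f y = ∑ x ∈ range A, ∑ y ∈ range B, f (x * B + y) := by
  induction A with
  | zero => simp
  | succ A ih => rw [Nat.succ_mul, sum_range_add, ih, sum_range_succ]

end WT

open WT

theorem w_ok (hE : Full m n X x a) (hB : Big m n b) (hS : ScalOK m n b a) (hF : FldOK b a fd)
    (hR : RowOK n b a) (hD : DecOK b a fd) (hI : Idx2 m n b a) (hZ : ZOK m n b a fd) :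
    WOK m n b a fd := by
  have hq := pq_pos b
  obtain ⟨o, ho⟩ := hE.qry gW (by simp [qryL])
  have hWn : (RE.sc sWn).eval a (loc0 0) = nJ m b * ((2 * pM b + 1) * pG b) := hI.Wn0
  have hq0 : (RE.sc sq).eval a (loc0 0) = pq b := hS.q0
  rw [hWn, hq0] at ho
  -- the indices
  have hk : ∀ jj < nJ m b, ∀ s < 2 * pM b + 1, ∀ v < pG b,
      (jj * (2 * pM b + 1) + s) * pG b + v < nJ m b * ((2 * pM b + 1) * pG b) := by
    intro jj hjj s hs v hv
    have h1 := idx_lt (idx_lt hjj hs) hv
    rwa [mul_assoc] at h1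
  have hGc : 0 < nGc n b := Nat.succ_pos _
  have hGt : pG b ≤ nt b (a aSG) := by unfold nt; omega
  have hzi : ∀ jj < nJ m b, ∀ v < pG b,
      (jj * nGc n b + (nGc n b - 1)) * nt b (a aSG) + 1 + v ≤
        nJ m b * (nGc n b * nt b (a aSG)) := by
    intro jj hjj v hv
    have h1 : jj * nGc n b + (nGc n b - 1) < nJ m b * nGc n b := idx_lt hjj (by omega)
    have h2 := idx_lt h1 (hv.trans_le hGt)
    rw [mul_assoc] at h2
    omega
  -- the first step
  have h0 : ∀ jj < nJ m b, ∀ v < pG b, a aW ((jj * (2 * pM b + 1) + 0) * pG b + v) =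
      a aZ ((jj * nGc n b + (nGc n b - 1)) * nt b (a aSG) + 1 + v) := by
    intro jj hjj v hv
    rw [ho _ (hk jj hjj 0 (by omega) v hv)]
    simp only [RE.eval_ite, RE.eval_get, RE.eval_var, loc0_zero, add_zero]
    have e1 : ¬ (aWF = aW) := by decide
    have e2 : ¬ (aWP = aW) := by decide
    have e3 : ¬ (aZ = aW) := by decide
    simp only [e1, e2, e3, false_and, if_false]
    have ev1 : ∀ (a' : Ar) (ρ : Loc), RE.eval a' (1 : RE) ρ = 1 := fun _ _ => rfl
    have h1 := hI.wf0 jj hjj v hv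
    have h2 := hI.wp0 jj hjj v hv
    rw [h1, h2, ev1, if_pos Nat.one_pos]
    exact min_eq_left (hZ.lt _ (hzi jj hjj v hv)).le
  -- the other steps
  have hs1 : ∀ jj < nJ m b, ∀ s < 2 * pM b, (∀ v < pG b,
      a aW ((jj * (2 * pM b + 1) + s) * pG b + v) < pq b) → ∀ v < pG b,
      a aW ((jj * (2 * pM b + 1) + (s + 1)) * pG b + v) < pq b ∧
      fd.φ (a aW ((jj * (2 * pM b + 1) + (s + 1)) * pG b + v)) = ∑ y ∈ range (pq b),
        fd.φ y ^ (pq b - 1 - dg (pq b) v s) *
          fd.φ (a aW ((jj * (2 * pM b + 1) + s) * pG b + rpl (pq b) v s y)) := by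
    intro jj hjj s hs hlt v hv
    set k := (jj * (2 * pM b + 1) + (s + 1)) * pG b + v with hkdef
    have hrp : ∀ y < pq b, rpl (pq b) v s y < pG b := fun y hy => rpl_lt hq hs hv hy
    have hidx : ∀ y < pq b, (jj * (2 * pM b + 1) + s) * pG b + rpl (pq b) v s y < k := by
      intro y hy
      have h1 := hrp y hy
      have h2 : (jj * (2 * pM b + 1) + (s + 1)) * pG b =
        (jj * (2 * pM b + 1) + s) * pG b + pG b := by ring
      rw [hkdef, h2]
      omega
    have hwp : ∀ y < pq b, a aWP k + y * a aWS k =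
        (jj * (2 * pM b + 1) + s) * pG b + rpl (pq b) v s y := by
      intro y hy
      rw [hkdef, hI.wp1 jj hjj s hs v hv, hI.ws1 jj hjj s hs v hv]
      unfold rpl
      ring
    have hdd : ∀ y < pq b, a aDD (a aWD k + y) < pq b ∧
        fd.φ (a aDD (a aWD k + y)) = fd.φ y ^ (pq b - 1 - dg (pq b) v s) := by
      intro y hy
      rw [hkdef, hI.wd1 jj hjj s hs v hv]
      exact ⟨hD.lt _ (dg_lt hq) y hy, hD.eq _ (dg_lt hq) y hy⟩
    have h1 := ho k (hk jj hjj (s + 1) (by omega) v hv)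
    have hwf : a aWF k = s + 1 := hI.wf1 jj hjj s hs v hv
    let f : ℕ → ℕ := fun y => a aMT (a aMQ (a aDD (a aWD k + y)) +
      a aW ((jj * (2 * pM b + 1) + s) * pG b + rpl (pq b) v s y))
    have hf : ∀ y < pq b, f y < pq b := fun y hy => mul_lt hF (hdd y hy).1 (hlt _ (hrp y hy))
    have hex : ∃ g : ℕ → ℕ → ℕ, (∀ y < pq b, ∀ w, g y w =
        min (a aXT (a aMQ w + f y)) (pq b)) ∧ a aW k = min (iter g 0 (pq b)) (pq b) := by
      let a' : Ar := fun B j => if B = aW ∧ k ≤ j then o j else a B j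
      let e : RE := xorE (RE.var 2) (mtE (RE.get aDD (RE.get aWD (RE.var 0) + RE.var 1))
        (RE.get aW (RE.get aWP (RE.var 0) + RE.var 1 * RE.get aWS (RE.var 0))))
      have hne : ∀ B j, B ≠ aW → a' B j = a B j := by
        intro B j hB
        simp only [a', hB, false_and, if_false]
      refine ⟨fun y w => min (RE.eval a' e (((loc0 k).set 1 y).set 2 w)) (pq b), ?_, ?_⟩
      · intro y hy w
        have e1 : RE.eval a' e (((loc0 k).set 1 y).set 2 w) =
            a' aXT (a' aMQ w + a' aMT (a' aMQ (a' aDD (a' aWD k + y)) +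
              a' aW (a' aWP k + y * a' aWS k))) := rfl
        dsimp only
        rw [e1, hne aXT _ (by decide), hne aMQ _ (by decide), hne aMT _ (by decide),
          hne aMQ _ (by decide), hne aDD _ (by decide), hne aWD _ (by decide),
          hne aWP _ (by decide), hne aWS _ (by decide), hwp y hy]
        have e2 : a' aW ((jj * (2 * pM b + 1) + s) * pG b + rpl (pq b) v s y) =
            a aW ((jj * (2 * pM b + 1) + s) * pG b + rpl (pq b) v s y) := by
          simp only [a', not_le.2 (hidx y hy), and_false, if_false]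
        rw [e2]
      · rw [h1]
        have e3 : RE.eval a' (RE.sc sq) (loc0 k) = pq b := by
          have : RE.eval a' (RE.sc sq) (loc0 k) = a' sq 0 := rfl
          rw [this, hne sq _ (by decide), hS.q0]
        have e4 : RE.eval a' (RE.get aWF (RE.var 0)) (loc0 k) = s + 1 := by
          have : RE.eval a' (RE.get aWF (RE.var 0)) (loc0 k) = a' aWF k := rfl
          rw [this, hne aWF _ (by decide), hwf]
        have e5 : RE.eval a' (RE.fold 1 2 (RE.sc sq) 0 (RE.sc sq) e) (loc0 k) =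
            iter (fun y w => min (RE.eval a' e (((loc0 k).set 1 y).set 2 w))
              (RE.eval a' (RE.sc sq) (loc0 k))) 0 (RE.eval a' (RE.sc sq) (loc0 k)) := rfl
        rw [e3] at e5
        rw [← e5, RE.eval_ite, e4, if_neg]
        intro h2
        have h3 : s + 1 < 1 := h2
        omega
    obtain ⟨g, hg1, hg2⟩ := hex
    have h2 := xor_fold hF (i := 0) hq hf hg1
    rw [hg2, min_eq_left h2.1.le]
    refine ⟨h2.1, ?_⟩
    rw [h2.2, fd.zero, zero_add]
    refine sum_congr rfl fun y hy => ?_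
    have hy' := mem_range.1 hy
    rw [mul_phi hF (hdd y hy').1 (hlt _ (hrp y hy')), (hdd y hy').2]
  -- all steps
  have hall : ∀ jj < nJ m b, ∀ s < 2 * pM b + 1, ∀ v < pG b,
      a aW ((jj * (2 * pM b + 1) + s) * pG b + v) < pq b ∧
      fd.φ (a aW ((jj * (2 * pM b + 1) + s) * pG b + v)) = ∑ y ∈ range (pq b ^ s),
        (∏ p ∈ range s, fd.φ (dg (pq b) y p) ^ (pq b - 1 - dg (pq b) v p)) *
          fd.φ (a aZ ((jj * nGc n b + (nGc n b - 1)) * nt b (a aSG) + 1 +
            (v / pq b ^ s * pq b ^ s + y))) := by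
    intro jj hjj s
    induction s with
    | zero =>
        intro _ v hv
        rw [h0 jj hjj v hv]
        refine ⟨hZ.lt _ (hzi jj hjj v hv), ?_⟩
        simp
    | succ s ih =>
        intro hs v hv
        have ih' := ih (by omega)
        obtain ⟨h1, h2⟩ := hs1 jj hjj s (by omega) (fun v hv => (ih' v hv).1) v hv
        refine ⟨h1, ?_⟩
        rw [h2, pow_succ', sum_range_mul']
        refine sum_congr rfl fun y hy => ?_
        have hy' := mem_range.1 hy
        rw [(ih' _ (rpl_lt hq (by omega) hv hy')).2, mul_sum]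
        refine sum_congr rfl fun z hz => ?_
        have hz' := mem_range.1 hz
        rw [prod_range_succ, dg_idx_eq hz' hy', rpl_div hq]
        have e1 : ∏ p ∈ range s, fd.φ (dg (pq b) z p) ^
            (pq b - 1 - dg (pq b) (rpl (pq b) v s y) p) =
            ∏ p ∈ range s, fd.φ (dg (pq b) (y * pq b ^ s + z) p) ^
              (pq b - 1 - dg (pq b) v p) := by
          refine prod_congr rfl fun p hp => ?_
          have hp' := mem_range.1 hp
          rw [dg_rpl hp', dg_idx_lt rfl hp']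
        have e2 : (v / pq b ^ (s + 1) * pq b + y) * pq b ^ s + z =
            v / (pq b * pq b ^ s) * (pq b * pq b ^ s) + (y * pq b ^ s + z) := by
          rw [pow_succ']
          ring
        rw [e1, e2]
        ring
  refine ⟨fun jj hjj κ hκ => (hall jj hjj (2 * pM b) (by omega) κ hκ).1,
    fun jj hjj κ hκ => ?_⟩
  rw [(hall jj hjj (2 * pM b) (by omega) κ hκ).2]
  have hκ' : κ / pq b ^ (2 * pM b) = 0 := Nat.div_eq_of_lt hκ
  rw [hκ']
  unfold pG decF
  refine sum_congr rfl fun y _ => ?_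
  rw [zero_mul, zero_add]

end Pool.Agent.OMVU
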