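import Pool.Agent.OMVU.Folds

/-! The sums of the table values. -/

namespace Pool.Agent.OMVU

open Finset

variable {m n b : ℕ} {X : ℕ → ℕ → ℕ} {x : ℕ → ℕ} {a : Ar} {mt : ℕ → ℕ → ℕ}
  {fd : FD (pe b) (pq b) mt}

/-- The equation of the sums. -/
theorem ZT.eqn (hE : Full m n X x a) (hS : ScalOK m n b a) (hI : Idx1 m n b a) :
    a aZ 0 = 0 ∧ ∀ k < nJ m b * (nGc n b * nt b (a aSG)), a aPV (k + 1) < k + 1 →
      a aZ (k + 1) = min (a aXT (a aMQ (a aZ (a aPV (k + 1))) +
        a aTT (k * pQ b + a aAD (a aKM (k + 1))))) (pq b) := by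
  have e0 : ∀ (c : Ar) (ρ : Loc), RE.eval c 0 ρ = 0 := fun _ _ => rfl
  have e1 : ∀ (c : Ar) (ρ : Loc), RE.eval c 1 ρ = 1 := fun _ _ => rfl
  have d1 : ¬ aPV = aZ := by decide
  have d2 : ¬ aTT = aZ := by decide
  have d3 : ¬ aTQ = aZ := by decide
  have d4 : ¬ aAD = aZ := by decide
  have d5 : ¬ aKM = aZ := by decide
  have d6 : ¬ aXT = aZ := by decide
  have d7 : ¬ aMQ = aZ := by decide
  obtain ⟨o, h⟩ := hE.qry gZ (by simp [qryL])
  simp only [xorE, RE.eval_sc, RE.eval_ite, RE.eval_add, RE.eval_get, e0, e1, RE.eval_var,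
    loc0_zero, hI.Zn0, hS.q0, d1, d2, d3, d4, d5, d6, d7, false_and, if_false, true_and] at h
  constructor
  · have := h 0 (by omega)
    simpa using this
  · intro k hk hP
    have := h (k + 1) (by omega)
    rw [this, if_neg (show ¬ (k + 1 < 1) by omega), if_neg (show ¬ (k + 1 ≤ a aPV (k + 1)) by omega),
      hI.tq k hk]

theorem z_ok (hE : Full m n X x a) (hB : Big m n b) (hS : ScalOK m n b a) (hF : FldOK b a fd)
    (hR : RowOK n b a) (hT : TabOK m n b a fd) (hI : Idx1 m n b a) (hA : AdrOK n b x a fd) :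
    ZOK m n b a fd := by
  obtain ⟨hz0, hz⟩ := ZT.eqn hE hS hI
  have ht : 0 < nt b (a aSG) := by
    have h1 : 0 < pG b := Nat.pow_pos (pq_pos b)
    exact Nat.lt_of_lt_of_le h1 (Nat.le_add_right _ _)
  have key : ∀ jj < nJ m b, ∀ i < nGc n b, ∀ u < nt b (a aSG),
      (jj * nGc n b + i) * nt b (a aSG) + u < nJ m b * (nGc n b * nt b (a aSG)) := by
    intro jj hj i hi u hu
    have := idx_lt (idx_lt hj hi) hu
    rwa [Nat.mul_assoc (nJ m b)] at this
  have main : ∀ jj < nJ m b, ∀ i < nGc n b, ∀ u < nt b (a aSG),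
      a aZ ((jj * nGc n b + i) * nt b (a aSG) + u + 1) < pq b ∧
      fd.φ (a aZ ((jj * nGc n b + i) * nt b (a aSG) + u + 1)) =
        ∑ i' ∈ range (i + 1), fd.φ (a aTT (((jj * nGc n b + i') * nt b (a aSG) + u) * pQ b +
          a aAD (i' * nt b (a aSG) + u))) := by
    intro jj hj i
    induction i with
    | zero =>
      intro hi u hu
      have k1 := key jj hj 0 hi u hu
      have hpv : a aPV ((jj * nGc n b + 0) * nt b (a aSG) + u + 1) = 0 := hI.pv0 jj hj u hu
      have htt := hT.lt _ (idx_lt hj hi) u hu _ (hA.ad_lt 0 hi u hu)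
      rw [hz _ k1 (by rw [hpv]; omega), hpv, hz0, hI.km jj hj 0 hi u hu]
      have h1 := xor_lt hF (pq_pos b) htt
      rw [min_eq_left h1.le]
      refine ⟨h1, ?_⟩
      rw [xor_phi hF (pq_pos b) htt, fd.zero, zero_add, sum_range_one]
    | succ i ih =>
      intro hi u hu
      obtain ⟨i1, i2⟩ := ih (by omega) u hu
      have k1 := key jj hj (i + 1) hi u hu
      have hpv := hI.pv jj hj i hi u hu
      have htt := hT.lt _ (idx_lt hj hi) u hu _ (hA.ad_lt (i + 1) hi u hu)
      have hlt : a aPV ((jj * nGc n b + (i + 1)) * nt b (a aSG) + u + 1) <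
          (jj * nGc n b + (i + 1)) * nt b (a aSG) + u + 1 := by
        rw [hpv]
        have : (jj * nGc n b + (i + 1)) * nt b (a aSG) =
          (jj * nGc n b + i) * nt b (a aSG) + nt b (a aSG) := by ring
        omega
      rw [hz _ k1 hlt, hpv, hI.km jj hj (i + 1) hi u hu]
      have h1 := xor_lt hF i1 htt
      rw [min_eq_left h1.le]
      refine ⟨h1, ?_⟩
      rw [xor_phi hF i1 htt, i2, sum_range_succ _ (i + 1)]
  refine ⟨?_, ?_⟩
  · intro k hk
    rcases Nat.eq_zero_or_pos k with h | h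
    · rw [h, hz0]; exact pq_pos b
    · have h1 : k - 1 < nJ m b * (nGc n b * nt b (a aSG)) := by omega
      have h2 : (k - 1) / nt b (a aSG) < nJ m b * nGc n b := Nat.div_lt_of_lt_mul (by
        rw [Nat.mul_comm, Nat.mul_assoc]; exact h1)
      have h3 : (k - 1) / nt b (a aSG) / nGc n b < nJ m b := Nat.div_lt_of_lt_mul (by
        rw [Nat.mul_comm]; exact h2)
      have h4 : (k - 1) / nt b (a aSG) % nGc n b < nGc n b := Nat.mod_lt _ (Nat.succ_pos _)
      have h5 : (k - 1) % nt b (a aSG) < nt b (a aSG) := Nat.mod_lt _ ht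
      have h6 := (main _ h3 _ h4 _ h5).1
      rw [Nat.div_add_mod' ((k - 1) / nt b (a aSG)) (nGc n b), Nat.div_add_mod' (k - 1)] at h6
      rwa [Nat.sub_add_cancel h] at h6
  · intro jj hj u hu
    have h0 : 0 < nGc n b := Nat.succ_pos _
    have h1 := (main jj hj (nGc n b - 1) (by omega) u hu).2
    rw [Nat.sub_add_cancel h0] at h1
    rw [← h1]
    congr 2
    omega

end Pool.Agent.OMVU
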