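import Pool.Agent.OMVU.OutEq
import Pool.Agent.OMVU.Scal
import Pool.Agent.OMVU.FieldT
import Pool.Agent.OMVU.CodeT
import Pool.Agent.OMVU.RowT1
import Pool.Agent.OMVU.RowT2
import Pool.Agent.OMVU.MonT
import Pool.Agent.OMVU.CaT
import Pool.Agent.OMVU.EdT
import Pool.Agent.OMVU.MulT
import Pool.Agent.OMVU.TabT
import Pool.Agent.OMVU.IdxT1
import Pool.Agent.OMVU.IdxT2
import Pool.Agent.OMVU.ZT
import Pool.Agent.OMVU.WT

/-! The meaning of all arrays. -/

namespace Pool.Agent.OMVU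

open Finset

/-- The meaning of the arrays of the preprocessing. -/
structure PreOK (m n b : ℕ) (X : ℕ → ℕ → ℕ) (a : Ar) {mt : ℕ → ℕ → ℕ}
    (fd : FD (pe b) (pq b) mt) : Prop where
  S : ScalOK m n b a
  F : FldOK b a fd
  R : RowOK n b a
  C : CodeOK b (a aCD)
  Sg : SignOK b (a aSG)
  G : GadOK b a fd
  M : MulOK m n b X a fd
  T : TabOK m n b a fd
  I1 : Idx1 m n b a
  I2 : Idx2 m n b a
  D : DecOK b a fd

theorem pre_ok {m n b : ℕ} {X : ℕ → ℕ → ℕ} {a : Ar} (hE : Eqs m n X a) (hB : Big m n b)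
    (hX : ∀ r c, X r c ≤ 1) :
    ∃ (mt : ℕ → ℕ → ℕ) (fd : FD (pe b) (pq b) mt), PreOK m n b X a fd := by
  have hS := scal_ok hE hB
  obtain ⟨mt, fd, hF⟩ := fld_ok hE hB hS
  have hrv := rv_ok hE hB hS
  have hbd := bd_ok hE hB hS hrv
  have hR := row_ok hE hB hS hrv hbd
  have hC := code_ok hE hB hS
  have hSg := sign_ok hE hB hS
  have hrl : ∀ τ < pR b, ∀ p < 2 * pM b, rv b τ p < pq b := fun τ hτ p hp =>
    lt_of_lt_of_le (rv_bounds hτ hp).2 (Nat.sub_le _ _)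
  have hmc := mc_ok hE hB hS hF
  have hca := ca_ok hE hB hS hF hR hmc
  have hmk := mk_ok hE hB hS hF hrv hrl
  have hed := ed_ok hE hB hS hF hC.lt
  have hG : GadOK b a fd := {
    ca_lt := fun u hu k hk l hl => (hca u hu k hk l hl).1
    ca := fun u hu k hk l hl => (hca u hu k hk l hl).2
    mk_lt := fun v hv τ hτ l hl => (hmk v hv τ hτ l hl).1
    mkk := fun v hv τ hτ l hl => (hmk v hv τ hτ l hl).2
    ed_lt := fun c hc w hw => (hed c hc w hw).1
    ed := fun c hc w hw => (hed c hc w hw).2 }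
  have hM := mul_ok hE hB hX hS hF
  exact ⟨mt, fd, {
    S := hS
    F := hF
    R := hR
    C := hC
    Sg := hSg
    G := hG
    M := hM
    T := tab_ok hE hB hS hF hR hG hM
    I1 := idx1_ok hE hB hS hR
    I2 := idx2_ok hE hB hS hR
    D := dec_ok hE hB hS hF }⟩

theorem query_ok {m n b : ℕ} {X : ℕ → ℕ → ℕ} {x : ℕ → ℕ} {a : Ar} (hE : Full m n X x a)
    (hB : Big m n b) (hX : ∀ r c, X r c ≤ 1) (hx : ∀ c, x c ≤ 1) :
    (∀ r < m, a aOUT r = (∑ c ∈ range n, X r c * x c) % 2) ∧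
      (∀ i < a sGc 0 * a sN 0, a aXS i < pq b) ∧ (∀ i < a sGt 0, a aAD i < pQ b) := by
  obtain ⟨mt, fd, h⟩ := pre_ok hE.toEqs hB hX
  have hA := adr_ok hE hB hx h.S h.F h.R h.G h.I1
  have hZ := z_ok hE hB h.S h.F h.R h.T h.I1 hA
  have hW := w_ok hE hB h.S h.F h.R h.D h.I2 hZ
  refine ⟨fun r hr => out_eq hE hB hX hx h.S h.F h.R h.C h.G h.M h.T h.I1 h.I2 hA hZ hW hr,
    fun i hi => ?_, fun i hi => ?_⟩
  · rw [h.S.Gc0, h.S.N0] at hi
    have hN : 0 < pN b := by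
      rcases Nat.eq_zero_or_pos (pN b) with h0 | h0
      · rw [h0] at hi; omega
      · exact h0
    have h1 := hA.xs_lt (i / pN b) (Nat.div_lt_of_lt_mul (by rwa [mul_comm])) (i % pN b)
      (Nat.mod_lt _ hN)
    rwa [Nat.div_add_mod'] at h1
  · rw [h.R.Gt0] at hi
    have hN : 0 < nt b (a aSG) := by
      rcases Nat.eq_zero_or_pos (nt b (a aSG)) with h0 | h0
      · rw [h0] at hi; omega
      · exact h0
    have h1 := hA.ad_lt (i / nt b (a aSG)) (Nat.div_lt_of_lt_mul (by rwa [mul_comm]))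
      (i % nt b (a aSG)) (Nat.mod_lt _ hN)
    rwa [Nat.div_add_mod'] at h1

end Pool.Agent.OMVU
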