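import Pool.Agent.OMVU.Sem

/-! The number of bad pairs. -/

namespace Pool.Agent.OMVU

open Finset

attribute [local irreducible] pD pM pe pq ph pl pK pQ pC pB pN pRb pR pG

namespace BB

/-! ### Sums over digits -/

theorem sum_div_mod {α : Type*} [AddCommMonoid α] (F : ℕ → ℕ → α) {m : ℕ} (hm : 0 < m) :
    ∀ k : ℕ, ∑ p ∈ range (k * m), F (p / m) (p % m) = ∑ i ∈ range k, ∑ j ∈ range m, F i j
  | 0 => by simp
  | k + 1 => by
      rw [Nat.succ_mul, Finset.sum_range_add, sum_div_mod F hm k, Finset.sum_range_succ]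
      congr 1
      refine Finset.sum_congr rfl fun j hj => ?_
      have hj' : j < m := Finset.mem_range.mp hj
      rw [mul_comm k m, Nat.mul_add_div hm, Nat.div_eq_of_lt hj', add_zero, Nat.mul_add_mod,
        Nat.mod_eq_of_lt hj']

theorem dg_low {B M v d i : ℕ} (hB : 0 < B) (hi : i < M) :
    dg B (d * B ^ M + v) i = dg B v i := by
  unfold dg
  obtain ⟨k, rfl⟩ : ∃ k, M = i + (k + 1) := ⟨M - i - 1, by omega⟩
  have e : d * B ^ (i + (k + 1)) + v = v + B ^ i * (B * (d * B ^ k)) := by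
    rw [pow_add, pow_succ]
    ring
  rw [e, Nat.add_mul_div_left _ _ (pow_pos hB i), Nat.add_mul_mod_self_left]

theorem dg_top {B M v d : ℕ} (hv : v < B ^ M) (hd : d < B) : dg B (d * B ^ M + v) M = d := by
  unfold dg
  have hB : 0 < B := by omega
  rw [mul_comm d, Nat.mul_add_div (pow_pos hB M), Nat.div_eq_of_lt hv, add_zero,
    Nat.mod_eq_of_lt hd]

/-- The sum over all words of a product over the digits. -/
theorem sum_dg_prod {B : ℕ} (hB : 0 < B) (f : ℕ → ℕ → ℝ) : ∀ M : ℕ,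
    ∑ v ∈ range (B ^ M), ∏ i ∈ range M, f i (dg B v i) = ∏ i ∈ range M, ∑ d ∈ range B, f i d
  | 0 => by simp
  | M + 1 => by
      have hBM : 0 < B ^ M := pow_pos hB M
      rw [pow_succ, mul_comm (B ^ M) B, Finset.prod_range_succ, ← sum_dg_prod hB f M,
        Finset.sum_mul_sum, Finset.sum_comm,
        ← sum_div_mod (fun d v => (∏ i ∈ range M, f i (dg B v i)) * f M d) hBM B]
      refine Finset.sum_congr rfl fun p hp => ?_
      have hp' : p < B * B ^ M := Finset.mem_range.mp hp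
      have hd : p / B ^ M < B := Nat.div_lt_of_lt_mul (by rwa [mul_comm] at hp')
      have hv : p % B ^ M < B ^ M := Nat.mod_lt _ hBM
      have hpe : p = p / B ^ M * B ^ M + p % B ^ M := by
        rw [mul_comm]
        exact (Nat.div_add_mod p (B ^ M)).symm
      rw [Finset.prod_range_succ]
      congr 1
      · refine Finset.prod_congr rfl fun i hi => ?_
        conv_lhs => rw [hpe]
        rw [dg_low hB (Finset.mem_range.mp hi)]
      · conv_lhs => rw [hpe]
        rw [dg_top hv hd]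

/-! ### One block -/

/-- The row part of the condition. -/
def clr (b r : ℕ) : ℕ :=
  (if 16 * (r % pD b) < pD b then 1 else 0) * (if 16 * (r / pD b % pD b) < pD b then 1 else 0)

theorem pD_pos' (b : ℕ) : 0 < pD b := by
  rw [pD]
  exact pow_pos two_pos _

theorem pM_pos' (b : ℕ) : 0 < pM b := by
  rw [pM]
  exact pow_pos two_pos _

theorem ph_pos' (b : ℕ) : 0 < ph b := by
  have := pM_pos' b
  rw [ph]
  omega

theorem pRb_pos' (b : ℕ) : 0 < pRb b := by
  have h1 := pD_pos' b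
  have h2 := ph_pos' b
  rw [pRb]
  exact Nat.mul_pos (Nat.mul_pos h1 h1) (Nat.mul_pos (Nat.mul_pos two_pos h2) h2)

theorem pB_pos' (b : ℕ) : 0 < pB b := by
  rw [pB]
  exact pow_pos two_pos _

theorem cln_eq (b τ β i : ℕ) : cln b τ β i = dg 2 β i * clr b (dg (pRb b) τ i) := by
  have e1 : rv b τ (2 * i) % pD b = dg (pRb b) τ i % pD b := by
    unfold rv
    rw [if_pos (by omega), show 2 * i / 2 = i by omega, Nat.mul_add_mod,
      Nat.mod_mod]
  have e2 : rv b τ (2 * i + 1) % pD b = dg (pRb b) τ i / pD b % pD b := by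
    unfold rv
    rw [if_neg (by omega), show (2 * i + 1) / 2 = i by omega, Nat.mul_add_mod,
      Nat.mod_mod]
  rw [cln, e1, e2, clr, ← mul_assoc]
  rfl

theorem clr_le (b r : ℕ) : clr b r ≤ 1 := by
  unfold clr
  split_ifs <;> simp

theorem sum_small {b : ℕ} (hb : 4 ≤ b) :
    16 * ∑ x ∈ range (pD b), (if 16 * x < pD b then 1 else 0) = pD b := by
  obtain ⟨k, rfl⟩ : ∃ k, b = k + 4 := ⟨b - 4, by omega⟩
  have hD : pD (k + 4) = 16 * 2 ^ k := by
    unfold pD
    rw [pow_add]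
    ring
  rw [hD, Finset.sum_boole]
  have : (range (16 * 2 ^ k)).filter (fun x => 16 * x < 16 * 2 ^ k) = range (2 ^ k) := by
    ext x
    simp only [Finset.mem_filter, Finset.mem_range]
    omega
  rw [this, Finset.card_range]
  simp

theorem sum_clr {b : ℕ} (hb : 4 ≤ b) : 256 * ∑ r ∈ range (pRb b), clr b r = pRb b := by
  have hD := pD_pos' b
  have e1 : pRb b = (2 * ph b * ph b) * pD b * pD b := by
    unfold pRb
    ring
  have h1 := sum_div_mod (fun y x => (if 16 * x < pD b then 1 else 0) *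
    (if 16 * (y % pD b) < pD b then 1 else 0 : ℕ)) hD ((2 * ph b * ph b) * pD b)
  have h2 := sum_div_mod (fun _ x => (if 16 * x < pD b then 1 else 0 : ℕ)) hD (2 * ph b * ph b)
  have h3 := sum_small hb
  have e2 : ∑ r ∈ range (pRb b), clr b r =
      (∑ x ∈ range (pD b), (if 16 * x < pD b then 1 else 0)) *
        ((2 * ph b * ph b) * ∑ x ∈ range (pD b), (if 16 * x < pD b then 1 else 0)) := by
    rw [e1]
    refine Eq.trans ?_ (h1.trans ?_)
    · rfl
    · simp_rw [← Finset.sum_mul]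
      rw [← Finset.mul_sum, h2]
      simp
  rw [e2]
  calc 256 * ((∑ x ∈ range (pD b), (if 16 * x < pD b then 1 else 0)) *
        ((2 * ph b * ph b) * ∑ x ∈ range (pD b), (if 16 * x < pD b then 1 else 0)))
      = (16 * ∑ x ∈ range (pD b), (if 16 * x < pD b then 1 else 0)) *
        ((2 * ph b * ph b) * (16 * ∑ x ∈ range (pD b), (if 16 * x < pD b then 1 else 0))) := by
        ring
    _ = pRb b := by
        rw [h3, e1]
        ring

/-- The weight of a block. -/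
noncomputable def wb (x y i : ℕ) : ℝ := if dg 2 x i = dg 2 y i then 4 / 3 else 27 / 64

/-- The sum over one block. -/
theorem sum_block {b : ℕ} (hb : 4 ≤ b) (x y i : ℕ) :
    ∑ r ∈ range (pRb b), ∑ t ∈ range 2, (1 + ((t * clr b r : ℕ) : ℝ) * (wb x y i - 1))
      = (2 * pRb b : ℝ) * (if dg 2 x i = dg 2 y i then 1 + 1 / 1536 else 1 - 37 / 32768) := by
  have h1 : ((∑ r ∈ range (pRb b), clr b r : ℕ) : ℝ) = (pRb b : ℝ) / 256 := by
    have := congrArg (fun n : ℕ => (n : ℝ)) (sum_clr hb)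
    push_cast at this ⊢
    linarith
  have h2 : ∀ r, ∑ t ∈ range 2, (1 + ((t * clr b r : ℕ) : ℝ) * (wb x y i - 1))
      = 2 + (clr b r : ℝ) * (wb x y i - 1) := by
    intro r
    rw [Finset.sum_range_succ, Finset.sum_range_one]
    push_cast
    ring
  simp_rw [h2]
  rw [Finset.sum_add_distrib, ← Finset.sum_mul, ← Nat.cast_sum, h1]
  simp only [Finset.sum_const, Finset.card_range, nsmul_eq_mul]
  unfold wb
  split_ifs <;> ring

/-- The weight of a pair. -/
theorem weight_eq (b τ β x y : ℕ) :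
    (4 / 3 : ℝ) ^ agc b τ β x y * (27 / 64 : ℝ) ^ dfc b τ β x y =
      ∏ i ∈ range (pM b), (1 + ((dg 2 β i * clr b (dg (pRb b) τ i) : ℕ) : ℝ) * (wb x y i - 1)) := by
  rw [agc, dfc, ← Finset.prod_pow_eq_pow_sum, ← Finset.prod_pow_eq_pow_sum,
    ← Finset.prod_mul_distrib]
  refine Finset.prod_congr rfl fun i _ => ?_
  have hc := cln_eq b τ β i
  have h1 : dg 2 β i * clr b (dg (pRb b) τ i) = 0 ∨ dg 2 β i * clr b (dg (pRb b) τ i) = 1 := by
    have h2 : dg 2 β i < 2 := Nat.mod_lt _ two_pos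
    have h3 := clr_le b (dg (pRb b) τ i)
    have h4 : dg 2 β i * clr b (dg (pRb b) τ i) ≤ 1 * 1 := Nat.mul_le_mul (by omega) h3
    omega
  have hw : wb x y i = if x / 2 ^ i % 2 = y / 2 ^ i % 2 then 4 / 3 else 27 / 64 := rfl
  rw [hc, hw]
  rcases h1 with h | h
  · rw [h]
    simp
  · rw [h]
    split_ifs <;> norm_num

/-- The sum of the weights. -/
theorem sum_weight {b : ℕ} (hb : 4 ≤ b) (x y : ℕ) :
    ∑ τ ∈ range (pR b), ∑ β ∈ range (pB b),
      (4 / 3 : ℝ) ^ agc b τ β x y * (27 / 64 : ℝ) ^ dfc b τ β x y =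
    (pR b * pB b : ℝ) * ((1 + 1 / 1536) ^ agr 2 (pM b) x y *
      (1 - 37 / 32768) ^ (pM b - agr 2 (pM b) x y)) := by
  have hRb : 0 < pRb b := pRb_pos' b
  simp_rw [weight_eq]
  have e1 : ∀ τ, ∑ β ∈ range (pB b), ∏ i ∈ range (pM b),
      (1 + ((dg 2 β i * clr b (dg (pRb b) τ i) : ℕ) : ℝ) * (wb x y i - 1)) =
      ∏ i ∈ range (pM b), ∑ t ∈ range 2,
        (1 + ((t * clr b (dg (pRb b) τ i) : ℕ) : ℝ) * (wb x y i - 1)) := by
    intro τ
    rw [pB]
    exact sum_dg_prod two_pos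
      (fun i t => 1 + ((t * clr b (dg (pRb b) τ i) : ℕ) : ℝ) * (wb x y i - 1)) (pM b)
  simp_rw [e1]
  rw [pR, sum_dg_prod hRb (fun i r => ∑ t ∈ range 2,
    (1 + ((t * clr b r : ℕ) : ℝ) * (wb x y i - 1))) (pM b)]
  simp_rw [sum_block hb]
  rw [Finset.prod_mul_distrib, Finset.prod_const, Finset.card_range]
  have e2 : ((2 : ℝ) * pRb b) ^ pM b = ((pRb b ^ pM b : ℕ) : ℝ) * pB b := by
    rw [pB, mul_pow]
    push_cast
    ring
  rw [e2]
  congr 1
  rw [Finset.prod_ite, Finset.prod_const, Finset.prod_const]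
  have e3 : agr 2 (pM b) x y = #{i ∈ range (pM b) | dg 2 x i = dg 2 y i} := by
    rw [agr, Finset.card_filter]
  have e4 : #{i ∈ range (pM b) | ¬ dg 2 x i = dg 2 y i} = pM b - agr 2 (pM b) x y := by
    rw [e3]
    have := Finset.card_filter_add_card_filter_not (s := range (pM b))
      (fun i => dg 2 x i = dg 2 y i)
    rw [Finset.card_range] at this
    omega
  rw [e4, ← e3]

theorem half_bound {n : ℕ} (hn : 1 ≤ n) : (1 - 1 / (n : ℝ)) ^ n ≤ 1 / 2 := by
  have hn' : (1 : ℝ) ≤ n := by exact_mod_cast hn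
  have hn0 : (0 : ℝ) < n := by linarith
  have hi : 1 / (n : ℝ) ≤ 1 := by
    rw [div_le_one hn0]
    exact hn'
  have hi0 : 0 < 1 / (n : ℝ) := by positivity
  have h3 : (2 : ℝ) ≤ (1 + 1 / (n : ℝ)) ^ n := by
    have := one_add_mul_le_pow (a := (1 / (n : ℝ))) (by linarith) n
    rw [mul_one_div_cancel hn0.ne'] at this
    linarith
  have h4 : (1 - 1 / (n : ℝ)) ^ n * (1 + 1 / (n : ℝ)) ^ n ≤ 1 := by
    rw [← mul_pow]
    refine pow_le_one₀ ?_ ?_
    · exact mul_nonneg (by linarith) (by linarith)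
    · nlinarith
  have h5 : (0 : ℝ) ≤ (1 - 1 / (n : ℝ)) ^ n := pow_nonneg (by linarith) _
  nlinarith

theorem gam_aux {x : ℝ} (h0 : 0 ≤ x) {n : ℕ} (hn : 1 ≤ n) (h : x ≤ 1 - 1 / (n : ℝ)) :
    x ^ (n * 4) ≤ 1 / 8 := by
  have h5 : (0 : ℝ) ≤ x ^ n := pow_nonneg h0 _
  have h6 : x ^ n ≤ 1 / 2 := (pow_le_pow_left₀ h0 h n).trans (half_bound hn)
  calc x ^ (n * 4) = (x ^ n) ^ 4 := pow_mul _ _ _
    _ ≤ (1 / 2) ^ 4 := pow_le_pow_left₀ h5 h6 _
    _ ≤ 1 / 8 := by norm_num

theorem gam_bound : ((1 + 1 / 1536 : ℝ) ^ 5 * (1 - 37 / 32768) ^ 3) ^ (8192 * 4) ≤ 1 / 8 := by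
  refine gam_aux (by norm_num) (by norm_num) ?_
  rw [Nat.cast_ofNat]
  norm_num

end BB

open BB

theorem nbad_bound {b : ℕ} (hb : 4 ≤ b) {sg : ℕ → ℕ} (hs : SignOK b sg) :
    pC b * nbad b sg (pR b * pB b) ≤ pR b * pB b := by
  have hB : 0 < pB b := pB_pos' b
  have hRB : (0 : ℝ) ≤ (pR b : ℝ) * pB b := mul_nonneg (Nat.cast_nonneg _) (Nat.cast_nonneg _)
  have hM : pM b = 8 * (8192 * 4 * pD b) := by
    unfold pM pD
    rw [pow_add]
    ring
  -- the weight of a bad pair is at least one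
  have hbad : ∀ τ β x y : ℕ, ((if 3 * dfc b τ β x y < agc b τ β x y + 1 then 1 else 0 : ℕ) : ℝ)
      ≤ (4 / 3 : ℝ) ^ agc b τ β x y * (27 / 64 : ℝ) ^ dfc b τ β x y := by
    intro τ β x y
    split_ifs with h
    · have h1 : (4 / 3 : ℝ) ^ (3 * dfc b τ β x y) ≤ (4 / 3 : ℝ) ^ agc b τ β x y :=
        pow_le_pow_right₀ (by norm_num) (by omega)
      have h2 : (4 / 3 : ℝ) ^ (3 * dfc b τ β x y) * (27 / 64 : ℝ) ^ dfc b τ β x y = 1 := by
        rw [pow_mul, ← mul_pow]
        norm_num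
      have h3 : (0 : ℝ) ≤ (27 / 64 : ℝ) ^ dfc b τ β x y := by positivity
      calc ((1 : ℕ) : ℝ) = (4 / 3 : ℝ) ^ (3 * dfc b τ β x y) * (27 / 64 : ℝ) ^ dfc b τ β x y := by
            rw [h2]
            norm_num
        _ ≤ _ := mul_le_mul_of_nonneg_right h1 h3
    · push_cast
      positivity
  -- one pair of classes
  have hpair : ∀ c < pC b, ∀ c' < c, ∑ τ ∈ range (pR b), ∑ β ∈ range (pB b),
      (4 / 3 : ℝ) ^ agc b τ β (sg c) (sg c') * (27 / 64 : ℝ) ^ dfc b τ β (sg c) (sg c')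
      ≤ (pR b * pB b : ℝ) * (1 / 8) ^ pD b := by
    intro c hc c' hc'
    rw [sum_weight hb]
    refine mul_le_mul_of_nonneg_left ?_ hRB
    have hag := hs.agr c hc c' hc'
    set A := agr 2 (pM b) (sg c) (sg c') with hA
    have h1 : (1 + 1 / 1536 : ℝ) ^ A ≤ (1 + 1 / 1536) ^ (5 * (8192 * 4 * pD b)) :=
      pow_le_pow_right₀ (by norm_num) (by omega)
    have h2 : (1 - 37 / 32768 : ℝ) ^ (pM b - A) ≤ (1 - 37 / 32768) ^ (3 * (8192 * 4 * pD b)) :=
      pow_le_pow_of_le_one (by norm_num) (by norm_num) (by omega)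
    calc (1 + 1 / 1536 : ℝ) ^ A * (1 - 37 / 32768) ^ (pM b - A)
        ≤ (1 + 1 / 1536) ^ (5 * (8192 * 4 * pD b)) * (1 - 37 / 32768) ^ (3 * (8192 * 4 * pD b)) :=
          mul_le_mul h1 h2 (pow_nonneg (by norm_num) _) (pow_nonneg (by norm_num) _)
      _ = (((1 + 1 / 1536 : ℝ) ^ 5 * (1 - 37 / 32768) ^ 3) ^ (8192 * 4)) ^ pD b := by
          rw [← pow_mul, mul_pow, ← pow_mul, ← pow_mul]
      _ ≤ (1 / 8) ^ pD b := pow_le_pow_left₀ (pow_nonneg (by norm_num) _) gam_bound _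
  -- the bound
  have hle : ∀ τ β : ℕ, ((if 0 < ∑ c ∈ range (pC b), ∑ c' ∈ range c,
      (if 3 * dfc b τ β (sg c) (sg c') < agc b τ β (sg c) (sg c') + 1 then 1 else 0) then 1 else 0
      : ℕ) : ℝ) ≤ ∑ c ∈ range (pC b), ∑ c' ∈ range c,
      (4 / 3 : ℝ) ^ agc b τ β (sg c) (sg c') * (27 / 64 : ℝ) ^ dfc b τ β (sg c) (sg c') := by
    intro τ β
    have h1 : ((∑ c ∈ range (pC b), ∑ c' ∈ range c,
        (if 3 * dfc b τ β (sg c) (sg c') < agc b τ β (sg c) (sg c') + 1 then 1 else 0) : ℕ) : ℝ)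
        ≤ ∑ c ∈ range (pC b), ∑ c' ∈ range c,
      (4 / 3 : ℝ) ^ agc b τ β (sg c) (sg c') * (27 / 64 : ℝ) ^ dfc b τ β (sg c) (sg c') := by
      rw [Nat.cast_sum]
      refine Finset.sum_le_sum fun c _ => ?_
      rw [Nat.cast_sum]
      exact Finset.sum_le_sum fun c' _ => hbad τ β _ _
    refine le_trans ?_ h1
    rw [Nat.cast_le]
    split_ifs with h
    · exact h
    · exact Nat.zero_le _
  have hsum : (nbad b sg (pR b * pB b) : ℝ) ≤ (pC b : ℝ) * pC b *
      ((pR b * pB b : ℝ) * (1 / 8) ^ pD b) := by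
    have e1 : (nbad b sg (pR b * pB b) : ℝ) = ∑ τ ∈ range (pR b), ∑ β ∈ range (pB b),
        ((if 0 < ∑ c ∈ range (pC b), ∑ c' ∈ range c,
      (if 3 * dfc b τ β (sg c) (sg c') < agc b τ β (sg c) (sg c') + 1 then 1 else 0) then 1 else 0
      : ℕ) : ℝ) := by
      rw [nbad, Nat.cast_sum, ← sum_div_mod (fun τ β => ((if 0 < ∑ c ∈ range (pC b),
        ∑ c' ∈ range c, (if 3 * dfc b τ β (sg c) (sg c') < agc b τ β (sg c) (sg c') + 1 then 1
        else 0) then 1 else 0 : ℕ) : ℝ)) hB (pR b)]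
      rfl
    rw [e1]
    calc _ ≤ ∑ τ ∈ range (pR b), ∑ β ∈ range (pB b), ∑ c ∈ range (pC b), ∑ c' ∈ range c,
          (4 / 3 : ℝ) ^ agc b τ β (sg c) (sg c') * (27 / 64 : ℝ) ^ dfc b τ β (sg c) (sg c') :=
          Finset.sum_le_sum fun τ _ => Finset.sum_le_sum fun β _ => hle τ β
      _ = ∑ c ∈ range (pC b), ∑ c' ∈ range c, ∑ τ ∈ range (pR b), ∑ β ∈ range (pB b),
          (4 / 3 : ℝ) ^ agc b τ β (sg c) (sg c') * (27 / 64 : ℝ) ^ dfc b τ β (sg c) (sg c') := by
          have e2 : ∀ τ, ∑ β ∈ range (pB b), ∑ c ∈ range (pC b), ∑ c' ∈ range c,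
              (4 / 3 : ℝ) ^ agc b τ β (sg c) (sg c') * (27 / 64 : ℝ) ^ dfc b τ β (sg c) (sg c')
              = ∑ c ∈ range (pC b), ∑ c' ∈ range c, ∑ β ∈ range (pB b),
              (4 / 3 : ℝ) ^ agc b τ β (sg c) (sg c') * (27 / 64 : ℝ) ^ dfc b τ β (sg c) (sg c') := by
            intro τ
            rw [Finset.sum_comm]
            exact Finset.sum_congr rfl fun c _ => Finset.sum_comm
          simp_rw [e2]
          rw [Finset.sum_comm]
          exact Finset.sum_congr rfl fun c _ => Finset.sum_comm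
      _ ≤ ∑ c ∈ range (pC b), ∑ c' ∈ range c, (pR b * pB b : ℝ) * (1 / 8) ^ pD b :=
          Finset.sum_le_sum fun c hc => Finset.sum_le_sum fun c' hc' =>
            hpair c (Finset.mem_range.mp hc) c' (Finset.mem_range.mp hc')
      _ ≤ ∑ c ∈ range (pC b), (pC b : ℝ) * ((pR b * pB b : ℝ) * (1 / 8) ^ pD b) := by
          refine Finset.sum_le_sum fun c hc => ?_
          rw [Finset.sum_const, Finset.card_range, nsmul_eq_mul]
          refine mul_le_mul_of_nonneg_right ?_ (by positivity)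
          exact_mod_cast (Finset.mem_range.mp hc).le
      _ = _ := by
          rw [Finset.sum_const, Finset.card_range, nsmul_eq_mul]
          ring
  have hfin : (pC b : ℝ) * nbad b sg (pR b * pB b) ≤ pR b * pB b := by
    have hC : (pC b : ℝ) = 2 ^ pD b := by
      unfold pC
      push_cast
      rfl
    calc (pC b : ℝ) * nbad b sg (pR b * pB b)
        ≤ pC b * ((pC b : ℝ) * pC b * ((pR b * pB b : ℝ) * (1 / 8) ^ pD b)) :=
          mul_le_mul_of_nonneg_left hsum (by positivity)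
      _ = (pR b * pB b : ℝ) * ((2 * 2 * 2 * (1 / 8)) ^ pD b) := by
          rw [hC, mul_pow, mul_pow, mul_pow]
          ring
      _ = pR b * pB b := by norm_num
  exact_mod_cast hfin

/-- The grid is not much larger than the number of pairs. -/
theorem grid_bound (b : ℕ) : pG b ≤ 2 * (pR b * pB b) ∧ pR b * pB b ≤ pG b := by
  have hD := pD_pos' b
  have hM0 : 0 < pM b := pM_pos' b
  have hq : pq b = pD b * (2 * ph b + 2) := by
    have : 2 * ph b + 2 = 8 * pM b := by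
      unfold ph
      omega
    rw [this, pq, pe, pD, pM, pow_add, pow_add]
    have : (2 : ℕ) ^ (2 * b) = 2 ^ b * 2 ^ b := by rw [two_mul, pow_add]
    rw [this]
    ring
  have hRB : pR b * pB b = (2 * pD b * ph b) ^ (2 * pM b) := by
    rw [pR, pB, pRb, ← mul_pow, pow_mul]
    congr 1
    ring
  have hq8 : pq b = 8 * (pM b * pD b) := by
    have : 2 * ph b + 2 = 8 * pM b := by
      unfold ph
      omega
    rw [hq, this]
    ring
  constructor
  · have hqR : (0 : ℝ) < pq b := by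
      rw [hq8]
      push_cast
      positivity
    have h1 : ((2 * pD b * ph b : ℕ) : ℝ) = pq b * (1 + -(2 * pD b / pq b)) := by
      have : ((2 * pD b * ph b : ℕ) : ℝ) + 2 * pD b = pq b := by
        rw [hq]
        push_cast
        ring
      field_simp
      linarith
    have h2 : 2 * (pD b : ℝ) / pq b ≤ 1 := by
      rw [div_le_one hqR, hq8]
      push_cast
      have : (1 : ℝ) ≤ pM b := by exact_mod_cast hM0
      nlinarith
    have h3 := one_add_mul_le_pow (a := -(2 * (pD b : ℝ) / pq b)) (by linarith) (2 * pM b)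
    have h4 : 1 + ((2 * pM b : ℕ) : ℝ) * -(2 * (pD b : ℝ) / pq b) = 1 / 2 := by
      rw [hq8]
      push_cast
      have h5 : (pM b : ℝ) ≠ 0 := by positivity
      have h6 : (pD b : ℝ) ≠ 0 := by positivity
      field_simp
      ring
    rw [h4] at h3
    have h7 : (pG b : ℝ) ≤ 2 * (pR b * pB b : ℕ) := by
      rw [hRB]
      rw [Nat.cast_pow, h1, mul_pow, pG]
      push_cast
      have h8 : (0 : ℝ) < (pq b : ℝ) ^ (2 * pM b) := by positivity
      nlinarith
    exact_mod_cast h7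
  · rw [hRB, pG]
    refine Nat.pow_le_pow_left ?_ _
    rw [hq]
    ring_nf
    omega

end Pool.Agent.OMVU
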