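import Pool.Agent.OMVU.Lang
import Pool.Agent.CCL.Ram

/-! Compilation of expressions to the structured language of `CCL.Ram`.

The arrays `0, ..., 119` are the arrays of the expressions, array 120 holds the local variables,
array 121 is scratch space: `comp e d` puts the value of `e` into the cell `d` of array 121 and
uses the cells above `d`. -/

namespace Pool.Agent.OMVU

open CCL (Ex Cn Prog St Run blk Sp)

/-- A scratch cell. -/
def sg (d : ℕ) : Ex := .get 121 (.const d)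
/-- A local variable. -/
def lg (x : ℕ) : Ex := .get 120 (.const x)
/-- Write a scratch cell. -/
def spp (d : ℕ) (e : Ex) : Prog := .put 121 (.const d) e
/-- Write a local variable. -/
def lp (x : ℕ) (e : Ex) : Prog := .put 120 (.const x) e

/-- The code of an expression. -/
def comp : RE → ℕ → Prog
  | .const c, d => spp d (.const c)
  | .var x, d => spp d (lg x)
  | .add p q, d => blk [comp p d, comp q (d + 1), spp d (.add (sg d) (sg (d + 1)))]
  | .sub p q, d => blk [comp p d, comp q (d + 1), spp d (.sub (sg d) (sg (d + 1)))]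
  | .mul p q, d => blk [comp p d, comp q (d + 1), spp (d + 2) (.const 0),
      .loop (.lt (.const 0) (sg d)) (blk [
        spp (d + 2) (.add (sg (d + 2)) (sg (d + 1))),
        spp d (.sub (sg d) (.const 1))]),
      spp d (sg (d + 2))]
  | .div p q, d => blk [comp p d, comp q (d + 1), spp (d + 2) (.const 0),
      .ite (.eq (sg (d + 1)) (.const 0)) .skip
        (.loop (.lt (sg (d + 1)) (.add (sg d) (.const 1))) (blk [
          spp (d + 2) (.add (sg (d + 2)) (.const 1)),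
          spp d (.sub (sg d) (sg (d + 1)))])),
      spp d (sg (d + 2))]
  | .mod p q, d => blk [comp p d, comp q (d + 1),
      .ite (.eq (sg (d + 1)) (.const 0)) .skip
        (.loop (.lt (sg (d + 1)) (.add (sg d) (.const 1)))
          (spp d (.sub (sg d) (sg (d + 1)))))]
  | .get A i, d => blk [comp i d, spp d (.get A (sg d))]
  | .ite u v p q, d => blk [comp u d, comp v (d + 1),
      .ite (.lt (sg d) (sg (d + 1))) (comp p d) (comp q d)]
  | .sum x n e, d => blk [comp n d, spp (d + 1) (.const 0), spp (d + 2) (lg x), lp x (.const 0),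
      .loop (.lt (lg x) (sg d)) (blk [
        comp e (d + 3),
        spp (d + 1) (.add (sg (d + 1)) (sg (d + 3))),
        lp x (.add (lg x) (.const 1))]),
      lp x (sg (d + 2)), spp d (sg (d + 1))]
  | .fnd x n e, d => blk [comp n d, spp (d + 1) (.const 0), spp (d + 2) (lg x), lp x (.const 0),
      .loop (.lt (lg x) (sg d)) (blk [
        comp e (d + 3),
        .ite (.lt (sg (d + 1)) (lg x)) .skip
          (.ite (.lt (.const 0) (sg (d + 3))) .skip (spp (d + 1) (.add (lg x) (.const 1)))),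
        lp x (.add (lg x) (.const 1))]),
      lp x (sg (d + 2)), spp d (sg (d + 1))]
  | .fold x y n i c e, d => blk [comp n d, comp i (d + 1), comp c (d + 2),
      spp (d + 3) (lg x), spp (d + 4) (lg y), lp x (.const 0),
      .loop (.lt (lg x) (sg d)) (blk [
        lp y (sg (d + 1)),
        comp e (d + 5),
        .ite (.lt (sg (d + 5)) (sg (d + 2))) (spp (d + 1) (sg (d + 5))) (spp (d + 1) (sg (d + 2))),
        lp x (.add (lg x) (.const 1))]),
      lp x (sg (d + 3)), lp y (sg (d + 4)), spp d (sg (d + 1))]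

/-- The number of scratch cells used. -/
def RE.sd : RE → ℕ
  | .const _ => 1
  | .var _ => 1
  | .add p q => p.sd + q.sd + 2
  | .sub p q => p.sd + q.sd + 2
  | .mul p q => p.sd + q.sd + 3
  | .div p q => p.sd + q.sd + 3
  | .mod p q => p.sd + q.sd + 3
  | .get _ i => i.sd + 1
  | .ite u v p q => u.sd + v.sd + p.sd + q.sd + 2
  | .sum _ n e => n.sd + e.sd + 5
  | .fnd _ n e => n.sd + e.sd + 5
  | .fold _ _ n i c e => n.sd + i.sd + c.sd + e.sd + 8

/-! ### Frames -/

/-- The state is changed only in the scratch cells from `d` on and in the local variables of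
`L`. -/
structure Fr (d : ℕ) (L : ℕ → Prop) (s s' : St) : Prop where
  arr : ∀ A, A ≠ 121 → A ≠ 120 → s'.a A = s.a A
  loc : ∀ z, ¬ L z → s'.a 120 z = s.a 120 z
  sc : ∀ j < d, s'.a 121 j = s.a 121 j
  v : s'.v = s.v
  inp : s'.inp = s.inp
  out : s'.out = s.out

theorem Fr.refl (d : ℕ) (L : ℕ → Prop) (s : St) : Fr d L s s :=
  ⟨fun _ _ _ => rfl, fun _ _ => rfl, fun _ _ => rfl, rfl, rfl, rfl⟩

theorem Fr.trans {d d' : ℕ} {L L' : ℕ → Prop} {s s1 s2 : St} (h1 : Fr d L s s1)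
    (h2 : Fr d' L' s1 s2) (hd : d ≤ d') (hL : ∀ z, L' z → L z) : Fr d L s s2 :=
  ⟨fun A h h' => (h2.arr A h h').trans (h1.arr A h h'),
    fun z hz => (h2.loc z fun h => hz (hL z h)).trans (h1.loc z hz),
    fun j hj => (h2.sc j (hj.trans_le hd)).trans (h1.sc j hj), h2.v.trans h1.v,
    h2.inp.trans h1.inp, h2.out.trans h1.out⟩

theorem Fr.spp {d : ℕ} {L : ℕ → Prop} {s s' : St} (h : Fr d L s s') {j w : ℕ} (hj : d ≤ j) :
    Fr d L s (s'.seta 121 j w) := by
  refine ⟨fun A h1 h2 => ?_, fun z hz => ?_, fun i hi => ?_, h.v, h.inp, h.out⟩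
  · rw [CCL.St.seta_a_ne _ h1]
    exact h.arr A h1 h2
  · rw [CCL.St.seta_a_ne _ (by decide)]
    exact h.loc z hz
  · rw [CCL.St.seta_a_self, Function.update_of_ne (by omega)]
    exact h.sc i hi

theorem Fr.lp {d : ℕ} {L : ℕ → Prop} {s s' : St} (h : Fr d L s s') {x w : ℕ} (hx : L x) :
    Fr d L s (s'.seta 120 x w) := by
  refine ⟨fun A h1 h2 => ?_, fun z hz => ?_, fun i hi => ?_, h.v, h.inp, h.out⟩
  · rw [CCL.St.seta_a_ne _ h2]
    exact h.arr A h1 h2
  · rw [CCL.St.seta_a_self, Function.update_of_ne (by rintro rfl; exact hz hx)]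
    exact h.loc z hz
  · rw [CCL.St.seta_a_ne _ (by decide)]
    exact h.sc i hi

/-- The state holds the arrays `a` and the local variables `ρ`. -/
structure Pre (a : Ar) (ρ : Loc) (s : St) : Prop where
  arr : ∀ A < 120, s.a A = a A
  loc : ∀ x < 100, s.a 120 x = ρ x

theorem Pre.fr {a : Ar} {ρ : Loc} {s s' : St} {d : ℕ} (h : Pre a ρ s)
    (hf : Fr d (fun _ => False) s s') : Pre a ρ s' :=
  ⟨fun A hA => (hf.arr A (by omega) (by omega)).trans (h.arr A hA),
    fun x hx => (hf.loc x not_false).trans (h.loc x hx)⟩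

/-! ### Rules -/

theorem sp_bind {b : ℕ} {p : Prog} {ps : List Prog} {s : St} {R Q : St → ℕ → Prop}
    (h1 : Sp b p s R)
    (h2 : ∀ s1 t1, R s1 t1 → Sp b (blk ps) s1 (fun s2 t2 => Q s2 (t1 + t2))) :
    Sp b (blk (p :: ps)) s Q := CCL.Sp.cons (h1.mono h2)

theorem sp_sp {b d : ℕ} {e : Ex} {s : St} {Q : St → ℕ → Prop} (hd : d ≤ b) (he : e.ok b s)
    (h : Q (s.seta 121 d (e.eval s)) (2 + e.cost)) : Sp b (spp d e) s Q :=
  CCL.Sp.put (i := .const d) hd he h

theorem sp_lp {b x : ℕ} {e : Ex} {s : St} {Q : St → ℕ → Prop} (hx : x ≤ b) (he : e.ok b s)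
    (h : Q (s.seta 120 x (e.eval s)) (2 + e.cost)) : Sp b (lp x e) s Q :=
  CCL.Sp.put (i := .const x) hx he h

/-- A loop with `N` rounds. -/
theorem for_loop {b N : ℕ} {c : Cn} {p : Prog} (I : ℕ → St → Prop) (cst : ℕ → ℕ)
    (hc : ∀ k s, k ≤ N → I k s → c.ok b s ∧ (c.eval s ↔ k < N))
    (hb : ∀ k s, k < N → I k s → Sp b p s (fun s' t => I (k + 1) s' ∧ 1 + c.cost + t ≤ cst k))
    {s : St} (h0 : I 0 s) :
    Sp b (.loop c p) s (fun s' t => I N s' ∧ t ≤ ∑ k ∈ Finset.range N, cst k + 1 + c.cost) := by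
  have key : ∀ (m k : ℕ) (s : St), k + m = N → I k s → Sp b (.loop c p) s (fun s' t =>
      I N s' ∧ t ≤ ∑ j ∈ Finset.range m, cst (k + j) + 1 + c.cost) := by
    intro m
    induction m with
    | zero =>
      intro k s hk hI
      have hkN : k = N := by omega
      subst hkN
      obtain ⟨h1, h2⟩ := hc k s le_rfl hI
      exact ⟨s, _, .loop_end p h1 (by rw [h2]; omega), hI, by simp⟩
    | succ m ih =>
      intro k s hk hI
      obtain ⟨h1, h2⟩ := hc k s (by omega) hI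
      obtain ⟨s1, t1, hr1, hI1, ht1⟩ := hb k s (by omega) hI
      obtain ⟨s2, t2, hr2, hI2, ht2⟩ := ih (k + 1) s1 (by omega) hI1
      refine ⟨s2, _, .loop_step h1 (h2.2 (by omega)) hr1 hr2, hI2, ?_⟩
      rw [Finset.sum_range_succ']
      have h3 : ∑ j ∈ Finset.range m, cst (k + (j + 1)) =
          ∑ j ∈ Finset.range m, cst (k + 1 + j) :=
        Finset.sum_congr rfl fun j _ => by rw [add_assoc, add_comm 1 j]
      rw [h3, add_zero]
      omega
  have h := key N 0 s (by omega) h0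
  simpa using h

theorem iter_le {f : ℕ → ℕ → ℕ} {i c : ℕ} (hf : ∀ k w, f k w ≤ c) : ∀ n,
    iter f i n ≤ i + c
  | 0 => by simp [iter]
  | n + 1 => by
    simp only [iter]
    exact (hf _ _).trans (by omega)

theorem cfirstPos_le (f : ℕ → ℕ) : ∀ n, firstPos f n ≤ n
  | 0 => by simp [firstPos]
  | n + 1 => by
    simp only [firstPos]
    split_ifs <;> omega

theorem eval_le (a : Ar) (e : RE) : ∀ ρ, e.eval a ρ ≤ e.wt a ρ := by
  induction e with
  | const c => intro ρ; simp [RE.eval, RE.wt]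
  | var x => intro ρ; simp [RE.eval, RE.wt]
  | add p q hp hq =>
    intro ρ
    have := hp ρ
    have := hq ρ
    simp only [RE.eval, RE.wt]
    omega
  | sub p q hp hq =>
    intro ρ
    have := hp ρ
    have := hq ρ
    simp only [RE.eval, RE.wt]
    omega
  | mul p q hp hq =>
    intro ρ
    simp only [RE.eval, RE.wt]
    omega
  | div p q hp hq =>
    intro ρ
    have := Nat.div_le_self (p.eval a ρ) (q.eval a ρ)
    simp only [RE.eval, RE.wt]
    omega
  | mod p q hp hq =>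
    intro ρ
    have := Nat.mod_le (p.eval a ρ) (q.eval a ρ)
    simp only [RE.eval, RE.wt]
    omega
  | get A i hi =>
    intro ρ
    simp only [RE.eval, RE.wt]
    omega
  | ite u v p q hu hv hp hq =>
    intro ρ
    have := hp ρ
    have := hq ρ
    simp only [RE.eval, RE.wt]
    split_ifs <;> omega
  | sum x n e hn he =>
    intro ρ
    have : ∑ k ∈ Finset.range (n.eval a ρ), e.eval a (ρ.set x k) ≤
        ∑ k ∈ Finset.range (n.eval a ρ), (e.wt a (ρ.set x k) + 99) :=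
      Finset.sum_le_sum fun k _ => (he _).trans (by omega)
    simp only [RE.eval, RE.wt]
    omega
  | fnd x n e hn he =>
    intro ρ
    have := hn ρ
    have := cfirstPos_le (fun k => e.eval a (ρ.set x k)) (n.eval a ρ)
    simp only [RE.eval, RE.wt]
    omega
  | fold x y n i c e hn hi hc he =>
    intro ρ
    have := hi ρ
    have := hc ρ
    have := iter_le (f := fun k w => min (e.eval a ((ρ.set x k).set y w)) (c.eval a ρ))
      (i := i.eval a ρ) (c := c.eval a ρ) (fun k w => min_le_right _ _) (n.eval a ρ)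
    simp only [RE.eval, RE.wt]
    omega

@[simp] theorem ok_sg {b d : ℕ} {s : St} : (sg d).ok b s ↔ d ≤ b := Iff.rfl
@[simp] theorem ok_lg {b d : ℕ} {s : St} : (lg d).ok b s ↔ d ≤ b := Iff.rfl
@[simp] theorem eval_sg {d : ℕ} {s : St} : (sg d).eval s = s.a 121 d := rfl
@[simp] theorem eval_lg {d : ℕ} {s : St} : (lg d).eval s = s.a 120 d := rfl
@[simp] theorem cost_sg {d : ℕ} : (sg d).cost = 2 := rfl
@[simp] theorem cost_lg {d : ℕ} : (lg d).cost = 2 := rfl

theorem a121 (s : St) (j w i : ℕ) :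
    (s.seta 121 j w).a 121 i = if i = j then w else s.a 121 i := by
  rw [CCL.St.seta_a_self, Function.update_apply]

theorem a120 (s : St) (j w i : ℕ) :
    (s.seta 120 j w).a 120 i = if i = j then w else s.a 120 i := by
  rw [CCL.St.seta_a_self, Function.update_apply]

@[simp] theorem a121' (s : St) (j w : ℕ) : (s.seta 121 j w).a 120 = s.a 120 :=
  CCL.St.seta_a_ne _ (by decide)

@[simp] theorem a120' (s : St) (j w : ℕ) : (s.seta 120 j w).a 121 = s.a 121 :=
  CCL.St.seta_a_ne _ (by decide)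

/-- The specification of the code of an expression. -/
def Spec (a : Ar) (e : RE) : Prop := ∀ (d : ℕ) (ρ : Loc) (b : ℕ) (s : St), Pre a ρ s →
  e.wt a ρ ≤ b → 100 + d + e.sd ≤ b → Sp b (comp e d) s (fun s' t => t ≤ e.cost a ρ ∧
    s'.a 121 d = e.eval a ρ ∧ Fr d (fun _ => False) s s')

theorem spec_const (a : Ar) (c : ℕ) : Spec a (.const c) := by
  intro d ρ b s hp hw hd
  simp only [RE.wt, RE.sd] at hw hd
  refine sp_sp (by omega) (by simp only [Ex.ok]; omega) ⟨?_, ?_, (Fr.refl _ _ _).spp le_rfl⟩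
  · simp only [Ex.cost, RE.cost]; omega
  · simp [a121]

theorem spec_var (a : Ar) (x : ℕ) (hx : x < 100) : Spec a (.var x) := by
  intro d ρ b s hp hw hd
  simp only [RE.wt, RE.sd] at hw hd
  refine sp_sp (by omega) (by simp only [ok_lg]; omega) ⟨?_, ?_, (Fr.refl _ _ _).spp le_rfl⟩
  · simp only [cost_lg, RE.cost]; omega
  · simp [a121, hp.loc x hx]

theorem spec_add (a : Ar) {p q : RE} (hp : Spec a p) (hq : Spec a q) : Spec a (.add p q) := by
  intro d ρ b s hs hw hd
  have hev := eval_le a (.add p q) ρ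
  simp only [RE.wt, RE.sd, RE.eval] at hw hd hev
  refine sp_bind (hp d ρ b s hs (by omega) (by omega)) fun s1 t1 h1 => ?_
  obtain ⟨c1, e1, f1⟩ := h1
  refine sp_bind (hq (d + 1) ρ b s1 (hs.fr f1) (by omega) (by omega)) fun s2 t2 h2 => ?_
  obtain ⟨c2, e2, f2⟩ := h2
  have e1' : s2.a 121 d = p.eval a ρ := (f2.sc d (by omega)).trans e1
  refine sp_bind (R := fun s' t => s' = s2.seta 121 d (p.eval a ρ + q.eval a ρ) ∧ t = 7)
    (sp_sp (by omega) ?_ ?_) fun s3 t3 h3 => ?_
  · simp only [Ex.ok, ok_sg, eval_sg, e1', e2]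
    omega
  · simp only [Ex.eval, Ex.cost, eval_sg, cost_sg, e1', e2]
    trivial
  obtain ⟨rfl, rfl⟩ := h3
  refine CCL.Sp.nil ⟨?_, ?_, ?_⟩
  · simp only [RE.cost]; omega
  · simp [a121, RE.eval]
  · exact (f1.trans f2 (by omega) fun _ h => h).spp le_rfl

theorem spec_sub (a : Ar) {p q : RE} (hp : Spec a p) (hq : Spec a q) : Spec a (.sub p q) := by
  intro d ρ b s hs hw hd
  have hev := eval_le a (.sub p q) ρ
  simp only [RE.wt, RE.sd, RE.eval] at hw hd hev
  refine sp_bind (hp d ρ b s hs (by omega) (by omega)) fun s1 t1 h1 => ?_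
  obtain ⟨c1, e1, f1⟩ := h1
  refine sp_bind (hq (d + 1) ρ b s1 (hs.fr f1) (by omega) (by omega)) fun s2 t2 h2 => ?_
  obtain ⟨c2, e2, f2⟩ := h2
  have e1' : s2.a 121 d = p.eval a ρ := (f2.sc d (by omega)).trans e1
  refine sp_bind (R := fun s' t => s' = s2.seta 121 d (p.eval a ρ - q.eval a ρ) ∧ t = 7)
    (sp_sp (by omega) ?_ ?_) fun s3 t3 h3 => ?_
  · simp only [Ex.ok, ok_sg]
    omega
  · simp only [Ex.eval, Ex.cost, eval_sg, cost_sg, e1', e2]
    trivial
  obtain ⟨rfl, rfl⟩ := h3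
  refine CCL.Sp.nil ⟨?_, ?_, ?_⟩
  · simp only [RE.cost]; omega
  · simp [a121, RE.eval]
  · exact (f1.trans f2 (by omega) fun _ h => h).spp le_rfl

theorem spec_mul (a : Ar) {p q : RE} (hp : Spec a p) (hq : Spec a q) : Spec a (.mul p q) := by
  intro d ρ b s hs hw hd
  simp only [RE.wt, RE.sd] at hw hd
  refine sp_bind (hp d ρ b s hs (by omega) (by omega)) fun s1 t1 h1 => ?_
  obtain ⟨c1, e1, f1⟩ := h1
  refine sp_bind (hq (d + 1) ρ b s1 (hs.fr f1) (by omega) (by omega)) fun s2 t2 h2 => ?_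
  obtain ⟨c2, e2, f2⟩ := h2
  have e1' : s2.a 121 d = p.eval a ρ := (f2.sc d (by omega)).trans e1
  set P := p.eval a ρ with hP
  set Q := q.eval a ρ with hQ
  have f12 := f1.trans f2 (by omega) fun _ h => h
  refine sp_bind (R := fun s' t => s' = s2.seta 121 (d + 2) 0 ∧ t = 3)
    (sp_sp (by omega) (by simp) ⟨rfl, rfl⟩) fun s3 t3 h3 => ?_
  obtain ⟨rfl, rfl⟩ := h3
  refine sp_bind (for_loop (N := P) (fun k s' => k ≤ P ∧ s'.a 121 d = P - k ∧
      s'.a 121 (d + 1) = Q ∧ s'.a 121 (d + 2) = k * Q ∧ Fr d (fun _ => False) s s')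
    (fun _ => 50) ?_ ?_ ?_) fun s4 t4 h4 => ?_
  · rintro k s' hk ⟨-, h1, h2, h3, h4⟩
    simp only [Cn.ok, Cn.eval, Ex.ok, ok_sg, Ex.eval, eval_sg, h1]
    omega
  · rintro k s' hk ⟨-, h1, h2, h3, h4⟩
    have hkQ : k * Q + Q ≤ P * Q := by
      have := Nat.mul_le_mul_right Q (Nat.succ_le_of_lt hk)
      rwa [Nat.succ_mul] at this
    refine sp_bind (R := fun s'' t => s'' = s'.seta 121 (d + 2) (k * Q + Q) ∧ t = 7)
      (sp_sp (by omega) ?_ ?_) fun s5 t5 h5 => ?_
    · simp only [Ex.ok, ok_sg, eval_sg, h2, h3]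
      omega
    · simp only [Ex.eval, Ex.cost, eval_sg, cost_sg, h2, h3]
      trivial
    obtain ⟨rfl, rfl⟩ := h5
    refine sp_bind (R := fun s'' t => s'' = (s'.seta 121 (d + 2) (k * Q + Q)).seta 121 d
      (P - k - 1) ∧ t = 6) (sp_sp (by omega) ?_ ?_) fun s6 t6 h6 => ?_
    · simp only [Ex.ok, ok_sg]
      omega
    · simp only [Ex.eval, Ex.cost, eval_sg, cost_sg, a121, h1]
      simp
    obtain ⟨rfl, rfl⟩ := h6
    refine CCL.Sp.nil ⟨⟨by omega, ?_, ?_, ?_, ?_⟩, ?_⟩
    · simp [a121]; omega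
    · simp [a121, h2]
    · simp [a121, Nat.succ_mul]
    · exact (h4.spp (by omega)).spp le_rfl
    · simp only [Cn.cost, Ex.cost, cost_sg]
      omega
  · exact ⟨by omega, by simp [a121, e1'], by simp [a121, e2], by simp [a121],
      f12.spp (by omega)⟩
  obtain ⟨⟨-, h1, h2, h3, h4⟩, ht⟩ := h4
  simp only [Finset.sum_const, Finset.card_range, smul_eq_mul, Cn.cost, Ex.cost, cost_sg] at ht
  refine sp_bind (R := fun s' t => s' = s4.seta 121 d (P * Q) ∧ t = 4)
    (sp_sp (by omega) (by simp only [ok_sg]; omega) ?_) fun s5 t5 h5 => ?_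
  · simp only [eval_sg, cost_sg, h3]
    trivial
  obtain ⟨rfl, rfl⟩ := h5
  refine CCL.Sp.nil ⟨?_, ?_, ?_⟩
  · simp only [RE.cost, ← hP]; omega
  · simp [a121, RE.eval, ← hP, ← hQ]
  · exact h4.spp le_rfl

theorem spec_div (a : Ar) {p q : RE} (hp : Spec a p) (hq : Spec a q) : Spec a (.div p q) := by
  intro d ρ b s hs hw hd
  simp only [RE.wt, RE.sd] at hw hd
  refine sp_bind (hp d ρ b s hs (by omega) (by omega)) fun s1 t1 h1 => ?_
  obtain ⟨c1, e1, f1⟩ := h1
  refine sp_bind (hq (d + 1) ρ b s1 (hs.fr f1) (by omega) (by omega)) fun s2 t2 h2 => ?_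
  obtain ⟨c2, e2, f2⟩ := h2
  have e1' : s2.a 121 d = p.eval a ρ := (f2.sc d (by omega)).trans e1
  have f12 := f1.trans f2 (by omega) fun _ h => h
  have hP : 99 * p.eval a ρ + 99 ≤ b := by omega
  have hcost : RE.cost a (p.div q) ρ = p.cost a ρ + q.cost a ρ +
    99 * (p.eval a ρ / q.eval a ρ) + 99 := rfl
  have heval : RE.eval a (p.div q) ρ = p.eval a ρ / q.eval a ρ := rfl
  rw [hcost, heval]
  clear hw hcost heval
  generalize p.eval a ρ = P at *
  generalize q.eval a ρ = Q at *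
  refine sp_bind (R := fun s' t => s' = s2.seta 121 (d + 2) 0 ∧ t = 3)
    (sp_sp (by omega) (by simp) ⟨rfl, rfl⟩) fun s3 t3 h3 => ?_
  obtain ⟨rfl, rfl⟩ := h3
  refine sp_bind (R := fun s' t => t ≤ 50 * (P / Q) + 20 ∧ s'.a 121 (d + 2) = P / Q ∧
      Fr d (fun _ => False) s s') (CCL.Sp.ite ?_ ?_ ?_) fun s4 t4 h4 => ?_
  · simp only [Cn.ok, Ex.ok, ok_sg]
    omega
  · intro h
    simp only [Cn.eval, eval_sg, Ex.eval, a121] at h
    rw [if_neg (by omega), e2] at h
    subst h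
    refine CCL.Sp.skip ⟨?_, by simp [a121], f12.spp (by omega)⟩
    simp only [Cn.cost, Ex.cost, cost_sg]
    omega
  · intro h
    simp only [Cn.eval, eval_sg, Ex.eval, a121] at h
    rw [if_neg (by omega), e2] at h
    have hQ : 0 < Q := Nat.pos_of_ne_zero h
    refine (for_loop (N := P / Q) (fun k s' => s'.a 121 d = P - k * Q ∧
      s'.a 121 (d + 1) = Q ∧ s'.a 121 (d + 2) = k ∧ Fr d (fun _ => False) s s')
      (fun _ => 50) ?_ ?_ ?_).mono fun s4 t4 h4 => ?_
    · rintro k s' hk ⟨h1, h2, h3, h4⟩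
      have h5 : k * Q ≤ P := (Nat.mul_le_mul_right Q hk).trans (Nat.div_mul_le_self P Q)
      have h6 : k < P / Q ↔ k * Q + Q ≤ P := by
        rw [← Nat.succ_mul]
        exact (Nat.le_div_iff_mul_le hQ)
      simp only [Cn.ok, Cn.eval, Ex.ok, ok_sg, Ex.eval, eval_sg, h1, h2]
      rw [h6]
      omega
    · rintro k s' hk ⟨h1, h2, h3, h4⟩
      have h6 : k * Q + Q ≤ P := by
        rw [← Nat.succ_mul]
        exact (Nat.le_div_iff_mul_le hQ).1 hk
      have h7 : k ≤ P := hk.le.trans (Nat.div_le_self P Q)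
      refine sp_bind (R := fun s'' t => s'' = s'.seta 121 (d + 2) (k + 1) ∧ t = 6)
        (sp_sp (by omega) ?_ ?_) fun s5 t5 h5 => ?_
      · simp only [Ex.ok, ok_sg, eval_sg, Ex.eval, h3]
        omega
      · simp only [Ex.eval, Ex.cost, eval_sg, cost_sg, h3]
        trivial
      obtain ⟨rfl, rfl⟩ := h5
      refine sp_bind (R := fun s'' t => s'' = (s'.seta 121 (d + 2) (k + 1)).seta 121 d
        (P - k * Q - Q) ∧ t = 7) (sp_sp (by omega) ?_ ?_) fun s6 t6 h6 => ?_
      · simp only [Ex.ok, ok_sg]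
        omega
      · simp only [Ex.eval, Ex.cost, eval_sg, cost_sg, a121, h1, h2]
        simp
      obtain ⟨rfl, rfl⟩ := h6
      refine CCL.Sp.nil ⟨⟨?_, ?_, ?_, ?_⟩, ?_⟩
      · simp [a121, Nat.succ_mul]; omega
      · simp [a121, h2]
      · simp [a121]
      · exact (h4.spp (by omega)).spp le_rfl
      · simp only [Cn.cost, Ex.cost, cost_sg]
        omega
    · exact ⟨by simp [a121, e1'], by simp [a121, e2], by simp [a121], f12.spp (by omega)⟩
    obtain ⟨⟨h1, h2, h3, h4⟩, ht⟩ := h4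
    simp only [Finset.sum_const, Finset.card_range, smul_eq_mul, Cn.cost, Ex.cost, cost_sg] at ht
    refine ⟨?_, h3, h4⟩
    simp only [Cn.cost, Ex.cost, cost_sg]
    omega
  obtain ⟨ht, h3, h4⟩ := h4
  refine sp_bind (R := fun s' t => s' = s4.seta 121 d (P / Q) ∧ t = 4)
    (sp_sp (by omega) (by simp only [ok_sg]; omega) ?_) fun s5 t5 h5 => ?_
  · simp only [eval_sg, cost_sg, h3]
    trivial
  obtain ⟨rfl, rfl⟩ := h5
  refine CCL.Sp.nil ⟨?_, ?_, ?_⟩
  · omega
  · simp [a121]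
  · exact h4.spp le_rfl

theorem spec_mod (a : Ar) {p q : RE} (hp : Spec a p) (hq : Spec a q) : Spec a (.mod p q) := by
  intro d ρ b s hs hw hd
  simp only [RE.wt, RE.sd] at hw hd
  refine sp_bind (hp d ρ b s hs (by omega) (by omega)) fun s1 t1 h1 => ?_
  obtain ⟨c1, e1, f1⟩ := h1
  refine sp_bind (hq (d + 1) ρ b s1 (hs.fr f1) (by omega) (by omega)) fun s2 t2 h2 => ?_
  obtain ⟨c2, e2, f2⟩ := h2
  have e1' : s2.a 121 d = p.eval a ρ := (f2.sc d (by omega)).trans e1
  have f12 := f1.trans f2 (by omega) fun _ h => h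
  have hP : 99 * p.eval a ρ + 99 ≤ b := by omega
  have hcost : RE.cost a (p.mod q) ρ = p.cost a ρ + q.cost a ρ +
    99 * (p.eval a ρ / q.eval a ρ) + 99 := rfl
  have heval : RE.eval a (p.mod q) ρ = p.eval a ρ % q.eval a ρ := rfl
  rw [hcost, heval]
  clear hw hcost heval
  generalize p.eval a ρ = P at *
  generalize q.eval a ρ = Q at *
  refine sp_bind (R := fun s' t => t ≤ 50 * (P / Q) + 20 ∧ s'.a 121 d = P % Q ∧
      Fr d (fun _ => False) s s') (CCL.Sp.ite ?_ ?_ ?_) fun s4 t4 h4 => ?_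
  · simp only [Cn.ok, Ex.ok, ok_sg]
    omega
  · intro h
    simp only [Cn.eval, eval_sg, Ex.eval] at h
    rw [e2] at h
    subst h
    refine CCL.Sp.skip ⟨?_, by simp [e1'], f12⟩
    simp only [Cn.cost, Ex.cost, cost_sg]
    omega
  · intro h
    simp only [Cn.eval, eval_sg, Ex.eval] at h
    rw [e2] at h
    have hQ : 0 < Q := Nat.pos_of_ne_zero h
    refine (for_loop (N := P / Q) (fun k s' => s'.a 121 d = P - k * Q ∧
      s'.a 121 (d + 1) = Q ∧ Fr d (fun _ => False) s s')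
      (fun _ => 50) ?_ ?_ ?_).mono fun s4 t4 h4 => ?_
    · rintro k s' hk ⟨h1, h2, h4⟩
      have h5 : k * Q ≤ P := (Nat.mul_le_mul_right Q hk).trans (Nat.div_mul_le_self P Q)
      have h6 : k < P / Q ↔ k * Q + Q ≤ P := by
        rw [← Nat.succ_mul]
        exact (Nat.le_div_iff_mul_le hQ)
      simp only [Cn.ok, Cn.eval, Ex.ok, ok_sg, Ex.eval, eval_sg, h1, h2]
      rw [h6]
      omega
    · rintro k s' hk ⟨h1, h2, h4⟩
      refine sp_sp (by omega) ?_ ⟨⟨?_, ?_, ?_⟩, ?_⟩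
      · simp only [Ex.ok, ok_sg]
        omega
      · simp only [Ex.eval, eval_sg, a121, h1, h2, Nat.succ_mul]
        simp
        omega
      · simp [a121, h2]
      · exact h4.spp le_rfl
      · simp only [Cn.cost, Ex.cost, cost_sg]
        omega
    · exact ⟨by simp [e1'], e2, f12⟩
    obtain ⟨⟨h1, h2, h4⟩, ht⟩ := h4
    simp only [Finset.sum_const, Finset.card_range, smul_eq_mul, Cn.cost, Ex.cost, cost_sg] at ht
    refine ⟨?_, ?_, h4⟩
    · simp only [Cn.cost, Ex.cost, cost_sg]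
      omega
    · rw [h1, Nat.mod_eq_sub_div_mul]
  obtain ⟨ht, h3, h4⟩ := h4
  exact CCL.Sp.nil ⟨by omega, h3, h4⟩

theorem spec_get (a : Ar) {A : ℕ} (hA : A < 120) {i : RE} (hi : Spec a i) :
    Spec a (.get A i) := by
  intro d ρ b s hs hw hd
  simp only [RE.wt, RE.sd] at hw hd
  refine sp_bind (hi d ρ b s hs (by omega) (by omega)) fun s1 t1 h1 => ?_
  obtain ⟨c1, e1, f1⟩ := h1
  refine sp_bind (R := fun s' t => s' = s1.seta 121 d (a A (i.eval a ρ)) ∧ t = 5)
    (sp_sp (by omega) ?_ ?_) fun s3 t3 h3 => ?_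
  · simp only [Ex.ok, ok_sg]
    omega
  · simp only [Ex.eval, Ex.cost, eval_sg, cost_sg, e1, (hs.fr f1).arr A hA]
    trivial
  obtain ⟨rfl, rfl⟩ := h3
  refine CCL.Sp.nil ⟨?_, ?_, ?_⟩
  · simp only [RE.cost]; omega
  · simp [a121, RE.eval]
  · exact f1.spp le_rfl

theorem spec_ite (a : Ar) {u v p q : RE} (hu : Spec a u) (hv : Spec a v) (hp : Spec a p)
    (hq : Spec a q) : Spec a (.ite u v p q) := by
  intro d ρ b s hs hw hd
  simp only [RE.wt, RE.sd] at hw hd
  refine sp_bind (hu d ρ b s hs (by omega) (by omega)) fun s1 t1 h1 => ?_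
  obtain ⟨c1, e1, f1⟩ := h1
  refine sp_bind (hv (d + 1) ρ b s1 (hs.fr f1) (by omega) (by omega)) fun s2 t2 h2 => ?_
  obtain ⟨c2, e2, f2⟩ := h2
  have e1' : s2.a 121 d = u.eval a ρ := (f2.sc d (by omega)).trans e1
  have f12 := f1.trans f2 (by omega) fun _ h => h
  have hs2 := hs.fr f12
  refine sp_bind (R := fun s' t => t ≤ (if u.eval a ρ < v.eval a ρ then p.cost a ρ else
      q.cost a ρ) + 10 ∧ s'.a 121 d = RE.eval a (.ite u v p q) ρ ∧
      Fr d (fun _ => False) s s') (CCL.Sp.ite ?_ ?_ ?_) fun s4 t4 h4 => ?_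
  · simp only [Cn.ok, ok_sg]
    omega
  · intro h
    simp only [Cn.eval, eval_sg, e1', e2] at h
    rw [if_pos h] at hw
    refine (hp d ρ b s2 hs2 (by omega) (by omega)).mono fun s3 t3 h3 => ?_
    obtain ⟨c3, e3, f3⟩ := h3
    refine ⟨?_, ?_, f12.trans f3 le_rfl fun _ h => h⟩
    · rw [if_pos h]
      simp only [Cn.cost, cost_sg]
      omega
    · simp only [RE.eval, if_pos h, e3]
  · intro h
    simp only [Cn.eval, eval_sg, e1', e2] at h
    rw [if_neg h] at hw
    refine (hq d ρ b s2 hs2 (by omega) (by omega)).mono fun s3 t3 h3 => ?_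
    obtain ⟨c3, e3, f3⟩ := h3
    refine ⟨?_, ?_, f12.trans f3 le_rfl fun _ h => h⟩
    · rw [if_neg h]
      simp only [Cn.cost, cost_sg]
      omega
    · simp only [RE.eval, if_neg h, e3]
  obtain ⟨ht, h3, h4⟩ := h4
  refine CCL.Sp.nil ⟨?_, h3, h4⟩
  simp only [RE.cost]
  omega

theorem Fr.restore {d x w : ℕ} {s s' : St} (h : Fr d (fun z => z = x) s s')
    (hw : w = s.a 120 x) : Fr d (fun _ => False) s (s'.seta 120 x w) := by
  refine ⟨fun A h1 h2 => ?_, fun z _ => ?_, fun i hi => ?_, h.v, h.inp, h.out⟩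
  · rw [CCL.St.seta_a_ne _ h2]
    exact h.arr A h1 h2
  · rw [a120]
    split_ifs with hz
    · rw [hw, hz]
    · exact h.loc z hz
  · rw [a120']
    exact h.sc i hi

theorem Pre.set {a : Ar} {ρ : Loc} {s s' : St} {d x k : ℕ} (h : Pre a ρ s)
    (hf : Fr d (fun z => z = x) s s') (hk : s'.a 120 x = k) : Pre a (ρ.set x k) s' := by
  refine ⟨fun A hA => (hf.arr A (by omega) (by omega)).trans (h.arr A hA), fun z hz => ?_⟩
  rw [Loc.set_apply]
  split_ifs with hzx
  · rw [hzx, hk]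
  · exact (hf.loc z hzx).trans (h.loc z hz)

theorem spec_sum (a : Ar) {x : ℕ} (hx : x < 100) {n e : RE} (hn : Spec a n) (he : Spec a e) :
    Spec a (.sum x n e) := by
  intro d ρ b s hs hw hd
  simp only [RE.wt, RE.sd] at hw hd
  refine sp_bind (hn d ρ b s hs (by omega) (by omega)) fun s1 t1 h1 => ?_
  obtain ⟨c1, e1, f1⟩ := h1
  have hnb := eval_le a n ρ
  have hcost : RE.cost a (.sum x n e) ρ = n.cost a ρ +
      ∑ k ∈ Finset.range (n.eval a ρ), (RE.cost a e (ρ.set x k) + 99) + 99 := rfl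
  have heval : RE.eval a (.sum x n e) ρ =
      ∑ k ∈ Finset.range (n.eval a ρ), e.eval a (ρ.set x k) := rfl
  rw [hcost, heval]
  clear hcost heval
  generalize n.eval a ρ = N at *
  have hwk : ∀ k < N, e.wt a (ρ.set x k) ≤ b := by
    intro k hk
    have h : e.wt a (ρ.set x k) + 99 ≤ _ :=
      Finset.single_le_sum (f := fun k => e.wt a (ρ.set x k) + 99)
        (fun _ _ => Nat.zero_le _) (Finset.mem_range.2 hk)
    omega
  have hsk : ∀ k ≤ N, ∑ i ∈ Finset.range k, e.eval a (ρ.set x i) ≤ b := by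
    intro k hk
    have h1 : ∑ i ∈ Finset.range k, e.eval a (ρ.set x i) ≤
        ∑ i ∈ Finset.range N, e.eval a (ρ.set x i) :=
      Finset.sum_le_sum_of_subset (Finset.range_mono hk)
    have h2 : ∑ k ∈ Finset.range N, e.eval a (ρ.set x k) ≤
        ∑ k ∈ Finset.range N, (e.wt a (ρ.set x k) + 99) :=
      Finset.sum_le_sum fun k _ => (eval_le a e _).trans (by omega)
    omega
  have f1' : Fr d (fun z => z = x) s s1 := (Fr.refl _ _ _).trans f1 le_rfl fun _ h => h.elim
  refine sp_bind (R := fun s' t => s' = s1.seta 121 (d + 1) 0 ∧ t = 3)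
    (sp_sp (by omega) (by simp) ⟨rfl, rfl⟩) fun s2 t2 h2 => ?_
  obtain ⟨rfl, rfl⟩ := h2
  refine sp_bind (R := fun s' t => s' = (s1.seta 121 (d + 1) 0).seta 121 (d + 2) (s.a 120 x) ∧
    t = 4) (sp_sp (by omega) (by simp only [ok_lg]; omega) ?_) fun s2 t2 h2 => ?_
  · simp only [eval_lg, cost_lg, a121', f1.loc x not_false]
    trivial
  obtain ⟨rfl, rfl⟩ := h2
  refine sp_bind (R := fun s' t => s' = ((s1.seta 121 (d + 1) 0).seta 121 (d + 2)
    (s.a 120 x)).seta 120 x 0 ∧ t = 3) (sp_lp (by omega) (by simp) ⟨rfl, rfl⟩) fun s2 t2 h2 => ?_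
  obtain ⟨rfl, rfl⟩ := h2
  refine sp_bind (for_loop (N := N) (fun k s' => s'.a 120 x = k ∧ s'.a 121 d = N ∧
      s'.a 121 (d + 1) = ∑ i ∈ Finset.range k, e.eval a (ρ.set x i) ∧
      s'.a 121 (d + 2) = s.a 120 x ∧ Fr d (fun z => z = x) s s')
    (fun k => e.cost a (ρ.set x k) + 50) ?_ ?_ ?_) fun s4 t4 h4 => ?_
  · rintro k s' hk ⟨h1, h2, h3, h4, h5⟩
    simp only [Cn.ok, Cn.eval, ok_lg, ok_sg, eval_sg, eval_lg, h1, h2]
    exact ⟨⟨by omega, by omega⟩, trivial⟩
  · rintro k s' hk ⟨h1, h2, h3, h4, h5⟩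
    refine sp_bind (he (d + 3) (ρ.set x k) b s' (hs.set h5 h1) (hwk k hk) (by omega))
      fun s5 t5 h6 => ?_
    obtain ⟨c5, e5, f5⟩ := h6
    have hs1 := hsk (k + 1) (by omega)
    rw [Finset.sum_range_succ] at hs1
    have g1 : s5.a 121 (d + 1) = ∑ i ∈ Finset.range k, e.eval a (ρ.set x i) :=
      (f5.sc _ (by omega)).trans h3
    refine sp_bind (R := fun s'' t => s'' = s5.seta 121 (d + 1)
        (∑ i ∈ Finset.range (k + 1), e.eval a (ρ.set x i)) ∧ t = 7)
      (sp_sp (by omega) ?_ ?_) fun s6 t6 h6 => ?_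
    · simp only [Ex.ok, ok_sg, eval_sg, g1, e5]
      omega
    · simp only [Ex.eval, Ex.cost, eval_sg, cost_sg, g1, e5, Finset.sum_range_succ]
      trivial
    obtain ⟨rfl, rfl⟩ := h6
    refine sp_bind (R := fun s'' t => s'' = (s5.seta 121 (d + 1)
        (∑ i ∈ Finset.range (k + 1), e.eval a (ρ.set x i))).seta 120 x (k + 1) ∧ t = 6)
      (sp_lp (by omega) ?_ ?_) fun s6 t6 h6 => ?_
    · simp only [Ex.ok, ok_lg, eval_lg, Ex.eval, a121', f5.loc x not_false, h1]
      omega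
    · simp only [Ex.eval, Ex.cost, eval_lg, cost_lg, a121', f5.loc x not_false, h1]
      trivial
    obtain ⟨rfl, rfl⟩ := h6
    refine CCL.Sp.nil ⟨⟨?_, ?_, ?_, ?_, ?_⟩, ?_⟩
    · simp [a120]
    · simp only [a120', a121]
      rw [if_neg (by omega), f5.sc _ (by omega), h2]
    · simp only [a120', a121]
      rw [if_pos trivial]
    · simp only [a120', a121]
      rw [if_neg (by omega), f5.sc _ (by omega), h4]
    · exact ((h5.trans f5 (by omega) fun _ h => h.elim).spp (by omega)).lp rfl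
    · simp only [Cn.cost, cost_sg, cost_lg]
      omega
  · refine ⟨by simp [a120], ?_, ?_, ?_, ((f1'.spp (by omega)).spp (by omega)).lp rfl⟩
    · simp only [a120', a121]
      rw [if_neg (by omega), if_neg (by omega), e1]
    · simp only [a120', a121]
      rw [if_neg (by omega), if_pos trivial, Finset.range_zero, Finset.sum_empty]
    · simp only [a120', a121]
      rw [if_pos trivial]
  obtain ⟨⟨h1, h2, h3, h4, h5⟩, ht⟩ := h4
  simp only [Cn.cost, cost_sg, cost_lg] at ht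
  refine sp_bind (R := fun s' t => s' = s4.seta 120 x (s.a 120 x) ∧ t = 4)
    (sp_lp (by omega) (by simp only [ok_sg]; omega) ?_) fun s5 t5 h6 => ?_
  · simp only [eval_sg, cost_sg, h4]
    trivial
  obtain ⟨rfl, rfl⟩ := h6
  refine sp_bind (R := fun s' t => s' = (s4.seta 120 x (s.a 120 x)).seta 121 d
    (∑ i ∈ Finset.range N, e.eval a (ρ.set x i)) ∧ t = 4)
    (sp_sp (by omega) (by simp only [ok_sg]; omega) ?_) fun s5 t5 h6 => ?_
  · simp only [eval_sg, cost_sg, a120', h3]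
    trivial
  obtain ⟨rfl, rfl⟩ := h6
  refine CCL.Sp.nil ⟨?_, by simp [a121], (h5.restore rfl).spp le_rfl⟩
  have h6 : ∑ k ∈ Finset.range N, (RE.cost a e (ρ.set x k) + 50) ≤
      ∑ k ∈ Finset.range N, (RE.cost a e (ρ.set x k) + 99) :=
    Finset.sum_le_sum fun k _ => by omega
  omega

theorem spec_fnd (a : Ar) {x : ℕ} (hx : x < 100) {n e : RE} (hn : Spec a n) (he : Spec a e) :
    Spec a (.fnd x n e) := by
  intro d ρ b s hs hw hd
  simp only [RE.wt, RE.sd] at hw hd
  refine sp_bind (hn d ρ b s hs (by omega) (by omega)) fun s1 t1 h1 => ?_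
  obtain ⟨c1, e1, f1⟩ := h1
  have hnb := eval_le a n ρ
  have hcost : RE.cost a (.fnd x n e) ρ = n.cost a ρ +
      ∑ k ∈ Finset.range (n.eval a ρ), (RE.cost a e (ρ.set x k) + 99) + 99 := rfl
  have heval : RE.eval a (.fnd x n e) ρ =
      firstPos (fun k => e.eval a (ρ.set x k)) (n.eval a ρ) := rfl
  rw [hcost, heval]
  clear hcost heval
  generalize n.eval a ρ = N at *
  have hwk : ∀ k < N, e.wt a (ρ.set x k) ≤ b := by
    intro k hk
    have h : e.wt a (ρ.set x k) + 99 ≤ _ :=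
      Finset.single_le_sum (f := fun k => e.wt a (ρ.set x k) + 99)
        (fun _ _ => Nat.zero_le _) (Finset.mem_range.2 hk)
    omega
  have f1' : Fr d (fun z => z = x) s s1 := (Fr.refl _ _ _).trans f1 le_rfl fun _ h => h.elim
  refine sp_bind (R := fun s' t => s' = s1.seta 121 (d + 1) 0 ∧ t = 3)
    (sp_sp (by omega) (by simp) ⟨rfl, rfl⟩) fun s2 t2 h2 => ?_
  obtain ⟨rfl, rfl⟩ := h2
  refine sp_bind (R := fun s' t => s' = (s1.seta 121 (d + 1) 0).seta 121 (d + 2) (s.a 120 x) ∧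
    t = 4) (sp_sp (by omega) (by simp only [ok_lg]; omega) ?_) fun s2 t2 h2 => ?_
  · simp only [eval_lg, cost_lg, a121', f1.loc x not_false]
    trivial
  obtain ⟨rfl, rfl⟩ := h2
  refine sp_bind (R := fun s' t => s' = ((s1.seta 121 (d + 1) 0).seta 121 (d + 2)
    (s.a 120 x)).seta 120 x 0 ∧ t = 3) (sp_lp (by omega) (by simp) ⟨rfl, rfl⟩) fun s2 t2 h2 => ?_
  obtain ⟨rfl, rfl⟩ := h2
  set F : ℕ → ℕ := fun k => e.eval a (ρ.set x k) with hF
  refine sp_bind (for_loop (N := N) (fun k s' => s'.a 120 x = k ∧ s'.a 121 d = N ∧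
      s'.a 121 (d + 1) = firstPos F k ∧
      s'.a 121 (d + 2) = s.a 120 x ∧ Fr d (fun z => z = x) s s')
    (fun k => e.cost a (ρ.set x k) + 50) ?_ ?_ ?_) fun s4 t4 h4 => ?_
  · rintro k s' hk ⟨h1, h2, h3, h4, h5⟩
    simp only [Cn.ok, Cn.eval, ok_lg, ok_sg, eval_sg, eval_lg, h1, h2]
    exact ⟨⟨by omega, by omega⟩, trivial⟩
  · rintro k s' hk ⟨h1, h2, h3, h4, h5⟩
    refine sp_bind (he (d + 3) (ρ.set x k) b s' (hs.set h5 h1) (hwk k hk) (by omega))
      fun s5 t5 h6 => ?_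
    obtain ⟨c5, e5, f5⟩ := h6
    have g1 : s5.a 121 (d + 1) = firstPos F k := (f5.sc _ (by omega)).trans h3
    have g2 : s5.a 120 x = k := (f5.loc x not_false).trans h1
    have g3 := cfirstPos_le F k
    have f6 := h5.trans f5 (d := d) (by omega) fun _ h => h.elim
    refine sp_bind (R := fun s'' t => t ≤ 30 ∧ s''.a 120 x = k ∧ s''.a 121 d = N ∧
      s''.a 121 (d + 1) = firstPos F (k + 1) ∧ s''.a 121 (d + 2) = s.a 120 x ∧
      Fr d (fun z => z = x) s s'') (CCL.Sp.ite ?_ ?_ ?_) fun s6 t6 h6 => ?_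
    · simp only [Cn.ok, ok_sg, ok_lg]
      omega
    · intro h
      simp only [Cn.eval, eval_sg, eval_lg, g1, g2] at h
      refine CCL.Sp.skip ⟨?_, g2, ?_, ?_, ?_, f6⟩
      · simp only [Cn.cost, cost_sg, cost_lg]
        omega
      · rw [f5.sc _ (by omega), h2]
      · rw [g1, firstPos, if_pos h]
      · rw [f5.sc _ (by omega), h4]
    · intro h
      simp only [Cn.eval, eval_sg, eval_lg, g1, g2] at h
      have h' : firstPos F k = k := by omega
      refine CCL.Sp.ite ?_ ?_ ?_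
      · simp only [Cn.ok, ok_sg, Ex.ok]
        omega
      · intro h7
        simp only [Cn.eval, eval_sg, Ex.eval, e5] at h7
        refine CCL.Sp.skip ⟨?_, g2, ?_, ?_, ?_, f6⟩
        · simp only [Cn.cost, cost_sg, cost_lg, Ex.cost]
          omega
        · rw [f5.sc _ (by omega), h2]
        · rw [g1, firstPos, if_neg h, if_pos h7, h']
        · rw [f5.sc _ (by omega), h4]
      · intro h7
        simp only [Cn.eval, eval_sg, Ex.eval, e5] at h7
        refine sp_sp (by omega) ?_ ⟨?_, ?_, ?_, ?_, ?_, f6.spp (by omega)⟩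
        · simp only [Ex.ok, ok_lg, eval_lg, Ex.eval, g2]
          omega
        · simp only [Cn.cost, cost_sg, cost_lg, Ex.cost]
          omega
        · rw [a121', g2]
        · rw [a121, if_neg (by omega), f5.sc _ (by omega), h2]
        · rw [a121, if_pos rfl, firstPos, if_neg h, if_neg h7]
          simp only [Ex.eval, eval_lg, g2]
        · rw [a121, if_neg (by omega), f5.sc _ (by omega), h4]
    obtain ⟨ht6, k1, k2, k3, k4, k5⟩ := h6
    refine sp_bind (R := fun s'' t => s'' = s6.seta 120 x (k + 1) ∧ t = 6)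
      (sp_lp (by omega) ?_ ?_) fun s7 t7 h7 => ?_
    · simp only [Ex.ok, ok_lg, eval_lg, Ex.eval, k1]
      omega
    · simp only [Ex.eval, Ex.cost, eval_lg, cost_lg, k1]
      trivial
    obtain ⟨rfl, rfl⟩ := h7
    refine CCL.Sp.nil ⟨⟨by simp [a120], by rw [a120', k2], by rw [a120', k3], by rw [a120', k4],
      k5.lp rfl⟩, ?_⟩
    simp only [Cn.cost, cost_sg, cost_lg]
    omega
  · refine ⟨by simp [a120], ?_, ?_, ?_, ((f1'.spp (by omega)).spp (by omega)).lp rfl⟩
    · simp only [a120', a121]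
      rw [if_neg (by omega), if_neg (by omega), e1]
    · simp only [a120', a121]
      rw [if_neg (by omega), if_pos trivial, firstPos]
    · simp only [a120', a121]
      rw [if_pos trivial]
  obtain ⟨⟨h1, h2, h3, h4, h5⟩, ht⟩ := h4
  simp only [Cn.cost, cost_sg, cost_lg] at ht
  refine sp_bind (R := fun s' t => s' = s4.seta 120 x (s.a 120 x) ∧ t = 4)
    (sp_lp (by omega) (by simp only [ok_sg]; omega) ?_) fun s5 t5 h6 => ?_
  · simp only [eval_sg, cost_sg, h4]
    trivial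
  obtain ⟨rfl, rfl⟩ := h6
  refine sp_bind (R := fun s' t => s' = (s4.seta 120 x (s.a 120 x)).seta 121 d
    (firstPos F N) ∧ t = 4)
    (sp_sp (by omega) (by simp only [ok_sg]; omega) ?_) fun s5 t5 h6 => ?_
  · simp only [eval_sg, cost_sg, a120', h3]
    trivial
  obtain ⟨rfl, rfl⟩ := h6
  refine CCL.Sp.nil ⟨?_, by simp [a121], (h5.restore rfl).spp le_rfl⟩
  have h6 : ∑ k ∈ Finset.range N, (RE.cost a e (ρ.set x k) + 50) ≤
      ∑ k ∈ Finset.range N, (RE.cost a e (ρ.set x k) + 99) :=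
    Finset.sum_le_sum fun k _ => by omega
  omega

theorem Fr.restore2 {d x y w w' : ℕ} {s s' : St} (h : Fr d (fun z => z = x ∨ z = y) s s')
    (hw : w = s.a 120 x) (hw' : w' = s.a 120 y) :
    Fr d (fun _ => False) s ((s'.seta 120 x w).seta 120 y w') := by
  refine ⟨fun A h1 h2 => ?_, fun z _ => ?_, fun i hi => ?_, h.v, h.inp, h.out⟩
  · rw [CCL.St.seta_a_ne _ h2, CCL.St.seta_a_ne _ h2]
    exact h.arr A h1 h2
  · rw [a120, a120]
    split_ifs with hz hz'
    · rw [hw', hz]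
    · rw [hw, hz']
    · exact h.loc z (by tauto)
  · rw [a120', a120']
    exact h.sc i hi

theorem Pre.set2 {a : Ar} {ρ : Loc} {s s' : St} {d x y k w : ℕ} (h : Pre a ρ s)
    (hf : Fr d (fun z => z = x ∨ z = y) s s') (hk : s'.a 120 x = k) :
    Pre a ((ρ.set x k).set y w) (s'.seta 120 y w) := by
  refine ⟨fun A hA => ?_, fun z hz => ?_⟩
  · rw [CCL.St.seta_a_ne _ (by omega)]
    exact (hf.arr A (by omega) (by omega)).trans (h.arr A hA)
  · rw [Loc.set_apply, Loc.set_apply, a120]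
    split_ifs with hzy hzx
    · rfl
    · rw [hzx, hk]
    · exact (hf.loc z (by tauto)).trans (h.loc z hz)

theorem spec_fold (a : Ar) {x y : ℕ} (hx : x < 100) (hy : y < 100) (hxy : x ≠ y)
    {n i c e : RE} (hn : Spec a n) (hi : Spec a i) (hc : Spec a c) (he : Spec a e) :
    Spec a (.fold x y n i c e) := by
  intro d ρ b s hs hw hd
  simp only [RE.wt, RE.sd] at hw hd
  refine sp_bind (hn d ρ b s hs (by omega) (by omega)) fun s1 t1 h1 => ?_
  obtain ⟨c1, e1, f1⟩ := h1
  refine sp_bind (hi (d + 1) ρ b s1 (hs.fr f1) (by omega) (by omega)) fun s2 t2 h2 => ?_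
  obtain ⟨c2, e2, f2⟩ := h2
  have f12 := f1.trans f2 (by omega) fun _ h => h
  refine sp_bind (hc (d + 2) ρ b s2 (hs.fr f12) (by omega) (by omega)) fun s3 t3 h3 => ?_
  obtain ⟨c3, e3, f3⟩ := h3
  have f13 := f12.trans f3 (by omega) fun _ h => h
  have e1' : s3.a 121 d = n.eval a ρ := by
    rw [f3.sc _ (by omega), f2.sc _ (by omega), e1]
  have e2' : s3.a 121 (d + 1) = i.eval a ρ := by rw [f3.sc _ (by omega), e2]
  have hnb := eval_le a n ρ
  set F : ℕ → ℕ → ℕ := fun k w => min (e.eval a ((ρ.set x k).set y w)) (c.eval a ρ) with hF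
  have hcost : RE.cost a (.fold x y n i c e) ρ = n.cost a ρ + i.cost a ρ + c.cost a ρ +
      ∑ k ∈ Finset.range (n.eval a ρ), (RE.cost a e ((ρ.set x k).set y
        (iter F (i.eval a ρ) k)) + 99) + 99 := rfl
  have heval : RE.eval a (.fold x y n i c e) ρ = iter F (i.eval a ρ) (n.eval a ρ) := rfl
  rw [hcost, heval]
  clear hcost heval
  have hwk : ∀ k < n.eval a ρ, e.wt a ((ρ.set x k).set y (iter F (i.eval a ρ) k)) ≤ b := by
    intro k hk
    have h : e.wt a ((ρ.set x k).set y (iter F (i.eval a ρ) k)) + 99 ≤ _ :=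
      Finset.single_le_sum (f := fun k => e.wt a ((ρ.set x k).set y
        (iter F (i.eval a ρ) k)) + 99)
        (fun _ _ => Nat.zero_le _) (Finset.mem_range.2 hk)
    omega
  generalize n.eval a ρ = N at *
  generalize i.eval a ρ = I0 at *
  have hC : c.eval a ρ = c.eval a ρ := rfl
  have f1' : Fr d (fun z => z = x ∨ z = y) s s3 :=
    (Fr.refl _ _ _).trans f13 le_rfl fun _ h => h.elim
  refine sp_bind (R := fun s' t => s' = s3.seta 121 (d + 3) (s.a 120 x) ∧ t = 4)
    (sp_sp (by omega) (by simp only [ok_lg]; omega) ?_) fun s4 t4 h4 => ?_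
  · simp only [eval_lg, cost_lg, f13.loc x not_false]
    trivial
  obtain ⟨rfl, rfl⟩ := h4
  refine sp_bind (R := fun s' t => s' = (s3.seta 121 (d + 3) (s.a 120 x)).seta 121 (d + 4)
    (s.a 120 y) ∧ t = 4) (sp_sp (by omega) (by simp only [ok_lg]; omega) ?_) fun s4 t4 h4 => ?_
  · simp only [eval_lg, cost_lg, a121', f13.loc y not_false]
    trivial
  obtain ⟨rfl, rfl⟩ := h4
  refine sp_bind (R := fun s' t => s' = ((s3.seta 121 (d + 3) (s.a 120 x)).seta 121 (d + 4)
    (s.a 120 y)).seta 120 x 0 ∧ t = 3) (sp_lp (by omega) (by simp) ⟨rfl, rfl⟩)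
    fun s4 t4 h4 => ?_
  obtain ⟨rfl, rfl⟩ := h4
  refine sp_bind (for_loop (N := N) (fun k s' => s'.a 120 x = k ∧ s'.a 121 d = N ∧
      s'.a 121 (d + 1) = iter F I0 k ∧ s'.a 121 (d + 2) = c.eval a ρ ∧
      s'.a 121 (d + 3) = s.a 120 x ∧ s'.a 121 (d + 4) = s.a 120 y ∧
      Fr d (fun z => z = x ∨ z = y) s s')
    (fun k => e.cost a ((ρ.set x k).set y (iter F I0 k)) + 50) ?_ ?_ ?_) fun s4 t4 h4 => ?_
  · rintro k s' hk ⟨h1, h2, h3, h4, h5, h6, h7⟩
    simp only [Cn.ok, Cn.eval, ok_lg, ok_sg, eval_sg, eval_lg, h1, h2]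
    exact ⟨⟨by omega, by omega⟩, trivial⟩
  · rintro k s' hk ⟨h1, h2, h3, h4, h5, h6, h7⟩
    refine sp_bind (R := fun s'' t => s'' = s'.seta 120 y (iter F I0 k) ∧ t = 4)
      (sp_lp (by omega) (by simp only [ok_sg]; omega) ?_) fun s5 t5 h8 => ?_
    · simp only [eval_sg, cost_sg, h3]
      trivial
    obtain ⟨rfl, rfl⟩ := h8
    refine sp_bind (he (d + 5) ((ρ.set x k).set y (iter F I0 k)) b _ (hs.set2 h7 h1)
      (hwk k hk) (by omega)) fun s5 t5 h8 => ?_
    obtain ⟨c5, e5, f5⟩ := h8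
    have g1 : s5.a 121 d = N := by rw [f5.sc _ (by omega), a120', h2]
    have g3 : s5.a 121 (d + 2) = c.eval a ρ := by rw [f5.sc _ (by omega), a120', h4]
    have g4 : s5.a 121 (d + 3) = s.a 120 x := by rw [f5.sc _ (by omega), a120', h5]
    have g5 : s5.a 121 (d + 4) = s.a 120 y := by rw [f5.sc _ (by omega), a120', h6]
    have g6 : s5.a 120 x = k := by rw [f5.loc x not_false, a120, if_neg hxy, h1]
    have f6 : Fr d (fun z => z = x ∨ z = y) s s5 :=
      (h7.lp (Or.inr rfl)).trans f5 (by omega) fun _ h => h.elim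
    refine sp_bind (R := fun s'' t => t ≤ 20 ∧ s'' = s5.seta 121 (d + 1) (iter F I0 (k + 1)))
      (CCL.Sp.ite ?_ ?_ ?_) fun s6 t6 h6 => ?_
    · simp only [Cn.ok, ok_sg]
      omega
    · intro h
      simp only [Cn.eval, eval_sg, e5, g3] at h
      refine sp_sp (by omega) (by simp only [ok_sg]; omega) ⟨?_, ?_⟩
      · simp only [Cn.cost, cost_sg]
        omega
      · simp only [eval_sg, e5, iter, hF]
        rw [min_eq_left h.le]
    · intro h
      simp only [Cn.eval, eval_sg, e5, g3] at h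
      refine sp_sp (by omega) (by simp only [ok_sg]; omega) ⟨?_, ?_⟩
      · simp only [Cn.cost, cost_sg]
        omega
      · simp only [eval_sg, g3, iter, hF]
        rw [min_eq_right (not_lt.1 h)]
    obtain ⟨ht6, rfl⟩ := h6
    refine sp_bind (R := fun s'' t => s'' = (s5.seta 121 (d + 1)
        (iter F I0 (k + 1))).seta 120 x (k + 1) ∧ t = 6)
      (sp_lp (by omega) ?_ ?_) fun s7 t7 h7 => ?_
    · simp only [Ex.ok, ok_lg, eval_lg, Ex.eval, a121', g6]
      omega
    · simp only [Ex.eval, Ex.cost, eval_lg, cost_lg, a121', g6]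
      trivial
    obtain ⟨rfl, rfl⟩ := h7
    refine CCL.Sp.nil ⟨⟨by simp [a120], ?_, ?_, ?_, ?_, ?_,
      (f6.spp (by omega)).lp (Or.inl rfl)⟩, ?_⟩
    · rw [a120', a121, if_neg (by omega), g1]
    · rw [a120', a121, if_pos rfl]
    · rw [a120', a121, if_neg (by omega), g3]
    · rw [a120', a121, if_neg (by omega), g4]
    · rw [a120', a121, if_neg (by omega), g5]
    · simp only [Cn.cost, cost_sg, cost_lg]
      omega
  · refine ⟨by simp [a120], ?_, ?_, ?_, ?_, ?_,
      ((f1'.spp (by omega)).spp (by omega)).lp (Or.inl rfl)⟩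
    · rw [a120', a121, if_neg (by omega), a121, if_neg (by omega), e1']
    · rw [a120', a121, if_neg (by omega), a121, if_neg (by omega), e2', iter]
    · rw [a120', a121, if_neg (by omega), a121, if_neg (by omega), e3]
    · rw [a120', a121, if_neg (by omega), a121, if_pos rfl]
    · rw [a120', a121, if_pos rfl]
  obtain ⟨⟨h1, h2, h3, h4, h5, h6, h7⟩, ht⟩ := h4
  simp only [Cn.cost, cost_sg, cost_lg] at ht
  refine sp_bind (R := fun s' t => s' = s4.seta 120 x (s.a 120 x) ∧ t = 4)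
    (sp_lp (by omega) (by simp only [ok_sg]; omega) ?_) fun s5 t5 h8 => ?_
  · simp only [eval_sg, cost_sg, h5]
    trivial
  obtain ⟨rfl, rfl⟩ := h8
  refine sp_bind (R := fun s' t => s' = (s4.seta 120 x (s.a 120 x)).seta 120 y (s.a 120 y) ∧
    t = 4) (sp_lp (by omega) (by simp only [ok_sg]; omega) ?_) fun s5 t5 h8 => ?_
  · simp only [eval_sg, cost_sg, a120', h6]
    trivial
  obtain ⟨rfl, rfl⟩ := h8
  refine sp_bind (R := fun s' t => s' = ((s4.seta 120 x (s.a 120 x)).seta 120 y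
    (s.a 120 y)).seta 121 d (iter F I0 N) ∧ t = 4)
    (sp_sp (by omega) (by simp only [ok_sg]; omega) ?_) fun s5 t5 h8 => ?_
  · simp only [eval_sg, cost_sg, a120', h3]
    trivial
  obtain ⟨rfl, rfl⟩ := h8
  refine CCL.Sp.nil ⟨?_, by simp [a121], (h7.restore2 rfl rfl).spp le_rfl⟩
  have h9 : ∑ k ∈ Finset.range N, (RE.cost a e ((ρ.set x k).set y (iter F I0 k)) + 50) ≤
      ∑ k ∈ Finset.range N, (RE.cost a e ((ρ.set x k).set y (iter F I0 k)) + 99) :=
    Finset.sum_le_sum fun k _ => by omega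
  omega

theorem spec_all (a : Ar) {B : ℕ} (e : RE) (he : e.wf B = true) : Spec a e := by
  induction e with
  | const c => exact spec_const a c
  | var x => exact spec_var a x (by simpa [RE.wf] using he)
  | add p q hp hq =>
    simp only [RE.wf, Bool.and_eq_true] at he
    exact spec_add a (hp he.1) (hq he.2)
  | sub p q hp hq =>
    simp only [RE.wf, Bool.and_eq_true] at he
    exact spec_sub a (hp he.1) (hq he.2)
  | mul p q hp hq =>
    simp only [RE.wf, Bool.and_eq_true] at he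
    exact spec_mul a (hp he.1) (hq he.2)
  | div p q hp hq =>
    simp only [RE.wf, Bool.and_eq_true] at he
    exact spec_div a (hp he.1) (hq he.2)
  | mod p q hp hq =>
    simp only [RE.wf, Bool.and_eq_true] at he
    exact spec_mod a (hp he.1) (hq he.2)
  | get A i hi =>
    simp only [RE.wf, Bool.and_eq_true, decide_eq_true_eq] at he
    exact spec_get a he.1.1 (hi he.2)
  | ite u v p q hu hv hp hq =>
    simp only [RE.wf, Bool.and_eq_true] at he
    exact spec_ite a (hu he.1.1.1) (hv he.1.1.2) (hp he.1.2) (hq he.2)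
  | sum x n e hn he' =>
    simp only [RE.wf, Bool.and_eq_true, decide_eq_true_eq] at he
    exact spec_sum a he.1.1 (hn he.1.2) (he' he.2)
  | fnd x n e hn he' =>
    simp only [RE.wf, Bool.and_eq_true, decide_eq_true_eq] at he
    exact spec_fnd a he.1.1 (hn he.1.2) (he' he.2)
  | fold x y n i c e hn hi hc he' =>
    simp only [RE.wf, Bool.and_eq_true, decide_eq_true_eq] at he
    exact spec_fold a he.1.1.1.1.1.1 he.1.1.1.1.1.2 he.1.1.1.1.2 (hn he.1.1.1.2)
      (hi he.1.1.2) (hc he.1.2) (he' he.2)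

theorem comp_spec {B : ℕ} (e : RE) (he : e.wf B = true) : ∀ (d : ℕ) (ρ : Loc) (a : Ar) (b : ℕ)
    (s : St), (∀ A < 120, s.a A = a A) → (∀ x < 100, s.a 120 x = ρ x) →
    e.wt a ρ ≤ b → 100 + d + e.sd ≤ b →
    ∃ (s' : St) (t : ℕ), Run b (comp e d) s s' t ∧ t ≤ e.cost a ρ ∧
      s'.a 121 d = e.eval a ρ ∧ (∀ A, A ≠ 121 → s'.a A = s.a A) ∧
      (∀ j < d, s'.a 121 j = s.a 121 j) ∧ s'.v = s.v ∧ s'.inp = s.inp ∧ s'.out = s.out := by
  intro d ρ a b s h1 h2 h3 h4
  obtain ⟨s', t, hr, ht, hv, hf⟩ := spec_all a e he d ρ b s ⟨h1, h2⟩ h3 h4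
  refine ⟨s', t, hr, ht, hv, fun A hA => ?_, hf.sc, hf.v, hf.inp, hf.out⟩
  by_cases hA' : A = 120
  · subst hA'
    funext z
    exact hf.loc z not_false
  · exact hf.arr A hA hA'

end Pool.Agent.OMVU
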