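import Pool.Agent.CCL.Compile

/-! Compilation of the structured language to the machine of `CCL.Machine` with 128 arrays.

Layout: the scalar register `x` (below 32) is `R x`, the registers `R 32, ..., R 63` are
temporaries, the cell `i` of the array `A` (below 128) is `R (64 + 128 i + A)`. -/

namespace Pool.Agent.OMVU

open CCL (Ex Cn Prog St Run Instr Cfg Step Steps CodeAt codeAt_append ex1 good exL goodL
  exL_append goodL_append line Bd)

/-! ### Programs which can be compiled -/

/-- Registers below 32 and arrays below 128. -/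
def exWf0 : Ex → Bool
  | .const _ => true
  | .var x => decide (x < 32)
  | .add e f => exWf0 e && exWf0 f
  | .sub e f => exWf0 e && exWf0 f
  | .get A e => decide (A < 128) && exWf0 e

/-- Registers below 32, arrays below 128, nesting depth at most 20. -/
def exWf (e : Ex) : Bool := exWf0 e && decide (e.depth ≤ 20)

/-- Registers below 32, arrays below 128, nesting depth at most 20. -/
def cnWf : Cn → Bool
  | .lt e f => exWf e && exWf f
  | .eq e f => exWf e && exWf f
  | .ne e f => exWf e && exWf f

/-- Registers below 32, arrays below 128, nesting depth at most 20. -/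
def wf128 : Prog → Bool
  | .skip => true
  | .set x e => decide (x < 32) && exWf e
  | .put A i e => decide (A < 128) && exWf i && exWf e
  | .read x => decide (x < 32)
  | .write e => exWf e
  | .seq p q => wf128 p && wf128 q
  | .ite c p q => cnWf c && wf128 p && wf128 q
  | .loop c p => cnWf c && wf128 p

/-! ### States and registers -/

/-- The registers `R` represent the registers (below 32) and the arrays (below 128) of the
state. -/
def Rl (s : St) (R : ℕ → ℕ) : Prop :=
  (∀ x < 32, R x = s.v x) ∧ ∀ A < 128, ∀ i, R (64 + 128 * i + A) = s.a A i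

theorem Rl.congr {s : St} {R R' : ℕ → ℕ} (h : Rl s R)
    (hR : ∀ r, ¬ (32 ≤ r ∧ r < 64) → R' r = R r) : Rl s R' :=
  ⟨fun x hx => by rw [hR x (by omega), h.1 x hx],
    fun A hA i => by rw [hR _ (by omega), h.2 A hA i]⟩

/-! ### Expressions -/

/-- Replace the index in the register `t` by the address of the cell of the array `A`. -/
def adr (t u A : ℕ) : List Instr :=
  [.add t t t, .add t t t, .add t t t, .add t t t, .add t t t, .add t t t, .add t t t,
    .const u (64 + A), .add t t u]

theorem adr_spec {B t u A : ℕ} {R : ℕ → ℕ} (htu : t ≠ u) (hb : 64 + 128 * R t + A ≤ B) :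
    goodL B (adr t u A) R ∧ exL (adr t u A) R t = 64 + 128 * R t + A ∧
      ∀ r, r ≠ t → r ≠ u → exL (adr t u A) R r = R r := by
  have hut : u ≠ t := fun h => htu h.symm
  refine ⟨?_, ?_, ?_⟩
  · simp only [adr, goodL, good, ex1, Function.update_self, Function.update_of_ne htu, and_true]
    omega
  · simp only [adr, exL, ex1, Function.update_self, Function.update_of_ne htu]
    omega
  · intro r h1 h2
    simp only [adr, exL, ex1, Function.update_of_ne h1, Function.update_of_ne h2]

/-- Code which puts the value of an expression into the register `32 + d`. -/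
def cE (d : ℕ) : Ex → List Instr
  | .const c => [.const (32 + d) c]
  | .var x => [.const (32 + d) 0, .sub (32 + d) x (32 + d)]
  | .add e f => cE d e ++ cE (d + 1) f ++ [.add (32 + d) (32 + d) (32 + (d + 1))]
  | .sub e f => cE d e ++ cE (d + 1) f ++ [.sub (32 + d) (32 + d) (32 + (d + 1))]
  | .get A e => cE d e ++ adr (32 + d) (32 + (d + 1)) A ++ [.load (32 + d) (32 + d)]

theorem cE_length (e : Ex) (d : ℕ) : (cE d e).length ≤ 10 * e.cost := by
  induction e generalizing d with
  | const c => simp [cE]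
  | var x => simp [cE]
  | add e f ihe ihf =>
    have h1 := ihe d
    have h2 := ihf (d + 1)
    simp only [cE, List.length_append, List.length_cons, List.length_nil, Ex.cost]
    omega
  | sub e f ihe ihf =>
    have h1 := ihe d
    have h2 := ihf (d + 1)
    simp only [cE, List.length_append, List.length_cons, List.length_nil, Ex.cost]
    omega
  | get A e ihe =>
    have h1 := ihe d
    simp only [cE, adr, List.length_append, List.length_cons, List.length_nil, Ex.cost]
    omega

theorem cE_spec {b B : ℕ} {s : St} (hB : 192 * (b + 1) ≤ B) (hs : Bd b s) (e : Ex) :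
    ∀ (d : ℕ) (R : ℕ → ℕ), exWf0 e = true → e.ok b s → d + e.depth < 32 → Rl s R →
      goodL B (cE d e) R ∧ exL (cE d e) R (32 + d) = e.eval s ∧
        ∀ r, ¬ (32 + d ≤ r ∧ r < 64) → exL (cE d e) R r = R r := by
  induction e with
  | const c =>
    intro d R _ hok hd _
    simp only [Ex.ok] at hok
    refine ⟨⟨?_, trivial⟩, ?_, ?_⟩
    · simp only [good]; omega
    · simp only [cE, exL, ex1, Function.update_self, Ex.eval]
    · intro r hr
      have : r ≠ 32 + d := by
        simp only [Ex.depth] at hd; omega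
      simp only [cE, exL, ex1, Function.update_of_ne this]
  | var x =>
    intro d R hw _ hd hR
    simp only [exWf0, decide_eq_true_eq] at hw
    refine ⟨⟨?_, ?_, trivial⟩, ?_, ?_⟩
    · simp only [good]; omega
    · simp only [good]
    · have : x ≠ 32 + d := by omega
      simp only [cE, exL, ex1, Function.update_self, Function.update_of_ne this, Ex.eval,
        Nat.sub_zero]
      exact hR.1 x hw
    · intro r hr
      have : r ≠ 32 + d := by
        simp only [Ex.depth] at hd; omega
      simp only [cE, exL, ex1, Function.update_of_ne this]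
  | add e f ihe ihf =>
    intro d R hw hok hd hR
    simp only [exWf0, Bool.and_eq_true] at hw
    simp only [Ex.depth] at hd
    obtain ⟨g1, v1, r1⟩ := ihe d R hw.1 hok.1 (by omega) hR
    have hR1 : Rl s (exL (cE d e) R) := hR.congr fun r hr => r1 r (by omega)
    obtain ⟨g2, v2, r2⟩ := ihf (d + 1) _ hw.2 hok.2.1 (by omega) hR1
    have v1' := r2 (32 + d) (by omega)
    rw [v1] at v1'
    have hsum := hok.2.2
    refine ⟨?_, ?_, ?_⟩
    · simp only [cE, goodL_append, exL_append]
      refine ⟨⟨g1, g2⟩, ?_, trivial⟩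
      simp only [good]
      rw [v1', v2]
      omega
    · simp only [cE, exL_append, exL, ex1, Function.update_self, Ex.eval]
      rw [v1', v2]
    · intro r hr
      have : r ≠ 32 + d := by omega
      simp only [cE, exL_append, exL, ex1, Function.update_of_ne this]
      rw [r2 r (by omega), r1 r hr]
  | sub e f ihe ihf =>
    intro d R hw hok hd hR
    simp only [exWf0, Bool.and_eq_true] at hw
    simp only [Ex.depth] at hd
    obtain ⟨g1, v1, r1⟩ := ihe d R hw.1 hok.1 (by omega) hR
    have hR1 : Rl s (exL (cE d e) R) := hR.congr fun r hr => r1 r (by omega)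
    obtain ⟨g2, v2, r2⟩ := ihf (d + 1) _ hw.2 hok.2 (by omega) hR1
    have v1' := r2 (32 + d) (by omega)
    rw [v1] at v1'
    refine ⟨?_, ?_, ?_⟩
    · simp only [cE, goodL_append, exL_append]
      exact ⟨⟨g1, g2⟩, trivial, trivial⟩
    · simp only [cE, exL_append, exL, ex1, Function.update_self, Ex.eval]
      rw [v1', v2]
    · intro r hr
      have : r ≠ 32 + d := by omega
      simp only [cE, exL_append, exL, ex1, Function.update_of_ne this]
      rw [r2 r (by omega), r1 r hr]
  | get A e ihe =>
    intro d R hw hok hd hR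
    simp only [exWf0, Bool.and_eq_true, decide_eq_true_eq] at hw
    simp only [Ex.depth] at hd
    have hpos := e.depth_pos
    obtain ⟨g1, v1, r1⟩ := ihe d R hw.2 hok (by omega) hR
    have hR1 : Rl s (exL (cE d e) R) := hR.congr fun r hr => r1 r (by omega)
    have hle : e.eval s ≤ b := CCL.Ex.eval_le hs hok
    obtain ⟨g2, v2, r2⟩ := adr_spec (B := B) (t := 32 + d) (u := 32 + (d + 1)) (A := A)
      (R := exL (cE d e) R) (by omega) (by rw [v1]; omega)
    rw [v1] at v2
    refine ⟨?_, ?_, ?_⟩
    · simp only [cE, goodL_append, exL_append]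
      exact ⟨⟨g1, g2⟩, trivial, trivial⟩
    · simp only [cE, exL_append, exL, ex1, Function.update_self, Ex.eval]
      rw [v2, r2 _ (by omega) (by omega), hR1.2 A hw.1]
    · intro r hr
      have h1 : r ≠ 32 + d := by omega
      have h2 : r ≠ 32 + (d + 1) := by omega
      simp only [cE, exL_append, exL, ex1, Function.update_of_ne h1]
      rw [r2 r h1 h2, r1 r hr]

theorem exWf_iff {e : Ex} (h : exWf e = true) : exWf0 e = true ∧ e.depth ≤ 20 := by
  simpa [exWf] using h

/-- Two expressions, one after the other. -/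
theorem cE_two {b B : ℕ} {s : St} (hB : 192 * (b + 1) ≤ B) (hs : Bd b s) {e f : Ex}
    {R : ℕ → ℕ} (he : exWf e = true) (hf : exWf f = true) (hoe : e.ok b s) (hof : f.ok b s)
    (hR : Rl s R) : ∃ R' : ℕ → ℕ, goodL B (cE 0 e ++ cE 1 f) R ∧
      exL (cE 0 e ++ cE 1 f) R = R' ∧ R' 32 = e.eval s ∧ R' 33 = f.eval s ∧ Rl s R' := by
  obtain ⟨he0, hed⟩ := exWf_iff he
  obtain ⟨hf0, hfd⟩ := exWf_iff hf
  obtain ⟨g1, v1, r1⟩ := cE_spec hB hs e 0 R he0 hoe (by omega) hR
  have hR1 : Rl s (exL (cE 0 e) R) := hR.congr fun r hr => r1 r (by omega)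
  obtain ⟨g2, v2, r2⟩ := cE_spec hB hs f 1 _ hf0 hof (by omega) hR1
  refine ⟨_, ?_, rfl, ?_, ?_, ?_⟩
  · rw [goodL_append]; exact ⟨g1, g2⟩
  · rw [exL_append, r2 32 (by omega)]; exact v1
  · rw [exL_append]; exact v2
  · rw [exL_append]
    exact hR1.congr fun r hr => r2 r (by omega)

/-! ### Tests -/

/-- Code which jumps to `L` if the test is false. -/
def cC (L : ℕ) : Cn → List Instr
  | .lt e f => (cE 0 e ++ cE 1 f) ++ [.const 34 1, .add 32 32 34, .jlt 33 32 L]
  | .eq e f => (cE 0 e ++ cE 1 f) ++ [.jlt 32 33 L, .jlt 33 32 L]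
  | .ne e f => (cE 0 e ++ cE 1 f) ++ [.sub 34 32 33, .sub 35 33 32, .add 34 34 35,
      .const 35 1, .jlt 34 35 L]

/-- The length of the code of a test. -/
def lC : Cn → ℕ
  | .lt e f => (cE 0 e ++ cE 1 f).length + 3
  | .eq e f => (cE 0 e ++ cE 1 f).length + 2
  | .ne e f => (cE 0 e ++ cE 1 f).length + 5

theorem cC_length (L : ℕ) (c : Cn) : (cC L c).length = lC c := by
  cases c <;> simp [cC, lC, -List.append_assoc]

theorem lC_le (c : Cn) : lC c ≤ 10 * c.cost + 5 := by
  cases c with
  | lt e f =>
    have := cE_length e 0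
    have := cE_length f 1
    simp only [lC, List.length_append, Cn.cost]; omega
  | eq e f =>
    have := cE_length e 0
    have := cE_length f 1
    simp only [lC, List.length_append, Cn.cost]; omega
  | ne e f =>
    have := cE_length e 0
    have := cE_length f 1
    simp only [lC, List.length_append, Cn.cost]; omega

theorem upd34 {s : St} {R : ℕ → ℕ} (h : Rl s R) {r w : ℕ} (hr : 32 ≤ r ∧ r < 64) :
    Rl s (Function.update R r w) :=
  h.congr fun x hx => Function.update_of_ne (by rintro rfl; exact hx hr) _ _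

theorem cC_spec {b B : ℕ} {s : St} (hB : 192 * (b + 1) ≤ B) (hs : Bd b s) {c : Cn}
    {P : List Instr} {q L : ℕ} (hP : CodeAt P q (cC L c)) {R : ℕ → ℕ} (hw : cnWf c = true)
    (hok : c.ok b s) (hR : Rl s R) (i o : List ℕ) :
    ∃ (R' : ℕ → ℕ) (t : ℕ), Rl s R' ∧ t ≤ lC c ∧
      ((c.eval s ∧ Steps B P ⟨q, R, i, o⟩ ⟨q + lC c, R', i, o⟩ t) ∨
        (¬ c.eval s ∧ Steps B P ⟨q, R, i, o⟩ ⟨L, R', i, o⟩ t)) := by
  cases c with
  | lt e f =>
    simp only [cnWf, Bool.and_eq_true] at hw
    obtain ⟨R1, g, hR1, v1, v2, hr⟩ := cE_two hB hs hw.1 hw.2 hok.1 hok.2 hR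
    have le1 := CCL.Ex.eval_le hs hok.1
    rw [cC, codeAt_append] at hP
    obtain ⟨hP1, hP2, hP3, hP4, -⟩ := hP
    have h1 := line (i := i) (o := o) hP1 g
    rw [hR1] at h1
    set l := (cE 0 e ++ cE 1 f).length with hl
    have h2 : Steps B P ⟨q + l, R1, i, o⟩ ⟨q + l + 2, Function.update
        (Function.update R1 34 1) 32 (e.eval s + 1), i, o⟩ 2 := by
      have := line (B := B) (P := P) (C := [.const 34 1, .add 32 32 34]) (q := q + l)
        (R := R1) (i := i) (o := o) ⟨hP2, hP3, trivial⟩ (by
          simp only [goodL, good, ex1, Function.update_self]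
          rw [Function.update_of_ne (by omega), v1]
          refine ⟨?_, ?_, trivial⟩ <;> omega)
      simp only [exL, ex1, Function.update_self] at this
      rw [Function.update_of_ne (by omega), v1] at this
      exact this
    have hr2 : Rl s (Function.update (Function.update R1 34 1) 32 (e.eval s + 1)) :=
      upd34 (upd34 hr (by omega)) (by omega)
    have h12 := h1.trans h2
    refine ⟨_, l + 2 + 1, hr2, by simp only [lC]; omega, ?_⟩
    by_cases hlt : e.eval s < f.eval s
    · refine Or.inl ⟨hlt, h12.trans (CCL.Step.one ?_)⟩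
      have := Step.jlt_neg (b := B) (P := P) ⟨q + l + 2, Function.update
        (Function.update R1 34 1) 32 (e.eval s + 1), i, o⟩ 33 32 L hP4 (by
          simp only [Function.update_self]
          rw [Function.update_of_ne (by omega), Function.update_of_ne (by omega), v2]
          omega)
      exact this
    · refine Or.inr ⟨hlt, h12.trans (CCL.Step.one ?_)⟩
      exact Step.jlt_pos (b := B) (P := P) ⟨q + l + 2, Function.update
        (Function.update R1 34 1) 32 (e.eval s + 1), i, o⟩ 33 32 L hP4 (by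
          simp only [Function.update_self]
          rw [Function.update_of_ne (by omega), Function.update_of_ne (by omega), v2]
          omega)
  | eq e f =>
    simp only [cnWf, Bool.and_eq_true] at hw
    obtain ⟨R1, g, hR1, v1, v2, hr⟩ := cE_two hB hs hw.1 hw.2 hok.1 hok.2 hR
    rw [cC, codeAt_append] at hP
    obtain ⟨hP1, hP2, hP3, -⟩ := hP
    have h1 := line (i := i) (o := o) hP1 g
    rw [hR1] at h1
    set l := (cE 0 e ++ cE 1 f).length with hl
    by_cases hlt : e.eval s < f.eval s
    · refine ⟨R1, l + 1, hr, by simp only [lC]; omega,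
        Or.inr ⟨by simp only [Cn.eval]; omega, h1.trans (CCL.Step.one ?_)⟩⟩
      exact Step.jlt_pos (b := B) (P := P) ⟨q + l, R1, i, o⟩ 32 33 L hP2 (by
        simp only; rw [v1, v2]; exact hlt)
    · have h2 : Steps B P ⟨q + l, R1, i, o⟩ ⟨q + l + 1, R1, i, o⟩ 1 :=
        CCL.Step.one (Step.jlt_neg (b := B) (P := P) ⟨q + l, R1, i, o⟩ 32 33 L hP2 (by
          simp only; rw [v1, v2]; exact hlt))
      refine ⟨R1, l + 1 + 1, hr, by simp only [lC]; omega, ?_⟩
      by_cases hgt : f.eval s < e.eval s
      · refine Or.inr ⟨by simp only [Cn.eval]; omega, (h1.trans h2).trans (CCL.Step.one ?_)⟩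
        exact Step.jlt_pos (b := B) (P := P) ⟨q + l + 1, R1, i, o⟩ 33 32 L hP3 (by
          simp only; rw [v1, v2]; exact hgt)
      · refine Or.inl ⟨by simp only [Cn.eval]; omega, (h1.trans h2).trans (CCL.Step.one ?_)⟩
        exact Step.jlt_neg (b := B) (P := P) ⟨q + l + 1, R1, i, o⟩ 33 32 L hP3 (by
          simp only; rw [v1, v2]; exact hgt)
  | ne e f =>
    simp only [cnWf, Bool.and_eq_true] at hw
    obtain ⟨R1, g, hR1, v1, v2, hr⟩ := cE_two hB hs hw.1 hw.2 hok.1 hok.2 hR
    have le1 := CCL.Ex.eval_le hs hok.1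
    have le2 := CCL.Ex.eval_le hs hok.2
    rw [cC, codeAt_append] at hP
    obtain ⟨hP1, hP2, hP3, hP4, hP5, hP6, -⟩ := hP
    have h1 := line (i := i) (o := o) hP1 g
    rw [hR1] at h1
    set l := (cE 0 e ++ cE 1 f).length with hl
    obtain ⟨R2, hR2⟩ : ∃ R2, exL [.sub 34 32 33, .sub 35 33 32, .add 34 34 35,
      .const 35 1] R1 = R2 := ⟨_, rfl⟩
    have hv34 : R2 34 = (e.eval s - f.eval s) + (f.eval s - e.eval s) := by
      rw [← hR2]
      simp [exL, ex1, v1, v2]
    have hv35 : R2 35 = 1 := by
      rw [← hR2]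
      simp [exL, ex1]
    have hr2 : Rl s R2 := by
      rw [← hR2]
      simp only [exL, ex1]
      exact upd34 (upd34 (upd34 (upd34 hr (by omega)) (by omega)) (by omega)) (by omega)
    have h2 : Steps B P ⟨q + l, R1, i, o⟩ ⟨q + l + 4, R2, i, o⟩ 4 := by
      have := line (B := B) (P := P) (C := [.sub 34 32 33, .sub 35 33 32, .add 34 34 35,
        .const 35 1]) (q := q + l) (R := R1) (i := i) (o := o)
        ⟨hP2, hP3, hP4, hP5, trivial⟩ (by
          simp only [goodL, good, ex1]
          simp [v1, v2]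
          omega)
      rw [hR2] at this
      exact this
    have h12 := h1.trans h2
    refine ⟨_, l + 4 + 1, hr2, by simp only [lC]; omega, ?_⟩
    by_cases hne : e.eval s = f.eval s
    · refine Or.inr ⟨by simp only [Cn.eval]; omega, h12.trans (CCL.Step.one ?_)⟩
      exact Step.jlt_pos (b := B) (P := P) ⟨q + l + 4, R2, i, o⟩ 34 35 L hP6 (by
          simp only; rw [hv34, hv35]; omega)
    · refine Or.inl ⟨hne, h12.trans (CCL.Step.one ?_)⟩
      exact Step.jlt_neg (b := B) (P := P) ⟨q + l + 4, R2, i, o⟩ 34 35 L hP6 (by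
          simp only; rw [hv34, hv35]; omega)

/-! ### Programs -/

/-- The length of the code of a program. -/
def lP : Prog → ℕ
  | .skip => 0
  | .set _ e => (cE 0 e).length + 2
  | .put _ i e => (cE 0 i ++ cE 1 e).length + 10
  | .read _ => 1
  | .write e => (cE 0 e).length + 1
  | .seq p p' => lP p + lP p'
  | .ite c p p' => lC c + (lP p + (1 + lP p'))
  | .loop c p => lC c + (lP p + 1)

/-- The code of a program, to be placed at position `q`. -/
def cP (q : ℕ) : Prog → List Instr
  | .skip => []
  | .set x e => cE 0 e ++ [.const 33 0, .sub x 32 33]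
  | .put A i e => (cE 0 i ++ cE 1 e) ++ (adr 32 34 A ++ [.store 32 33])
  | .read x => [.read x]
  | .write e => cE 0 e ++ [.write 32]
  | .seq p p' => cP q p ++ cP (q + lP p) p'
  | .ite c p p' => cC (q + lC c + lP p + 1) c ++ (cP (q + lC c) p ++
      ([.jump (q + lC c + lP p + 1 + lP p')] ++ cP (q + lC c + lP p + 1) p'))
  | .loop c p => cC (q + lC c + lP p + 1) c ++ (cP (q + lC c) p ++ [.jump q])

theorem cP_length (p : Prog) (q : ℕ) : (cP q p).length = lP p := by
  induction p generalizing q with
  | skip => rfl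
  | set x e => simp [cP, lP]
  | put A i e => simp [cP, lP, adr]; omega
  | read x => rfl
  | write e => simp [cP, lP]
  | seq p p' ih ih' => simp [cP, lP, ih, ih']
  | ite c p p' ih ih' => simp [cP, lP, ih, ih', cC_length]; omega
  | loop c p ih => simp [cP, lP, ih, cC_length]

theorem cP_spec {b B : ℕ} (hB : 192 * (b + 1) ≤ B) {P : List Instr} {p : Prog} {s s' : St}
    {t : ℕ} (h : Run b p s s' t) : wf128 p = true → Bd b s → ∀ q, CodeAt P q (cP q p) →
      ∀ R, Rl s R → ∃ (R' : ℕ → ℕ) (t' : ℕ), Bd b s' ∧ Rl s' R' ∧ t' ≤ 10 * t ∧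
        Steps B P ⟨q, R, s.inp, s.out⟩ ⟨q + lP p, R', s'.inp, s'.out⟩ t' := by
  induction h with
  | skip s =>
    intro _ hb q _ R hR
    exact ⟨R, 0, hb, hR, by omega, .refl _⟩
  | set x e s hok =>
    intro hw hb q hP R hR
    simp only [wf128, Bool.and_eq_true, decide_eq_true_eq] at hw
    obtain ⟨he0, hed⟩ := exWf_iff hw.2
    obtain ⟨g1, v1, r1⟩ := cE_spec hB hb e 0 R he0 hok (by omega) hR
    have hle := CCL.Ex.eval_le hb hok
    have hR1 : Rl s (exL (cE 0 e) R) := hR.congr fun r hr => r1 r (by omega)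
    have hgood : goodL B (cP q (.set x e)) R := by
      rw [cP, goodL_append]
      refine ⟨g1, ?_⟩
      simp only [goodL, good, and_true]
      omega
    have h1 := line (i := s.inp) (o := s.out) hP hgood
    rw [cP_length] at h1
    refine ⟨_, _, ⟨?_, hb.2.1, hb.2.2⟩, ?_, ?_, h1⟩
    · intro y
      rw [St.setv_v]
      split
      · exact hle
      · exact hb.1 y
    · rw [cP, exL_append]
      have hx : x ≠ 33 := by omega
      have key : exL [Instr.const 33 0, Instr.sub x 32 33] (exL (cE 0 e) R) =
          Function.update (Function.update (exL (cE 0 e) R) 33 0) x (e.eval s) := by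
        simp only [exL, ex1, Function.update_self]
        rw [Function.update_of_ne (by omega), Nat.sub_zero]
        rw [show (32 : ℕ) = 32 + 0 from rfl, v1]
      rw [key]
      refine ⟨fun y hy => ?_, fun A hA i => ?_⟩
      · rw [St.setv_v, Function.update_apply]
        split
        · rfl
        · rw [Function.update_of_ne (by omega)]
          exact hR1.1 y hy
      · rw [Function.update_of_ne (by omega), Function.update_of_ne (by omega)]
        exact hR1.2 A hA i
    · have := cE_length e 0
      simp only [lP]; omega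
  | put A i e s hi he =>
    intro hw hb q hP R hR
    simp only [wf128, Bool.and_eq_true, decide_eq_true_eq] at hw
    obtain ⟨R1, g, hR1, v1, v2, hr⟩ := cE_two hB hb hw.1.2 hw.2 hi he hR
    have le1 := CCL.Ex.eval_le hb hi
    have le2 := CCL.Ex.eval_le hb he
    obtain ⟨g2, w1, w2⟩ := adr_spec (B := B) (t := 32) (u := 34) (A := A) (R := R1)
      (by omega) (by rw [v1]; omega)
    have hgood : goodL B (cP q (.put A i e)) R := by
      rw [cP, goodL_append (C := cE 0 i ++ cE 1 e), hR1, goodL_append (C := adr 32 34 A)]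
      exact ⟨g, g2, trivial, trivial⟩
    have h1 := line (i := s.inp) (o := s.out) hP hgood
    rw [cP_length] at h1
    refine ⟨_, _, ⟨hb.1, ?_, hb.2.2⟩, ?_, ?_, h1⟩
    · intro A' j
      rw [St.seta_a]
      split
      · rw [Function.update_apply]
        split
        · exact le2
        · exact hb.2.1 _ _
      · exact hb.2.1 _ _
    · rw [cP, exL_append, exL_append, hR1]
      simp only [exL, ex1]
      rw [w1, v1, w2 33 (by omega) (by omega), v2]
      refine ⟨fun y hy => ?_, fun A' hA' j => ?_⟩
      · rw [Function.update_of_ne (by omega), w2 y (by omega) (by omega)]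
        exact hr.1 y hy
      · rw [St.seta_a, Function.update_apply]
        by_cases hA : A' = A
        · subst hA
          rw [if_pos rfl, Function.update_apply]
          by_cases hj : j = i.eval s
          · rw [if_pos (by rw [hj]), if_pos hj]
          · rw [if_neg (by omega), if_neg hj, w2 _ (by omega) (by omega)]
            exact hr.2 _ hA' _
        · rw [if_neg (by omega), if_neg hA, w2 _ (by omega) (by omega)]
          exact hr.2 _ hA' _
    · have := cE_length i 0
      have := cE_length e 1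
      simp only [lP, List.length_append]; omega
  | read x s c l h =>
    intro hw hb q hP R hR
    simp only [wf128, decide_eq_true_eq] at hw
    have hc : c ≤ b := hb.2.2 c (by rw [h]; simp)
    refine ⟨Function.update R x c, 1, ⟨?_, hb.2.1, ?_⟩, ?_, by omega, CCL.Step.one ?_⟩
    · intro y
      rw [St.seti_v, St.setv_v]
      split
      · exact hc
      · exact hb.1 y
    · intro y hy
      exact hb.2.2 y (by rw [h]; exact List.mem_cons_of_mem _ hy)
    · refine ⟨fun y hy => ?_, fun A hA i => ?_⟩
      · rw [St.seti_v, St.setv_v, Function.update_apply]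
        split
        · rfl
        · exact hR.1 y hy
      · rw [Function.update_of_ne (by omega)]
        exact hR.2 A hA i
    · exact Step.read ⟨q, R, s.inp, s.out⟩ x c l hP.1 h
  | write e s he =>
    intro hw hb q hP R hR
    obtain ⟨he0, hed⟩ := exWf_iff hw
    obtain ⟨g1, v1, r1⟩ := cE_spec hB hb e 0 R he0 he (by omega) hR
    have hR1 : Rl s (exL (cE 0 e) R) := hR.congr fun r hr => r1 r (by omega)
    rw [cP, codeAt_append] at hP
    have h1 := line (i := s.inp) (o := s.out) hP.1 g1
    refine ⟨_, _, hb, hR1, ?_, h1.trans (CCL.Step.one ?_)⟩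
    · have := cE_length e 0
      omega
    · have := Step.write (b := B) ⟨q + (cE 0 e).length, exL (cE 0 e) R, s.inp, s.out⟩ 32 hP.2.1
      simp only at this
      rw [show (32 : ℕ) = 32 + 0 from rfl, v1] at this
      exact this
  | seq _ _ ih1 ih2 =>
    intro hw hb q hP R hR
    simp only [wf128, Bool.and_eq_true] at hw
    rw [cP, codeAt_append, cP_length] at hP
    obtain ⟨R1, t1, hb1, hR1, ht1, h1⟩ := ih1 hw.1 hb q hP.1 R hR
    obtain ⟨R2, t2, hb2, hR2, ht2, h2⟩ := ih2 hw.2 hb1 _ hP.2 R1 hR1
    refine ⟨R2, t1 + t2, hb2, hR2, by omega, ?_⟩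
    rw [lP, ← Nat.add_assoc]
    exact h1.trans h2
  | @ite_pos c p p' s s' t hc h _ ih =>
    intro hw hb q hP R hR
    simp only [wf128, Bool.and_eq_true] at hw
    rw [cP, codeAt_append, codeAt_append, codeAt_append, cC_length, cP_length] at hP
    obtain ⟨hP1, hP2, hP3, hP4⟩ := hP
    obtain ⟨R1, t1, hR1, ht1, h1⟩ := cC_spec hB hb hP1 hw.1.1 hc hR s.inp s.out
    rcases h1 with ⟨-, h1⟩ | ⟨h1, -⟩
    · obtain ⟨R2, t2, hb2, hR2, ht2, h2⟩ := ih hw.1.2 hb _ hP2 R1 hR1
      refine ⟨R2, t1 + t2 + 1, hb2, hR2, ?_, ?_⟩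
      · have := lC_le c
        omega
      · have h3 := CCL.Step.one (Step.jump (b := B) ⟨q + lC c + lP p, R2, s'.inp, s'.out⟩ _ hP3.1)
        have := (h1.trans h2).trans h3
        rw [lP, show q + (lC c + (lP p + (1 + lP p'))) = q + lC c + lP p + 1 + lP p' by omega]
        exact this
    · exact absurd h h1
  | @ite_neg c p p' s s' t hc h _ ih =>
    intro hw hb q hP R hR
    simp only [wf128, Bool.and_eq_true] at hw
    rw [cP, codeAt_append, codeAt_append, codeAt_append, cC_length, cP_length] at hP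
    obtain ⟨hP1, hP2, hP3, hP4⟩ := hP
    obtain ⟨R1, t1, hR1, ht1, h1⟩ := cC_spec hB hb hP1 hw.1.1 hc hR s.inp s.out
    rcases h1 with ⟨h1, -⟩ | ⟨-, h1⟩
    · exact absurd h1 h
    · obtain ⟨R2, t2, hb2, hR2, ht2, h2⟩ := ih hw.2 hb _ hP4 R1 hR1
      refine ⟨R2, t1 + t2, hb2, hR2, ?_, ?_⟩
      · have := lC_le c
        omega
      · have := h1.trans h2
        rw [lP, show q + (lC c + (lP p + (1 + lP p'))) = q + lC c + lP p + 1 + lP p' by omega]
        exact this
  | @loop_end c p s hc h =>
    intro hw hb q hP R hR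
    simp only [wf128, Bool.and_eq_true] at hw
    rw [cP, codeAt_append, codeAt_append, cC_length, cP_length] at hP
    obtain ⟨hP1, hP2, hP3⟩ := hP
    obtain ⟨R1, t1, hR1, ht1, h1⟩ := cC_spec hB hb hP1 hw.1 hc hR s.inp s.out
    rcases h1 with ⟨h1, -⟩ | ⟨-, h1⟩
    · exact absurd h1 h
    · refine ⟨R1, t1, hb, hR1, ?_, ?_⟩
      · have := lC_le c
        omega
      · rw [lP, show q + (lC c + (lP p + 1)) = q + lC c + lP p + 1 by omega]
        exact h1
  | @loop_step c p s s1 s2 t1 t2 hc h _ _ ih1 ih2 =>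
    intro hw hb q hP R hR
    have hw' := hw
    have hP' := hP
    simp only [wf128, Bool.and_eq_true] at hw
    rw [cP, codeAt_append, codeAt_append, cC_length, cP_length] at hP
    obtain ⟨hP1, hP2, hP3⟩ := hP
    obtain ⟨R1, u1, hR1, ht1, h1⟩ := cC_spec hB hb hP1 hw.1 hc hR s.inp s.out
    rcases h1 with ⟨-, h1⟩ | ⟨h1, -⟩
    · obtain ⟨R2, u2, hb2, hR2, ht2, h2⟩ := ih1 hw.2 hb _ hP2 R1 hR1
      have h3 := CCL.Step.one (Step.jump (b := B) ⟨q + lC c + lP p, R2, s1.inp, s1.out⟩ _ hP3.1)
      obtain ⟨R3, u3, hb3, hR3, ht3, h4⟩ := ih2 hw' hb2 q hP' R2 hR2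
      refine ⟨R3, u1 + u2 + 1 + u3, hb3, hR3, ?_, ?_⟩
      · have := lC_le c
        omega
      · exact ((h1.trans h2).trans h3).trans h4
    · exact absurd h h1

/-- At the head of a loop: the test is true, the body is run once, and the program is back at
the head of the loop. -/
theorem loop_head {b B : ℕ} (hB : 192 * (b + 1) ≤ B) {P : List Instr} {q : ℕ} {c : Cn}
    {p : Prog} (hP : CodeAt P q (cP q (.loop c p))) (hw : wf128 (.loop c p) = true)
    {s s' : St} {t : ℕ} (hb : Bd b s) (hc : c.ok b s) (he : c.eval s) (h : Run b p s s' t)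
    {R : ℕ → ℕ} (hR : Rl s R) :
    ∃ (R' : ℕ → ℕ) (t' : ℕ), Bd b s' ∧ Rl s' R' ∧ t' ≤ 10 * (t + c.cost + 1) ∧
      Steps B P ⟨q, R, s.inp, s.out⟩ ⟨q, R', s'.inp, s'.out⟩ t' := by
  simp only [wf128, Bool.and_eq_true] at hw
  rw [cP, codeAt_append, codeAt_append, cC_length, cP_length] at hP
  obtain ⟨hP1, hP2, hP3⟩ := hP
  obtain ⟨R1, t1, hR1, ht1, h1⟩ := cC_spec hB hb hP1 hw.1 hc hR s.inp s.out
  rcases h1 with ⟨-, h1⟩ | ⟨h1, -⟩
  · obtain ⟨R2, t2, hb2, hR2, ht2, h2⟩ := cP_spec hB h hw.2 hb _ hP2 R1 hR1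
    refine ⟨R2, t1 + t2 + 1, hb2, hR2, ?_, ?_⟩
    · have := lC_le c
      omega
    · exact (h1.trans h2).trans
        (CCL.Step.one (Step.jump (b := B) ⟨q + lC c + lP p, R2, s'.inp, s'.out⟩ _ hP3.1))
  · exact absurd he h1

end Pool.Agent.OMVU
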