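import Pool.Agent.OMVU.Assem

/-! The time of a query. -/

namespace Pool.Agent.OMVU

open Finset RE Stg

section

variable (a : Ar) (ρ : Loc)

theorem c_const (c : ℕ) : (const c).cost a ρ = 99 := rfl
theorem c_0 : RE.cost a (0 : RE) ρ = 99 := rfl
theorem c_1 : RE.cost a (1 : RE) ρ = 99 := rfl
theorem c_2 : RE.cost a (2 : RE) ρ = 99 := rfl
theorem c_var (x : ℕ) : (var x).cost a ρ = 99 := rfl
theorem c_add (p q : RE) : (p + q).cost a ρ = p.cost a ρ + q.cost a ρ + 99 := rfl
theorem c_sub (p q : RE) : (p - q).cost a ρ = p.cost a ρ + q.cost a ρ + 99 := rfl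
theorem c_mul (p q : RE) : (p * q).cost a ρ =
    p.cost a ρ + q.cost a ρ + 99 * p.eval a ρ + 99 := rfl
theorem c_div (p q : RE) : (p / q).cost a ρ =
    p.cost a ρ + q.cost a ρ + 99 * (p.eval a ρ / q.eval a ρ) + 99 := rfl
theorem c_mod (p q : RE) : (p % q).cost a ρ =
    p.cost a ρ + q.cost a ρ + 99 * (p.eval a ρ / q.eval a ρ) + 99 := rfl
theorem c_get (A : ℕ) (i : RE) : (get A i).cost a ρ = i.cost a ρ + 99 := rfl
theorem c_sc (A : ℕ) : (sc A).cost a ρ = 198 := rfl
theorem c_P2 (i : RE) : (P2 i).cost a ρ = i.cost a ρ + 99 := rfl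
theorem c_xor (x y : RE) : (xorE x y).cost a ρ = x.cost a ρ + y.cost a ρ + 297 := by
  simp only [xorE, c_get, c_add]; ring
theorem c_mt (x y : RE) : (mtE x y).cost a ρ = x.cost a ρ + y.cost a ρ + 297 := by
  simp only [mtE, c_get, c_add]; ring
theorem c_ite_le (u v p q : RE) : (ite u v p q).cost a ρ ≤
    u.cost a ρ + v.cost a ρ + p.cost a ρ + q.cost a ρ + 99 := by
  have h : (ite u v p q).cost a ρ = u.cost a ρ + v.cost a ρ +
      (if u.eval a ρ < v.eval a ρ then p.cost a ρ else q.cost a ρ) + 99 := rfl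
  rw [h]
  split_ifs <;> omega
theorem c_sum_le (x : ℕ) (n e : RE) {c : ℕ} (h : ∀ k < n.eval a ρ, e.cost a (ρ.set x k) ≤ c) :
    (sum x n e).cost a ρ ≤ n.cost a ρ + n.eval a ρ * (c + 99) + 99 := by
  have h0 : (sum x n e).cost a ρ = n.cost a ρ +
      ∑ k ∈ range (n.eval a ρ), (e.cost a (ρ.set x k) + 99) + 99 := rfl
  have h1 : ∑ k ∈ range (n.eval a ρ), (e.cost a (ρ.set x k) + 99) ≤ n.eval a ρ * (c + 99) := by
    have h2 := Finset.sum_le_card_nsmul (range (n.eval a ρ))
      (fun k => e.cost a (ρ.set x k) + 99) (c + 99)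
      (fun k hk => by have := h k (mem_range.1 hk); omega)
    simpa using h2
  rw [h0]
  omega
theorem c_fold_le (x y : ℕ) (n i cc e : RE) {c : ℕ}
    (h : ∀ k < n.eval a ρ, ∀ w, e.cost a ((ρ.set x k).set y w) ≤ c) :
    (fold x y n i cc e).cost a ρ ≤
      n.cost a ρ + i.cost a ρ + cc.cost a ρ + n.eval a ρ * (c + 99) + 99 := by
  have h0 : (fold x y n i cc e).cost a ρ = n.cost a ρ + i.cost a ρ + cc.cost a ρ +
      ∑ k ∈ range (n.eval a ρ), (e.cost a ((ρ.set x k).set y
        (iter (fun k w => min (e.eval a ((ρ.set x k).set y w)) (cc.eval a ρ)) (i.eval a ρ) k))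
          + 99) + 99 := rfl
  have h1 : ∑ k ∈ range (n.eval a ρ), (e.cost a ((ρ.set x k).set y
        (iter (fun k w => min (e.eval a ((ρ.set x k).set y w)) (cc.eval a ρ)) (i.eval a ρ) k))
          + 99) ≤ n.eval a ρ * (c + 99) := by
    have h2 := Finset.sum_le_card_nsmul (range (n.eval a ρ))
      (fun k => e.cost a ((ρ.set x k).set y
        (iter (fun k w => min (e.eval a ((ρ.set x k).set y w)) (cc.eval a ρ)) (i.eval a ρ) k))
          + 99) (c + 99)
      (fun k hk => by
        have := h k (mem_range.1 hk) (iter (fun k w => min (e.eval a ((ρ.set x k).set y w))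
          (cc.eval a ρ)) (i.eval a ρ) k)
        omega)
    simpa using h2
  rw [h0]
  omega

/-- The value of a fold which starts below its cap. -/
theorem eval_fold_le (x y : ℕ) (n i cc e : RE) (h : i.eval a ρ ≤ cc.eval a ρ) :
    (fold x y n i cc e).eval a ρ ≤ cc.eval a ρ := by
  rw [eval_fold]
  cases n.eval a ρ with
  | zero => exact h
  | succ k => exact min_le_right _ _

end

theorem fill_cost_le {A : ℕ} {n e : RE} (a : Ar) {c : ℕ} (P : Ar → Prop) (h0 : P a)
    (hP : ∀ b i v, P b → P (setA b A i v))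
    (h : ∀ b k, k < n.eval a (loc0 0) → P b → e.cost b (loc0 k) ≤ c) :
    (fill A n e).cost a ≤ n.cost a (loc0 0) + 99 + n.eval a (loc0 0) * (c + 99) := by
  have h1 : ∀ k, P (iter (fun k b => setA b A k (e.eval b (loc0 k))) a k) := by
    intro k
    induction k with
    | zero => exact h0
    | succ k ih => exact hP _ _ _ ih
  have h2 := Finset.sum_le_card_nsmul (range (n.eval a (loc0 0)))
    (fun k => e.cost (iter (fun k b => setA b A k (e.eval b (loc0 k))) a k) (loc0 k) + 99)
    (c + 99) (fun k hk => by have := h _ k (mem_range.1 hk) (h1 k); omega)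
  have h3 : (fill A n e).cost a = n.cost a (loc0 0) + 99 + ∑ k ∈ range (n.eval a (loc0 0)),
      (e.cost (iter (fun k b => setA b A k (e.eval b (loc0 k))) a k) (loc0 k) + 99) := rfl
  simp only [card_range, smul_eq_mul] at h2
  rw [h3]
  omega

theorem recf_cost_le {A : ℕ} {n cc e : RE} (a : Ar) {c : ℕ} (P : Ar → Prop) (h0 : P a)
    (hP : ∀ b i v, P b → P (setA b A i v)) (h : ∀ b k, P b → e.cost b (loc0 k) ≤ c) :
    (recf A n cc e).cost a ≤
      n.cost a (loc0 0) + cc.cost a (loc0 0) + 99 + n.eval a (loc0 0) * (c + 99) := by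
  have h1 : ∀ k, P (iter (fun k b => setA b A k (min (e.eval b (loc0 k))
      (cc.eval a (loc0 0)))) a k) := by
    intro k
    induction k with
    | zero => exact h0
    | succ k ih => exact hP _ _ _ ih
  have h2 := Finset.sum_le_card_nsmul (range (n.eval a (loc0 0)))
    (fun k => e.cost (iter (fun k b => setA b A k (min (e.eval b (loc0 k))
      (cc.eval a (loc0 0)))) a k) (loc0 k) + 99)
    (c + 99) (fun k _ => by have := h _ k (h1 k); omega)
  have h3 : (recf A n cc e).cost a = n.cost a (loc0 0) + cc.cost a (loc0 0) + 99 +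
      ∑ k ∈ range (n.eval a (loc0 0)), (e.cost (iter (fun k b => setA b A k
        (min (e.eval b (loc0 k)) (cc.eval a (loc0 0)))) a k) (loc0 k) + 99) := rfl
  simp only [card_range, smul_eq_mul] at h2
  rw [h3]
  omega

/-- The scalars of a query, and the values which decide its cost. -/
structure QC (a : Ar) (m Gc N e K q Gt Zn Wn O : ℕ) (OW : ℕ → ℕ) : Prop where
  m0 : a sm 0 = m
  Gc0 : a sGc 0 = Gc
  N0 : a sN 0 = N
  e0 : a se 0 = e
  K0 : a sK 0 = K
  q0 : a sq 0 = q
  Gt0 : a sGt 0 = Gt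
  Zn0 : a sZn 0 = Zn
  Wn0 : a sWn 0 = Wn
  on : ∀ r < m, a aON r ≤ O
  ow : a aOW = OW
  v1 : ∀ i, a aV i ≤ 1

/-- The targets of the stages of a query. -/
def qt (A : ℕ) : Prop := A = aXS ∨ A = aAD ∨ A = aZ ∨ A = aW ∨ A = aOUT

theorem QC.setA {a : Ar} {m Gc N e K q Gt Zn Wn O : ℕ} {OW : ℕ → ℕ} (h : QC a m Gc N e K q Gt Zn Wn O OW)
    {A : ℕ} (hA : qt A) (i v : ℕ) : QC (setA a A i v) m Gc N e K q Gt Zn Wn O OW := by
  have key : ∀ B, ¬ qt B → OMVU.setA a A i v B = a B := by
    intro B hB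
    funext j
    have : B ≠ A := by rintro rfl; exact hB hA
    simp [OMVU.setA, this]
  constructor
  · rw [key _ (by unfold qt; decide)]; exact h.m0
  · rw [key _ (by unfold qt; decide)]; exact h.Gc0
  · rw [key _ (by unfold qt; decide)]; exact h.N0
  · rw [key _ (by unfold qt; decide)]; exact h.e0
  · rw [key _ (by unfold qt; decide)]; exact h.K0
  · rw [key _ (by unfold qt; decide)]; exact h.q0
  · rw [key _ (by unfold qt; decide)]; exact h.Gt0
  · rw [key _ (by unfold qt; decide)]; exact h.Zn0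
  · rw [key _ (by unfold qt; decide)]; exact h.Wn0
  · rw [key _ (by unfold qt; decide)]; exact h.on
  · rw [key _ (by unfold qt; decide)]; exact h.ow
  · rw [key _ (by unfold qt; decide)]; exact h.v1

theorem QC.iter {a : Ar} {m Gc N e K q Gt Zn Wn O : ℕ} {OW : ℕ → ℕ} (h : QC a m Gc N e K q Gt Zn Wn O OW)
    {A : ℕ} (hA : qt A) (f : ℕ → Ar → ℕ) (n : ℕ) :
    QC (OMVU.iter (fun k b => OMVU.setA b A k (f k b)) a n) m Gc N e K q Gt Zn Wn O OW := by
  induction n with
  | zero => exact h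
  | succ n ih => exact ih.setA hA _ _

section

variable {a : Ar} {m Gc N e K q Gt Zn Wn O : ℕ} {OW : ℕ → ℕ} (h : QC a m Gc N e K q Gt Zn Wn O OW)

include h in
theorem QC.cXS : gXS.cost a ≤ 693 + 99 * Gc + Gc * N * (396 + e * (1188 + 99 * e)) := by
  have h1 := fill_cost_le (A := aXS) (n := sc sGc * sc sN)
    (e := sum 1 (sc se) (get aV (sc se * var 0 + var 1) * P2 (var 1)))
    (c := 297 + e * (1188 + 99 * e)) a
    (fun b => QC b m Gc N e K q Gt Zn Wn O OW) h
    (fun b i v hb => hb.setA (Or.inl rfl) i v) (fun b k _ hb => by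
      refine (c_sum_le b (loc0 k) 1 (sc se) _ (c := 1089 + 99 * e) fun j hj => ?_).trans ?_
      · simp only [c_mul, c_get, c_add, c_sc, c_var, c_P2, eval_sc, hb.e0, eval_get]
        have := hb.v1 ((sc se * var 0 + var 1).eval b ((loc0 k).set 1 j))
        omega
      · simp only [c_sc, eval_sc, hb.e0]
        have : e * (1089 + 99 * e + 99) = e * (1188 + 99 * e) := by ring
        omega)
  have h2 : gXS = fill aXS (sc sGc * sc sN)
    (sum 1 (sc se) (get aV (sc se * var 0 + var 1) * P2 (var 1))) := rfl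
  rw [h2]
  refine h1.trans ?_
  simp only [c_mul, c_sc, eval_sc, eval_mul, h.Gc0, h.N0]
  have : Gc * N * (297 + e * (1188 + 99 * e) + 99) = Gc * N * (396 + e * (1188 + 99 * e)) := by
    ring
  omega

include h in
theorem QC.cAD : gAD.cost a ≤ 297 + Gt * (396 + K * (990 + 2079 * N + 99 * q)) := by
  have h1 := fill_cost_le (A := aAD) (n := sc sGt)
    (e := sum 1 (sc sK) (fold 2 3 (sc sN) 0 (sc sq) (xorE (var 3)
      (mtE (get aCA (get aUB (var 0) + get aKN (var 1) + var 2))
        (get aXS (get aXB (var 0) + var 2)))) * get aPQ (var 1)))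
    (c := 297 + K * (990 + 2079 * N + 99 * q)) a
    (fun b => QC b m Gc N e K q Gt Zn Wn O OW) h
    (fun b i v hb => hb.setA (Or.inr (Or.inl rfl)) i v) (fun b k _ hb => by
      refine (c_sum_le b (loc0 k) 1 (sc sK) _ (c := 891 + 2079 * N + 99 * q)
        fun j hj => ?_).trans ?_
      · rw [c_mul]
        have h2 := c_fold_le b ((loc0 k).set 1 j) 2 3 (sc sN) 0 (sc sq) (xorE (var 3)
          (mtE (get aCA (get aUB (var 0) + get aKN (var 1) + var 2))
          (get aXS (get aXB (var 0) + var 2)))) (c := 1980) (fun i hi w => by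
            simp only [c_mul, c_get, c_add, c_sc, c_var, c_P2, c_xor, c_mt]
            omega)
        have h3 := eval_fold_le b ((loc0 k).set 1 j) 2 3 (sc sN) 0 (sc sq) (xorE (var 3)
          (mtE (get aCA (get aUB (var 0) + get aKN (var 1) + var 2))
          (get aXS (get aXB (var 0) + var 2)))) (Nat.zero_le _)
        simp only [c_sc, c_0, c_1, c_2, eval_sc, hb.N0] at h2
        simp only [eval_sc, hb.q0] at h3
        simp only [c_get, c_var]
        omega
      · simp only [c_sc, eval_sc, hb.K0]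
        have : K * (891 + 2079 * N + 99 * q + 99) = K * (990 + 2079 * N + 99 * q) := by ring
        omega)
  have h2 : gAD = fill aAD (sc sGt) (sum 1 (sc sK) (fold 2 3 (sc sN) 0 (sc sq) (xorE (var 3)
      (mtE (get aCA (get aUB (var 0) + get aKN (var 1) + var 2))
        (get aXS (get aXB (var 0) + var 2)))) * get aPQ (var 1))) := rfl
  rw [h2]
  refine h1.trans ?_
  simp only [c_sc, eval_sc, h.Gt0]
  have : Gt * (297 + K * (990 + 2079 * N + 99 * q) + 99) =
    Gt * (396 + K * (990 + 2079 * N + 99 * q)) := by ring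
  omega

include h in
theorem QC.cZ : gZ.cost a ≤ 495 + 1782 * Zn := by
  have h1 := recf_cost_le (A := aZ) (n := sc sZn) (cc := sc sq)
    (e := ite (var 0) 1 0
      (xorE (get aZ (get aPV (var 0))) (get aTT (get aTQ (var 0) + get aAD (get aKM (var 0))))))
    (c := 1683) a (fun b => QC b m Gc N e K q Gt Zn Wn O OW) h
    (fun b i v hb => hb.setA (Or.inr (Or.inr (Or.inl rfl))) i v) (fun b k hb => by
      refine (c_ite_le b (loc0 k) _ _ _ _).trans ?_
      simp only [c_mul, c_get, c_add, c_sc, c_var, c_P2, c_xor, c_mt, c_0, c_1, c_2]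
      omega)
  have h2 : gZ = recf aZ (sc sZn) (sc sq) (ite (var 0) 1 0
      (xorE (get aZ (get aPV (var 0)))
        (get aTT (get aTQ (var 0) + get aAD (get aKM (var 0)))))) := rfl
  rw [h2]
  refine h1.trans ?_
  simp only [c_sc, eval_sc, h.Zn0]
  omega

include h in
theorem QC.cW : gW.cost a ≤ 495 + Wn * (1386 + q * (2079 + 99 * q)) := by
  have h1 := recf_cost_le (A := aW) (n := sc sWn) (cc := sc sq)
    (e := ite (get aWF (var 0)) 1 (get aZ (get aWP (var 0)))
      (fold 1 2 (sc sq) 0 (sc sq) (xorE (var 2) (mtE (get aDD (get aWD (var 0) + var 1))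
        (get aW (get aWP (var 0) + var 1 * get aWS (var 0)))))))
    (c := 1287 + q * (2079 + 99 * q)) a (fun b => QC b m Gc N e K q Gt Zn Wn O OW) h
    (fun b i v hb => hb.setA (Or.inr (Or.inr (Or.inr (Or.inl rfl)))) i v) (fun b k hb => by
      refine (c_ite_le b (loc0 k) _ _ _ _).trans ?_
      have h2 := c_fold_le b (loc0 k) 1 2 (sc sq) 0 (sc sq)
        (xorE (var 2) (mtE (get aDD (get aWD (var 0) + var 1))
        (get aW (get aWP (var 0) + var 1 * get aWS (var 0))))) (c := 1980 + 99 * q)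
        (fun i hi w => by
          simp only [eval_sc, hb.q0] at hi
          simp only [c_mul, c_get, c_add, c_sc, c_var, c_P2, c_xor, c_mt, eval_var]
          have h3 : (((loc0 k).set 1 i).set 2 w) 1 = i := by simp [Loc.set]
          rw [h3]
          omega)
      simp only [c_sc, c_0, c_1, c_2, eval_sc, hb.q0] at h2
      have h4 : q * (1980 + 99 * q + 99) = q * (2079 + 99 * q) := by ring
      simp only [c_get, c_var, c_0, c_1, c_2]
      omega)
  have h2 : gW = recf aW (sc sWn) (sc sq) (ite (get aWF (var 0)) 1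
    (get aZ (get aWP (var 0)))
    (fold 1 2 (sc sq) 0 (sc sq) (xorE (var 2) (mtE (get aDD (get aWD (var 0) + var 1))
      (get aW (get aWP (var 0) + var 1 * get aWS (var 0))))))) := rfl
  rw [h2]
  refine h1.trans ?_
  simp only [c_sc, eval_sc, h.Wn0]
  have : Wn * (1287 + q * (2079 + 99 * q) + 99) = Wn * (1386 + q * (2079 + 99 * q)) := by ring
  omega

include h in
theorem QC.cOUT (hw : ∀ r < m, a aW (OW r) ≤ q) :
    gOUT.cost a ≤ 297 + m * (1089 + 990 * O + 99 * q) := by
  have h1 := fill_cost_le (A := aOUT) (n := sc sm)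
    (e := fold 1 2 (get aON (var 0)) (get aW (get aOW (var 0)))
      (sc sq) (xorE (var 2) (get aZ (get aOZ (var 0) + var 1))) % 2)
    (c := 990 + 990 * O + 99 * q) a
    (fun b => QC b m Gc N e K q Gt Zn Wn O OW ∧ ∀ r < m, b aW (OW r) ≤ q) ⟨h, hw⟩
    (fun b i v hb => ⟨hb.1.setA (Or.inr (Or.inr (Or.inr (Or.inr rfl)))) i v, fun r hr => by
      have : OMVU.setA b aOUT i v aW = b aW := by
        funext j
        simp [OMVU.setA]
      rw [this]
      exact hb.2 r hr⟩) (fun b k hk hb => by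
      simp only [eval_sc, h.m0] at hk
      rw [c_mod]
      have h2 := c_fold_le b (loc0 k) 1 2 (get aON (var 0)) (get aW (get aOW (var 0))) (sc sq)
        (xorE (var 2) (get aZ (get aOZ (var 0) + var 1))) (c := 891) (fun i hi w => by
          simp only [c_get, c_add, c_var, c_xor]
          omega)
      have h3 := eval_fold_le b (loc0 k) 1 2 (get aON (var 0)) (get aW (get aOW (var 0))) (sc sq)
        (xorE (var 2) (get aZ (get aOZ (var 0) + var 1))) (by
          simp only [eval_get, eval_var, eval_sc, hb.1.q0, hb.1.ow, loc0_zero]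
          exact hb.2 k hk)
      simp only [eval_sc, hb.1.q0] at h3
      simp only [c_get, c_var, c_sc, eval_get, eval_var, loc0_zero] at h2
      have h4 : b aON k * (891 + 99) ≤ O * 990 := Nat.mul_le_mul_right _ (hb.1.on k hk)
      have h5 := Nat.div_le_self ((fold 1 2 (get aON (var 0)) (get aW (get aOW (var 0))) (sc sq)
        (xorE (var 2) (get aZ (get aOZ (var 0) + var 1)))).eval b (loc0 k))
        ((2 : RE).eval b (loc0 k))
      rw [c_2]
      omega)
  have h2 : gOUT = fill aOUT (sc sm) (fold 1 2 (get aON (var 0)) (get aW (get aOW (var 0)))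
      (sc sq) (xorE (var 2) (get aZ (get aOZ (var 0) + var 1))) % 2) := rfl
  rw [h2]
  refine h1.trans ?_
  simp only [c_sc, eval_sc, h.m0]
  have : m * (990 + 990 * O + 99 * q + 99) = m * (1089 + 990 * O + 99 * q) := by ring
  omega

end

/-- A bound for the time of a query, up to a constant factor. -/
def cb (m n b : ℕ) (sg : ℕ → ℕ) : ℕ :=
  nGc n b * (pN b * (pe b * (pe b + 1) + 1)) +
  nGc n b * nt b sg * (pK b * (pN b + pq b + 1) + 1) +
  nJ m b * (nGc n b * nt b sg) +
  nJ m b * ((2 * pM b + 1) * pG b) * (pq b * (pq b + 1) + 1) +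
  m * (pN b + pq b + 1) + 1

theorem cost_all {a : Ar} {m Gc N e K q Gt Zn Wn O : ℕ} {OW : ℕ → ℕ}
    (h : QC a m Gc N e K q Gt Zn Wn O OW) (hw : ∀ r < m, OW r < Wn) :
    Stg.costs qryL a ≤ 3000 + 99 * Gc + Gc * N * (396 + e * (1188 + 99 * e)) +
      Gt * (396 + K * (990 + 2079 * N + 99 * q)) + 1782 * Zn +
      Wn * (1386 + q * (2079 + 99 * q)) + m * (1089 + 990 * O + 99 * q) := by
  have h1 : QC (gXS.run a) m Gc N e K q Gt Zn Wn O OW := h.iter (Or.inl rfl) _ _
  have h2 : QC (gAD.run (gXS.run a)) m Gc N e K q Gt Zn Wn O OW :=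
    h1.iter (Or.inr (Or.inl rfl)) _ _
  have h3 : QC (gZ.run (gAD.run (gXS.run a))) m Gc N e K q Gt Zn Wn O OW :=
    h2.iter (Or.inr (Or.inr (Or.inl rfl))) _ _
  have h4 : QC (gW.run (gZ.run (gAD.run (gXS.run a)))) m Gc N e K q Gt Zn Wn O OW :=
    h3.iter (Or.inr (Or.inr (Or.inr (Or.inl rfl)))) _ _
  have h5 : ∀ r < m, gW.run (gZ.run (gAD.run (gXS.run a))) aW (OW r) ≤ q := by
    intro r hr
    have h6 := run_recf (A := aW) (n := sc sWn) (c := sc sq) (e := ite (get aWF (var 0)) 1
      (get aZ (get aWP (var 0)))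
      (fold 1 2 (sc sq) 0 (sc sq) (xorE (var 2) (mtE (get aDD (get aWD (var 0) + var 1))
        (get aW (get aWP (var 0) + var 1 * get aWS (var 0)))))))
      (gZ.run (gAD.run (gXS.run a))) (k := OW r) (by
        rw [eval_sc, h3.Wn0]
        exact hw r hr)
    have h7 : gW.run (gZ.run (gAD.run (gXS.run a))) aW (OW r) ≤
        (sc sq).eval (gZ.run (gAD.run (gXS.run a))) (loc0 0) :=
      h6.le.trans (min_le_right _ _)
    rw [eval_sc, h3.q0] at h7
    exact h7
  have c1 := h.cXS
  have c2 := h1.cAD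
  have c3 := h2.cZ
  have c4 := h3.cW
  have c5 := h4.cOUT h5
  have h8 : Stg.costs qryL a = gXS.cost a + (gAD.cost (gXS.run a) +
      (gZ.cost (gAD.run (gXS.run a)) + (gW.cost (gZ.run (gAD.run (gXS.run a))) +
        (gOUT.cost (gW.run (gZ.run (gAD.run (gXS.run a)))) + 99 + 99) + 99) + 99) + 99) + 99 := rfl
  rw [h8]
  omega

theorem cost_num {N : ℕ} (hN : 0 < N) (Gc J t e K q w m : ℕ) :
    3000 + 99 * Gc + Gc * N * (396 + e * (1188 + 99 * e)) +
      Gc * t * (396 + K * (990 + 2079 * N + 99 * q)) + 1782 * (J * (Gc * t) + 1) +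
      J * w * (1386 + q * (2079 + 99 * q)) + m * (1089 + 990 * N + 99 * q) ≤
    6000 * (Gc * (N * (e * (e + 1) + 1)) + Gc * t * (K * (N + q + 1) + 1) + J * (Gc * t) +
      J * w * (q * (q + 1) + 1) + m * (N + q + 1) + 1) := by
  have e1 : Gc ≤ Gc * N := Nat.le_mul_of_pos_right _ hN
  have t1 : 99 * (Gc * N) + Gc * N * (396 + e * (1188 + 99 * e)) ≤
      6000 * (Gc * (N * (e * (e + 1) + 1))) := by
    have : 99 + (396 + e * (1188 + 99 * e)) ≤ 6000 * (e * (e + 1) + 1) := by nlinarith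
    calc _ = Gc * N * (99 + (396 + e * (1188 + 99 * e))) := by ring
      _ ≤ Gc * N * (6000 * (e * (e + 1) + 1)) := Nat.mul_le_mul_left _ this
      _ = _ := by ring
  have t2 : Gc * t * (396 + K * (990 + 2079 * N + 99 * q)) ≤
      6000 * (Gc * t * (K * (N + q + 1) + 1)) := by
    have h1 : K * (990 + 2079 * N + 99 * q) ≤ K * (6000 * (N + q + 1)) :=
      Nat.mul_le_mul_left _ (by omega)
    have : 396 + K * (990 + 2079 * N + 99 * q) ≤ 6000 * (K * (N + q + 1) + 1) := by nlinarith
    calc _ ≤ Gc * t * (6000 * (K * (N + q + 1) + 1)) := Nat.mul_le_mul_left _ this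
      _ = _ := by ring
  have t3 : J * w * (1386 + q * (2079 + 99 * q)) ≤ 6000 * (J * w * (q * (q + 1) + 1)) := by
    have : 1386 + q * (2079 + 99 * q) ≤ 6000 * (q * (q + 1) + 1) := by nlinarith
    calc _ ≤ J * w * (6000 * (q * (q + 1) + 1)) := Nat.mul_le_mul_left _ this
      _ = _ := by ring
  have t4 : m * (1089 + 990 * N + 99 * q) ≤ 6000 * (m * (N + q + 1)) := by
    calc _ ≤ m * (6000 * (N + q + 1)) := Nat.mul_le_mul_left _ (by omega)
      _ = _ := by ring
  generalize Gc * N * (396 + e * (1188 + 99 * e)) = a1 at *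
  generalize Gc * (N * (e * (e + 1) + 1)) = a2 at *
  generalize Gc * t * (396 + K * (990 + 2079 * N + 99 * q)) = a3 at *
  generalize Gc * t * (K * (N + q + 1) + 1) = a4 at *
  generalize J * w * (1386 + q * (2079 + 99 * q)) = a5 at *
  generalize J * w * (q * (q + 1) + 1) = a6 at *
  generalize m * (1089 + 990 * N + 99 * q) = a7 at *
  generalize m * (N + q + 1) = a8 at *
  generalize J * (Gc * t) = a9 at *
  generalize Gc * N = a10 at *
  omega

theorem cost_cb : ∃ A : ℕ, ∀ (m n b : ℕ) (X : ℕ → ℕ → ℕ) (a : Ar) (mt : ℕ → ℕ → ℕ)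
    (fd : FD (pe b) (pq b) mt), Big m n b → PreOK m n b X a fd → (∀ i, a aV i ≤ 1) →
      Stg.costs qryL a ≤ A * cb m n b (a aSG) := by
  refine ⟨6000, fun m n b X a mt fd hB hP hv => ?_⟩
  have hR0 : 0 < pR b := by
    have h1 : 0 < pM b := Nat.pow_pos two_pos
    have h2 : 0 < ph b := by unfold ph; omega
    have h3 : 0 < pD b := Nat.pow_pos two_pos
    exact Nat.pow_pos (Nat.mul_pos (Nat.mul_pos h3 h3)
      (Nat.mul_pos (Nat.mul_pos two_pos h2) h2))
  have hN0 : 0 < pN b := Nat.mul_pos (Nat.pow_pos two_pos) (Nat.pow_pos two_pos)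
  have hG0 : 0 < pG b := Nat.pow_pos (Nat.pow_pos two_pos)
  have hQC : QC a m (nGc n b) (pN b) (pe b) (pK b) (pq b) (nGc n b * nt b (a aSG))
      (nJ m b * (nGc n b * nt b (a aSG)) + 1) (nJ m b * ((2 * pM b + 1) * pG b)) (pN b)
      (a aOW) := by
    refine ⟨hP.S.m0, hP.S.Gc0, hP.S.N0, hP.S.e0, hP.S.K0, hP.S.q0, hP.R.Gt0, hP.I1.Zn0,
      hP.I2.Wn0, fun r hr => ?_, rfl, hv⟩
    rw [hP.I2.on r hr]
    have h1 : nbad b (a aSG) ((r % pR b + 1) * pB b) - nbad b (a aSG) (r % pR b * pB b) ≤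
        pB b := by
      have h2 : (r % pR b + 1) * pB b = r % pR b * pB b + pB b := by ring
      rw [h2, nbad, nbad, sum_range_add]
      have h3 := Finset.sum_le_card_nsmul (range (pB b))
        (fun x => bad b (a aSG) (r % pR b * pB b + x)) 1 (fun x _ => by
          simp only [bad]
          split_ifs <;> omega)
      simp only [card_range, smul_eq_mul, mul_one] at h3
      omega
    calc _ ≤ pB b * pC b := Nat.mul_le_mul_right _ h1
      _ = pN b := by rw [pN, mul_comm]
  have hOW : ∀ r < m, a aOW r < nJ m b * ((2 * pM b + 1) * pG b) := by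
    intro r hr
    rw [hP.I2.ow r hr]
    have h1 := (rnum_spec (Nat.mod_lt r hR0) fun p hp =>
      lt_of_lt_of_le (rv_bounds (Nat.mod_lt r hR0) hp).2 (Nat.sub_le _ _)).1
    have h2 : r / pR b + 1 ≤ nJ m b := by
      have := Nat.div_le_div_right (c := pR b) hr.le
      unfold nJ
      omega
    calc (r / pR b * (2 * pM b + 1) + 2 * pM b) * pG b + rnum b (r % pR b)
        < (r / pR b * (2 * pM b + 1) + 2 * pM b) * pG b + pG b := by omega
      _ = (r / pR b + 1) * ((2 * pM b + 1) * pG b) := by ring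
      _ ≤ _ := Nat.mul_le_mul_right _ h2
  refine (cost_all hQC hOW).trans ?_
  exact cost_num hN0
    (nGc n b) (nJ m b) (nt b (a aSG)) (pe b) (pK b) (pq b) ((2 * pM b + 1) * pG b) m

end Pool.Agent.OMVU
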