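import Pool.Agent.OMVU.Cost
import Pool.Agent.OMVU.BadBound

/-! The time of a query: the numbers. -/

namespace Pool.Agent.OMVU

open Finset

/-- The arithmetic of the bound. -/
private theorem cb_arith {m n nG nJ t P R G C B N e q K M : ℕ} (h1 : nG * (N * e) ≤ 2 * n)
    (h2 : nJ * R ≤ 2 * m) (hP : P = R * B) (hN : N = C * B) (ht : t ≤ 3 * P) (hG : G ≤ 2 * P)
    (hC : 1 ≤ C) (hB : 1 ≤ B) (he : 1 ≤ e) (hCB : C ≤ B) (heB : e ≤ B) (hq : q ≤ B)
    (hK : K ≤ B) (hM : M ≤ B) (hn : B ^ 5 ≤ n) (hm : B ^ 5 ≤ m) (hPm : P * B ^ 4 ≤ m) :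
    (nG * (N * (e * (e + 1) + 1)) + nG * t * (K * (N + q + 1) + 1) + nJ * (nG * t) +
      nJ * ((2 * M + 1) * G) * (q * (q + 1) + 1) + m * (N + q + 1) + 1 + m + n) * C ≤
      100 * (m * n) := by
  have hNB : N ≤ B ^ 2 := by
    rw [hN, pow_two]
    exact Nat.mul_le_mul_right _ hCB
  have hB2 : B ≤ B ^ 2 := by
    calc B = B * 1 := (mul_one B).symm
      _ ≤ B * B := Nat.mul_le_mul_left _ hB
      _ = B ^ 2 := (pow_two B).symm
  have hpow : ∀ i j : ℕ, i ≤ j → B ^ i ≤ B ^ j := fun i j hij => Nat.pow_le_pow_right hB hij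
  have hB1 : 1 ≤ B ^ 2 := hB.trans hB2
  have hm1 : 1 ≤ m := (Nat.one_le_pow _ _ hB).trans hm
  have hn1 : 1 ≤ n := (Nat.one_le_pow _ _ hB).trans hn
  have hN1 : 1 ≤ N := by
    rw [hN]
    exact Nat.mul_pos hC hB
  have hnG : nG ≤ 2 * n := by
    refine le_trans ?_ h1
    calc nG = nG * 1 := (mul_one _).symm
      _ ≤ nG * (N * e) := Nat.mul_le_mul_left _ (Nat.mul_pos hN1 he)
  have hnGC : nG * (C * B) ≤ 2 * n := by
    refine le_trans ?_ h1
    rw [← hN]
    calc nG * N = nG * (N * 1) := by rw [mul_one]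
      _ ≤ nG * (N * e) := Nat.mul_le_mul_left _ (Nat.mul_le_mul_left _ he)
  have hCn : C ≤ n := (hCB.trans hB2).trans ((hpow 2 5 (by omega)).trans hn)
  have hCm : C ≤ m := (hCB.trans hB2).trans ((hpow 2 5 (by omega)).trans hm)
  -- term 1
  have t1 : nG * (N * (e * (e + 1) + 1)) * C ≤ 6 * (m * n) := by
    have a1 : e * (e + 1) + 1 ≤ e * (e + 2) := by nlinarith
    have a2 : (e + 2) * C ≤ 3 * m := by
      calc (e + 2) * C ≤ (3 * B) * B := Nat.mul_le_mul (by omega) hCB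
        _ = 3 * B ^ 2 := by ring
        _ ≤ 3 * m := Nat.mul_le_mul_left _ ((hpow 2 5 (by omega)).trans hm)
    calc nG * (N * (e * (e + 1) + 1)) * C ≤ nG * (N * (e * (e + 2))) * C := by gcongr
      _ = nG * (N * e) * ((e + 2) * C) := by ring
      _ ≤ (2 * n) * (3 * m) := Nat.mul_le_mul h1 a2
      _ = 6 * (m * n) := by ring
  -- term 2
  have t2 : nG * t * (K * (N + q + 1) + 1) * C ≤ 24 * (m * n) := by
    have a1 : K * (N + q + 1) + 1 ≤ 4 * B ^ 3 := by
      have : N + q + 1 ≤ 3 * B ^ 2 := by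
        have := hq.trans hB2
        omega
      calc K * (N + q + 1) + 1 ≤ B * (3 * B ^ 2) + B ^ 3 :=
            Nat.add_le_add (Nat.mul_le_mul hK this) (Nat.one_le_pow _ _ hB)
        _ = 4 * B ^ 3 := by ring
    calc nG * t * (K * (N + q + 1) + 1) * C ≤ (2 * n) * (3 * P) * (4 * B ^ 3) * B := by gcongr
      _ = 24 * (P * B ^ 4 * n) := by ring
      _ ≤ 24 * (m * n) := by gcongr
  -- term 3
  have t3 : nJ * (nG * t) * C ≤ 12 * (m * n) := by
    calc nJ * (nG * t) * C ≤ nJ * (nG * (3 * P)) * C := by gcongr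
      _ = 3 * (nJ * R) * (nG * (C * B)) := by rw [hP]; ring
      _ ≤ 3 * (2 * m) * (2 * n) := by gcongr
      _ = 12 * (m * n) := by ring
  -- term 4
  have t4 : nJ * ((2 * M + 1) * G) * (q * (q + 1) + 1) * C ≤ 36 * (m * n) := by
    have a1 : 2 * M + 1 ≤ 3 * B := by omega
    have a2 : q * (q + 1) + 1 ≤ 3 * B ^ 2 := by
      calc q * (q + 1) + 1 ≤ B * (B + B) + B ^ 2 := by
            refine Nat.add_le_add (Nat.mul_le_mul hq (by omega)) hB1
        _ = 3 * B ^ 2 := by ring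
    calc nJ * ((2 * M + 1) * G) * (q * (q + 1) + 1) * C
        ≤ nJ * ((3 * B) * (2 * P)) * (3 * B ^ 2) * B := by gcongr
      _ = 18 * ((nJ * R) * B ^ 5) := by rw [hP]; ring
      _ ≤ 18 * ((2 * m) * n) := by gcongr
      _ = 36 * (m * n) := by ring
  -- term 5
  have t5 : m * (N + q + 1) * C ≤ 3 * (m * n) := by
    have a1 : N + q + 1 ≤ 3 * B ^ 2 := by
      have := hq.trans hB2
      omega
    calc m * (N + q + 1) * C ≤ m * (3 * B ^ 2) * B := by gcongr
      _ = 3 * (m * B ^ 3) := by ring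
      _ ≤ 3 * (m * n) := by
        gcongr
        exact (hpow 3 5 (by omega)).trans hn
  have t6 : C ≤ m * n := by
    calc C = 1 * C := (one_mul C).symm
      _ ≤ m * n := Nat.mul_le_mul hm1 hCn
  have t7 : m * C ≤ m * n := Nat.mul_le_mul_left _ hCn
  have t8 : n * C ≤ m * n := by
    rw [mul_comm m n]
    exact Nat.mul_le_mul_left _ hCm
  calc _ = nG * (N * (e * (e + 1) + 1)) * C + nG * t * (K * (N + q + 1) + 1) * C +
        nJ * (nG * t) * C + nJ * ((2 * M + 1) * G) * (q * (q + 1) + 1) * C +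
        m * (N + q + 1) * C + C + m * C + n * C := by ring
    _ ≤ 6 * (m * n) + 24 * (m * n) + 12 * (m * n) + 36 * (m * n) + 3 * (m * n) + m * n + m * n +
        m * n := by gcongr
    _ ≤ 100 * (m * n) := by omega

private theorem pow_le_of_log {x k : ℕ} (hk : 0 < k) (h : k ≤ Nat.log 2 x) : 2 ^ k ≤ x := by
  refine Nat.pow_le_of_le_log ?_ h
  rintro rfl
  simp at h
  omega

/-- The numbers. -/
private theorem nums {b : ℕ} (hb : 4 ≤ b) : pE b = 4 * (pM b * pe b) ∧ pF b = 4 * pM b ∧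
    pe b ≤ pM b ∧ pD b ≤ pM b ∧ pK b ≤ pM b ∧ 1 ≤ pM b ∧ 1 ≤ pe b := by
  have h1 : b < 2 ^ b := Nat.lt_two_pow_self
  have hM : pM b = 262144 * 2 ^ b := by
    unfold pM
    rw [pow_add, mul_comm]
    norm_num
  refine ⟨?_, ?_, ?_, ?_, ?_, ?_, ?_⟩
  · unfold pE pM pe
    rw [show b + 20 = b + 18 + 2 by ring, pow_add]
    ring
  · unfold pF pM
    rw [show b + 20 = b + 18 + 2 by ring, pow_add]
    ring
  · rw [hM]
    unfold pe
    omega
  · rw [hM]
    unfold pD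
    omega
  · rw [hM]
    unfold pK pl pD
    omega
  · rw [hM]
    omega
  · unfold pe
    omega

theorem cb_num : ∃ A : ℕ, ∀ (m n b : ℕ) (sg : ℕ → ℕ), Big m n b → SignOK b sg →
    (cb m n b sg + m + n) * 2 ^ pD b ≤ A * (m * n) := by
  refine ⟨100, fun m n b sg hB hs => ?_⟩
  obtain ⟨hE, hF, heM, hDM, hKM, hM1, he1⟩ := nums hB.four
  have hMB : pM b ≤ pB b := by
    unfold pB
    exact Nat.lt_two_pow_self.le
  have hB1 : 1 ≤ pB b := hM1.trans hMB
  have hC1 : 1 ≤ pC b := by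
    unfold pC
    exact Nat.one_le_two_pow
  have hCB : pC b ≤ pB b := by
    unfold pC pB
    exact Nat.pow_le_pow_right (by omega) hDM
  have hqB : pq b ≤ pB b := by
    unfold pq pB
    exact Nat.pow_le_pow_right (by omega) heM
  have hn : pB b ^ 64 ≤ n := by
    have h := pow_le_of_log (by rw [hF]; omega) hB.hn
    rw [hF] at h
    unfold pB
    rw [← pow_mul, show pM b * 64 = 16 * (4 * pM b) by ring]
    exact h
  have hm : (pq b ^ pM b) ^ 64 ≤ m := by
    have h0 : 0 < 16 * pE b := by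
      rw [hE]
      have := Nat.mul_pos hM1 he1
      omega
    have h := pow_le_of_log h0 hB.hm
    rw [hE] at h
    unfold pq
    rw [← pow_mul, ← pow_mul, show pe b * (pM b * 64) = 16 * (4 * (pM b * pe b)) by ring]
    exact h
  have hUB : pB b ≤ pq b ^ pM b := by
    unfold pB pq
    rw [← pow_mul]
    exact Nat.pow_le_pow_right (by omega) (Nat.le_mul_of_pos_left _ he1)
  obtain ⟨hg1, hg2⟩ := grid_bound b
  have hPU : pR b * pB b ≤ (pq b ^ pM b) ^ 2 := by
    refine hg2.trans (le_of_eq ?_)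
    unfold pG
    rw [← pow_mul, mul_comm]
  have hU1 : 1 ≤ pq b ^ pM b := hB1.trans hUB
  have hRm : pR b ≤ m := by
    calc pR b = pR b * 1 := (mul_one _).symm
      _ ≤ pR b * pB b := Nat.mul_le_mul_left _ hB1
      _ ≤ (pq b ^ pM b) ^ 2 := hPU
      _ ≤ (pq b ^ pM b) ^ 64 := Nat.pow_le_pow_right hU1 (by omega)
      _ ≤ m := hm
  have hNn : pN b * pe b ≤ n := by
    calc pN b * pe b ≤ (pB b * pB b) * pB b := by
          unfold pN
          exact Nat.mul_le_mul (Nat.mul_le_mul_right _ hCB) (heM.trans hMB)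
      _ = pB b ^ 3 := by ring
      _ ≤ pB b ^ 64 := Nat.pow_le_pow_right hB1 (by omega)
      _ ≤ n := hn
  have h1 : nGc n b * (pN b * pe b) ≤ 2 * n := by
    unfold nGc
    rw [add_mul, one_mul]
    have := Nat.div_mul_le_self n (pN b * pe b)
    omega
  have h2 : nJ m b * pR b ≤ 2 * m := by
    unfold nJ
    rw [add_mul, one_mul]
    have := Nat.div_mul_le_self m (pR b)
    omega
  have ht : nt b sg ≤ 3 * (pR b * pB b) := by
    have h3 := nbad_bound hB.four hs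
    unfold nt
    rw [mul_comm (nbad b sg (pR b * pB b)) (pC b)]
    omega
  have h5 : pB b ^ 5 ≤ m := by
    calc pB b ^ 5 ≤ (pq b ^ pM b) ^ 5 := Nat.pow_le_pow_left hUB 5
      _ ≤ (pq b ^ pM b) ^ 64 := Nat.pow_le_pow_right hU1 (by omega)
      _ ≤ m := hm
  have h6 : pR b * pB b * pB b ^ 4 ≤ m := by
    calc pR b * pB b * pB b ^ 4 ≤ (pq b ^ pM b) ^ 2 * (pq b ^ pM b) ^ 4 :=
          Nat.mul_le_mul hPU (Nat.pow_le_pow_left hUB 4)
      _ = (pq b ^ pM b) ^ 6 := by ring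
      _ ≤ (pq b ^ pM b) ^ 64 := Nat.pow_le_pow_right hU1 (by omega)
      _ ≤ m := hm
  have h := cb_arith (K := pK b) (M := pM b) (q := pq b) (e := pe b) h1 h2 rfl rfl ht hg1 hC1
    hB1 he1 hCB (heM.trans hMB) hqB (hKM.trans hMB) hMB
    ((Nat.pow_le_pow_right hB1 (by omega)).trans hn) h5 h6
  exact h

end Pool.Agent.OMVU
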