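import Mathlib
import Pool.Agent.CCL.Machine

/-! Matrix-vector multiplication on the random access machine. -/

namespace Pool.Agent.OMVU

open CCL (Instr Cfg Steps start)

/-- The bits of a vector over `F_2`. -/
def bits {n : ℕ} (v : Fin n → ZMod 2) : List ℕ := List.ofFn fun j => (v j).val

/-- The input: `m`, `n`, the bits of the `m × n` matrix `M` row by row, and the bits of the
vectors, one vector after the other. -/
def input {m n : ℕ} (M : Matrix (Fin m) (Fin n) (ZMod 2)) (vs : List (Fin n → ZMod 2)) : List ℕ :=
  m :: n :: ((List.ofFn fun i => bits (M i)).flatten ++ (vs.map bits).flatten)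

/-- The program `P` serves the matrix `M` on the random access machine, with numbers at most
`B`, preprocessing time `T` and time `S` for every vector: for every list of vectors there are
configurations `z 0, z 1, ...` of the computation on the matrix and the vectors such that

* `z 0` is reached from the start in at most `T` steps,
* at `z i` the first `i` vectors are read and the bits of their products with `M` are written,
  and nothing else is read or written,
* `z (i + 1)` is reached from `z i` in at most `S` steps,

and all numbers computed on the way are at most `B`. -/
def Serves (P : List Instr) {m n : ℕ} (M : Matrix (Fin m) (Fin n) (ZMod 2)) (B T : ℕ) (S : ℝ) :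
    Prop :=
  ∀ vs : List (Fin n → ZMod 2), ∃ z : ℕ → Cfg,
    (∃ t ≤ T, Steps B P (start (input M vs)) (z 0) t) ∧
    (∀ i ≤ vs.length, (z i).inp = ((vs.drop i).map bits).flatten ∧
      (z i).out = ((vs.take i).map fun v => bits (M.mulVec v)).flatten) ∧
    ∀ i < vs.length, ∃ t : ℕ, (t : ℝ) ≤ S ∧ Steps B P (z i) (z (i + 1)) t

end Pool.Agent.OMVU
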