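import Pool.Agent.OMVU.Main
import Pool.Agent.OMVU.Defs

/-! The statement for matrices over `ZMod 2`. -/

namespace Pool.Agent.OMVU

open Finset
open CCL (Instr Cfg Steps start)

/-- The entries as numbers. -/
def mX {m n : ℕ} (M : Matrix (Fin m) (Fin n) (ZMod 2)) (r c : ℕ) : ℕ :=
  if h : r < m ∧ c < n then (M ⟨r, h.1⟩ ⟨c, h.2⟩).val else 0

/-- The vector as numbers. -/
def vX {n : ℕ} (vs : List (Fin n → ZMod 2)) (i c : ℕ) : ℕ :=
  if h : i < vs.length ∧ c < n then ((vs[i]'h.1) ⟨c, h.2⟩).val else 0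

theorem val_le_one (y : ZMod 2) : y.val ≤ 1 := by
  have := ZMod.val_lt y
  omega

theorem mX_le {m n : ℕ} (M : Matrix (Fin m) (Fin n) (ZMod 2)) (r c : ℕ) : mX M r c ≤ 1 := by
  unfold mX
  split_ifs
  · exact val_le_one _
  · omega

theorem vX_le {n : ℕ} (vs : List (Fin n → ZMod 2)) (r c : ℕ) : vX vs r c ≤ 1 := by
  unfold vX
  split_ifs
  · exact val_le_one _
  · omega

theorem ofFn_eq_range {α : Type*} {n : ℕ} (f : Fin n → α) (g : ℕ → α)
    (h : ∀ i : Fin n, f i = g i) : List.ofFn f = (List.range n).map g := by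
  apply List.ext_getElem
  · simp
  · intro i h1 h2
    simp only [List.getElem_ofFn, List.getElem_map, List.getElem_range]
    exact h _

theorem matL_mX {m n : ℕ} (M : Matrix (Fin m) (Fin n) (ZMod 2)) :
    matL m n (mX M) = (List.ofFn fun i => bits (M i)).flatten := by
  rw [ofFn_eq_range (fun i => bits (M i)) (fun r => (List.range n).map (mX M r))]
  · rfl
  · intro i
    unfold bits
    refine ofFn_eq_range _ _ (fun j => ?_)
    unfold mX
    rw [dif_pos ⟨i.2, j.2⟩]

theorem vecL_vX {n : ℕ} (vs : List (Fin n → ZMod 2)) {i : ℕ} (hi : i < vs.length) :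
    vecL n (vX vs i) = bits vs[i] := by
  unfold bits vecL
  symm
  refine ofFn_eq_range _ _ (fun j => ?_)
  unfold vX
  rw [dif_pos ⟨hi, j.2⟩]

theorem inq_vX {n : ℕ} (vs : List (Fin n → ZMod 2)) (i : ℕ) :
    inq n vs.length (vX vs) i = ((vs.drop i).map bits).flatten := by
  unfold inq
  rw [List.flatMap_def]
  congr 1
  apply List.ext_getElem
  · simp
  · intro j h1 h2
    simp only [List.length_map, List.length_drop] at h2
    simp only [List.getElem_map, List.getElem_drop, List.getElem_range]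
    exact vecL_vX vs (by omega)

theorem bits_mulVec {m n : ℕ} (M : Matrix (Fin m) (Fin n) (ZMod 2)) (vs : List (Fin n → ZMod 2))
    {i : ℕ} (hi : i < vs.length) :
    ((List.range m).map fun r => (∑ c ∈ range n, mX M r c * vX vs i c) % 2) =
      bits (M.mulVec vs[i]) := by
  unfold bits
  symm
  refine ofFn_eq_range _ _ (fun r => ?_)
  have h1 : M.mulVec vs[i] r = ((∑ c ∈ range n, mX M r c * vX vs i c : ℕ) : ZMod 2) := by
    rw [Matrix.mulVec, dotProduct, Nat.cast_sum, ← Fin.sum_univ_eq_sum_range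
      (fun c => ((mX M r c * vX vs i c : ℕ) : ZMod 2)) n]
    refine Finset.sum_congr rfl (fun c _ => ?_)
    unfold mX vX
    rw [dif_pos ⟨r.2, c.2⟩, dif_pos ⟨hi, c.2⟩, Nat.cast_mul]
    simp only [ZMod.natCast_val, ZMod.cast_id', id_eq]
  rw [h1, ZMod.val_natCast]

theorem ouq_vX {m n : ℕ} (M : Matrix (Fin m) (Fin n) (ZMod 2)) (vs : List (Fin n → ZMod 2))
    (i : ℕ) : ouq m n vs.length (mX M) (vX vs) i =
      ((vs.take i).map fun v => bits (M.mulVec v)).flatten := by
  unfold ouq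
  rw [List.flatMap_def]
  congr 1
  apply List.ext_getElem
  · simp
  · intro j h1 h2
    simp only [List.length_map, List.length_take] at h2
    simp only [List.getElem_map, List.getElem_take, List.getElem_range]
    exact bits_mulVec M vs (by omega)

theorem final : ∃ (P : List Instr) (δ : ℝ) (_ : 0 < δ) (k n₀ : ℕ), ∀ m n : ℕ,
    n₀ ≤ m → n₀ ≤ n → ∀ M : Matrix (Fin m) (Fin n) (ZMod 2),
      Serves P M ((m * n) ^ k) ((m * n) ^ k)
        (m * n / 2 ^ (δ * min (Real.log n) (Real.log m / Real.log (Real.log m)))) := by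
  obtain ⟨P, δ, hδ, k, n₀, h⟩ := main
  refine ⟨P, δ, hδ, k, n₀, fun m n hm hn M vs => ?_⟩
  obtain ⟨z, h1, h2, h3⟩ := h m n hm hn (mX M) (mX_le M) (vX vs) (vX_le vs) vs.length
  rw [inq_vX, List.drop_zero, matL_mX] at h1
  refine ⟨z, h1, fun i hi => ?_, h3⟩
  rw [← inq_vX, ← ouq_vX]
  exact h2 i hi

end Pool.Agent.OMVU
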