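import Pool.Agent.OMVU.Sem

/-! Folds over the field. -/

namespace Pool.Agent.OMVU

open Finset

@[simp] theorem iter_zero {α : Type*} (f : ℕ → α → α) (x : α) : iter f x 0 = x := rfl

theorem iter_succ {α : Type*} (f : ℕ → α → α) (x : α) (n : ℕ) :
    iter f x (n + 1) = f n (iter f x n) := rfl

theorem iter_congr {α : Type*} {f g : ℕ → α → α} {x : α} {n : ℕ}
    (h : ∀ k < n, ∀ w, f k w = g k w) : iter f x n = iter g x n := by
  induction n with
  | zero => rfl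
  | succ n ih =>
    rw [iter_succ, iter_succ, ih (fun k hk => h k (by omega)), h n (by omega)]

/-- Invariants of an iteration. -/
theorem iter_ind {α : Type*} {f : ℕ → α → α} {x : α} {n : ℕ} (P : ℕ → α → Prop) (h0 : P 0 x)
    (hs : ∀ k < n, ∀ w, P k w → P (k + 1) (f k w)) : P n (iter f x n) := by
  induction n with
  | zero => exact h0
  | succ n ih => exact hs n (by omega) _ (ih (fun k hk => hs k (by omega)))

theorem iter_eq {α : Type*} {f : ℕ → α → α} {x : α} {n : ℕ} (g : ℕ → α) (h0 : g 0 = x)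
    (hs : ∀ k < n, f k (g k) = g (k + 1)) : iter f x n = g n := by
  have := iter_ind (f := f) (x := x) (n := n) (fun k w => w = g k) h0.symm
    (fun k hk w hw => by rw [hw, hs k hk])
  exact this

variable {b : ℕ} {a : Ar} {mt : ℕ → ℕ → ℕ} {fd : FD (pe b) (pq b) mt}

/-- Sums. -/
theorem xor_fold (hF : FldOK b a fd) {n : ℕ} {f : ℕ → ℕ} {i : ℕ} (hi : i < pq b)
    (hf : ∀ k < n, f k < pq b) {g : ℕ → ℕ → ℕ}
    (hg : ∀ k < n, ∀ w, g k w = min (a aXT (a aMQ w + f k)) (pq b)) :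
    iter g i n < pq b ∧ fd.φ (iter g i n) = fd.φ i + ∑ k ∈ range n, fd.φ (f k) := by
  refine iter_ind (f := g) (x := i) (n := n)
    (fun k w => w < pq b ∧ fd.φ w = fd.φ i + ∑ k ∈ range k, fd.φ (f k)) ⟨hi, by simp⟩ ?_
  rintro k hk w ⟨h1, h2⟩
  have h3 : w ^^^ f k < pq b := Nat.xor_lt_two_pow h1 (hf k hk)
  rw [hg k hk, hF.mq w h1, hF.xt w h1 _ (hf k hk), min_eq_left h3.le, sum_range_succ,
    fd.add w h1 _ (hf k hk), h2, add_assoc]
  exact ⟨h3, rfl⟩

/-- Products. -/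
theorem mul_fold (hF : FldOK b a fd) {n : ℕ} {f : ℕ → ℕ} {i : ℕ} (hi : i < pq b)
    (hf : ∀ k < n, f k < pq b) {g : ℕ → ℕ → ℕ}
    (hg : ∀ k < n, ∀ w, g k w = min (a aMT (a aMQ w + f k)) (pq b)) :
    iter g i n < pq b ∧ fd.φ (iter g i n) = fd.φ i * ∏ k ∈ range n, fd.φ (f k) := by
  refine iter_ind (f := g) (x := i) (n := n)
    (fun k w => w < pq b ∧ fd.φ w = fd.φ i * ∏ k ∈ range k, fd.φ (f k)) ⟨hi, by simp⟩ ?_
  rintro k hk w ⟨h1, h2⟩
  have h3 : mt w (f k) < pq b := fd.lt w h1 _ (hf k hk)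
  rw [hg k hk, hF.mq w h1, hF.mtt w h1 _ (hf k hk), min_eq_left h3.le, prod_range_succ,
    fd.mul w h1 _ (hf k hk), h2, mul_assoc]
  exact ⟨h3, rfl⟩

theorem mul_lt (hF : FldOK b a fd) {x y : ℕ} (hx : x < pq b) (hy : y < pq b) :
    a aMT (a aMQ x + y) < pq b := by
  rw [hF.mq x hx, hF.mtt x hx y hy]; exact fd.lt x hx y hy

theorem mul_phi (hF : FldOK b a fd) {x y : ℕ} (hx : x < pq b) (hy : y < pq b) :
    fd.φ (a aMT (a aMQ x + y)) = fd.φ x * fd.φ y := by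
  rw [hF.mq x hx, hF.mtt x hx y hy, fd.mul x hx y hy]

theorem xor_lt (hF : FldOK b a fd) {x y : ℕ} (hx : x < pq b) (hy : y < pq b) :
    a aXT (a aMQ x + y) < pq b := by
  rw [hF.mq x hx, hF.xt x hx y hy]; exact Nat.xor_lt_two_pow hx hy

theorem xor_phi (hF : FldOK b a fd) {x y : ℕ} (hx : x < pq b) (hy : y < pq b) :
    fd.φ (a aXT (a aMQ x + y)) = fd.φ x + fd.φ y := by
  rw [hF.mq x hx, hF.xt x hx y hy, fd.add x hx y hy]

theorem pw_lt' (hF : FldOK b a fd) {x k : ℕ} (hx : x < pq b) (hk : k < pq b) :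
    a aPW (a aMQ x + k) < pq b := by
  rw [hF.mq x hx]; exact hF.pw_lt x hx k hk

theorem pw_phi (hF : FldOK b a fd) {x k : ℕ} (hx : x < pq b) (hk : k < pq b) :
    fd.φ (a aPW (a aMQ x + k)) = fd.φ x ^ k := by
  rw [hF.mq x hx]; exact hF.pw x hx k hk

/-! ### Index arithmetic -/

theorem idx_div {x y n : ℕ} (hy : y < n) : (x * n + y) / n = x := by
  rw [Nat.mul_comm, Nat.mul_add_div (by omega), Nat.div_eq_of_lt hy, Nat.add_zero]

theorem idx_mod {x y n : ℕ} (hy : y < n) : (x * n + y) % n = y := by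
  rw [Nat.mul_comm, Nat.mul_add_mod, Nat.mod_eq_of_lt hy]

theorem idx_lt {x y m n : ℕ} (hx : x < m) (hy : y < n) : x * n + y < m * n := by
  calc x * n + y < x * n + n := by omega
    _ = (x + 1) * n := by ring
    _ ≤ m * n := Nat.mul_le_mul_right _ hx

theorem dg_lt {B v p : ℕ} (hB : 0 < B) : dg B v p < B := Nat.mod_lt _ hB

theorem pq_pos (b : ℕ) : 0 < pq b := by unfold pq; positivity

end Pool.Agent.OMVU
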