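import Pool.Agent.OMVU.Folds
import Pool.Agent.OMVU.Fld
import Pool.Agent.Work.MP_0f1f76_lc.Toric.Toric2

/-! The gadget: the grid cells. -/

namespace Pool.Agent.OMVU

open Finset

/-! ### Numbers and digits -/

theorem g1_M (b : ℕ) : 1 ≤ pM b := Nat.one_le_two_pow

theorem g1_qM (b : ℕ) : pq b = 2 ^ b * (8 * pM b) := by
  unfold pq pe pM
  rw [show 2 * b + 21 = b + (3 + (b + 18)) by omega, pow_add, pow_add 2 3]
  norm_num

theorem g1_hM (b : ℕ) : ph b = 4 * pM b - 1 := rfl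

attribute [local irreducible] pM ph pq pe pB pC

theorem g1_q (b : ℕ) : 2 ^ b * (2 * ph b + 2) = pq b := by
  have h1 := g1_M b
  have h2 := g1_hM b
  rw [g1_qM]
  congr 1
  omega

theorem g1_h (b : ℕ) : 0 < ph b := by
  have h1 := g1_M b
  have h2 := g1_hM b
  omega

theorem g1_C_pos (b : ℕ) : 0 < pC b := by unfold pC; positivity

theorem g1_pB_pos (b : ℕ) : 0 < pB b := by unfold pB; positivity

theorem g1_pB (b : ℕ) : pB b = 2 ^ pM b := by unfold pB; rfl

theorem g1_dg_zero (B v : ℕ) : dg B v 0 = v % B := by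
  unfold dg
  rw [pow_zero, Nat.div_one]

theorem g1_dg_succ (B v p : ℕ) : dg B v (p + 1) = dg B (v / B) p := by
  unfold dg
  rw [pow_succ', ← Nat.div_div_eq_div_mul]

theorem g1_dg_inj {B : ℕ} : ∀ {n v v' : ℕ}, v < B ^ n → v' < B ^ n →
    (∀ p < n, dg B v p = dg B v' p) → v = v' := by
  intro n
  induction n with
  | zero =>
    intro v v' hv hv' _
    rw [pow_zero] at hv hv'
    omega
  | succ n ih =>
    intro v v' hv hv' h
    have h0 := h 0 (by omega)
    rw [g1_dg_zero, g1_dg_zero] at h0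
    have h1 : v / B = v' / B := by
      refine ih (Nat.div_lt_of_lt_mul (by rwa [← pow_succ']))
        (Nat.div_lt_of_lt_mul (by rwa [← pow_succ'])) (fun p hp => ?_)
      rw [← g1_dg_succ, ← g1_dg_succ]
      exact h (p + 1) (by omega)
    rw [← Nat.div_add_mod v B, ← Nat.div_add_mod v' B, h0, h1]

theorem g1_dg_sum {B n : ℕ} {f : ℕ → ℕ} (hf : ∀ p < n, f p < B) {p : ℕ} (hp : p < n) :
    dg B (∑ p' ∈ range n, f p' * B ^ p') p = f p := by
  have h1 := congrFun (finFunctionFinEquiv.symm_apply_apply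
    (fun i : Fin n => (⟨f i, hf i i.2⟩ : Fin B))) ⟨p, hp⟩
  have h2 := congrArg Fin.val h1
  rw [Finset.sum_range]
  exact h2

theorem g1_prod2 {R : Type*} [CommMonoid R] (f : ℕ → R) (n : ℕ) :
    ∏ p ∈ range (2 * n), f p = ∏ i : Fin n, ∏ ω : Bool, f (2 * i + ω.toNat) := by
  have h1 : ∏ p ∈ range (2 * n), f p = ∏ i ∈ range n, (f (2 * i + 1) * f (2 * i)) := by
    induction n with
    | zero => rfl
    | succ n ih =>
      rw [show 2 * (n + 1) = 2 * n + 1 + 1 by ring, prod_range_succ, prod_range_succ, ih,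
        prod_range_succ, mul_assoc, mul_comm (f (2 * n))]
  rw [h1, Finset.prod_range]
  refine prod_congr rfl (fun i _ => ?_)
  rw [Fintype.prod_bool]
  rfl

/-! ### Grid points, columns, rows -/

/-- The grid point with the number `v`. -/
def g1v (b v : ℕ) : OMV.Toric.Grid (2 ^ b * (2 * ph b + 2)) (pM b) := fun i ω =>
  ⟨dg (pq b) v (2 * i + ω.toNat), by rw [g1_q]; exact dg_lt (pq_pos b)⟩

theorem g1_split {M p : ℕ} (hp : p < 2 * M) :
    ∃ (i : Fin M) (ω : Bool), p = 2 * i + ω.toNat := by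
  refine ⟨⟨p / 2, by omega⟩, decide (p % 2 = 1), ?_⟩
  rcases Nat.mod_two_eq_zero_or_one p with h | h
  · simp only [h]
    simp
    omega
  · simp only [h]
    simp
    omega

theorem g1v_inj {b v v' : ℕ} (hv : v < pG b) (hv' : v' < pG b) (h : g1v b v = g1v b v') :
    v = v' := by
  refine g1_dg_inj (n := 2 * pM b) hv hv' (fun p hp => ?_)
  obtain ⟨i, ω, rfl⟩ := g1_split hp
  exact congrArg Fin.val (congrFun (congrFun h i) ω)

/-- The column with the number `l`. -/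
def g1c (b l : ℕ) : OMV.Toric.Col (pC b) (pM b) :=
  (⟨l / pB b % pC b, Nat.mod_lt _ (g1_C_pos b)⟩,
    fun i => decide (l % pB b / 2 ^ (i : ℕ) % 2 = 1))

theorem g1_lt_C {b l : ℕ} (hl : l < pN b) : l / pB b < pC b :=
  Nat.div_lt_of_lt_mul (by rw [mul_comm]; exact hl)

theorem g1c_inj {b l l' : ℕ} (hl : l < pN b) (hl' : l' < pN b) (h : g1c b l = g1c b l') :
    l = l' := by
  have h1 : l / pB b = l' / pB b := by
    have := congrArg Fin.val (congrArg Prod.fst h)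
    change l / pB b % pC b = l' / pB b % pC b at this
    rwa [Nat.mod_eq_of_lt (g1_lt_C hl), Nat.mod_eq_of_lt (g1_lt_C hl')] at this
  have h2 : l % pB b = l' % pB b := by
    refine g1_dg_inj (B := 2) (n := pM b) (by rw [← g1_pB]; exact Nat.mod_lt _ (g1_pB_pos b))
      (by rw [← g1_pB]; exact Nat.mod_lt _ (g1_pB_pos b)) (fun p hp => ?_)
    have h3 := congrFun (congrArg Prod.snd h) ⟨p, hp⟩
    change decide (l % pB b / 2 ^ p % 2 = 1) = decide (l' % pB b / 2 ^ p % 2 = 1) at h3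
    rw [decide_eq_decide] at h3
    unfold dg
    omega
  rw [← Nat.div_add_mod l (pB b), ← Nat.div_add_mod l' (pB b), h1, h2]

/-- The row with the number `τ`. -/
def g1r (b τ : ℕ) : OMV.Toric.Row (2 ^ b) (ph b) (pM b) := fun i =>
  ((⟨dg (pRb b) τ i % 2 ^ b, Nat.mod_lt _ (by positivity)⟩,
    ⟨dg (pRb b) τ i / 2 ^ b % 2 ^ b, Nat.mod_lt _ (by positivity)⟩),
   (⟨dg (pRb b) τ i / (2 ^ b * 2 ^ b) % (2 * ph b), Nat.mod_lt _ (by have := g1_h b; omega)⟩,
    ⟨dg (pRb b) τ i / (2 ^ b * 2 ^ b) / (2 * ph b), by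
      have h1 : dg (pRb b) τ i < pRb b := dg_lt (by
        have := g1_h b
        unfold pRb pD
        positivity)
      rw [Nat.div_div_eq_div_mul]
      refine Nat.div_lt_of_lt_mul ?_
      unfold pRb pD at h1
      calc _ < 2 ^ b * 2 ^ b * (2 * ph b * ph b) := h1
        _ = _ := by ring⟩))

theorem g1r_val (b τ : ℕ) (i : Fin (pM b)) (ω : Bool) :
    OMV.Toric.rowVal (g1r b τ) i ω = rv b τ (2 * i + ω.toNat) := by
  cases ω with
  | false =>
    have h1 : (2 * (i : ℕ) + false.toNat) % 2 = 0 := by simp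
    have h2 : (2 * (i : ℕ) + false.toNat) / 2 = i := by simp
    unfold rv
    rw [if_pos h1, h2]
    rfl
  | true =>
    have h1 : ¬ (2 * (i : ℕ) + true.toNat) % 2 = 0 := by simp
    have h2 : (2 * (i : ℕ) + true.toNat) / 2 = i := by simp; omega
    unfold rv
    rw [if_neg h1, h2]
    rfl

theorem g1r_inj {b τ τ' : ℕ} (hτ : τ < pR b) (hτ' : τ' < pR b) (h : g1r b τ = g1r b τ') :
    τ = τ' := by
  have hR : 0 < pRb b := by
    have := g1_h b
    unfold pRb pD
    positivity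
  refine g1_dg_inj (n := pM b) hτ hτ' (fun p hp => ?_)
  have h0 := congrFun h ⟨p, hp⟩
  have h1 : dg (pRb b) τ p % 2 ^ b = dg (pRb b) τ' p % 2 ^ b :=
    congrArg Fin.val (congrArg Prod.fst (congrArg Prod.fst h0))
  have h2 : dg (pRb b) τ p / 2 ^ b % 2 ^ b = dg (pRb b) τ' p / 2 ^ b % 2 ^ b :=
    congrArg Fin.val (congrArg Prod.snd (congrArg Prod.fst h0))
  have h3 : dg (pRb b) τ p / (2 ^ b * 2 ^ b) % (2 * ph b) =
      dg (pRb b) τ' p / (2 ^ b * 2 ^ b) % (2 * ph b) :=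
    congrArg Fin.val (congrArg Prod.fst (congrArg Prod.snd h0))
  have h4 : dg (pRb b) τ p / (2 ^ b * 2 ^ b) / (2 * ph b) =
      dg (pRb b) τ' p / (2 ^ b * 2 ^ b) / (2 * ph b) :=
    congrArg Fin.val (congrArg Prod.snd (congrArg Prod.snd h0))
  have h5 : dg (pRb b) τ p / (2 ^ b * 2 ^ b) = dg (pRb b) τ' p / (2 ^ b * 2 ^ b) := by
    rw [← Nat.div_add_mod (dg (pRb b) τ p / (2 ^ b * 2 ^ b)) (2 * ph b), h3, h4,
      Nat.div_add_mod]
  rw [← Nat.div_div_eq_div_mul, ← Nat.div_div_eq_div_mul] at h5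
  have h6 : dg (pRb b) τ p / 2 ^ b = dg (pRb b) τ' p / 2 ^ b := by
    rw [← Nat.div_add_mod (dg (pRb b) τ p / 2 ^ b) (2 ^ b), h2, h5, Nat.div_add_mod]
  rw [← Nat.div_add_mod (dg (pRb b) τ p) (2 ^ b), h1, h6, Nat.div_add_mod]

theorem g1_rv_lt {b τ p : ℕ} (hp : p < 2 * pM b) : rv b τ p < pq b := by
  obtain ⟨i, ω, rfl⟩ := g1_split hp
  rw [← g1r_val, ← g1_q]
  exact (OMV.Toric.rowVal_lt _ i ω).trans_le (Nat.mul_le_mul_left _ (by omega))

/-- The numbers of the columns. -/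
noncomputable def g1ce (b : ℕ) : Fin (pN b) ≃ OMV.Toric.Col (pC b) (pM b) :=
  Equiv.ofBijective (fun l => g1c b l) ((Fintype.bijective_iff_injective_and_card _).2
    ⟨fun l l' h => Fin.ext (g1c_inj l.2 l'.2 h), by
      rw [Fintype.card_fin, Fintype.card_prod, Fintype.card_fin, Fintype.card_fun,
        Fintype.card_bool, Fintype.card_fin, ← g1_pB]
      rfl⟩)

theorem g1ce_apply (b : ℕ) (l : Fin (pN b)) : g1ce b l = g1c b l := rfl

/-- The numbers of the grid points. -/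
noncomputable def g1ve (b : ℕ) :
    Fin (pG b) ≃ OMV.Toric.Grid (2 ^ b * (2 * ph b + 2)) (pM b) :=
  Equiv.ofBijective (fun v => g1v b v) ((Fintype.bijective_iff_injective_and_card _).2
    ⟨fun v v' h => Fin.ext (g1v_inj v.2 v'.2 h), by
      rw [Fintype.card_fin, Fintype.card_fun, Fintype.card_fun, Fintype.card_fin,
        Fintype.card_fin, Fintype.card_bool, g1_q, ← pow_mul]
      rfl⟩)

theorem g1ve_apply (b : ℕ) (v : Fin (pG b)) : g1ve b v = g1v b v := rfl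

/-- The bits of the sign words. -/
def g1s {b : ℕ} (sg : ℕ → ℕ) (c : Fin (pC b)) (i : Fin (pM b)) : Bool :=
  decide (sg c / 2 ^ (i : ℕ) % 2 = 1)

/-- The symbols of the code words. -/
def g1a {b : ℕ} (cd : ℕ → ℕ) (c : Fin (pC b)) (j : Fin (2 * 2 ^ b - 1)) : Fin 4096 :=
  ⟨dg 4096 (cd c) j, dg_lt (by norm_num)⟩

theorem g1c_fst {b l : ℕ} (hl : l < pN b) : ((g1c b l).1 : ℕ) = l / pB b :=
  Nat.mod_eq_of_lt (g1_lt_C hl)

theorem g1_uvec {b : ℕ} (sg : ℕ → ℕ) {l : ℕ} (hl : l < pN b) (i : Fin (pM b)) (ω : Bool) :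
    OMV.Toric.uvec (g1s sg (g1c b l).1) (g1c b l).2 i ω = uv b sg l (2 * i + ω.toNat) := by
  have h1 : (2 * (i : ℕ) + ω.toNat) % 2 = ω.toNat := by cases ω <;> simp
  have h2 : (2 * (i : ℕ) + ω.toNat) / 2 = i := by cases ω <;> simp; omega
  unfold uv OMV.Toric.uvec
  rw [h1, h2]
  refine if_congr ?_ rfl rfl
  refine and_congr ?_ ?_
  · exact decide_eq_true_iff
  · unfold g1s
    rw [g1c_fst hl]
    have h3 := Nat.mod_two_eq_zero_or_one (sg (l / pB b) / 2 ^ (i : ℕ))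
    cases ω with
    | false =>
      rw [decide_eq_false_iff_not]
      simp only [Bool.toNat_false]
      omega
    | true =>
      rw [decide_eq_true_iff]
      rfl

section

variable {b : ℕ} {mt : ℕ → ℕ → ℕ} (fd : FD (pe b) (pq b) mt)

/-- The elements of the field. -/
def g1t (y : Fin (2 ^ b * (2 * ph b + 2))) : fd.F := fd.φ y

theorem g1t_inj : Function.Injective (g1t fd) := by
  intro y y' h
  exact Fin.ext (fd.inj _ (y.2.trans_eq (g1_q b)) _ (y'.2.trans_eq (g1_q b)) h)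

theorem g1_mon (v : ℕ) (κ : Fin (pM b) → Bool → ℕ) (κ' : ℕ → ℕ)
    (h : ∀ i ω, κ i ω = κ' (2 * i + ω.toNat)) :
    OMV.Toric.mon (g1t fd) (g1v b v) κ =
      ∏ p ∈ range (2 * pM b), fd.φ (dg (pq b) v p) ^ κ' p := by
  rw [g1_prod2]
  unfold OMV.Toric.mon
  refine prod_congr rfl (fun i _ => prod_congr rfl (fun ω _ => ?_))
  rw [h]
  rfl

theorem g1_monC (sg : ℕ → ℕ) (v : ℕ) {l : ℕ} (hl : l < pN b) :
    OMV.Toric.mon (g1t fd) (g1v b v)
      (OMV.Toric.uvec (g1s sg (g1c b l).1) (g1c b l).2) = monC fd sg v l :=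
  g1_mon fd v _ _ (fun i ω => g1_uvec sg hl i ω)

theorem g1_monK (sg : ℕ → ℕ) (v τ : ℕ) {l : ℕ} (hl : l < pN b) :
    OMV.Toric.mon (g1t fd) (g1v b v)
      (OMV.Toric.kap (g1r b τ) (g1s sg (g1c b l).1) (g1c b l).2) = monK fd sg v τ l := by
  refine g1_mon fd v _ (fun p => rv b τ p - pD b * uv b sg l p) (fun i ω => ?_)
  unfold OMV.Toric.kap
  rw [g1_uvec sg hl, g1r_val]
  rfl

theorem g1_esy (w : ℕ) (y : ℕ → fd.F) :
    OMV.Toric.eD (2 ^ b) (fun j : Fin (2 * 2 ^ b - 1) => y (j * 4096 + dg 4096 w j)) =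
      esy fd w y := by
  rw [OMV.Toric.eD_eq_sum]
  unfold esy
  have h1 : range (pl b) = (univ : Finset (Fin (2 * 2 ^ b - 1))).map Fin.valEmbedding := by
    ext j
    simp only [mem_range, mem_map, mem_univ, true_and, Fin.valEmbedding_apply]
    constructor
    · intro hj
      exact ⟨⟨j, hj⟩, rfl⟩
    · rintro ⟨j, rfl⟩
      exact j.2
  rw [h1, powersetCard_map, sum_map]
  refine sum_congr rfl (fun J _ => ?_)
  change _ = ∏ j ∈ J.map Fin.valEmbedding, _
  rw [prod_map]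
  rfl

/-- The sum of the columns seen by a symbol of an address. -/
theorem g1_adr (cd sg bl : ℕ → ℕ) {v : ℕ} (hv : v < pG b) (x : ℕ → fd.F)
    (c : Fin (pC b)) (j : Fin (2 * 2 ^ b - 1)) :
    OMV.Toric.adr (g1t fd) (g1a cd) (g1s sg) (g1v b v) (fun l => x ((g1ce b).symm l))
      (j, g1a cd c j) =
      ∑ l ∈ range (pN b), coefA fd cd sg bl v (j * 4096 + dg 4096 (cd c) j) l * x l := by
  unfold OMV.Toric.adr
  rw [← (g1ce b).sum_comp, Finset.sum_range]
  refine sum_congr rfl (fun l _ => ?_)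
  have h1 : dg 4096 (cd c) j < 4096 := dg_lt (by norm_num)
  simp only [Equiv.symm_apply_apply]
  rw [g1ce_apply, g1_monC fd sg v l.2]
  unfold coefA
  rw [if_pos hv, idx_div h1, idx_mod h1]
  have h2 : (g1a cd (g1c b l).1 j = g1a cd c j) ↔
      dg 4096 (cd (l / pB b)) j = dg 4096 (cd c) j := by
    unfold g1a
    rw [Fin.mk.injEq, g1c_fst l.2]
  by_cases h3 : dg 4096 (cd (l / pB b)) j = dg 4096 (cd c) j
  · rw [if_pos (h2.2 h3), if_pos h3]
  · rw [if_neg (fun h => h3 (h2.1 h)), if_neg h3, zero_mul]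

/-- The dual basis. -/
theorem g1_dual (hb : 1 ≤ b) : ∃ d : ℕ → Fin (2 ^ b * (2 * ph b + 2)) → fd.F,
    (∀ n < 2 ^ b * (2 * ph b + 2), ∀ k < 2 ^ b * (2 * ph b + 2),
      ∑ y, d n y * g1t fd y ^ k = if k = n then 1 else 0) ∧
    ∀ n, 2 ^ b ≤ n → n < 2 ^ b * (2 * ph b + 1) → ∀ y, d n y = g1t fd y ^ (pq b - 1 - n) := by
  obtain ⟨d0, hd0⟩ := OMV.Toric.exists_dual (g1t fd) (g1t_inj fd)
  refine ⟨fun n y => if 1 ≤ n ∧ n + 2 ≤ pq b then g1t fd y ^ (pq b - 1 - n) else d0 n y,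
    fun n hn k hk => ?_, fun n h1 h2 y => ?_⟩
  · by_cases h : 1 ≤ n ∧ n + 2 ≤ pq b
    · simp only [if_pos h]
      have h3 : ∑ y : Fin (2 ^ b * (2 * ph b + 2)), g1t fd y ^ (pq b - 1 - n) * g1t fd y ^ k =
          ∑ y ∈ range (2 ^ b * (2 * ph b + 2)), fd.φ y ^ (pq b - 1 - n) * fd.φ y ^ k := by
        rw [Finset.sum_range]
        rfl
      rw [h3, g1_q]
      rw [g1_q] at hk
      exact dual fd h.1 h.2 hk
    · simp only [if_neg h]
      exact hd0 n hn k hk
  · have h3 : 2 ≤ 2 ^ b := by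
      calc 2 = 2 ^ 1 := rfl
        _ ≤ 2 ^ b := Nat.pow_le_pow_right (by norm_num) hb
    have h4 := g1_q b
    have h5 : 2 ^ b * (2 * ph b + 2) = 2 ^ b * (2 * ph b + 1) + 2 ^ b := by ring
    exact if_pos ⟨by omega, by omega⟩

theorem g1_dec {d : ℕ → Fin (2 ^ b * (2 * ph b + 2)) → fd.F}
    (hd : ∀ n, 2 ^ b ≤ n → n < 2 ^ b * (2 * ph b + 1) →
      ∀ y, d n y = g1t fd y ^ (pq b - 1 - n)) (ρ v : ℕ) :
    OMV.Toric.dec d (g1r b ρ) (g1v b v) = decF fd (rnum b ρ) v := by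
  unfold OMV.Toric.dec decF
  rw [g1_prod2]
  refine prod_congr rfl (fun i _ => prod_congr rfl (fun ω _ => ?_))
  rw [hd _ (OMV.Toric.rowVal_ge _ i ω) (OMV.Toric.rowVal_lt _ i ω), g1r_val]
  have h1 : 2 * (i : ℕ) + ω.toNat < 2 * pM b := by
    have := i.2
    have h2 : ω.toNat ≤ 1 := by cases ω <;> simp
    omega
  unfold rnum
  rw [g1_dg_sum (fun p hp => g1_rv_lt hp) h1]
  rfl

end

/-- Good pairs. -/
theorem g1_good {b : ℕ} {sg : ℕ → ℕ} {τ l : ℕ}
    (h : bad b sg (τ * pB b + l % pB b) = 0) :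
    OMV.Toric.GoodPair (g1s sg) (g1r b τ) (g1c b l).2 := by
  have hB := g1_pB_pos b
  have hl : l % pB b < pB b := Nat.mod_lt _ hB
  have h0 : ∀ i : Fin (pM b), ((g1r b τ i).1.1 : ℕ) = rv b τ (2 * i) % pD b := by
    intro i
    have h1 := OMV.Toric.rowVal_mod_false (g1r b τ) i
    rw [g1r_val] at h1
    exact h1.symm
  have h1 : ∀ i : Fin (pM b), ((g1r b τ i).1.2 : ℕ) = rv b τ (2 * i + 1) % pD b := by
    intro i
    have h1 := OMV.Toric.rowVal_mod_true (g1r b τ) i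
    rw [g1r_val] at h1
    exact h1.symm
  have hcl : ∀ i : Fin (pM b), (if (g1c b l).2 i = true ∧ 16 * ((g1r b τ i).1.1 : ℕ) < 2 ^ b ∧
      16 * ((g1r b τ i).1.2 : ℕ) < 2 ^ b then 1 else 0) = cln b τ (l % pB b) i := by
    intro i
    rw [h0, h1]
    have h2 : ((g1c b l).2 i = true) ↔ l % pB b / 2 ^ (i : ℕ) % 2 = 1 := decide_eq_true_iff
    unfold cln
    change _ = _ * (if 16 * (rv b τ (2 * i) % pD b) < 2 ^ b then 1 else 0) *
      (if 16 * (rv b τ (2 * i + 1) % pD b) < 2 ^ b then 1 else 0)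
    rcases Nat.mod_two_eq_zero_or_one (l % pB b / 2 ^ (i : ℕ)) with h3 | h3
    · rw [if_neg (fun h => by have := h2.1 h.1; omega), h3, zero_mul, zero_mul]
    · by_cases h4 : 16 * (rv b τ (2 * i) % pD b) < 2 ^ b
      · by_cases h5 : 16 * (rv b τ (2 * i + 1) % pD b) < 2 ^ b
        · rw [if_pos ⟨h2.2 h3, h4, h5⟩, h3, if_pos h4, if_pos h5]
        · rw [if_neg (fun h => h5 h.2.2), if_neg h5, mul_zero]
      · rw [if_neg (fun h => h4 h.2.1), if_neg h4, mul_zero, zero_mul]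
  have hσ : ∀ (c c' : Fin (pC b)) (i : Fin (pM b)), (g1s sg c i = g1s sg c' i) ↔
      sg c / 2 ^ (i : ℕ) % 2 = sg c' / 2 ^ (i : ℕ) % 2 := by
    intro c c' i
    unfold g1s
    rw [decide_eq_decide]
    omega
  have hag : ∀ c c' : Fin (pC b), ((OMV.Toric.cleanSet (g1r b τ) (g1c b l).2).filter
      (fun i => g1s sg c i = g1s sg c' i)).card = agc b τ (l % pB b) (sg c) (sg c') := by
    intro c c'
    unfold OMV.Toric.cleanSet agc
    rw [filter_filter, card_filter, Finset.sum_range]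
    refine sum_congr rfl (fun i _ => ?_)
    rw [← hcl i]
    by_cases h2 : g1s sg c i = g1s sg c' i
    · rw [if_pos ((hσ c c' i).1 h2), mul_one]
      simp only [h2, and_true]
    · rw [if_neg (fun h => h2 ((hσ c c' i).2 h)), mul_zero, if_neg (fun h => h2 h.2)]
  have hdf : ∀ c c' : Fin (pC b), ((OMV.Toric.cleanSet (g1r b τ) (g1c b l).2).filter
      (fun i => g1s sg c i ≠ g1s sg c' i)).card = dfc b τ (l % pB b) (sg c) (sg c') := by
    intro c c'
    unfold OMV.Toric.cleanSet dfc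
    rw [filter_filter, card_filter, Finset.sum_range]
    refine sum_congr rfl (fun i _ => ?_)
    rw [← hcl i]
    by_cases h2 : g1s sg c i = g1s sg c' i
    · rw [if_pos ((hσ c c' i).1 h2), if_neg (fun h => h.2 h2)]
      simp
    · rw [if_neg (fun h => h2 ((hσ c c' i).2 h))]
      simp only [ne_eq, h2, not_false_eq_true, and_true]
      simp
  have hlt : ∀ c c' : Fin (pC b), (c' : ℕ) < c →
      OMV.Toric.Sep (OMV.Toric.cleanSet (g1r b τ) (g1c b l).2) (g1s sg c) (g1s sg c') := by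
    intro c c' hcc
    unfold OMV.Toric.Sep
    rw [hag, hdf]
    unfold bad at h
    rw [idx_div hl, idx_mod hl] at h
    by_contra hcon
    have h2 : ¬ 0 < ∑ c ∈ range (pC b), ∑ c' ∈ range c,
        (if 3 * dfc b τ (l % pB b) (sg c) (sg c') < agc b τ (l % pB b) (sg c) (sg c') + 1
          then 1 else 0) := by
      intro h3
      rw [if_pos h3] at h
      exact one_ne_zero h
    apply h2
    refine sum_pos' (fun _ _ => Nat.zero_le _) ⟨c, mem_range.2 c.2, ?_⟩
    refine sum_pos' (fun _ _ => Nat.zero_le _) ⟨c', mem_range.2 hcc, ?_⟩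
    rw [if_pos (by omega)]
    exact one_pos
  intro c c' hcc
  rcases lt_or_gt_of_ne (fun h => hcc (Fin.ext h) : (c : ℕ) ≠ c') with h2 | h2
  · have h3 := hlt c' c h2
    unfold OMV.Toric.Sep at h3 ⊢
    simpa only [eq_comm, ne_comm] using h3
  · exact hlt c c' h2

/-- The key identity. -/
theorem g1_key {b : ℕ} (hb : 4 ≤ b) {mt : ℕ → ℕ → ℕ} (fd : FD (pe b) (pq b) mt)
    {cd : ℕ → ℕ} (hc : CodeOK b cd) (sg bl : ℕ → ℕ) (x : ℕ → fd.F) {τ ρ l : ℕ}
    (hτ : τ < pR b) (hρ : ρ < pR b) (hl : l < pN b)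
    (hbad : bad b sg (τ * pB b + l % pB b) = 0) :
    ∑ v ∈ range (pG b), decF fd (rnum b ρ) v * (monK fd sg v τ l * esy fd (cd (l / pB b))
        (fun k => ∑ l' ∈ range (pN b), coefA fd cd sg bl v k l' * x l')) =
      if τ = ρ then x l ^ pD b else 0 := by
  classical
  obtain ⟨d, hd1, hd2⟩ := g1_dual fd (b := b) (by omega)
  have hA : ∀ c c' : Fin (pC b), c ≠ c' →
      4 * (univ.filter (fun j => g1a cd c j = g1a cd c' j)).card ≤ 2 ^ b := by
    have h1 : ∀ c c' : Fin (pC b), (univ.filter (fun j => g1a cd c j = g1a cd c' j)).card =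
        agr 4096 (pl b) (cd c) (cd c') := by
      intro c c'
      unfold agr
      rw [card_filter, Finset.sum_range]
      refine sum_congr rfl (fun j _ => ?_)
      refine if_congr ?_ rfl rfl
      unfold g1a
      rw [Fin.mk.injEq]
    intro c c' hcc
    rw [h1]
    rcases lt_or_gt_of_ne (fun h => hcc (Fin.ext h) : (c : ℕ) ≠ c') with h2 | h2
    · have h3 := hc.agr c' c'.2 c h2
      have h4 : agr 4096 (pl b) (cd c) (cd c') = agr 4096 (pl b) (cd c') (cd c) := by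
        unfold agr
        exact sum_congr rfl (fun j _ => if_congr eq_comm rfl rfl)
      rw [h4]
      exact h3
    · exact hc.agr c c.2 c' h2
  have h := OMV.Toric.key (g1t fd) d (g1a cd) (g1s sg) hd1 hA (g1r b τ) (g1r b ρ) (g1c b l)
    (g1_good hbad) (fun l => x ((g1ce b).symm l))
  have h1 : (g1ce b).symm (g1c b l) = ⟨l, hl⟩ := by
    rw [Equiv.symm_apply_eq]
    rfl
  rw [h1] at h
  have h2 : (g1r b τ = g1r b ρ) ↔ τ = ρ := ⟨fun h => g1r_inj hτ hρ h, fun h => by rw [h]⟩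
  rw [if_congr h2 rfl rfl] at h
  change _ = if τ = ρ then x l ^ 2 ^ b else 0
  rw [← h, ← (g1ve b).sum_comp, Finset.sum_range]
  refine sum_congr rfl (fun v _ => ?_)
  rw [g1ve_apply, g1_dec fd hd2, g1_monK fd sg v τ hl]
  congr 2
  rw [← g1_esy]
  congr 1
  funext j
  rw [g1_adr fd cd sg bl v.2 x (g1c b l).1 j, g1c_fst hl]

/-- The grid cells decode the good pairs. -/
theorem gadget_grid {b : ℕ} (hb : 4 ≤ b) {mt : ℕ → ℕ → ℕ} (fd : FD (pe b) (pq b) mt)
    {cd : ℕ → ℕ} (hc : CodeOK b cd) (sg bl : ℕ → ℕ) (μ : ℕ → ℕ → fd.F) (x : ℕ → fd.F)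
    {ρ : ℕ} (hρ : ρ < pR b) :
    ∑ v ∈ range (pG b), decF fd (rnum b ρ) v *
        tabF fd cd sg bl μ v (fun k => ∑ l ∈ range (pN b), coefA fd cd sg bl v k l * x l) =
      ∑ l ∈ range (pN b), if bad b sg (ρ * pB b + l % pB b) = 0 then μ ρ l * x l ^ pD b
        else 0 := by
  have h1 : ∀ v ∈ range (pG b), decF fd (rnum b ρ) v *
        tabF fd cd sg bl μ v (fun k => ∑ l ∈ range (pN b), coefA fd cd sg bl v k l * x l) =
      ∑ τ ∈ range (pR b), ∑ l ∈ range (pN b),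
        (if bad b sg (τ * pB b + l % pB b) = 0 then μ τ l * (decF fd (rnum b ρ) v *
          (monK fd sg v τ l * esy fd (cd (l / pB b))
            (fun k => ∑ l' ∈ range (pN b), coefA fd cd sg bl v k l' * x l'))) else 0) := by
    intro v hv
    unfold tabF
    rw [if_pos (mem_range.1 hv), mul_sum]
    refine sum_congr rfl (fun τ _ => ?_)
    rw [mul_sum]
    refine sum_congr rfl (fun l _ => ?_)
    rw [mul_ite, mul_zero]
    refine if_congr Iff.rfl ?_ rfl
    ring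
  rw [sum_congr rfl h1, sum_comm]
  have h2 : ∀ τ ∈ range (pR b), ∑ v ∈ range (pG b), ∑ l ∈ range (pN b),
        (if bad b sg (τ * pB b + l % pB b) = 0 then μ τ l * (decF fd (rnum b ρ) v *
          (monK fd sg v τ l * esy fd (cd (l / pB b))
            (fun k => ∑ l' ∈ range (pN b), coefA fd cd sg bl v k l' * x l'))) else 0) =
      if τ = ρ then ∑ l ∈ range (pN b), (if bad b sg (ρ * pB b + l % pB b) = 0 then
        μ ρ l * x l ^ pD b else 0) else 0 := by
    intro τ hτ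
    rw [sum_comm]
    have h3 : ∀ l ∈ range (pN b), ∑ v ∈ range (pG b),
        (if bad b sg (τ * pB b + l % pB b) = 0 then μ τ l * (decF fd (rnum b ρ) v *
          (monK fd sg v τ l * esy fd (cd (l / pB b))
            (fun k => ∑ l' ∈ range (pN b), coefA fd cd sg bl v k l' * x l'))) else 0) =
        if bad b sg (τ * pB b + l % pB b) = 0 then
          μ τ l * (if τ = ρ then x l ^ pD b else 0) else 0 := by
      intro l hl
      by_cases h4 : bad b sg (τ * pB b + l % pB b) = 0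
      · simp only [if_pos h4]
        rw [← mul_sum, g1_key hb fd hc sg bl x (mem_range.1 hτ) hρ (mem_range.1 hl) h4]
      · simp only [if_neg h4]
        exact sum_const_zero
    rw [sum_congr rfl h3]
    by_cases h5 : τ = ρ
    · subst h5
      simp only [if_true]
    · simp only [if_neg h5, mul_zero, ite_self]
      exact sum_const_zero
  rw [sum_congr rfl h2, sum_ite_eq' (range (pR b)) ρ, if_pos (mem_range.2 hρ)]

end Pool.Agent.OMVU
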