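import Pool.Agent.OMVU.Folds

/-! The gadget: the cells of the bad pairs. -/

namespace Pool.Agent.OMVU

open Finset

theorem nbad_succ (b : ℕ) (sg : ℕ → ℕ) (p : ℕ) : nbad b sg (p + 1) = nbad b sg p + bad b sg p := by
  unfold nbad
  rw [sum_range_succ]

theorem nbad_mono (b : ℕ) (sg : ℕ → ℕ) {p p' : ℕ} (h : p ≤ p') : nbad b sg p ≤ nbad b sg p' := by
  unfold nbad
  exact sum_le_sum_of_subset (range_subset_range.2 h)

theorem bad_one (b : ℕ) (sg : ℕ → ℕ) {p : ℕ} (h : bad b sg p ≠ 0) : bad b sg p = 1 := by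
  unfold bad at *
  split_ifs at * with h1
  · rfl
  · exact absurd rfl h

/-- the listed elements with rank in the range of the row `ρ` lie in the row `ρ` -/
theorem row_cells {B R : ℕ} {bd nb bl : ℕ → ℕ}
    (hmono : ∀ p p', p ≤ p' → nb p ≤ nb p') (hsucc : ∀ p, nb (p + 1) = nb p + bd p)
    (bl_bad : ∀ k < nb (R * B), bd (bl k) = 1) (bl_rank : ∀ k < nb (R * B), nb (bl k) = k)
    {ρ : ℕ} (hρ : ρ < R) {i : ℕ} (h0 : nb (ρ * B) ≤ i) (h1 : i < nb ((ρ + 1) * B)) :
    i < nb (R * B) ∧ bl i / B = ρ ∧ ρ * B + bl i % B = bl i := by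
  have h1T : nb ((ρ + 1) * B) ≤ nb (R * B) := hmono _ _ (Nat.mul_le_mul_right _ (by omega))
  have hi : i < nb (R * B) := by omega
  have e1 := bl_rank i hi
  have e2 := bl_bad i hi
  have h2 : ρ * B ≤ bl i := by
    by_contra hlt
    have h3 : nb (bl i + 1) ≤ nb (ρ * B) := hmono _ _ (by omega)
    rw [hsucc, e1, e2] at h3
    omega
  have h3 : bl i < (ρ + 1) * B := by
    by_contra hlt
    have h3 : nb ((ρ + 1) * B) ≤ nb (bl i) := hmono _ _ (by omega)
    omega
  have e3 : bl i / B = ρ := Nat.div_eq_of_lt_le h2 h3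
  refine ⟨hi, e3, ?_⟩
  have := Nat.div_add_mod (bl i) B
  rw [e3, Nat.mul_comm] at this
  exact this

/-- the cells of the row `ρ` -/
theorem sum_cells {F : Type*} [AddCommMonoid F] {B C R : ℕ} (hB : 0 < B) (hC : 0 < C)
    {bd nb bl : ℕ → ℕ}
    (hmono : ∀ p p', p ≤ p' → nb p ≤ nb p') (hsucc : ∀ p, nb (p + 1) = nb p + bd p)
    (hone : ∀ p, bd p ≠ 0 → bd p = 1)
    (bl_bad : ∀ k < nb (R * B), bd (bl k) = 1) (bl_rank : ∀ k < nb (R * B), nb (bl k) = k)
    (bl_of : ∀ p < R * B, bd p = 1 → bl (nb p) = p)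
    {ρ : ℕ} (hρ : ρ < R) (f : ℕ → F) :
    ∑ k ∈ range ((nb ((ρ + 1) * B) - nb (ρ * B)) * C),
        f (k % C * B + bl (nb (ρ * B) + k / C) % B) =
      ∑ l ∈ range (C * B), if bd (ρ * B + l % B) = 0 then 0 else f l := by
  have h01 : nb (ρ * B) ≤ nb ((ρ + 1) * B) := hmono _ _ (Nat.mul_le_mul_right _ (by omega))
  have hR : (∑ l ∈ range (C * B), if bd (ρ * B + l % B) = 0 then 0 else f l) =
      ∑ l ∈ (range (C * B)).filter (fun l => ¬ bd (ρ * B + l % B) = 0), f l := by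
    rw [sum_filter]
    exact sum_congr rfl fun l _ => by rw [ite_not]
  rw [hR]
  refine sum_nbij' (fun k => k % C * B + bl (nb (ρ * B) + k / C) % B)
    (fun l => (nb (ρ * B + l % B) - nb (ρ * B)) * C + l / B) ?_ ?_ ?_ ?_ ?_
  · intro k hk
    rw [mem_range] at hk
    have hkC : k / C < nb ((ρ + 1) * B) - nb (ρ * B) :=
      Nat.div_lt_of_lt_mul (by rwa [Nat.mul_comm])
    have h4 : nb (ρ * B) + k / C < nb ((ρ + 1) * B) := by
      generalize k / C = i at hkC ⊢
      omega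
    obtain ⟨h0, h1, h2⟩ := row_cells hmono hsucc bl_bad bl_rank hρ (Nat.le_add_right _ _) h4
    rw [mem_filter, mem_range]
    refine ⟨idx_lt (Nat.mod_lt _ hC) (Nat.mod_lt _ hB), ?_⟩
    rw [idx_mod (Nat.mod_lt _ hB), h2, bl_bad _ h0]
    exact one_ne_zero
  · intro l hl
    rw [mem_filter, mem_range] at hl
    obtain ⟨hl, hb⟩ := hl
    have hb1 := hone _ hb
    have hlB : l / B < C := Nat.div_lt_of_lt_mul (by rwa [Nat.mul_comm])
    have hmod := Nat.mod_lt l hB
    have h3 : nb (ρ * B + l % B + 1) ≤ nb ((ρ + 1) * B) :=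
      hmono _ _ (by rw [Nat.succ_mul]; omega)
    rw [hsucc, hb1] at h3
    have h4 : nb (ρ * B) ≤ nb (ρ * B + l % B) := hmono _ _ (by omega)
    rw [mem_range]
    exact idx_lt (by omega) hlB
  · intro k hk
    rw [mem_range] at hk
    have hkC : k / C < nb ((ρ + 1) * B) - nb (ρ * B) :=
      Nat.div_lt_of_lt_mul (by rwa [Nat.mul_comm])
    have h4 : nb (ρ * B) + k / C < nb ((ρ + 1) * B) := by
      generalize k / C = i at hkC ⊢
      omega
    obtain ⟨h0, h1, h2⟩ := row_cells hmono hsucc bl_bad bl_rank hρ (Nat.le_add_right _ _) h4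
    have hm := Nat.mod_lt (bl (nb (ρ * B) + k / C)) hB
    show (nb (ρ * B + (k % C * B + bl (nb (ρ * B) + k / C) % B) % B) - nb (ρ * B)) * C +
      (k % C * B + bl (nb (ρ * B) + k / C) % B) / B = k
    rw [idx_mod hm, idx_div hm, h2, bl_rank _ h0, Nat.add_sub_cancel_left, Nat.mul_comm]
    exact Nat.div_add_mod k C
  · intro l hl
    rw [mem_filter, mem_range] at hl
    obtain ⟨hl, hb⟩ := hl
    have hb1 := hone _ hb
    have hlB : l / B < C := Nat.div_lt_of_lt_mul (by rwa [Nat.mul_comm])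
    have hmod := Nat.mod_lt l hB
    have h4 : nb (ρ * B) ≤ nb (ρ * B + l % B) := hmono _ _ (by omega)
    have hlt : ρ * B + l % B < R * B := idx_lt hρ hmod
    show ((nb (ρ * B + l % B) - nb (ρ * B)) * C + l / B) % C * B +
      bl (nb (ρ * B) + ((nb (ρ * B + l % B) - nb (ρ * B)) * C + l / B) / C) % B = l
    rw [idx_mod hlB, idx_div hlB, Nat.add_sub_cancel' h4, bl_of _ hlt hb1, idx_mod hmod,
      Nat.mul_comm]
    exact Nat.div_add_mod l B
  · intro k _
    rfl

/-- The cells of the bad pairs of the row `ρ`. -/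
theorem gadget_bad {b : ℕ} {mt : ℕ → ℕ → ℕ} (fd : FD (pe b) (pq b) mt)
    (cd sg bl : ℕ → ℕ)
    (bl_lt : ∀ k < nbad b sg (pR b * pB b), bl k < pR b * pB b)
    (bl_bad : ∀ k < nbad b sg (pR b * pB b), bad b sg (bl k) = 1)
    (bl_rank : ∀ k < nbad b sg (pR b * pB b), nbad b sg (bl k) = k)
    (bl_of : ∀ p < pR b * pB b, bad b sg p = 1 → bl (nbad b sg p) = p)
    (μ : ℕ → ℕ → fd.F) (x : ℕ → fd.F) {ρ : ℕ} (hρ : ρ < pR b) :
    ∑ k ∈ range ((nbad b sg ((ρ + 1) * pB b) - nbad b sg (ρ * pB b)) * pC b),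
        tabF fd cd sg bl μ (pG b + nbad b sg (ρ * pB b) * pC b + k)
          (fun k' => ∑ l ∈ range (pN b),
            coefA fd cd sg bl (pG b + nbad b sg (ρ * pB b) * pC b + k) k' l * x l) =
      ∑ l ∈ range (pN b), if bad b sg (ρ * pB b + l % pB b) = 0 then 0
        else μ ρ l * x l ^ pD b := by
  have hB : 0 < pB b := Nat.pow_pos (by norm_num)
  have hC : 0 < pC b := Nat.pow_pos (by norm_num)
  have hmono : ∀ p p', p ≤ p' → nbad b sg p ≤ nbad b sg p' := fun p p' h => nbad_mono b sg h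
  have hN : pN b = pC b * pB b := rfl
  rw [hN, ← sum_cells hB hC hmono (nbad_succ b sg) (fun p => bad_one b sg) bl_bad bl_rank bl_of hρ
    (fun l => μ ρ l * x l ^ pD b)]
  refine sum_congr rfl fun k hk => ?_
  rw [mem_range] at hk
  have hkC : k / pC b < nbad b sg ((ρ + 1) * pB b) - nbad b sg (ρ * pB b) :=
    Nat.div_lt_of_lt_mul (by rwa [Nat.mul_comm])
  have h4 : nbad b sg (ρ * pB b) + k / pC b < nbad b sg ((ρ + 1) * pB b) := by
    generalize k / pC b = i at hkC ⊢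
    omega
  obtain ⟨h0, h1, h2⟩ := row_cells hmono (nbad_succ b sg) bl_bad bl_rank hρ
    (Nat.le_add_right _ _) h4
  have hm := Nat.mod_lt (bl (nbad b sg (ρ * pB b) + k / pC b)) hB
  have hmem : k % pC b * pB b + bl (nbad b sg (ρ * pB b) + k / pC b) % pB b < pC b * pB b :=
    idx_lt (Nat.mod_lt _ hC) hm
  have e1 : pG b + nbad b sg (ρ * pB b) * pC b + k - pG b = nbad b sg (ρ * pB b) * pC b + k := by
    rw [Nat.add_assoc, Nat.add_sub_cancel_left]
  have e2 : ¬ (pG b + nbad b sg (ρ * pB b) * pC b + k < pG b) := by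
    rw [Nat.add_assoc, not_lt]
    exact Nat.le_add_right _ _
  have e3 : (nbad b sg (ρ * pB b) * pC b + k) / pC b = nbad b sg (ρ * pB b) + k / pC b := by
    rw [Nat.mul_comm, Nat.mul_add_div hC]
  have e4 : (nbad b sg (ρ * pB b) * pC b + k) % pC b = k % pC b := by
    rw [Nat.mul_comm, Nat.mul_add_mod]
  unfold tabF
  rw [if_neg e2, e1, e3, e4, h1]
  generalize hL : k % pC b * pB b + bl (nbad b sg (ρ * pB b) + k / pC b) % pB b = L at hmem ⊢
  have key : (∑ l ∈ range (pC b * pB b),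
      coefA fd cd sg bl (pG b + nbad b sg (ρ * pB b) * pC b + k) 0 l * x l) = x L := by
    rw [sum_eq_single L]
    · unfold coefA
      rw [if_neg e2, e1, e3, e4, hL, if_pos ⟨rfl, rfl⟩, one_mul]
    · intro l _ hl
      unfold coefA
      rw [if_neg e2, e1, e3, e4, hL, if_neg (fun h => hl h.2), zero_mul]
    · intro h
      exact absurd (mem_range.2 hmem) h
  beta_reduce
  rw [key]

end Pool.Agent.OMVU
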