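import Pool.Agent.OMVU.Online
import Pool.Agent.OMVU.Assem

/-! The arrays between two queries. -/

namespace Pool.Agent.OMVU

open Finset

/-- The arrays between two queries: the equations of the preprocessing hold and all numbers
are at most `B`. -/
structure Inv (m n : ℕ) (X : ℕ → ℕ → ℕ) (B : ℕ) (a : Ar) : Prop extends Eqs m n X a where
  le : ∀ A i, a A i ≤ B
  vec0 : ∀ c, n ≤ c → a aV c = 0
  vec1 : ∀ c, a aV c ≤ 1

namespace InvL

theorem pre_tgt : ∀ g ∈ preL, g.wf = true ∧ g.tgt ≠ aX ∧ g.tgt ≠ sm ∧ g.tgt ≠ sn ∧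
    g.tgt ≠ aV ∧ g.rf aV = true := by
  decide +kernel

theorem qry_tgt : ∀ g ∈ qryL, g.wf = true ∧ g.tgt ≠ aX ∧ g.tgt ≠ sm ∧ g.tgt ≠ sn ∧
    g.tgt ≠ aV := by
  decide +kernel

theorem pre_qry : ∀ g ∈ preL, ∀ g' ∈ qryL, g.rf g'.tgt = true ∧ g'.tgt ≠ g.tgt := by
  decide +kernel

variable {m n : ℕ} {X : ℕ → ℕ → ℕ} {a : Ar}

theorem setV_ne {x : ℕ → ℕ} {A : ℕ} (h : A ≠ aV) : setV n x a A = a A := by
  funext k
  simp only [setV]
  rw [if_neg (fun hh => h hh.1)]

theorem eqs_setV (h : Eqs m n X a) (x : ℕ → ℕ) : Eqs m n X (setV n x a) where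
  m0 := by
    rw [setV_ne (by decide)]
    exact h.m0
  n0 := by
    rw [setV_ne (by decide)]
    exact h.n0
  mat := fun r hr c hc => by
    rw [setV_ne (by decide)]
    exact h.mat r hr c hc
  sat := fun g hg => by
    refine Stg.Sat.congr (fun A hA => ?_) (h.sat g hg)
    have h1 := pre_tgt g hg
    rw [setV_ne]
    rintro rfl
    rcases hA with hA | hA
    · rw [h1.2.2.2.2.2] at hA
      exact Bool.noConfusion hA
    · exact h1.2.2.2.2.1 hA.symm

theorem qst_ne {x : ℕ → ℕ} {A : ℕ} (h : ∀ g ∈ qryL, g.tgt ≠ A) :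
    qst n x a A = setV n x a A := Stg.runs_ne qryL _ h

theorem eqs_qst (h : Eqs m n X a) (x : ℕ → ℕ) : Eqs m n X (qst n x a) where
  m0 := by
    rw [qst_ne fun g hg => (qry_tgt g hg).2.2.1]
    exact (eqs_setV h x).m0
  n0 := by
    rw [qst_ne fun g hg => (qry_tgt g hg).2.2.2.1]
    exact (eqs_setV h x).n0
  mat := fun r hr c hc => by
    rw [qst_ne fun g hg => (qry_tgt g hg).2.1]
    exact (eqs_setV h x).mat r hr c hc
  sat := fun g hg => by
    refine Stg.Sat.congr (fun A hA => ?_) ((eqs_setV h x).sat g hg)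
    refine (qst_ne fun g' hg' => ?_).symm
    rintro rfl
    have h1 := pre_qry g hg g' hg'
    rcases hA with hA | hA
    · rw [h1.1] at hA
      exact Bool.noConfusion hA
    · exact h1.2 hA

theorem setV_le {B : ℕ} (hB : 1 ≤ B) (h : ∀ A i, a A i ≤ B) {x : ℕ → ℕ} (hx : ∀ c, x c ≤ 1)
    (A i : ℕ) : setV n x a A i ≤ B := by
  simp only [setV]
  split_ifs
  · exact (hx i).trans hB
  · exact h A i

theorem ar0_le (hm : 2 ≤ m) (hn : 2 ≤ n) (hX : ∀ r c, X r c ≤ 1) (A i : ℕ) :
    ar0 m n X A i ≤ m * n := by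
  have h1 : m ≤ m * n := Nat.le_mul_of_pos_right _ (by omega)
  have h2 : n ≤ m * n := Nat.le_mul_of_pos_left _ (by omega)
  unfold ar0
  split_ifs
  · exact (hX _ _).trans (by omega)
  · exact Nat.zero_le _
  · exact h1
  · exact Nat.zero_le _
  · exact h2
  · exact Nat.zero_le _
  · exact Nat.zero_le _

theorem pq_le {b : ℕ} (hb : Big m n b) : pq b ≤ m ∧ pQ b ≤ m := by
  have h1 : b < 2 ^ b := Nat.lt_two_pow_self
  have hM : pM b = 262144 * 2 ^ b := by
    unfold pM
    rw [pow_add, mul_comm]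
    norm_num
  have hE : pE b = 4 * pM b * pe b := by
    unfold pE pM pe
    rw [show b + 20 = b + 18 + 2 by ring, pow_add]
    ring
  have he1 : 1 ≤ pe b := by
    unfold pe
    omega
  have hM1 : 1 ≤ pM b := by
    rw [hM]
    omega
  have hK : pK b ≤ pM b := by
    rw [hM]
    unfold pK pl pD
    omega
  have hEK : pe b * pK b ≤ 16 * pE b := by
    rw [hE]
    calc pe b * pK b ≤ pe b * pM b := Nat.mul_le_mul_left _ hK
      _ ≤ 16 * (4 * pM b * pe b) := by nlinarith [Nat.zero_le (pe b * pM b)]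
  have hEe : pe b ≤ 16 * pE b := by
    rw [hE]
    calc pe b = pe b * 1 := (mul_one _).symm
      _ ≤ pe b * pM b := Nat.mul_le_mul_left _ hM1
      _ ≤ 16 * (4 * pM b * pe b) := by nlinarith [Nat.zero_le (pe b * pM b)]
  have h2 : 2 ^ (16 * pE b) ≤ m := by
    refine Nat.pow_le_of_le_log ?_ hb.hm
    rintro rfl
    have := hb.hm
    simp at this
    omega
  refine ⟨(Nat.pow_le_pow_right (by omega) hEe).trans h2, ?_⟩
  unfold pQ pq
  rw [← pow_mul]
  exact (Nat.pow_le_pow_right (by omega) hEK).trans h2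

theorem mod_le_of {p : RE} {ρ : Loc} : (p % 2 : RE).eval a ρ ≤ 1 := by
  have h : (p % 2 : RE).eval a ρ = p.eval a ρ % 2 := rfl
  rw [h]
  omega

theorem recf_le {A : ℕ} {k c e : RE} {B : ℕ} (h : ∀ i, a A i ≤ B)
    (hc : c.eval a (loc0 0) ≤ B) (i : ℕ) : (Stg.recf A k c e).run a A i ≤ B := by
  by_cases hi : i < k.eval a (loc0 0)
  · rw [Stg.run_recf a hi]
    exact (min_le_right _ _).trans hc
  · rw [Stg.run_recf_ge a (not_lt.1 hi)]
    exact h i

end InvL

open InvL

/-- The arrays after the preprocessing. -/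
theorem inv_pre : ∃ k : ℕ, ∀ (m n : ℕ) (X : ℕ → ℕ → ℕ), 2 ≤ m → 2 ≤ n → (∀ r c, X r c ≤ 1) →
    Inv m n X ((m * n) ^ k) (Stg.runs preL (ar0 m n X)) ∧
      Stg.wts preL (ar0 m n X) ≤ (m * n) ^ k := by
  obtain ⟨k, hk⟩ := Stg.runs_poly preL fun g hg => (pre_tgt g hg).1
  refine ⟨k, fun m n X hm hn hX => ?_⟩
  have h1 : 2 ≤ m * n := by nlinarith
  obtain ⟨h2, h3⟩ := hk (m * n) h1 (ar0 m n X) (ar0_le hm hn hX)
  have hV : Stg.runs preL (ar0 m n X) aV = fun _ => 0 := by
    rw [Stg.runs_ne preL _ fun g hg => (pre_tgt g hg).2.2.2.2.1]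
    rfl
  refine ⟨{ m0 := ?_, n0 := ?_, mat := ?_, sat := Stg.sat_runs preL preL_ord _, le := h3
            vec0 := ?_, vec1 := ?_ }, h2⟩
  · rw [Stg.runs_ne preL _ fun g hg => (pre_tgt g hg).2.2.1]
    rfl
  · rw [Stg.runs_ne preL _ fun g hg => (pre_tgt g hg).2.2.2.1]
    rfl
  · intro r hr c hc
    rw [Stg.runs_ne preL _ fun g hg => (pre_tgt g hg).2.1]
    have h4 : ar0 m n X aX (r * n + c) = if r * n + c < m * n then
        X ((r * n + c) / n) ((r * n + c) % n) else 0 := rfl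
    rw [h4, if_pos (idx_lt hr hc), idx_div hc, idx_mod hc]
  · intro c _
    rw [hV]
  · intro c
    rw [hV]
    exact Nat.zero_le _

/-- Writing the vector keeps the equations. -/
theorem inv_setV {m n : ℕ} {X : ℕ → ℕ → ℕ} {B : ℕ} {a : Ar} (h : Inv m n X B a) (hB : 1 ≤ B)
    {x : ℕ → ℕ} (hx : ∀ c, x c ≤ 1) : Inv m n X B (setV n x a) where
  toEqs := eqs_setV h.toEqs x
  le := setV_le hB h.le hx
  vec0 := fun c hc => by
    have h1 : setV n x a aV c = if aV = aV ∧ c < n then x c else a aV c := rfl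
    rw [h1, if_neg (fun hh => by omega)]
    exact h.vec0 c hc
  vec1 := fun c => by
    have h1 : setV n x a aV c = if aV = aV ∧ c < n then x c else a aV c := rfl
    rw [h1]
    split_ifs
    · exact hx c
    · exact h.vec1 c

/-- The arrays after a query. -/
theorem full_qst {m n : ℕ} {X : ℕ → ℕ → ℕ} {B : ℕ} {a : Ar} (h : Inv m n X B a)
    (x : ℕ → ℕ) : Full m n X x (qst n x a) where
  toEqs := eqs_qst h.toEqs x
  vec := fun c hc => by
    rw [qst_ne fun g hg => (qry_tgt g hg).2.2.2.2]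
    have h1 : setV n x a aV c = if aV = aV ∧ c < n then x c else a aV c := rfl
    rw [h1, if_pos ⟨rfl, hc⟩]
  vec0 := fun c hc => by
    rw [qst_ne fun g hg => (qry_tgt g hg).2.2.2.2]
    have h1 : setV n x a aV c = if aV = aV ∧ c < n then x c else a aV c := rfl
    rw [h1, if_neg (fun hh => by omega)]
    exact h.vec0 c hc
  qry := Stg.sat_runs qryL qryL_ord _

theorem inv_qst {m n b : ℕ} {X : ℕ → ℕ → ℕ} {B : ℕ} {a : Ar} (h : Inv m n X B a)
    (hb : Big m n b) (hB : m ≤ B) (hX : ∀ r c, X r c ≤ 1) {x : ℕ → ℕ} (hx : ∀ c, x c ≤ 1) :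
    Inv m n X B (qst n x a) := by
  obtain ⟨hq, hQ⟩ := pq_le hb
  have hB1 : 1 ≤ B := by
    have h1 : 1 ≤ pq b := pq_pos b
    omega
  have hF := full_qst h x
  obtain ⟨-, hXS, hAD⟩ := query_ok hF hb hX hx
  have hS := setV_le hB1 h.le hx (n := n)
  set a0 : Ar := setV n x a with ha0
  have hq0 : qst n x a = gOUT.run (gW.run (gZ.run (gAD.run (gXS.run a0)))) := rfl
  set a1 : Ar := gXS.run a0 with ha1
  set a2 : Ar := gAD.run a1 with ha2
  set a3 : Ar := gZ.run a2 with ha3
  set a4 : Ar := gW.run a3 with ha4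
  have e1 : ∀ A, A ≠ aXS → a1 A = a0 A := fun A hA => Stg.run_ne gXS a0 hA
  have e2 : ∀ A, A ≠ aAD → a2 A = a1 A := fun A hA => Stg.run_ne gAD a1 hA
  have e3 : ∀ A, A ≠ aZ → a3 A = a2 A := fun A hA => Stg.run_ne gZ a2 hA
  have e4 : ∀ A, A ≠ aW → a4 A = a3 A := fun A hA => Stg.run_ne gW a3 hA
  have e5 : ∀ A, A ≠ aOUT → qst n x a A = a4 A := fun A hA => by
    rw [hq0]
    exact Stg.run_ne gOUT a4 hA
  refine { toEqs := hF.toEqs, le := fun A i => ?_, vec0 := hF.vec0, vec1 := fun c => ?_ }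
  · by_cases h1 : A = aXS
    · subst h1
      have h2 : qst n x a aXS = a1 aXS := by
        rw [e5 _ (by decide), e4 _ (by decide), e3 _ (by decide), e2 _ (by decide)]
      by_cases hi : i < a0 sGc 0 * a0 sN 0
      · have h3 : qst n x a sGc = a0 sGc := by
          rw [e5 _ (by decide), e4 _ (by decide), e3 _ (by decide), e2 _ (by decide),
            e1 _ (by decide)]
        have h4 : qst n x a sN = a0 sN := by
          rw [e5 _ (by decide), e4 _ (by decide), e3 _ (by decide), e2 _ (by decide),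
            e1 _ (by decide)]
        have h5 := hXS i (by rw [h3, h4]; exact hi)
        omega
      · rw [h2]
        refine le_trans (le_of_eq ?_) (hS aXS i)
        exact Stg.run_fill_ge a0 (not_lt.1 hi)
    by_cases h2 : A = aAD
    · subst h2
      have h2 : qst n x a aAD = a2 aAD := by
        rw [e5 _ (by decide), e4 _ (by decide), e3 _ (by decide)]
      by_cases hi : i < a1 sGt 0
      · have h3 : qst n x a sGt = a1 sGt := by
          rw [e5 _ (by decide), e4 _ (by decide), e3 _ (by decide), e2 _ (by decide)]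
        have h5 := hAD i (by rw [h3]; exact hi)
        omega
      · rw [h2]
        refine le_trans (le_of_eq ?_) (hS aAD i)
        rw [← e1 aAD (by decide)]
        exact Stg.run_fill_ge a1 (not_lt.1 hi)
    by_cases h3 : A = aZ
    · subst h3
      have h2 : qst n x a aZ = a3 aZ := by
        rw [e5 _ (by decide), e4 _ (by decide)]
      rw [h2]
      refine recf_le (fun i => ?_) ?_ i
      · rw [e2 _ (by decide), e1 _ (by decide)]
        exact hS _ i
      · show a2 sq 0 ≤ B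
        rw [e2 _ (by decide), e1 _ (by decide)]
        exact hS _ _
    by_cases h4 : A = aW
    · subst h4
      have h2 : qst n x a aW = a4 aW := e5 _ (by decide)
      rw [h2]
      refine recf_le (fun i => ?_) ?_ i
      · rw [e3 _ (by decide), e2 _ (by decide), e1 _ (by decide)]
        exact hS _ i
      · show a3 sq 0 ≤ B
        rw [e3 _ (by decide), e2 _ (by decide), e1 _ (by decide)]
        exact hS _ _
    by_cases h5 : A = aOUT
    · subst h5
      rw [hq0]
      by_cases hi : i < a4 sm 0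
      · have h6 : gOUT.run a4 aOUT i ≤ 1 := by
          refine le_trans (le_of_eq (Stg.run_fill (by decide +kernel) a4 hi)) ?_
          exact mod_le_of
        omega
      · refine le_trans (le_of_eq (Stg.run_fill_ge a4 (not_lt.1 hi))) ?_
        rw [e4 _ (by decide), e3 _ (by decide), e2 _ (by decide), e1 _ (by decide)]
        exact hS _ i
    rw [e5 _ h5, e4 _ h4, e3 _ h3, e2 _ h2, e1 _ h1]
    exact hS A i
  · rcases lt_or_ge c n with hc | hc
    · rw [hF.vec c hc]
      exact hx c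
    · rw [hF.vec0 c hc]
      exact Nat.zero_le _

theorem wts_qry : ∃ k : ℕ, ∀ (n : ℕ) (x : ℕ → ℕ) (B : ℕ) (a : Ar), 2 ≤ B →
    (∀ A i, a A i ≤ B) → (∀ c, x c ≤ 1) → Stg.wts qryL (setV n x a) ≤ B ^ k := by
  obtain ⟨k, hk⟩ := Stg.runs_poly qryL fun g hg => (qry_tgt g hg).1
  exact ⟨k, fun n x B a hB ha hx => (hk B hB _ (setV_le (by omega) ha hx)).1⟩

end Pool.Agent.OMVU
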