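import Pool.Agent.OMVU.Online
import Pool.Agent.OMVU.Compile128

/-! The machine program. -/

namespace Pool.Agent.OMVU

open CCL (St Run Instr Cfg Steps start blk Prog Ex Cn CodeAt codeAt_append codeAt_self Bd)

theorem wf128_blk {l : List Prog} (h : ∀ p ∈ l, wf128 p = true) : wf128 (blk l) = true := by
  induction l with
  | nil => rfl
  | cons p l ih =>
    simp only [blk, wf128, Bool.and_eq_true]
    exact ⟨h p (by simp), ih fun q hq => h q (by simp [hq])⟩

/-- The code of a well formed expression can be compiled. -/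
theorem comp_wf128 {B : ℕ} (e : RE) : ∀ d, e.wf B = true → wf128 (comp e d) = true := by
  induction e with
  | const c =>
    intro d _
    simp [comp, spp, wf128, exWf, exWf0, CCL.Ex.depth]
  | var x =>
    intro d _
    simp [comp, spp, lg, wf128, exWf, exWf0, CCL.Ex.depth]
  | add p q ihp ihq =>
    intro d h
    simp only [RE.wf, Bool.and_eq_true] at h
    simp [comp, spp, sg, blk, wf128, exWf, exWf0, CCL.Ex.depth, ihp _ h.1, ihq _ h.2]
  | sub p q ihp ihq =>
    intro d h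
    simp only [RE.wf, Bool.and_eq_true] at h
    simp [comp, spp, sg, blk, wf128, exWf, exWf0, CCL.Ex.depth, ihp _ h.1, ihq _ h.2]
  | mul p q ihp ihq =>
    intro d h
    simp only [RE.wf, Bool.and_eq_true] at h
    simp [comp, spp, sg, blk, wf128, cnWf, exWf, exWf0, CCL.Ex.depth, ihp _ h.1, ihq _ h.2]
  | div p q ihp ihq =>
    intro d h
    simp only [RE.wf, Bool.and_eq_true] at h
    simp [comp, spp, sg, blk, wf128, cnWf, exWf, exWf0, CCL.Ex.depth, ihp _ h.1, ihq _ h.2]
  | mod p q ihp ihq =>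
    intro d h
    simp only [RE.wf, Bool.and_eq_true] at h
    simp [comp, spp, sg, blk, wf128, cnWf, exWf, exWf0, CCL.Ex.depth, ihp _ h.1, ihq _ h.2]
  | get A i ih =>
    intro d h
    simp only [RE.wf, Bool.and_eq_true, decide_eq_true_eq] at h
    have hA : A < 128 := by omega
    simp [comp, spp, sg, blk, wf128, exWf, exWf0, CCL.Ex.depth, ih _ h.2, hA]
  | ite u v p q ihu ihv ihp ihq =>
    intro d h
    simp only [RE.wf, Bool.and_eq_true] at h
    simp [comp, sg, blk, wf128, cnWf, exWf, exWf0, CCL.Ex.depth, ihu _ h.1.1.1,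
      ihv _ h.1.1.2, ihp _ h.1.2, ihq _ h.2]
  | sum x n e ihn ihe =>
    intro d h
    simp only [RE.wf, Bool.and_eq_true] at h
    simp [comp, spp, sg, lg, lp, blk, wf128, cnWf, exWf, exWf0, CCL.Ex.depth, ihn _ h.1.2,
      ihe _ h.2]
  | fnd x n e ihn ihe =>
    intro d h
    simp only [RE.wf, Bool.and_eq_true] at h
    simp [comp, spp, sg, lg, lp, blk, wf128, cnWf, exWf, exWf0, CCL.Ex.depth, ihn _ h.1.2,
      ihe _ h.2]
  | fold x y n i c e ihn ihi ihc ihe =>
    intro d h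
    simp only [RE.wf, Bool.and_eq_true] at h
    simp [comp, spp, sg, lg, lp, blk, wf128, cnWf, exWf, exWf0, CCL.Ex.depth, ihn _ h.1.1.1.2,
      ihi _ h.1.1.2, ihc _ h.1.2, ihe _ h.2]

/-- The code of a well formed stage can be compiled. -/
theorem cStg_wf128 (g : Stg) (h : g.wf = true) : wf128 (cStg g) = true := by
  cases g with
  | put A i e =>
    simp only [Stg.wf, Bool.and_eq_true, decide_eq_true_eq] at h
    have hA : A < 128 := by omega
    simp [cStg, sg, blk, wf128, exWf, exWf0, CCL.Ex.depth, comp_wf128 i _ h.1.2,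
      comp_wf128 e _ h.2, hA]
  | fill A n e =>
    simp only [Stg.wf, Bool.and_eq_true, decide_eq_true_eq] at h
    have hA : A < 128 := by omega
    simp [cStg, sg, lp, blk, wf128, cnWf, exWf, exWf0, CCL.Ex.depth, comp_wf128 n _ h.1.2,
      comp_wf128 e _ h.2, hA]
  | recf A n c e =>
    simp only [Stg.wf, Bool.and_eq_true, decide_eq_true_eq] at h
    have hA : A < 128 := by omega
    simp [cStg, sg, lp, blk, wf128, cnWf, exWf, exWf0, CCL.Ex.depth, comp_wf128 n _ h.1.1.2,
      comp_wf128 c _ h.1.2, comp_wf128 e _ h.2, hA]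

theorem cStgs_wf128 {l : List Stg} (h : l.all Stg.wf = true) : wf128 (cStgs l) = true := by
  refine wf128_blk fun p hp => ?_
  obtain ⟨g, hg, rfl⟩ := List.mem_map.1 hp
  exact cStg_wf128 g (List.all_eq_true.1 h g hg)

theorem preL_wf : preL.all Stg.wf = true := by decide +kernel

theorem qryL_wf : qryL.all Stg.wf = true := by decide +kernel

theorem prePr_wf128 : wf128 prePr = true := by
  have h : wf128 rdMat = true := by decide +kernel
  simp [prePr, blk, wf128, h, cStgs_wf128 preL_wf]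

theorem qPr_wf128 : wf128 qPr = true := by
  have h : wf128 rdVec = true := by decide +kernel
  have h' : wf128 wrOut = true := by decide +kernel
  simp [qPr, blk, wf128, h, h', cStgs_wf128 qryL_wf]

/-- Repeated runs of the body of a loop. -/
theorem loop_runs {b B : ℕ} (hB : 192 * (b + 1) ≤ B) {P : List Instr} {q : ℕ} {c : Cn}
    {p : Prog} (hP : CodeAt P q (cP q (.loop c p))) (hw : wf128 (.loop c p) = true)
    (hc : ∀ s : St, c.ok b s ∧ c.eval s) {s : ℕ → St} {t : ℕ → ℕ} {R : ℕ → ℕ}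
    (hb : Bd b (s 0)) (hR : Rl (s 0) R) (k : ℕ)
    (h : ∀ i < k, Run b p (s i) (s (i + 1)) (t i)) :
    ∃ z : ℕ → Cfg, z 0 = ⟨q, R, (s 0).inp, (s 0).out⟩ ∧
      (∀ i ≤ k, (z i).pc = q ∧ Rl (s i) (z i).R ∧ Bd b (s i) ∧ (z i).inp = (s i).inp ∧
        (z i).out = (s i).out) ∧
      ∀ i < k, ∃ t' ≤ 10 * (t i + c.cost + 1), Steps B P (z i) (z (i + 1)) t' := by
  induction k with
  | zero =>
    refine ⟨fun _ => ⟨q, R, (s 0).inp, (s 0).out⟩, rfl, fun i hi => ?_, fun i hi => by omega⟩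
    obtain rfl : i = 0 := by omega
    exact ⟨rfl, hR, hb, rfl, rfl⟩
  | succ k ih =>
    obtain ⟨z, h0, h1, h2⟩ := ih fun i hi => h i (by omega)
    obtain ⟨e1, e2, e3, e4, e5⟩ := h1 k le_rfl
    obtain ⟨R', t', hb', hR', ht', hs⟩ := loop_head hB hP hw e3 (hc _).1 (hc _).2
      (h k (by omega)) e2
    have hz : (⟨q, (z k).R, (s k).inp, (s k).out⟩ : Cfg) = z k := by
      rw [← e4, ← e5]
      nth_rewrite 1 [← e1]
      rfl
    rw [hz] at hs
    refine ⟨fun i => if i ≤ k then z i else ⟨q, R', (s (k + 1)).inp, (s (k + 1)).out⟩,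
      by simp [h0], fun i hi => ?_, fun i hi => ?_⟩
    · rcases Nat.lt_or_ge k i with hk | hk
      · obtain rfl : i = k + 1 := by omega
        simp only [show ¬ k + 1 ≤ k by omega, if_false]
        exact ⟨trivial, hR', hb', trivial, trivial⟩
      · simp only [hk, if_true]
        exact h1 i hk
    · rcases Nat.lt_or_ge i k with hk | hk
      · simp only [show i ≤ k by omega, show i + 1 ≤ k by omega, if_true]
        exact h2 i hk
      · obtain rfl : i = k := by omega
        simp only [show ¬ i + 1 ≤ i by omega, le_refl, if_false, if_true]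
        exact ⟨t', ht', hs⟩

/-- The compiled program: the preprocessing and then forever the program of a query. -/
theorem mach : ∃ P : List Instr, ∀ (b : ℕ) (l : List ℕ) (s : ℕ → St) (k t0 : ℕ) (t : ℕ → ℕ),
    (∀ x ∈ l, x ≤ b) → Run b prePr ⟨fun _ => 0, fun _ _ => 0, l, []⟩ (s 0) t0 →
    (∀ i < k, Run b qPr (s i) (s (i + 1)) (t i)) →
    ∃ z : ℕ → Cfg,
      (∃ t' ≤ 100 * (t0 + 1), Steps (1000 * (b + 1)) P (start l) (z 0) t') ∧
      (∀ i ≤ k, (z i).inp = (s i).inp ∧ (z i).out = (s i).out) ∧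
      ∀ i < k, ∃ t' ≤ 100 * (t i + 1), Steps (1000 * (b + 1)) P (z i) (z (i + 1)) t' := by
  refine ⟨cP 0 (.seq prePr (.loop (.eq (.const 0) (.const 0)) qPr)), ?_⟩
  intro b l s k t0 t hl h0 hq
  obtain ⟨hP1, hP2⟩ : CodeAt (cP 0 (.seq prePr (.loop (.eq (.const 0) (.const 0)) qPr))) 0
      (cP 0 prePr) ∧ CodeAt (cP 0 (.seq prePr (.loop (.eq (.const 0) (.const 0)) qPr)))
      (0 + lP prePr) (cP (0 + lP prePr) (.loop (.eq (.const 0) (.const 0)) qPr)) := by
    have hself := codeAt_self (cP 0 (.seq prePr (.loop (.eq (.const 0) (.const 0)) qPr)))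
    nth_rewrite 2 [cP] at hself
    rwa [codeAt_append, cP_length] at hself
  generalize cP 0 (.seq prePr (.loop (.eq (.const 0) (.const 0)) qPr)) = P at hP1 hP2 ⊢
  obtain ⟨R0, t', hb0, hR0, ht', h1⟩ := cP_spec (b := b) (B := 1000 * (b + 1)) (by omega) h0
    prePr_wf128 ⟨fun _ => Nat.zero_le _, fun _ _ => Nat.zero_le _, hl⟩ 0 hP1 (fun _ => 0)
    ⟨fun _ _ => rfl, fun _ _ _ => rfl⟩
  have hw : wf128 (.loop (.eq (.const 0) (.const 0)) qPr) = true := by
    simp [wf128, cnWf, exWf, exWf0, CCL.Ex.depth, qPr_wf128]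
  obtain ⟨z, hz, h2, h3⟩ := loop_runs (b := b) (B := 1000 * (b + 1)) (by omega) hP2 hw
    (fun s => ⟨⟨Nat.zero_le _, Nat.zero_le _⟩, rfl⟩) hb0 hR0 k hq
  refine ⟨z, ⟨t', by omega, ?_⟩, fun i hi => (h2 i hi).2.2.2, fun i hi => ?_⟩
  · rw [hz]
    exact h1
  · obtain ⟨t1, ht1, h4⟩ := h3 i hi
    refine ⟨t1, ?_, h4⟩
    simp only [CCL.Cn.cost, CCL.Ex.cost] at ht1
    omega

end Pool.Agent.OMVU
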