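import Pool.Agent.OMVU.Inv
import Pool.Agent.OMVU.Mach
import Pool.Agent.OMVU.CostNum
import Pool.Agent.OMVU.Analysis

/-! The uniform algorithm. -/

namespace Pool.Agent.OMVU

open Finset
open CCL (St Run Instr Cfg Steps start)

/-- The arrays before the query `i`. -/
def arq (m n : ℕ) (X xs : ℕ → ℕ → ℕ) : ℕ → Ar
  | 0 => Stg.runs preL (ar0 m n X)
  | i + 1 => qst n (xs i) (arq m n X xs i)

/-- The input which remains before the query `i`. -/
def inq (n k : ℕ) (xs : ℕ → ℕ → ℕ) (i : ℕ) : List ℕ :=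
  ((List.range k).drop i).flatMap fun j => vecL n (xs j)

/-- The output before the query `i`. -/
def ouq (m n k : ℕ) (X xs : ℕ → ℕ → ℕ) (i : ℕ) : List ℕ :=
  ((List.range k).take i).flatMap fun j =>
    (List.range m).map fun r => (∑ c ∈ range n, X r c * xs j c) % 2

theorem inq_succ {n k : ℕ} {xs : ℕ → ℕ → ℕ} {i : ℕ} (hi : i < k) :
    inq n k xs i = vecL n (xs i) ++ inq n k xs (i + 1) := by
  unfold inq
  rw [List.drop_eq_getElem_cons (by simpa using hi), List.flatMap_cons, List.getElem_range]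

theorem ouq_succ {m n k : ℕ} {X xs : ℕ → ℕ → ℕ} {i : ℕ} (hi : i < k) :
    ouq m n k X xs (i + 1) = ouq m n k X xs i ++
      (List.range m).map fun r => (∑ c ∈ range n, X r c * xs i c) % 2 := by
  unfold ouq
  rw [List.take_succ_eq_append_getElem (by simpa using hi), List.flatMap_append,
    List.getElem_range]
  simp

/-- The states of the structured program. -/
theorem states {m n k b B : ℕ} {X xs : ℕ → ℕ → ℕ}
    (hI : ∀ i, Inv m n X B (arq m n X xs i))
    (hO : ∀ i, ∀ r < m, arq m n X xs (i + 1) aOUT r = (∑ c ∈ range n, X r c * xs i c) % 2)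
    (hb1 : Stg.wts preL (ar0 m n X) + 100 + (preL.map Stg.sd).sum + m * n + m + n + 200 ≤ b)
    (hb2 : ∀ i, Stg.wts qryL (setV n (xs i) (arq m n X xs i)) + 100 + (qryL.map Stg.sd).sum +
      m + n + 200 ≤ b) :
    ∀ j ≤ k, ∃ (s : ℕ → St) (t : ℕ → ℕ) (t0 : ℕ),
      Run b prePr ⟨fun _ => 0, fun _ _ => 0, m :: n :: (matL m n X ++ inq n k xs 0), []⟩
        (s 0) t0 ∧ t0 ≤ Stg.costs preL (ar0 m n X) + 100 * (m * n + m + 2) ∧
      (∀ i ≤ j, Holds (s i) (arq m n X xs i) ∧ (s i).inp = inq n k xs i ∧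
        (s i).out = ouq m n k X xs i) ∧
      ∀ i < j, Run b qPr (s i) (s (i + 1)) (t i) ∧
        t i ≤ Stg.costs qryL (setV n (xs i) (arq m n X xs i)) + 100 * (m + n + 3) := by
  intro j
  induction j with
  | zero =>
    intro _
    obtain ⟨s', t, hr, ht, hH, hi, ho⟩ := pre_run (b := b) (m := m) (n := n) (X := X)
      (l := inq n k xs 0)
      (s := ⟨fun _ => 0, fun _ _ => 0, m :: n :: (matL m n X ++ inq n k xs 0), []⟩)
      rfl rfl rfl hb1
    refine ⟨fun _ => s', fun _ => 0, t, hr, ht, ?_, fun i hi => absurd hi (by omega)⟩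
    intro i hi0
    obtain rfl : i = 0 := by omega
    refine ⟨hH, hi, ?_⟩
    rw [ho]
    simp [ouq]
  | succ j ih =>
    intro hj
    obtain ⟨s, t, t0, hr0, ht0, hs, hq⟩ := ih (by omega)
    obtain ⟨hH, hin, hou⟩ := hs j le_rfl
    obtain ⟨s', t', hr, ht, hH', hi', ho'⟩ := qry_run (b := b) (m := m) (n := n) (x := xs j)
      (l := inq n k xs (j + 1)) hH (hI j).m0 (hI j).n0 (by rw [hin, inq_succ (by omega)]) (hb2 j)
    refine ⟨Function.update s (j + 1) s', Function.update t j t', t0, ?_, ht0, ?_, ?_⟩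
    · rw [Function.update_of_ne (by omega)]
      exact hr0
    · intro i hi
      rcases Nat.lt_or_ge i (j + 1) with h | h
      · rw [Function.update_of_ne (by omega)]
        exact hs i (by omega)
      · obtain rfl : i = j + 1 := by omega
        rw [Function.update_self]
        refine ⟨hH', hi', ?_⟩
        rw [ho', hou, ouq_succ (by omega)]
        congr 1
        refine List.map_congr_left (fun r hr => ?_)
        exact hO j r (List.mem_range.1 hr)
    · intro i hi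
      rcases Nat.lt_or_ge i j with h | h
      · rw [Function.update_of_ne (by omega), Function.update_of_ne (by omega),
          Function.update_of_ne (by omega)]
        exact hq i h
      · obtain rfl : i = j := by omega
        rw [Function.update_of_ne (by omega), Function.update_self, Function.update_self]
        exact ⟨hr, ht⟩

theorem mem_matL_le {m n : ℕ} {X : ℕ → ℕ → ℕ} (hX : ∀ r c, X r c ≤ 1) {y : ℕ}
    (hy : y ∈ matL m n X) : y ≤ 1 := by
  simp only [matL, List.mem_flatMap, List.mem_map] at hy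
  obtain ⟨r, _, c, _, rfl⟩ := hy
  exact hX r c

theorem mem_inq_le {n k i : ℕ} {xs : ℕ → ℕ → ℕ} (hx : ∀ i c, xs i c ≤ 1) {y : ℕ}
    (hy : y ∈ inq n k xs i) : y ≤ 1 := by
  simp only [inq, vecL, List.mem_flatMap, List.mem_map] at hy
  obtain ⟨j, _, c, _, rfl⟩ := hy
  exact hx j c

/-- The uniform algorithm. -/
theorem main : ∃ (P : List Instr) (δ : ℝ) (_ : 0 < δ) (K n₀ : ℕ), ∀ m n : ℕ, n₀ ≤ m → n₀ ≤ n →
    ∀ X : ℕ → ℕ → ℕ, (∀ r c, X r c ≤ 1) → ∀ xs : ℕ → ℕ → ℕ, (∀ i c, xs i c ≤ 1) → ∀ k : ℕ,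
    ∃ z : ℕ → Cfg,
      (∃ t ≤ (m * n) ^ K, Steps ((m * n) ^ K) P
        (start (m :: n :: (matL m n X ++ inq n k xs 0))) (z 0) t) ∧
      (∀ i ≤ k, (z i).inp = inq n k xs i ∧ (z i).out = ouq m n k X xs i) ∧
      ∀ i < k, ∃ t : ℕ, (t : ℝ) ≤ m * n / 2 ^ (δ * gain m n) ∧
        Steps ((m * n) ^ K) P (z i) (z (i + 1)) t := by
  obtain ⟨P, hP⟩ := mach
  obtain ⟨k1, h1⟩ := inv_pre
  obtain ⟨k2, h2⟩ := wts_qry
  obtain ⟨A1, hA1⟩ := cost_cb
  obtain ⟨A2, hA2⟩ := cb_num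
  obtain ⟨δ, hδ, hg⟩ := gain_bound
  obtain ⟨n1, hn1⟩ := big_exists
  obtain ⟨n2, hn2⟩ := hg (100 * (A1 + 401) * A2 + 1) (by positivity)
  obtain ⟨c0, hc0⟩ : ∃ c0, c0 = (preL.map Stg.sd).sum + (qryL.map Stg.sd).sum + 1000 := ⟨_, rfl⟩
  refine ⟨P, δ, hδ, k1 + (k1 + 1) * k2 + 10, n1 + n2 + c0 + 1000, fun m n hm hn X hX xs hxs k => ?_⟩
  have hbig := hn1 m n (by omega) (by omega)
  have hgain := hn2 m n (by omega) (by omega)
  obtain ⟨b, hbd⟩ : ∃ b, b = bsel m n := ⟨_, rfl⟩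
  rw [← hbd] at hbig hgain
  obtain ⟨N, hN⟩ : ∃ N, N = m * n := ⟨_, rfl⟩
  have hmN : m ≤ N := by rw [hN]; exact Nat.le_mul_of_pos_right m (by omega)
  have hnN : n ≤ N := by rw [hN]; exact Nat.le_mul_of_pos_left n (by omega)
  have hmn2 : 1000 * (m + n) ≤ 2 * N := by
    have e1 : 1000 * m ≤ N := by rw [hN, mul_comm m n]; exact Nat.mul_le_mul_right m (by omega)
    have e2 : 1000 * n ≤ N := by rw [hN]; exact Nat.mul_le_mul_right n (by omega)
    omega
  obtain ⟨hI0, hw0⟩ := h1 m n X (by omega) (by omega) hX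
  rw [← hN] at hI0 hw0
  -- the numbers in the arrays
  obtain ⟨B, hB⟩ : ∃ B, B = N ^ (k1 + 1) := ⟨_, rfl⟩
  have hNB : N ≤ B := by
    rw [hB]; exact Nat.le_self_pow (by omega) N
  have hN1 : N ^ k1 ≤ B := by
    rw [hB]; exact Nat.pow_le_pow_right (by omega) (by omega)
  have hI : ∀ i, Inv m n X B (arq m n X xs i) := by
    intro i
    induction i with
    | zero =>
      exact { toEqs := hI0.toEqs, le := fun A j => (hI0.le A j).trans hN1,
              vec0 := hI0.vec0, vec1 := hI0.vec1 }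
    | succ i ih => exact inv_qst ih hbig (by omega) hX (hxs i)
  have hO : ∀ i, ∀ r < m, arq m n X xs (i + 1) aOUT r =
      (∑ c ∈ range n, X r c * xs i c) % 2 := fun i =>
    (query_ok (full_qst (hI i) (xs i)) hbig hX (hxs i)).1
  have hw : ∀ i, Stg.wts qryL (setV n (xs i) (arq m n X xs i)) ≤ N ^ ((k1 + 1) * k2) := by
    intro i
    rw [pow_mul, ← hB]
    exact h2 n (xs i) B _ (by omega) (hI i).le (hxs i)
  obtain ⟨β, hβ⟩ : ∃ β, β = N ^ k1 + N ^ ((k1 + 1) * k2) + 5 * N := ⟨_, rfl⟩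
  have hb1 : Stg.wts preL (ar0 m n X) + 100 + (preL.map Stg.sd).sum + m * n + m + n + 200 ≤ β := by
    rw [← hN]
    omega
  have hb2 : ∀ i, Stg.wts qryL (setV n (xs i) (arq m n X xs i)) + 100 + (qryL.map Stg.sd).sum +
      m + n + 200 ≤ β := by
    intro i
    have := hw i
    omega
  obtain ⟨s, t, t0, hr0, ht0, hs, hq⟩ := states (k := k) hI hO hb1 hb2 k le_rfl
  obtain ⟨z, ⟨t', ht', hst⟩, hz, hzq⟩ := hP β (m :: n :: (matL m n X ++ inq n k xs 0)) s k t0 t
    (by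
      intro y hy
      simp only [List.mem_cons, List.mem_append] at hy
      rcases hy with rfl | rfl | hy | hy
      · omega
      · omega
      · have := mem_matL_le hX hy
        omega
      · have := mem_inq_le hxs hy
        omega) hr0 (fun i hi => (hq i hi).1)
  -- numbers in the machine
  have hK : 20000 * (β + 1) ≤ N ^ (k1 + (k1 + 1) * k2 + 10) := by
    have hN2 : 1000 ≤ N := by omega
    obtain ⟨E, hE⟩ : ∃ E, E = k1 + (k1 + 1) * k2 := ⟨_, rfl⟩
    have e1 : N ^ k1 ≤ N ^ (E + 1) := Nat.pow_le_pow_right (by omega) (by omega)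
    have e2 : N ^ ((k1 + 1) * k2) ≤ N ^ (E + 1) := Nat.pow_le_pow_right (by omega) (by omega)
    have e3 : N ≤ N ^ (E + 1) := Nat.le_self_pow (by omega) N
    have e4 : N ^ (E + 10) = N ^ 9 * N ^ (E + 1) := by rw [← pow_add]; congr 1; omega
    have e5 : 1000000 ≤ N ^ 9 := by
      calc 1000000 = 1000 ^ 2 := by norm_num
        _ ≤ N ^ 2 := Nat.pow_le_pow_left hN2 2
        _ ≤ N ^ 9 := Nat.pow_le_pow_right (by omega) (by omega)
    rw [← hE, e4]
    calc 20000 * (β + 1) ≤ 1000000 * N ^ (E + 1) := by omega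
      _ ≤ N ^ 9 * N ^ (E + 1) := Nat.mul_le_mul_right _ e5
  have hK' : 1000 * (β + 1) ≤ N ^ (k1 + (k1 + 1) * k2 + 10) := by omega
  rw [← hN]
  refine ⟨z, ⟨t', ?_, hst.mono hK'⟩, fun i hi => ?_, fun i hi => ?_⟩
  · have e1 := Stg.costs_le_wts preL (ar0 m n X)
    refine (ht'.trans ?_).trans hK
    rw [← hN] at ht0
    omega
  · obtain ⟨_, e2, e3⟩ := hs i hi
    exact ⟨(hz i hi).1.trans e2, (hz i hi).2.trans e3⟩
  · obtain ⟨t'', ht'', hst''⟩ := hzq i hi
    refine ⟨t'', ?_, hst''.mono hK'⟩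
    have hIv := inv_setV (hI i) (by omega) (hxs i)
    obtain ⟨mt, fd, hp⟩ := pre_ok hIv.toEqs hbig hX
    have c1 := hA1 m n b X _ mt fd hbig hp hIv.vec1
    have c2 := hA2 m n b _ hbig hp.Sg
    have c3 := (hq i hi).2
    obtain ⟨w, hw⟩ : ∃ w, w = cb m n b (setV n (xs i) (arq m n X xs i) aSG) := ⟨_, rfl⟩
    rw [← hw] at c1 c2
    have hw1 : 1 ≤ w := by rw [hw]; unfold cb; omega
    have c4 : t'' ≤ 100 * (A1 + 401) * (w + m + n) := by
      have d1 : A1 * w ≤ A1 * (w + m + n) := Nat.mul_le_mul_left _ (by omega)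
      have d2 : 100 * (A1 + 401) * (w + m + n) =
          100 * (A1 * (w + m + n)) + 40100 * (w + m + n) := by ring
      omega
    have c5 : t'' * 2 ^ pD b ≤ 100 * (A1 + 401) * A2 * (m * n) := by
      calc t'' * 2 ^ pD b ≤ 100 * (A1 + 401) * (w + m + n) * 2 ^ pD b :=
            Nat.mul_le_mul_right _ c4
        _ = 100 * (A1 + 401) * ((w + m + n) * 2 ^ pD b) := by ring
        _ ≤ 100 * (A1 + 401) * (A2 * (m * n)) := Nat.mul_le_mul_left _ c2
        _ = _ := by ring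
    have c6 : (t'' : ℝ) * 2 ^ pD b ≤ (100 * (A1 + 401) * A2) * (m * n) := by
      exact_mod_cast c5
    have p1 : (0 : ℝ) < 2 ^ (δ * gain m n) := Real.rpow_pos_of_pos (by norm_num) _
    have p2 : (0 : ℝ) < 100 * (A1 + 401) * A2 + 1 := by positivity
    rw [le_div_iff₀ p1]
    have p3 : (t'' : ℝ) * ((100 * (A1 + 401) * A2 + 1) * 2 ^ (δ * gain m n)) ≤
        (100 * (A1 + 401) * A2 + 1) * (m * n) := by
      calc (t'' : ℝ) * ((100 * (A1 + 401) * A2 + 1) * 2 ^ (δ * gain m n)) ≤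
            t'' * 2 ^ pD b := mul_le_mul_of_nonneg_left hgain (by positivity)
        _ ≤ (100 * (A1 + 401) * A2) * (m * n) := c6
        _ ≤ (100 * (A1 + 401) * A2 + 1) * (m * n) := by
            apply mul_le_mul_of_nonneg_right (by linarith) (by positivity)
    have p4 : (100 * (A1 + 401) * A2 + 1 : ℝ) * (t'' * 2 ^ (δ * gain m n)) ≤
        (100 * (A1 + 401) * A2 + 1) * (m * n) := by
      linarith [p3]
    exact le_of_mul_le_mul_left p4 p2

end Pool.Agent.OMVU
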