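import Pool.Agent.OMVU.Lang

/-! Polynomial bounds for the time and the numbers. -/

namespace Pool.Agent.OMVU

open Finset

theorem firstPos_le (f : ℕ → ℕ) : ∀ n, firstPos f n ≤ n
  | 0 => le_rfl
  | n + 1 => by
    have := firstPos_le f n
    simp only [firstPos]
    split_ifs <;> omega

theorem RE.eval_le_wt (a : Ar) (e : RE) : ∀ ρ, e.eval a ρ ≤ e.wt a ρ := by
  induction e with
  | const c => intro ρ; simp only [RE.eval, RE.wt]; omega
  | var x => intro ρ; simp only [RE.eval, RE.wt]; omega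
  | add p q ihp ihq =>
    intro ρ; simp only [RE.eval, RE.wt]
    have h1 := ihp ρ
    have h2 := ihq ρ
    omega
  | sub p q ihp ihq =>
    intro ρ; simp only [RE.eval, RE.wt]
    have h1 := ihp ρ
    omega
  | mul p q ihp ihq =>
    intro ρ; simp only [RE.eval, RE.wt]
    omega
  | div p q ihp ihq =>
    intro ρ; simp only [RE.eval, RE.wt]
    have h1 := ihp ρ
    have h2 := Nat.div_le_self (RE.eval a p ρ) (RE.eval a q ρ)
    omega
  | mod p q ihp ihq =>
    intro ρ; simp only [RE.eval, RE.wt]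
    have h1 := ihp ρ
    have h2 := Nat.mod_le (RE.eval a p ρ) (RE.eval a q ρ)
    omega
  | get A i ih =>
    intro ρ; simp only [RE.eval, RE.wt]
    omega
  | ite u v p q ihu ihv ihp ihq =>
    intro ρ; simp only [RE.eval, RE.wt]
    have h1 := ihp ρ
    have h2 := ihq ρ
    split_ifs <;> omega
  | sum x n e ihn ihe =>
    intro ρ; simp only [RE.eval, RE.wt]
    have h1 : ∑ k ∈ range (RE.eval a n ρ), RE.eval a e (ρ.set x k) ≤
        ∑ k ∈ range (RE.eval a n ρ), (RE.wt a e (ρ.set x k) + 99) :=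
      sum_le_sum fun k _ => (ihe _).trans (Nat.le_add_right _ _)
    omega
  | fnd x n e ihn ihe =>
    intro ρ; simp only [RE.eval, RE.wt]
    have h1 := ihn ρ
    have h2 := firstPos_le (fun k => RE.eval a e (ρ.set x k)) (RE.eval a n ρ)
    omega
  | fold x y n i c e ihn ihi ihc ihe =>
    intro ρ; simp only [RE.eval, RE.wt]
    have h1 := ihi ρ
    generalize hN : RE.eval a n ρ = N
    cases N with
    | zero => simp only [iter]; omega
    | succ m =>
      simp only [iter]
      set g : ℕ → ℕ → ℕ := fun k w => min (RE.eval a e ((ρ.set x k).set y w)) (RE.eval a c ρ)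
        with hg
      have h2 : min (RE.eval a e ((ρ.set x m).set y (iter g (RE.eval a i ρ) m)))
          (RE.eval a c ρ) ≤ RE.wt a e ((ρ.set x m).set y (iter g (RE.eval a i ρ) m)) :=
        (min_le_left _ _).trans (ihe _)
      have h3 : RE.wt a e ((ρ.set x m).set y (iter g (RE.eval a i ρ) m)) + 99 ≤
          ∑ k ∈ range (m + 1), (RE.wt a e ((ρ.set x k).set y
            (iter g (RE.eval a i ρ) k)) + 99) :=
        single_le_sum (f := fun k => RE.wt a e ((ρ.set x k).set y
            (iter g (RE.eval a i ρ) k)) + 99) (fun _ _ => Nat.zero_le _)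
            (mem_range.2 (Nat.lt_succ_self m))
      omega

theorem RE.cost_le_wt (a : Ar) (e : RE) : ∀ ρ, e.cost a ρ ≤ e.wt a ρ := by
  induction e with
  | const c => intro ρ; simp only [RE.cost, RE.wt]; omega
  | var x => intro ρ; simp only [RE.cost, RE.wt]; omega
  | add p q ihp ihq =>
    intro ρ; simp only [RE.cost, RE.wt]
    have h1 := ihp ρ
    have h2 := ihq ρ
    omega
  | sub p q ihp ihq =>
    intro ρ; simp only [RE.cost, RE.wt]
    have h1 := ihp ρ
    have h2 := ihq ρ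
    omega
  | mul p q ihp ihq =>
    intro ρ; simp only [RE.cost, RE.wt]
    have h1 := ihp ρ
    have h2 := ihq ρ
    omega
  | div p q ihp ihq =>
    intro ρ; simp only [RE.cost, RE.wt]
    have h1 := ihp ρ
    have h2 := ihq ρ
    have h3 := Nat.div_le_self (RE.eval a p ρ) (RE.eval a q ρ)
    omega
  | mod p q ihp ihq =>
    intro ρ; simp only [RE.cost, RE.wt]
    have h1 := ihp ρ
    have h2 := ihq ρ
    have h3 := Nat.div_le_self (RE.eval a p ρ) (RE.eval a q ρ)
    omega
  | get A i ih =>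
    intro ρ; simp only [RE.cost, RE.wt]
    have h1 := ih ρ
    omega
  | ite u v p q ihu ihv ihp ihq =>
    intro ρ; simp only [RE.cost, RE.wt]
    have h1 := ihp ρ
    have h2 := ihq ρ
    have h3 := ihu ρ
    have h4 := ihv ρ
    split_ifs <;> omega
  | sum x n e ihn ihe =>
    intro ρ; simp only [RE.cost, RE.wt]
    have h0 := ihn ρ
    have h1 : ∑ k ∈ range (RE.eval a n ρ), (RE.cost a e (ρ.set x k) + 99) ≤
        ∑ k ∈ range (RE.eval a n ρ), (RE.wt a e (ρ.set x k) + 99) :=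
      sum_le_sum fun k _ => Nat.add_le_add_right (ihe _) _
    omega
  | fnd x n e ihn ihe =>
    intro ρ; simp only [RE.cost, RE.wt]
    have h0 := ihn ρ
    have h1 : ∑ k ∈ range (RE.eval a n ρ), (RE.cost a e (ρ.set x k) + 99) ≤
        ∑ k ∈ range (RE.eval a n ρ), (RE.wt a e (ρ.set x k) + 99) :=
      sum_le_sum fun k _ => Nat.add_le_add_right (ihe _) _
    omega
  | fold x y n i c e ihn ihi ihc ihe =>
    intro ρ; simp only [RE.cost, RE.wt]
    have h0 := ihn ρ
    have h1 := ihi ρ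
    have h2 := ihc ρ
    set g : ℕ → ℕ → ℕ := fun k w => min (RE.eval a e ((ρ.set x k).set y w)) (RE.eval a c ρ)
      with hg
    have h3 : ∑ k ∈ range (RE.eval a n ρ), (RE.cost a e ((ρ.set x k).set y
          (iter g (RE.eval a i ρ) k)) + 99) ≤
        ∑ k ∈ range (RE.eval a n ρ), (RE.wt a e ((ρ.set x k).set y
          (iter g (RE.eval a i ρ) k)) + 99) :=
      sum_le_sum fun k _ => Nat.add_le_add_right (ihe _) _
    omega

section arith

variable {B : ℕ}

theorem le_pow_self' (hB : 2 ≤ B) (c : ℕ) : c ≤ B ^ c :=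
  (Nat.lt_two_pow_self).le.trans (Nat.pow_le_pow_left hB c)

theorem pow_mono' (hB : 2 ≤ B) {i j : ℕ} (h : i ≤ j) : B ^ i ≤ B ^ j :=
  Nat.pow_le_pow_right (by omega) h

theorem add_le_pow (hB : 2 ≤ B) {x y i j : ℕ} (hx : x ≤ B ^ i) (hy : y ≤ B ^ j) :
    x + y ≤ B ^ (i + j + 1) := by
  have h1 : B ^ i ≤ B ^ (i + j) := pow_mono' hB (by omega)
  have h2 : B ^ j ≤ B ^ (i + j) := pow_mono' hB (by omega)
  calc x + y ≤ 2 * B ^ (i + j) := by omega
    _ ≤ B * B ^ (i + j) := Nat.mul_le_mul_right _ hB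
    _ = B ^ (i + j + 1) := by rw [pow_succ, mul_comm]

theorem fin_pow {x i k : ℕ} (h : x ≤ B ^ i) (hk : i = k) : x ≤ B ^ k := hk ▸ h

theorem mul_le_pow {x y i j : ℕ} (hx : x ≤ B ^ i) (hy : y ≤ B ^ j) :
    x * y ≤ B ^ (i + j) := by
  rw [pow_add]
  exact Nat.mul_le_mul hx hy

theorem sum_le_pow {N i j : ℕ} {f : ℕ → ℕ} (hN : N ≤ B ^ i) (h : ∀ k < N, f k ≤ B ^ j) :
    ∑ k ∈ range N, f k ≤ B ^ (i + j) := by
  calc ∑ k ∈ range N, f k ≤ ∑ k ∈ range N, B ^ j :=
        sum_le_sum fun k hk => h k (mem_range.1 hk)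
    _ = N * B ^ j := by rw [sum_const, card_range, smul_eq_mul]
    _ ≤ B ^ (i + j) := mul_le_pow hN le_rfl

theorem self_le_pow (_hB : 2 ≤ B) {x : ℕ} (hx : x ≤ B) : x ≤ B ^ 1 := by
  rw [pow_one]; exact hx

end arith

theorem iter_cap_le {f : ℕ → ℕ → ℕ} {x c : ℕ} (h : ∀ k w, f k w ≤ c) (n : ℕ) :
    iter f x n ≤ x + c := by
  cases n with
  | zero => exact Nat.le_add_right _ _
  | succ n => exact (h _ _).trans (Nat.le_add_left _ _)

theorem Loc.set_le {ρ : Loc} {B x v : ℕ} (hρ : ∀ y, ρ y ≤ B) (hv : v ≤ B) :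
    ∀ y, (ρ.set x v) y ≤ B := by
  intro y
  unfold Loc.set
  split_ifs
  · exact hv
  · exact hρ y

theorem RE.wt_poly (e : RE) : ∃ k : ℕ, ∀ (B : ℕ), 2 ≤ B → ∀ (a : Ar) (ρ : Loc),
    (∀ A i, a A i ≤ B) → (∀ x, ρ x ≤ B) → e.wt a ρ ≤ B ^ k := by
  induction e with
  | const c =>
    exact ⟨_, fun B hB a ρ ha hρ => add_le_pow hB (le_pow_self' hB c) (le_pow_self' hB 99)⟩
  | var x =>
    exact ⟨_, fun B hB a ρ ha hρ => add_le_pow hB (self_le_pow hB (hρ x)) (le_pow_self' hB 99)⟩
  | add p q ihp ihq =>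
    obtain ⟨k1, h1⟩ := ihp
    obtain ⟨k2, h2⟩ := ihq
    exact ⟨_, fun B hB a ρ ha hρ => add_le_pow hB (add_le_pow hB (h1 B hB a ρ ha hρ)
      (h2 B hB a ρ ha hρ)) (le_pow_self' hB 99)⟩
  | sub p q ihp ihq =>
    obtain ⟨k1, h1⟩ := ihp
    obtain ⟨k2, h2⟩ := ihq
    exact ⟨_, fun B hB a ρ ha hρ => add_le_pow hB (add_le_pow hB (h1 B hB a ρ ha hρ)
      (h2 B hB a ρ ha hρ)) (le_pow_self' hB 99)⟩
  | mul p q ihp ihq =>
    obtain ⟨k1, h1⟩ := ihp
    obtain ⟨k2, h2⟩ := ihq
    exact ⟨_, fun B hB a ρ ha hρ => add_le_pow hB (add_le_pow hB (add_le_pow hB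
      (add_le_pow hB (h1 B hB a ρ ha hρ) (h2 B hB a ρ ha hρ))
      (mul_le_pow ((RE.eval_le_wt a p ρ).trans (h1 B hB a ρ ha hρ))
        ((RE.eval_le_wt a q ρ).trans (h2 B hB a ρ ha hρ))))
      (mul_le_pow (le_pow_self' hB 99) ((RE.eval_le_wt a p ρ).trans (h1 B hB a ρ ha hρ))))
      (le_pow_self' hB 99)⟩
  | div p q ihp ihq =>
    obtain ⟨k1, h1⟩ := ihp
    obtain ⟨k2, h2⟩ := ihq
    exact ⟨_, fun B hB a ρ ha hρ => add_le_pow hB (add_le_pow hB
      (add_le_pow hB (h1 B hB a ρ ha hρ) (h2 B hB a ρ ha hρ))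
      (mul_le_pow (le_pow_self' hB 99) ((RE.eval_le_wt a p ρ).trans (h1 B hB a ρ ha hρ))))
      (le_pow_self' hB 99)⟩
  | mod p q ihp ihq =>
    obtain ⟨k1, h1⟩ := ihp
    obtain ⟨k2, h2⟩ := ihq
    exact ⟨_, fun B hB a ρ ha hρ => add_le_pow hB (add_le_pow hB
      (add_le_pow hB (h1 B hB a ρ ha hρ) (h2 B hB a ρ ha hρ))
      (mul_le_pow (le_pow_self' hB 99) ((RE.eval_le_wt a p ρ).trans (h1 B hB a ρ ha hρ))))
      (le_pow_self' hB 99)⟩
  | get A i ih =>
    obtain ⟨k1, h1⟩ := ih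
    exact ⟨_, fun B hB a ρ ha hρ => add_le_pow hB (add_le_pow hB (h1 B hB a ρ ha hρ)
      (self_le_pow hB (ha A _))) (le_pow_self' hB 99)⟩
  | ite u v p q ihu ihv ihp ihq =>
    obtain ⟨k1, h1⟩ := ihu
    obtain ⟨k2, h2⟩ := ihv
    obtain ⟨k3, h3⟩ := ihp
    obtain ⟨k4, h4⟩ := ihq
    refine ⟨_, fun B hB a ρ ha hρ => add_le_pow hB (add_le_pow hB (add_le_pow hB
      (h1 B hB a ρ ha hρ) (h2 B hB a ρ ha hρ)) (j := k3 + k4) ?_) (le_pow_self' hB 99)⟩
    split_ifs
    · exact (h3 B hB a ρ ha hρ).trans (pow_mono' hB (by omega))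
    · exact (h4 B hB a ρ ha hρ).trans (pow_mono' hB (by omega))
  | sum x n e ihn ihe =>
    obtain ⟨k1, h1⟩ := ihn
    obtain ⟨k2, h2⟩ := ihe
    refine ⟨k1 + (k1 + ((k1 + 1) * k2 + 99 + 1)) + 1 + 1 + 1 + 99 + 1,
      fun B hB a ρ ha hρ => ?_⟩
    have hn : n.eval a ρ ≤ B ^ k1 := (RE.eval_le_wt a n ρ).trans (h1 B hB a ρ ha hρ)
    have hB' : B ≤ B ^ (k1 + 1) := by
      calc B = B ^ 1 := (pow_one B).symm
        _ ≤ _ := pow_mono' hB (by omega)
    have hk1 : B ^ k1 ≤ B ^ (k1 + 1) := pow_mono' hB (by omega)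
    have he : ∀ k < n.eval a ρ, e.wt a (ρ.set x k) + 99 ≤ B ^ ((k1 + 1) * k2 + 99 + 1) := by
      intro k hk
      refine add_le_pow hB ?_ (le_pow_self' hB 99)
      rw [pow_mul]
      refine h2 (B ^ (k1 + 1)) (hB.trans hB') a _ (fun A i => (ha A i).trans hB')
        (Loc.set_le (fun y => (hρ y).trans hB') ?_)
      omega
    exact fin_pow (add_le_pow hB (add_le_pow hB (add_le_pow hB (h1 B hB a ρ ha hρ)
      (sum_le_pow hn he)) (self_le_pow hB (hρ x))) (le_pow_self' hB 99)) rfl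
  | fnd x n e ihn ihe =>
    obtain ⟨k1, h1⟩ := ihn
    obtain ⟨k2, h2⟩ := ihe
    refine ⟨k1 + (k1 + ((k1 + 1) * k2 + 99 + 1)) + 1 + 1 + 1 + 99 + 1,
      fun B hB a ρ ha hρ => ?_⟩
    have hn : n.eval a ρ ≤ B ^ k1 := (RE.eval_le_wt a n ρ).trans (h1 B hB a ρ ha hρ)
    have hB' : B ≤ B ^ (k1 + 1) := by
      calc B = B ^ 1 := (pow_one B).symm
        _ ≤ _ := pow_mono' hB (by omega)
    have hk1 : B ^ k1 ≤ B ^ (k1 + 1) := pow_mono' hB (by omega)
    have he : ∀ k < n.eval a ρ, e.wt a (ρ.set x k) + 99 ≤ B ^ ((k1 + 1) * k2 + 99 + 1) := by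
      intro k hk
      refine add_le_pow hB ?_ (le_pow_self' hB 99)
      rw [pow_mul]
      refine h2 (B ^ (k1 + 1)) (hB.trans hB') a _ (fun A i => (ha A i).trans hB')
        (Loc.set_le (fun y => (hρ y).trans hB') ?_)
      omega
    exact fin_pow (add_le_pow hB (add_le_pow hB (add_le_pow hB (h1 B hB a ρ ha hρ)
      (sum_le_pow hn he)) (self_le_pow hB (hρ x))) (le_pow_self' hB 99)) rfl
  | fold x y n i c e ihn ihi ihc ihe =>
    obtain ⟨k1, h1⟩ := ihn
    obtain ⟨k2, h2⟩ := ihi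
    obtain ⟨k3, h3⟩ := ihc
    obtain ⟨k4, h4⟩ := ihe
    refine ⟨k1 + k2 + 1 + k3 + 1 + (k1 + ((k1 + (k2 + k3 + 1) + 1) * k4 + 99 + 1)) + 1
      + 1 + 1 + 1 + 1 + 99 + 1, fun B hB a ρ ha hρ => ?_⟩
    have hn : n.eval a ρ ≤ B ^ k1 := (RE.eval_le_wt a n ρ).trans (h1 B hB a ρ ha hρ)
    have hi : i.eval a ρ ≤ B ^ k2 := (RE.eval_le_wt a i ρ).trans (h2 B hB a ρ ha hρ)
    have hc : c.eval a ρ ≤ B ^ k3 := (RE.eval_le_wt a c ρ).trans (h3 B hB a ρ ha hρ)
    have hB' : B ≤ B ^ (k1 + (k2 + k3 + 1) + 1) := by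
      calc B = B ^ 1 := (pow_one B).symm
        _ ≤ _ := pow_mono' hB (by omega)
    have hk1 : B ^ k1 ≤ B ^ (k1 + (k2 + k3 + 1) + 1) := pow_mono' hB (by omega)
    have hk2 : B ^ (k2 + k3 + 1) ≤ B ^ (k1 + (k2 + k3 + 1) + 1) := pow_mono' hB (by omega)
    set g : ℕ → ℕ → ℕ := fun k w => min (RE.eval a e ((ρ.set x k).set y w)) (RE.eval a c ρ)
      with hg
    have hw : ∀ k, iter g (i.eval a ρ) k ≤ B ^ (k2 + k3 + 1) := fun k =>
      (iter_cap_le (fun k w => min_le_right _ _) k).trans (add_le_pow hB hi hc)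
    have he : ∀ k < n.eval a ρ, e.wt a ((ρ.set x k).set y (iter g (i.eval a ρ) k)) + 99 ≤
        B ^ ((k1 + (k2 + k3 + 1) + 1) * k4 + 99 + 1) := by
      intro k hk
      refine add_le_pow hB ?_ (le_pow_self' hB 99)
      rw [pow_mul]
      refine h4 (B ^ (k1 + (k2 + k3 + 1) + 1)) (hB.trans hB') a _
        (fun A i => (ha A i).trans hB')
        (Loc.set_le (Loc.set_le (fun y => (hρ y).trans hB') ?_) ((hw k).trans hk2))
      omega
    exact fin_pow (add_le_pow hB (add_le_pow hB (add_le_pow hB (add_le_pow hB (add_le_pow hB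
      (add_le_pow hB (h1 B hB a ρ ha hρ) (h2 B hB a ρ ha hρ)) (h3 B hB a ρ ha hρ))
      (sum_le_pow hn he)) (self_le_pow hB (hρ x))) (self_le_pow hB (hρ y)))
      (le_pow_self' hB 99)) rfl

/-- An expression which does not read `A` does not see changes of `A`. -/
theorem RE.eval_congr {A : ℕ} {e : RE} (he : e.wf A = true) {a b : Ar}
    (h : ∀ B, B ≠ A → a B = b B) : ∀ ρ, e.eval a ρ = e.eval b ρ := by
  induction e with
  | const c => intro ρ; rfl
  | var x => intro ρ; rfl
  | add p q ihp ihq =>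
    simp only [RE.wf, Bool.and_eq_true] at he
    intro ρ; simp only [RE.eval]; rw [ihp he.1, ihq he.2]
  | sub p q ihp ihq =>
    simp only [RE.wf, Bool.and_eq_true] at he
    intro ρ; simp only [RE.eval]; rw [ihp he.1, ihq he.2]
  | mul p q ihp ihq =>
    simp only [RE.wf, Bool.and_eq_true] at he
    intro ρ; simp only [RE.eval]; rw [ihp he.1, ihq he.2]
  | div p q ihp ihq =>
    simp only [RE.wf, Bool.and_eq_true] at he
    intro ρ; simp only [RE.eval]; rw [ihp he.1, ihq he.2]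
  | mod p q ihp ihq =>
    simp only [RE.wf, Bool.and_eq_true] at he
    intro ρ; simp only [RE.eval]; rw [ihp he.1, ihq he.2]
  | get A' i ih =>
    simp only [RE.wf, Bool.and_eq_true, decide_eq_true_eq] at he
    intro ρ; simp only [RE.eval]; rw [ih he.2, h A' he.1.2]
  | ite u v p q ihu ihv ihp ihq =>
    simp only [RE.wf, Bool.and_eq_true] at he
    intro ρ; simp only [RE.eval]
    rw [ihu he.1.1.1, ihv he.1.1.2, ihp he.1.2, ihq he.2]
  | sum x n e ihn ihe =>
    simp only [RE.wf, Bool.and_eq_true] at he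
    intro ρ; simp only [RE.eval]
    rw [ihn he.1.2]
    exact sum_congr rfl fun k _ => ihe he.2 _
  | fnd x n e ihn ihe =>
    simp only [RE.wf, Bool.and_eq_true] at he
    intro ρ; simp only [RE.eval]
    rw [ihn he.1.2]
    simp only [ihe he.2]
  | fold x y n i c e ihn ihi ihc ihe =>
    simp only [RE.wf, Bool.and_eq_true] at he
    intro ρ; simp only [RE.eval]
    rw [ihn he.1.1.1.2, ihi he.1.1.2, ihc he.1.2]
    simp only [ihe he.2]

theorem RE.cost_congr {A : ℕ} {e : RE} (he : e.wf A = true) {a b : Ar}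
    (h : ∀ B, B ≠ A → a B = b B) : ∀ ρ, e.cost a ρ = e.cost b ρ := by
  induction e with
  | const c => intro ρ; rfl
  | var x => intro ρ; rfl
  | add p q ihp ihq =>
    simp only [RE.wf, Bool.and_eq_true] at he
    intro ρ; simp only [RE.cost]; rw [ihp he.1, ihq he.2]
  | sub p q ihp ihq =>
    simp only [RE.wf, Bool.and_eq_true] at he
    intro ρ; simp only [RE.cost]; rw [ihp he.1, ihq he.2]
  | mul p q ihp ihq =>
    simp only [RE.wf, Bool.and_eq_true] at he
    intro ρ; simp only [RE.cost]; rw [ihp he.1, ihq he.2, RE.eval_congr he.1 h]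
  | div p q ihp ihq =>
    simp only [RE.wf, Bool.and_eq_true] at he
    intro ρ; simp only [RE.cost]
    rw [ihp he.1, ihq he.2, RE.eval_congr he.1 h, RE.eval_congr he.2 h]
  | mod p q ihp ihq =>
    simp only [RE.wf, Bool.and_eq_true] at he
    intro ρ; simp only [RE.cost]
    rw [ihp he.1, ihq he.2, RE.eval_congr he.1 h, RE.eval_congr he.2 h]
  | get A' i ih =>
    simp only [RE.wf, Bool.and_eq_true, decide_eq_true_eq] at he
    intro ρ; simp only [RE.cost]; rw [ih he.2]
  | ite u v p q ihu ihv ihp ihq =>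
    simp only [RE.wf, Bool.and_eq_true] at he
    intro ρ; simp only [RE.cost]
    rw [ihu he.1.1.1, ihv he.1.1.2, ihp he.1.2, ihq he.2, RE.eval_congr he.1.1.1 h,
      RE.eval_congr he.1.1.2 h]
  | sum x n e ihn ihe =>
    simp only [RE.wf, Bool.and_eq_true] at he
    intro ρ; simp only [RE.cost]
    rw [ihn he.1.2, RE.eval_congr he.1.2 h]
    simp only [ihe he.2]
  | fnd x n e ihn ihe =>
    simp only [RE.wf, Bool.and_eq_true] at he
    intro ρ; simp only [RE.cost]
    rw [ihn he.1.2, RE.eval_congr he.1.2 h]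
    simp only [ihe he.2]
  | fold x y n i c e ihn ihi ihc ihe =>
    simp only [RE.wf, Bool.and_eq_true] at he
    intro ρ; simp only [RE.cost]
    rw [ihn he.1.1.1.2, ihi he.1.1.2, ihc he.1.2, RE.eval_congr he.1.1.1.2 h,
      RE.eval_congr he.1.1.2 h, RE.eval_congr he.1.2 h]
    simp only [ihe he.2, RE.eval_congr he.2 h]

theorem RE.wt_congr {A : ℕ} {e : RE} (he : e.wf A = true) {a b : Ar}
    (h : ∀ B, B ≠ A → a B = b B) : ∀ ρ, e.wt a ρ = e.wt b ρ := by
  induction e with
  | const c => intro ρ; rfl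
  | var x => intro ρ; rfl
  | add p q ihp ihq =>
    simp only [RE.wf, Bool.and_eq_true] at he
    intro ρ; simp only [RE.wt]; rw [ihp he.1, ihq he.2]
  | sub p q ihp ihq =>
    simp only [RE.wf, Bool.and_eq_true] at he
    intro ρ; simp only [RE.wt]; rw [ihp he.1, ihq he.2]
  | mul p q ihp ihq =>
    simp only [RE.wf, Bool.and_eq_true] at he
    intro ρ; simp only [RE.wt]
    rw [ihp he.1, ihq he.2, RE.eval_congr he.1 h, RE.eval_congr he.2 h]
  | div p q ihp ihq =>
    simp only [RE.wf, Bool.and_eq_true] at he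
    intro ρ; simp only [RE.wt]
    rw [ihp he.1, ihq he.2, RE.eval_congr he.1 h]
  | mod p q ihp ihq =>
    simp only [RE.wf, Bool.and_eq_true] at he
    intro ρ; simp only [RE.wt]
    rw [ihp he.1, ihq he.2, RE.eval_congr he.1 h]
  | get A' i ih =>
    simp only [RE.wf, Bool.and_eq_true, decide_eq_true_eq] at he
    intro ρ; simp only [RE.wt]; rw [ih he.2, h A' he.1.2, RE.eval_congr he.2 h]
  | ite u v p q ihu ihv ihp ihq =>
    simp only [RE.wf, Bool.and_eq_true] at he
    intro ρ; simp only [RE.wt]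
    rw [ihu he.1.1.1, ihv he.1.1.2, ihp he.1.2, ihq he.2, RE.eval_congr he.1.1.1 h,
      RE.eval_congr he.1.1.2 h]
  | sum x n e ihn ihe =>
    simp only [RE.wf, Bool.and_eq_true] at he
    intro ρ; simp only [RE.wt]
    rw [ihn he.1.2, RE.eval_congr he.1.2 h]
    simp only [ihe he.2]
  | fnd x n e ihn ihe =>
    simp only [RE.wf, Bool.and_eq_true] at he
    intro ρ; simp only [RE.wt]
    rw [ihn he.1.2, RE.eval_congr he.1.2 h]
    simp only [ihe he.2]
  | fold x y n i c e ihn ihi ihc ihe =>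
    simp only [RE.wf, Bool.and_eq_true] at he
    intro ρ; simp only [RE.wt]
    rw [ihn he.1.1.1.2, ihi he.1.1.2, ihc he.1.2, RE.eval_congr he.1.1.1.2 h,
      RE.eval_congr he.1.1.2 h, RE.eval_congr he.1.2 h]
    simp only [ihe he.2, RE.eval_congr he.2 h]

section itset

variable (A : ℕ) (V : ℕ → Ar → ℕ) (a : Ar)

theorem iter_set_ne {B : ℕ} (h : B ≠ A) (m : ℕ) :
    iter (fun k b => setA b A k (V k b)) a m B = a B := by
  induction m with
  | zero => rfl
  | succ m ih =>
    funext j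
    simp only [iter, setA, if_neg (fun hh : B = A ∧ j = m => h hh.1)]
    rw [ih]

theorem iter_set_ge {j : ℕ} (m : ℕ) (h : m ≤ j) :
    iter (fun k b => setA b A k (V k b)) a m A j = a A j := by
  induction m with
  | zero => rfl
  | succ m ih =>
    have h1 : j ≠ m := by omega
    simp only [iter, setA, true_and, if_neg h1]
    exact ih (by omega)

theorem iter_set_lt {j : ℕ} (m : ℕ) (h : j < m) :
    iter (fun k b => setA b A k (V k b)) a m A j =
      V j (iter (fun k b => setA b A k (V k b)) a j) := by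
  induction m with
  | zero => exact absurd h (Nat.not_lt_zero j)
  | succ m ih =>
    by_cases hj : j = m
    · subst hj
      simp only [iter, setA, and_self, if_true]
    · simp only [iter, setA, true_and, if_neg hj]
      exact ih (by omega)

theorem iter_set_eq (m n : ℕ) (h : m ≤ n) :
    iter (fun k b => setA b A k (V k b)) a m = fun B j => if B = A ∧ j < m then
      iter (fun k b => setA b A k (V k b)) a n A j else a B j := by
  funext B j
  by_cases hB : B = A
  · subst hB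
    by_cases hj : j < m
    · rw [if_pos ⟨rfl, hj⟩, iter_set_lt _ _ _ m hj, iter_set_lt _ _ _ n (by omega)]
    · rw [if_neg (fun hh : B = B ∧ j < m => hj hh.2), iter_set_ge _ _ _ m (by omega)]
  · rw [if_neg (fun hh : B = A ∧ j < m => hB hh.1), iter_set_ne _ _ _ hB]

end itset

namespace Stg

/-- A stage changes only its target. -/
theorem run_ne (g : Stg) (a : Ar) {B : ℕ} (h : B ≠ g.tgt) : g.run a B = a B := by
  cases g with
  | put A i e =>
    funext j
    simp only [run, setA]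
    rw [if_neg (fun hh => h hh.1)]
  | fill A n e => exact iter_set_ne A (fun k b => e.eval b (loc0 k)) a h _
  | recf A n c e =>
    exact iter_set_ne A (fun k b => min (e.eval b (loc0 k)) (c.eval a (loc0 0))) a h _

theorem run_put (A : ℕ) (i e : RE) (a : Ar) : (put A i e).run a =
    setA a A (i.eval a (loc0 0)) (e.eval a (loc0 0)) := rfl

/-- The values after a `fill`. -/
theorem run_fill {A : ℕ} {n e : RE} (he : e.wf A = true) (a : Ar) {k : ℕ}
    (hk : k < n.eval a (loc0 0)) : (fill A n e).run a A k = e.eval a (loc0 k) := by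
  have h1 := iter_set_lt A (fun k b => e.eval b (loc0 k)) a _ hk
  refine (show (fill A n e).run a A k = _ from h1).trans ?_
  exact RE.eval_congr he (fun B hB => iter_set_ne A (fun k b => e.eval b (loc0 k)) a hB _) _

/-- The cells which are not filled. -/
theorem run_fill_ge {A : ℕ} {n e : RE} (a : Ar) {k : ℕ}
    (hk : n.eval a (loc0 0) ≤ k) : (fill A n e).run a A k = a A k :=
  iter_set_ge A (fun k b => e.eval b (loc0 k)) a _ hk

theorem run_recf_ge {A : ℕ} {n c e : RE} (a : Ar) {k : ℕ}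
    (hk : n.eval a (loc0 0) ≤ k) : (recf A n c e).run a A k = a A k :=
  iter_set_ge A (fun k b => min (e.eval b (loc0 k)) (c.eval a (loc0 0))) a _ hk

/-- The values after a `recf`, given by strong recursion: if the arrays `b` agree with `a`
outside of `A`, and in `A` have the final values below `k` and the old values from `k` on,
then the value in `k` is that of `e` in `b` (capped). -/
theorem run_recf {A : ℕ} {n c e : RE} (a : Ar) {k : ℕ} (hk : k < n.eval a (loc0 0)) :
    (recf A n c e).run a A k = min (e.eval (fun B j => if B = A ∧ j < k then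
      (recf A n c e).run a A j else a B j) (loc0 k)) (c.eval a (loc0 0)) := by
  have h1 := iter_set_lt A (fun k b => min (e.eval b (loc0 k)) (c.eval a (loc0 0))) a _ hk
  have h2 := iter_set_eq A (fun k b => min (e.eval b (loc0 k)) (c.eval a (loc0 0))) a k _ hk.le
  rw [h2] at h1
  exact h1

/-- The cost of a `fill`. -/
theorem cost_fill {A : ℕ} {n e : RE} (he : e.wf A = true) (a : Ar) :
    (fill A n e).cost a = n.cost a (loc0 0) + 99 +
      ∑ k ∈ range (n.eval a (loc0 0)), (e.cost a (loc0 k) + 99) := by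
  simp only [cost]
  congr 1
  refine sum_congr rfl (fun k _ => ?_)
  rw [RE.cost_congr he (fun B hB => iter_set_ne A (fun k b => e.eval b (loc0 k)) a hB k)]

/-- The cost of a `recf`. -/
theorem cost_recf {A : ℕ} {n c e : RE} (a : Ar) :
    (recf A n c e).cost a = n.cost a (loc0 0) + c.cost a (loc0 0) + 99 +
      ∑ k ∈ range (n.eval a (loc0 0)), (e.cost (fun B j => if B = A ∧ j < k then
      (recf A n c e).run a A j else a B j) (loc0 k) + 99) := by
  simp only [cost]
  congr 1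
  refine sum_congr rfl (fun k hk => ?_)
  rw [iter_set_eq A (fun k b => min (e.eval b (loc0 k)) (c.eval a (loc0 0))) a k _
    (mem_range.1 hk).le]
  rfl

theorem cost_le_wt (g : Stg) (a : Ar) : g.cost a ≤ g.wt a := by
  cases g with
  | put A i e =>
    simp only [cost, wt]
    have h1 := RE.cost_le_wt a i (loc0 0)
    have h2 := RE.cost_le_wt a e (loc0 0)
    omega
  | fill A n e =>
    simp only [cost, wt]
    have h1 := RE.cost_le_wt a n (loc0 0)
    have h2 := sum_le_sum (s := range (n.eval a (loc0 0))) (fun k _ =>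
      Nat.add_le_add_right (RE.cost_le_wt (iter (fun k b => setA b A k (e.eval b (loc0 k))) a k)
        e (loc0 k)) 99)
    omega
  | recf A n c e =>
    simp only [cost, wt]
    have h1 := RE.cost_le_wt a n (loc0 0)
    have h3 := RE.cost_le_wt a c (loc0 0)
    have h2 := sum_le_sum (s := range (n.eval a (loc0 0))) (fun k _ =>
      Nat.add_le_add_right (RE.cost_le_wt (iter (fun k b => setA b A k
        (min (e.eval b (loc0 k)) (c.eval a (loc0 0)))) a k) e (loc0 k)) 99)
    omega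

theorem costs_le_wts (l : List Stg) : ∀ a, costs l a ≤ wts l a := by
  induction l with
  | nil => intro a; exact le_rfl
  | cons g l ih =>
    intro a
    simp only [costs, wts]
    have h1 := cost_le_wt g a
    have h2 := ih (g.run a)
    omega

theorem loc0_le (k x : ℕ) : loc0 k x ≤ k := by
  unfold loc0
  split_ifs <;> omega

theorem run_poly (g : Stg) (hg : g.wf = true) : ∃ k : ℕ, ∀ (B : ℕ), 2 ≤ B →
    ∀ a : Ar, (∀ A i, a A i ≤ B) → g.wt a ≤ B ^ k ∧ ∀ A i, g.run a A i ≤ B ^ k := by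
  cases g with
  | put A i e =>
    obtain ⟨k1, h1⟩ := RE.wt_poly i
    obtain ⟨k2, h2⟩ := RE.wt_poly e
    refine ⟨k1 + k2 + 1 + 99 + 1, fun B hB a ha => ?_⟩
    have hl : ∀ x, loc0 0 x ≤ B := fun x => (loc0_le 0 x).trans (Nat.zero_le _)
    have e1 := h1 B hB a _ ha hl
    have e2 := h2 B hB a _ ha hl
    refine ⟨fin_pow (add_le_pow hB (add_le_pow hB e1 e2) (le_pow_self' hB 99)) rfl,
      fun A' j => ?_⟩
    simp only [run, setA]
    split_ifs
    · exact (RE.eval_le_wt a e _).trans (e2.trans (pow_mono' hB (by omega)))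
    · exact (ha A' j).trans ((le_of_eq (pow_one B).symm).trans (pow_mono' hB (by omega)))
  | fill A n e =>
    simp only [wf, Bool.and_eq_true] at hg
    obtain ⟨k1, h1⟩ := RE.wt_poly n
    obtain ⟨k2, h2⟩ := RE.wt_poly e
    refine ⟨k1 + 99 + 1 + (k1 + ((k1 + 1) * k2 + 99 + 1)) + 1, fun B hB a ha => ?_⟩
    have hl : ∀ x, loc0 0 x ≤ B := fun x => (loc0_le 0 x).trans (Nat.zero_le _)
    have e1 := h1 B hB a _ ha hl
    have hn : n.eval a (loc0 0) ≤ B ^ k1 := (RE.eval_le_wt a n _).trans e1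
    have hB' : B ≤ B ^ (k1 + 1) := by
      calc B = B ^ 1 := (pow_one B).symm
        _ ≤ _ := pow_mono' hB (by omega)
    have hk1 : B ^ k1 ≤ B ^ (k1 + 1) := pow_mono' hB (by omega)
    have he : ∀ k < n.eval a (loc0 0), e.wt a (loc0 k) ≤ B ^ ((k1 + 1) * k2) := by
      intro k hk
      rw [pow_mul]
      refine h2 (B ^ (k1 + 1)) (hB.trans hB') a _ (fun A i => (ha A i).trans hB') ?_
      intro x
      have := loc0_le k x
      omega
    refine ⟨?_, fun A' j => ?_⟩
    · simp only [wt]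
      refine add_le_pow hB (add_le_pow hB e1 (le_pow_self' hB 99)) (sum_le_pow hn ?_)
      intro k hk
      rw [RE.wt_congr hg.2 (fun B hB => iter_set_ne A (fun k b => e.eval b (loc0 k)) a hB k)]
      exact add_le_pow hB (he k hk) (le_pow_self' hB 99)
    · by_cases hA : A' = A
      · subst hA
        by_cases hj : j < n.eval a (loc0 0)
        · rw [run_fill hg.2 a hj]
          exact (RE.eval_le_wt a e _).trans ((he j hj).trans (pow_mono' hB (by omega)))
        · rw [run_fill_ge a (not_lt.1 hj)]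
          exact (ha A' j).trans ((le_of_eq (pow_one B).symm).trans (pow_mono' hB (by omega)))
      · rw [run_ne (fill A n e) a hA]
        exact (ha A' j).trans ((le_of_eq (pow_one B).symm).trans (pow_mono' hB (by omega)))
  | recf A n c e =>
    obtain ⟨k1, h1⟩ := RE.wt_poly n
    obtain ⟨k3, h3⟩ := RE.wt_poly c
    obtain ⟨k2, h2⟩ := RE.wt_poly e
    refine ⟨k1 + k3 + 1 + 99 + 1 + (k1 + ((k1 + k3 + 1) * k2 + 99 + 1)) + 1,
      fun B hB a ha => ?_⟩
    have hl : ∀ x, loc0 0 x ≤ B := fun x => (loc0_le 0 x).trans (Nat.zero_le _)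
    have e1 := h1 B hB a _ ha hl
    have e3 := h3 B hB a _ ha hl
    have hn : n.eval a (loc0 0) ≤ B ^ k1 := (RE.eval_le_wt a n _).trans e1
    have hc : c.eval a (loc0 0) ≤ B ^ k3 := (RE.eval_le_wt a c _).trans e3
    have hB' : B ≤ B ^ (k1 + k3 + 1) := by
      calc B = B ^ 1 := (pow_one B).symm
        _ ≤ _ := pow_mono' hB (by omega)
    have hk1 : B ^ k1 ≤ B ^ (k1 + k3 + 1) := pow_mono' hB (by omega)
    have hk3 : B ^ k3 ≤ B ^ (k1 + k3 + 1) := pow_mono' hB (by omega)
    -- all intermediate arrays are bounded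
    have hit : ∀ m A' j, iter (fun k b => setA b A k (min (e.eval b (loc0 k))
        (c.eval a (loc0 0)))) a m A' j ≤ B ^ (k1 + k3 + 1) := by
      intro m A' j
      by_cases hA : A' = A
      · subst hA
        by_cases hj : j < m
        · rw [iter_set_lt A' (fun k b => min (e.eval b (loc0 k)) (c.eval a (loc0 0))) a m hj]
          exact (min_le_right _ _).trans (hc.trans hk3)
        · rw [iter_set_ge A' (fun k b => min (e.eval b (loc0 k)) (c.eval a (loc0 0))) a m
            (not_lt.1 hj)]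
          exact (ha A' j).trans hB'
      · rw [iter_set_ne A (fun k b => min (e.eval b (loc0 k)) (c.eval a (loc0 0))) a hA m]
        exact (ha A' j).trans hB'
    refine ⟨?_, fun A' j => ?_⟩
    · simp only [wt]
      refine fin_pow (add_le_pow hB (add_le_pow hB (add_le_pow hB e1 e3) (le_pow_self' hB 99))
        (sum_le_pow (j := (k1 + k3 + 1) * k2 + 99 + 1) hn ?_)) rfl
      intro k hk
      refine add_le_pow hB ?_ (le_pow_self' hB 99)
      rw [pow_mul]
      refine h2 (B ^ (k1 + k3 + 1)) (hB.trans hB') _ _ (hit k) ?_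
      intro x
      have := loc0_le k x
      omega
    · exact (hit _ A' j).trans (pow_mono' hB (by omega))

/-- Time and numbers of a list of stages are polynomially bounded. -/
theorem runs_poly (l : List Stg) (hl : ∀ g ∈ l, g.wf = true) : ∃ k : ℕ, ∀ (B : ℕ), 2 ≤ B →
    ∀ a : Ar, (∀ A i, a A i ≤ B) → wts l a ≤ B ^ k ∧ ∀ A i, runs l a A i ≤ B ^ k := by
  induction l with
  | nil =>
    refine ⟨99, fun B hB a ha => ⟨le_pow_self' hB 99, fun A i => ?_⟩⟩
    exact (ha A i).trans ((le_of_eq (pow_one B).symm).trans (pow_mono' hB (by omega)))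
  | cons g l ih =>
    obtain ⟨k1, h1⟩ := run_poly g (hl g (by simp))
    obtain ⟨k2, h2⟩ := ih (fun g' hg' => hl g' (by simp [hg']))
    refine ⟨k1 + (k1 + 1) * k2 + 1 + 99 + 1, fun B hB a ha => ?_⟩
    obtain ⟨e1, e2⟩ := h1 B hB a ha
    have hB' : B ≤ B ^ (k1 + 1) := by
      calc B = B ^ 1 := (pow_one B).symm
        _ ≤ _ := pow_mono' hB (by omega)
    have hk1 : B ^ k1 ≤ B ^ (k1 + 1) := pow_mono' hB (by omega)
    obtain ⟨e3, e4⟩ := h2 (B ^ (k1 + 1)) (hB.trans hB') (g.run a)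
      (fun A i => (e2 A i).trans hk1)
    rw [← pow_mul] at e3
    refine ⟨?_, fun A i => ?_⟩
    · simp only [wts]
      exact fin_pow (add_le_pow hB (add_le_pow hB e1 e3) (le_pow_self' hB 99)) rfl
    · refine (e4 A i).trans ?_
      rw [← pow_mul]
      exact pow_mono' hB (by omega)

end Stg

end Pool.Agent.OMVU
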