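import Pool.Agent.OMVU.Comp
import Pool.Agent.OMVU.Wt

/-! Compilation of stages. -/

namespace Pool.Agent.OMVU

open CCL (Ex Cn Prog St Run blk)

/-- The code of a stage. -/
def cStg : Stg → Prog
  | .put A i e => blk [comp i 0, comp e 1, .put A (sg 0) (sg 1)]
  | .fill A n e => blk [comp n 0, .set 1 (sg 0), .set 0 (.const 0),
      .loop (.lt (.var 0) (.var 1)) (blk [
        lp 0 (.var 0),
        comp e 0,
        .put A (.var 0) (sg 0),
        .set 0 (.add (.var 0) (.const 1))]),
      lp 0 (.const 0)]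
  | .recf A n c e => blk [comp n 0, comp c 1, .set 1 (sg 0), .set 2 (sg 1), .set 0 (.const 0),
      .loop (.lt (.var 0) (.var 1)) (blk [
        lp 0 (.var 0),
        comp e 0,
        .ite (.lt (sg 0) (.var 2)) (.put A (.var 0) (sg 0)) (.put A (.var 0) (.var 2)),
        .set 0 (.add (.var 0) (.const 1))]),
      lp 0 (.const 0)]

/-- The code of a list of stages. -/
def cStgs (l : List Stg) : Prog := blk (l.map cStg)

/-- The state holds the arrays `a`, and all local variables are zero. -/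
structure Holds (s : St) (a : Ar) : Prop where
  arr : ∀ A < 120, s.a A = a A
  loc : ∀ x < 100, s.a 120 x = 0

/-- The number of scratch cells used. -/
def Stg.sd : Stg → ℕ
  | .put _ i e => i.sd + e.sd + 2
  | .fill _ n e => n.sd + e.sd + 2
  | .recf _ n c e => n.sd + c.sd + e.sd + 2

/-! ### auxiliary statements -/

theorem seta_arr {s : St} {a : Ar} (h : ∀ B < 120, s.a B = a B) {A : ℕ} (i w : ℕ) :
    ∀ B < 120, (s.seta A i w).a B = setA a A i w B := by
  intro B hB
  funext j
  rw [CCL.St.seta_a]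
  unfold setA
  by_cases h1 : B = A
  · subst h1
    rw [if_pos rfl, Function.update_apply, h B hB]
    by_cases h2 : j = i
    · rw [if_pos h2, if_pos ⟨rfl, h2⟩]
    · rw [if_neg h2, if_neg (fun h3 => h2 h3.2)]
  · rw [if_neg h1, if_neg (fun h3 => h1 h3.1), h B hB]

/-- Counting loops. -/
theorem loop_count {b N : ℕ} {body : Prog} {I : ℕ → St → Prop} {c : ℕ → ℕ}
    (h0 : ∀ k s, I k s → s.v 0 = k ∧ s.v 1 = N)
    (hb : ∀ k < N, ∀ s, I k s → ∃ s' t, Run b body s s' t ∧ t ≤ c k ∧ I (k + 1) s') :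
    ∀ (m k : ℕ), k + m = N → ∀ s, I k s →
      ∃ s' t, Run b (.loop (.lt (.var 0) (.var 1)) body) s s' t ∧
        t ≤ ∑ i ∈ Finset.range m, (c (k + i) + 3) + 3 ∧ I N s' := by
  intro m
  induction m with
  | zero =>
    intro k hk s hs
    have hk' : k = N := hk
    subst hk'
    obtain ⟨h1, h2⟩ := h0 _ _ hs
    refine ⟨s, _, .loop_end body ⟨trivial, trivial⟩ ?_, ?_, hs⟩
    · show ¬ s.v 0 < s.v 1
      rw [h1, h2]
      exact lt_irrefl _
    · simp
  | succ m ih =>
    intro k hk s hs
    obtain ⟨h1, h2⟩ := h0 _ _ hs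
    obtain ⟨s1, t1, hr1, ht1, hI1⟩ := hb k (by omega) s hs
    obtain ⟨s2, t2, hr2, ht2, hI2⟩ := ih (k + 1) (by omega) s1 hI1
    refine ⟨s2, _, .loop_step ⟨trivial, trivial⟩ ?_ hr1 hr2, ?_, hI2⟩
    · show s.v 0 < s.v 1
      rw [h1, h2]
      omega
    · rw [Finset.sum_range_succ']
      have h3 : ∑ i ∈ Finset.range m, (c (k + 1 + i) + 3) =
          ∑ i ∈ Finset.range m, (c (k + (i + 1)) + 3) := by
        refine Finset.sum_congr rfl fun i _ => ?_
        rw [show k + 1 + i = k + (i + 1) by ring]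
      rw [h3] at ht2
      simp only [CCL.Cn.cost, CCL.Ex.cost, add_zero]
      omega

/-- The state after a stage which writes the cell `k` of `A`, within a loop. -/
structure LInv (s0 : St) (N : ℕ) (ak : ℕ → Ar) (r : ℕ) (k : ℕ) (s : St) : Prop where
  v0 : s.v 0 = k
  v1 : s.v 1 = N
  v2 : s.v 2 = r
  arr : ∀ B < 120, s.a B = ak k B
  loc : ∀ x < 100, x ≠ 0 → s.a 120 x = 0
  vx : ∀ x, 3 ≤ x → s.v x = s0.v x
  inp : s.inp = s0.inp
  out : s.out = s0.out

theorem cStg_spec (g : Stg) (hg : g.wf = true) {a : Ar} {s : St} {b : ℕ} (h : Holds s a)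
    (hb : g.wt a ≤ b) (hb' : 100 + g.sd ≤ b) :
    ∃ (s' : St) (t : ℕ), Run b (cStg g) s s' t ∧ t ≤ g.cost a ∧ Holds s' (g.run a) ∧
      (∀ x, 3 ≤ x → s'.v x = s.v x) ∧ s'.inp = s.inp ∧ s'.out = s.out := by
  obtain ⟨harr, hloc⟩ := h
  have hloc' : ∀ x < 100, s.a 120 x = loc0 0 x := fun x hx => by
    rw [hloc x hx]
    unfold loc0
    split_ifs <;> rfl
  cases g with
  | put A i e =>
    simp only [Stg.wf, Bool.and_eq_true, decide_eq_true_eq] at hg
    obtain ⟨⟨hA, hi⟩, he⟩ := hg
    simp only [Stg.wt] at hb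
    simp only [Stg.sd] at hb'
    obtain ⟨s1, t1, hr1, ht1, hv1, ha1, hj1, hvv1, hi1, ho1⟩ := comp_spec i hi 0 (loc0 0) a b s
      harr hloc' (by omega) (by omega)
    have harr1 : ∀ B < 120, s1.a B = a B := fun B hB => by rw [ha1 B (by omega), harr B hB]
    obtain ⟨s2, t2, hr2, ht2, hv2, ha2, hj2, hvv2, hi2, ho2⟩ := comp_spec e he 1 (loc0 0) a b s1
      harr1 (fun x hx => by rw [ha1 120 (by omega), hloc' x hx]) (by omega) (by omega)
    have hs0 : s2.a 121 0 = i.eval a (loc0 0) := by rw [hj2 0 (by omega), hv1]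
    refine ⟨_, _, .seq hr1 (.seq hr2 (.seq (.put A (sg 0) (sg 1) s2 ?_ ?_) (.skip _))), ?_,
      ⟨?_, ?_⟩, ?_, ?_, ?_⟩
    · show 0 ≤ b
      omega
    · show 1 ≤ b
      omega
    · simp only [Stg.cost, sg, CCL.Ex.cost]
      omega
    · show ∀ B < 120, (s2.seta A (s2.a 121 0) (s2.a 121 1)).a B = _
      rw [hs0, hv2]
      exact seta_arr (fun B hB => by rw [ha2 B (by omega), harr1 B hB]) _ _
    · intro x hx
      rw [CCL.St.seta_a_ne _ (by omega), ha2 120 (by omega), ha1 120 (by omega), hloc x hx]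
    · intro x _
      rw [CCL.St.seta_v, hvv2, hvv1]
    · rw [CCL.St.seta_inp, hi2, hi1]
    · rw [CCL.St.seta_out, ho2, ho1]
  | fill A n e =>
    simp only [Stg.wf, Bool.and_eq_true, decide_eq_true_eq] at hg
    obtain ⟨⟨hA, hn⟩, he⟩ := hg
    simp only [Stg.wt] at hb
    simp only [Stg.sd] at hb'
    set ak : ℕ → Ar := fun k => iter (fun k b => setA b A k (e.eval b (loc0 k))) a k with hak
    have hak1 : ∀ k, ak (k + 1) = setA (ak k) A k (e.eval (ak k) (loc0 k)) := fun k => rfl
    obtain ⟨s1, t1, hr1, ht1, hv1, ha1, hj1, hvv1, hi1, ho1⟩ := comp_spec n hn 0 (loc0 0) a b s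
      harr hloc' (by omega) (by omega)
    set N := n.eval a (loc0 0) with hN
    have hb2 : n.wt a (loc0 0) + 99 +
      ∑ k ∈ Finset.range N, (e.wt (ak k) (loc0 k) + 99) ≤ b := hb
    have hwt : ∀ k < N, e.wt (ak k) (loc0 k) ≤ b := by
      intro k hk
      have h1 : e.wt (ak k) (loc0 k) + 99 ≤
          ∑ k ∈ Finset.range N, (e.wt (ak k) (loc0 k) + 99) :=
        Finset.single_le_sum (f := fun k => e.wt (ak k) (loc0 k) + 99)
          (fun _ _ => Nat.zero_le _) (Finset.mem_range.2 hk)
      omega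
    let s3 : St := (s1.setv 1 (s1.a 121 0)).setv 0 0
    have hI0 : LInv s N ak (s.v 2) 0 s3 := by
      refine ⟨rfl, ?_, ?_, ?_, ?_, ?_, hi1, ho1⟩
      · show ((s1.setv 1 (s1.a 121 0)).setv 0 0).v 1 = N
        rw [CCL.St.setv_v_ne _ (by omega), CCL.St.setv_v_self, hv1]
      · show ((s1.setv 1 (s1.a 121 0)).setv 0 0).v 2 = _
        rw [CCL.St.setv_v_ne _ (by omega), CCL.St.setv_v_ne _ (by omega), hvv1]
      · intro B hB
        show s1.a B = a B
        rw [ha1 B (by omega), harr B hB]
      · intro x hx _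
        show s1.a 120 x = 0
        rw [ha1 120 (by omega), hloc x hx]
      · intro x hx
        show ((s1.setv 1 (s1.a 121 0)).setv 0 0).v x = _
        rw [CCL.St.setv_v_ne _ (by omega), CCL.St.setv_v_ne _ (by omega), hvv1]
    have hbody : ∀ k < N, ∀ s', LInv s N ak (s.v 2) k s' → ∃ s'' t,
        Run b (blk [lp 0 (.var 0), comp e 0, .put A (.var 0) (sg 0),
          .set 0 (.add (.var 0) (.const 1))]) s' s'' t ∧ t ≤ e.cost (ak k) (loc0 k) + 50 ∧
        LInv s N ak (s.v 2) (k + 1) s'' := by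
      intro k hk s' hs'
      let s4 : St := s'.seta 120 0 k
      have hr4 : Run b (lp 0 (.var 0)) s' s4 3 := by
        have := Run.put (b := b) 120 (.const 0) (.var 0) s' (Nat.zero_le _) trivial
        simp only [CCL.Ex.eval, CCL.Ex.cost, hs'.v0] at this
        exact this
      have harr4 : ∀ B < 120, s4.a B = ak k B := fun B hB => by
        show (s'.seta 120 0 k).a B = _
        rw [CCL.St.seta_a_ne _ (by omega), hs'.arr B hB]
      have hloc4 : ∀ x < 100, s4.a 120 x = loc0 k x := by
        intro x hx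
        show (s'.seta 120 0 k).a 120 x = _
        rw [CCL.St.seta_a_self, Function.update_apply]
        unfold loc0
        split_ifs with h1
        · rfl
        · exact hs'.loc x hx h1
      obtain ⟨s5, t5, hr5, ht5, hv5, ha5, hj5, hvv5, hi5, ho5⟩ := comp_spec e he 0 (loc0 k) (ak k)
        b s4 harr4 hloc4 (hwt k hk) (by omega)
      have hv50 : s5.v 0 = k := by
        rw [hvv5]
        exact hs'.v0
      have hNb : N ≤ b := by
        have h1 : N ≤ ∑ k ∈ Finset.range N, (e.wt (ak k) (loc0 k) + 99) := by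
          calc N = ∑ k ∈ Finset.range N, 1 := by simp
            _ ≤ _ := Finset.sum_le_sum fun k _ => by omega
        omega
      refine ⟨_, _, .seq hr4 (.seq hr5 (.seq (.put A (.var 0) (sg 0) s5 trivial ?_)
        (.seq (.set 0 (.add (.var 0) (.const 1)) _ ?_) (.skip _)))), ?_, ?_⟩
      · show 0 ≤ b
        omega
      · refine ⟨trivial, ?_, ?_⟩
        · show 1 ≤ b
          omega
        · show s5.v 0 + 1 ≤ b
          omega
      · simp only [sg, CCL.Ex.cost]
        omega
      · refine ⟨?_, ?_, ?_, ?_, ?_, ?_, ?_, ?_⟩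
        · rw [CCL.St.setv_v_self]
          show s5.v 0 + 1 = k + 1
          rw [hv50]
        · rw [CCL.St.setv_v_ne _ (by omega), CCL.St.seta_v, hvv5]
          exact hs'.v1
        · rw [CCL.St.setv_v_ne _ (by omega), CCL.St.seta_v, hvv5]
          exact hs'.v2
        · intro B hB
          rw [CCL.St.setv_a, hak1]
          show (s5.seta A (s5.v 0) (s5.a 121 0)).a B = _
          rw [hv50, hv5]
          exact seta_arr (fun B hB => by rw [ha5 B (by omega), harr4 B hB]) _ _ B hB
        · intro x hx hx0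
          rw [CCL.St.setv_a, CCL.St.seta_a_ne _ (by omega), ha5 120 (by omega), hloc4 x hx]
          unfold loc0
          rw [if_neg hx0]
        · intro x hx
          rw [CCL.St.setv_v_ne _ (by omega), CCL.St.seta_v, hvv5]
          exact hs'.vx x hx
        · rw [CCL.St.setv_inp, CCL.St.seta_inp, hi5]
          exact hs'.inp
        · rw [CCL.St.setv_out, CCL.St.seta_out, ho5]
          exact hs'.out
    obtain ⟨s6, t6, hr6, ht6, hI6⟩ := loop_count (b := b) (N := N)
      (c := fun k => e.cost (ak k) (loc0 k) + 50) (fun k s' hs' => ⟨hs'.v0, hs'.v1⟩) hbody N 0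
      (by omega) s3 hI0
    refine ⟨_, _, .seq hr1 (.seq (.set 1 (sg 0) s1 (Nat.zero_le _)) (.seq (.set 0 (.const 0) _
      (Nat.zero_le _)) (.seq hr6 (.seq (.put 120 (.const 0) (.const 0) s6 (Nat.zero_le _)
      (Nat.zero_le _)) (.skip _))))), ?_, ⟨?_, ?_⟩, ?_, ?_, ?_⟩
    · simp only [Stg.cost, sg, CCL.Ex.cost]
      have h1 : ∑ i ∈ Finset.range N, (e.cost (ak (0 + i)) (loc0 (0 + i)) + 50 + 3) ≤
          ∑ k ∈ Finset.range N, (e.cost (ak k) (loc0 k) + 99) :=
        Finset.sum_le_sum fun i _ => by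
          rw [zero_add]
          omega
      have h2 := ht6.trans (Nat.add_le_add_right h1 3)
      show t1 + (1 + 2 + (1 + 1 + (t6 + (1 + 1 + 1 + 1)))) ≤ n.cost a (loc0 0) + 99 +
        ∑ k ∈ Finset.range N, (e.cost (ak k) (loc0 k) + 99)
      omega
    · intro B hB
      rw [CCL.St.seta_a_ne _ (by omega), hI6.arr B hB]
      rfl
    · intro x hx
      rw [CCL.St.seta_a_self]
      show Function.update (s6.a 120) 0 0 x = 0
      rw [Function.update_apply]
      by_cases h1 : x = 0
      · rw [if_pos h1]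
      · rw [if_neg h1]
        exact hI6.loc x hx h1
    · intro x hx
      rw [CCL.St.seta_v]
      exact hI6.vx x hx
    · rw [CCL.St.seta_inp]
      exact hI6.inp
    · rw [CCL.St.seta_out]
      exact hI6.out
  | recf A n c e =>
    simp only [Stg.wf, Bool.and_eq_true, decide_eq_true_eq] at hg
    obtain ⟨⟨⟨hA, hn⟩, hc⟩, he⟩ := hg
    simp only [Stg.wt] at hb
    simp only [Stg.sd] at hb'
    set C := c.eval a (loc0 0) with hC
    set ak : ℕ → Ar := fun k => iter (fun k b => setA b A k (min (e.eval b (loc0 k)) C)) a k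
      with hak
    have hak1 : ∀ k, ak (k + 1) = setA (ak k) A k (min (e.eval (ak k) (loc0 k)) C) :=
      fun k => rfl
    obtain ⟨s1, t1, hr1, ht1, hv1, ha1, hj1, hvv1, hi1, ho1⟩ := comp_spec n hn 0 (loc0 0) a b s
      harr hloc' (by omega) (by omega)
    have harr1 : ∀ B < 120, s1.a B = a B := fun B hB => by rw [ha1 B (by omega), harr B hB]
    obtain ⟨s2, t2, hr2, ht2, hv2, ha2, hj2, hvv2, hi2, ho2⟩ := comp_spec c hc 1 (loc0 0) a b s1
      harr1 (fun x hx => by rw [ha1 120 (by omega), hloc' x hx]) (by omega) (by omega)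
    set N := n.eval a (loc0 0) with hN
    have hs0 : s2.a 121 0 = N := by rw [hj2 0 (by omega), hv1]
    have hb2 : n.wt a (loc0 0) + c.wt a (loc0 0) + 99 +
      ∑ k ∈ Finset.range N, (e.wt (ak k) (loc0 k) + 99) ≤ b := hb
    have hwt : ∀ k < N, e.wt (ak k) (loc0 k) ≤ b := by
      intro k hk
      have h1 : e.wt (ak k) (loc0 k) + 99 ≤
          ∑ k ∈ Finset.range N, (e.wt (ak k) (loc0 k) + 99) :=
        Finset.single_le_sum (f := fun k => e.wt (ak k) (loc0 k) + 99)
          (fun _ _ => Nat.zero_le _) (Finset.mem_range.2 hk)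
      omega
    let s3 : St := ((s2.setv 1 (s2.a 121 0)).setv 2 (s2.a 121 1)).setv 0 0
    have hI0 : LInv s N ak C 0 s3 := by
      refine ⟨rfl, ?_, ?_, ?_, ?_, ?_, ?_, ?_⟩
      · show (((s2.setv 1 (s2.a 121 0)).setv 2 (s2.a 121 1)).setv 0 0).v 1 = N
        rw [CCL.St.setv_v_ne _ (by omega), CCL.St.setv_v_ne _ (by omega), CCL.St.setv_v_self,
          hs0]
      · show (((s2.setv 1 (s2.a 121 0)).setv 2 (s2.a 121 1)).setv 0 0).v 2 = _
        rw [CCL.St.setv_v_ne _ (by omega), CCL.St.setv_v_self, hv2]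
      · intro B hB
        show s2.a B = a B
        rw [ha2 B (by omega), harr1 B hB]
      · intro x hx _
        show s2.a 120 x = 0
        rw [ha2 120 (by omega), ha1 120 (by omega), hloc x hx]
      · intro x hx
        show (((s2.setv 1 (s2.a 121 0)).setv 2 (s2.a 121 1)).setv 0 0).v x = _
        rw [CCL.St.setv_v_ne _ (by omega), CCL.St.setv_v_ne _ (by omega),
          CCL.St.setv_v_ne _ (by omega), hvv2, hvv1]
      · show s2.inp = s.inp
        rw [hi2, hi1]
      · show s2.out = s.out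
        rw [ho2, ho1]
    have hbody : ∀ k < N, ∀ s', LInv s N ak C k s' → ∃ s'' t,
        Run b (blk [lp 0 (.var 0), comp e 0,
          .ite (.lt (sg 0) (.var 2)) (.put A (.var 0) (sg 0)) (.put A (.var 0) (.var 2)),
          .set 0 (.add (.var 0) (.const 1))]) s' s'' t ∧ t ≤ e.cost (ak k) (loc0 k) + 50 ∧
        LInv s N ak C (k + 1) s'' := by
      intro k hk s' hs'
      let s4 : St := s'.seta 120 0 k
      have hr4 : Run b (lp 0 (.var 0)) s' s4 3 := by
        have := Run.put (b := b) 120 (.const 0) (.var 0) s' (Nat.zero_le _) trivial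
        simp only [CCL.Ex.eval, CCL.Ex.cost, hs'.v0] at this
        exact this
      have harr4 : ∀ B < 120, s4.a B = ak k B := fun B hB => by
        show (s'.seta 120 0 k).a B = _
        rw [CCL.St.seta_a_ne _ (by omega), hs'.arr B hB]
      have hloc4 : ∀ x < 100, s4.a 120 x = loc0 k x := by
        intro x hx
        show (s'.seta 120 0 k).a 120 x = _
        rw [CCL.St.seta_a_self, Function.update_apply]
        unfold loc0
        split_ifs with h1
        · rfl
        · exact hs'.loc x hx h1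
      obtain ⟨s5, t5, hr5, ht5, hv5, ha5, hj5, hvv5, hi5, ho5⟩ := comp_spec e he 0 (loc0 k) (ak k)
        b s4 harr4 hloc4 (hwt k hk) (by omega)
      have hv50 : s5.v 0 = k := by
        rw [hvv5]
        exact hs'.v0
      have hv52 : s5.v 2 = C := by
        rw [hvv5]
        exact hs'.v2
      have hNb : N ≤ b := by
        have h1 : N ≤ ∑ k ∈ Finset.range N, (e.wt (ak k) (loc0 k) + 99) := by
          calc N = ∑ k ∈ Finset.range N, 1 := by simp
            _ ≤ _ := Finset.sum_le_sum fun k _ => by omega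
        omega
      let w := min (e.eval (ak k) (loc0 k)) C
      have hite : ∃ t, t ≤ 9 ∧ Run b (.ite (.lt (sg 0) (.var 2)) (.put A (.var 0) (sg 0))
          (.put A (.var 0) (.var 2))) s5 (s5.seta A k w) t := by
        by_cases hlt : s5.a 121 0 < s5.v 2
        · have hput : Run b (.put A (.var 0) (sg 0)) s5 (s5.seta A k w) 4 := by
            have := Run.put (b := b) A (.var 0) (sg 0) s5 trivial (Nat.zero_le _)
            simp only [CCL.Ex.eval, CCL.Ex.cost, sg, hv50] at this
            have hw : w = s5.a 121 0 := by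
              show min _ _ = _
              rw [hv5, hv52] at hlt
              rw [hv5]
              exact min_eq_left hlt.le
            rw [hw]
            exact this
          refine ⟨_, ?_, .ite_pos _ ⟨Nat.zero_le _, trivial⟩ hlt hput⟩
          simp only [CCL.Cn.cost, sg, CCL.Ex.cost]
          omega
        · have hput : Run b (.put A (.var 0) (.var 2)) s5 (s5.seta A k w) 3 := by
            have := Run.put (b := b) A (.var 0) (.var 2) s5 trivial trivial
            simp only [CCL.Ex.eval, CCL.Ex.cost, hv50] at this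
            have hw : w = s5.v 2 := by
              show min _ _ = _
              rw [hv5, hv52] at hlt
              rw [hv52]
              exact min_eq_right (not_lt.1 hlt)
            rw [hw]
            exact this
          refine ⟨_, ?_, .ite_neg _ ⟨Nat.zero_le _, trivial⟩ hlt hput⟩
          simp only [CCL.Cn.cost, sg, CCL.Ex.cost]
          omega
      obtain ⟨t7, ht7, hr7⟩ := hite
      refine ⟨_, _, .seq hr4 (.seq hr5 (.seq hr7
        (.seq (.set 0 (.add (.var 0) (.const 1)) _ ?_) (.skip _)))), ?_, ?_⟩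
      · refine ⟨trivial, ?_, ?_⟩
        · show 1 ≤ b
          omega
        · show s5.v 0 + 1 ≤ b
          omega
      · simp only [CCL.Ex.cost]
        omega
      · refine ⟨?_, ?_, ?_, ?_, ?_, ?_, ?_, ?_⟩
        · rw [CCL.St.setv_v_self]
          show s5.v 0 + 1 = k + 1
          rw [hv50]
        · rw [CCL.St.setv_v_ne _ (by omega), CCL.St.seta_v, hvv5]
          exact hs'.v1
        · rw [CCL.St.setv_v_ne _ (by omega), CCL.St.seta_v, hvv5]
          exact hs'.v2
        · intro B hB
          rw [CCL.St.setv_a, hak1]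
          exact seta_arr (fun B hB => by rw [ha5 B (by omega), harr4 B hB]) _ _ B hB
        · intro x hx hx0
          rw [CCL.St.setv_a, CCL.St.seta_a_ne _ (by omega), ha5 120 (by omega), hloc4 x hx]
          unfold loc0
          rw [if_neg hx0]
        · intro x hx
          rw [CCL.St.setv_v_ne _ (by omega), CCL.St.seta_v, hvv5]
          exact hs'.vx x hx
        · rw [CCL.St.setv_inp, CCL.St.seta_inp, hi5]
          exact hs'.inp
        · rw [CCL.St.setv_out, CCL.St.seta_out, ho5]
          exact hs'.out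
    obtain ⟨s6, t6, hr6, ht6, hI6⟩ := loop_count (b := b) (N := N)
      (c := fun k => e.cost (ak k) (loc0 k) + 50) (fun k s' hs' => ⟨hs'.v0, hs'.v1⟩) hbody N 0
      (by omega) s3 hI0
    refine ⟨_, _, .seq hr1 (.seq hr2 (.seq (.set 1 (sg 0) s2 (Nat.zero_le _))
      (.seq (.set 2 (sg 1) _ (show 1 ≤ b by omega)) (.seq (.set 0 (.const 0) _
      (Nat.zero_le _)) (.seq hr6 (.seq (.put 120 (.const 0) (.const 0) s6 (Nat.zero_le _)
      (Nat.zero_le _)) (.skip _))))))), ?_, ⟨?_, ?_⟩, ?_, ?_, ?_⟩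
    · simp only [Stg.cost, sg, CCL.Ex.cost]
      have h1 : ∑ i ∈ Finset.range N, (e.cost (ak (0 + i)) (loc0 (0 + i)) + 50 + 3) ≤
          ∑ k ∈ Finset.range N, (e.cost (ak k) (loc0 k) + 99) :=
        Finset.sum_le_sum fun i _ => by
          rw [zero_add]
          omega
      have h2 := ht6.trans (Nat.add_le_add_right h1 3)
      show t1 + (t2 + (1 + 2 + (1 + 2 + (1 + 1 + (t6 + (1 + 1 + 1 + 1)))))) ≤
        n.cost a (loc0 0) + c.cost a (loc0 0) + 99 +
        ∑ k ∈ Finset.range N, (e.cost (ak k) (loc0 k) + 99)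
      omega
    · intro B hB
      rw [CCL.St.seta_a_ne _ (by omega), hI6.arr B hB]
      rfl
    · intro x hx
      rw [CCL.St.seta_a_self]
      show Function.update (s6.a 120) 0 0 x = 0
      rw [Function.update_apply]
      by_cases h1 : x = 0
      · rw [if_pos h1]
      · rw [if_neg h1]
        exact hI6.loc x hx h1
    · intro x hx
      rw [CCL.St.seta_v]
      exact hI6.vx x hx
    · rw [CCL.St.seta_inp]
      exact hI6.inp
    · rw [CCL.St.seta_out]
      exact hI6.out

theorem cStgs_spec (l : List Stg) (hl : ∀ g ∈ l, g.wf = true) {a : Ar} {s : St} {b : ℕ}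
    (h : Holds s a) (hb : Stg.wts l a ≤ b) (hb' : 100 + (l.map Stg.sd).sum ≤ b) :
    ∃ (s' : St) (t : ℕ), Run b (cStgs l) s s' t ∧ t ≤ Stg.costs l a ∧
      Holds s' (Stg.runs l a) ∧
      (∀ x, 3 ≤ x → s'.v x = s.v x) ∧ s'.inp = s.inp ∧ s'.out = s.out := by
  induction l generalizing a s with
  | nil => exact ⟨s, _, .skip s, by simp [Stg.costs], h, fun _ _ => rfl, rfl, rfl⟩
  | cons g l ih =>
    simp only [Stg.wts] at hb
    simp only [List.map_cons, List.sum_cons] at hb'
    obtain ⟨s1, t1, hr1, ht1, hH1, hv1, hi1, ho1⟩ := cStg_spec (b := b) g (hl g List.mem_cons_self) h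
      (by omega) (by omega)
    obtain ⟨s2, t2, hr2, ht2, hH2, hv2, hi2, ho2⟩ := ih
      (fun g' hg' => hl g' (List.mem_cons_of_mem _ hg')) hH1 (by omega) (by omega)
    refine ⟨s2, _, .seq hr1 hr2, ?_, hH2, fun x hx => by rw [hv2 x hx, hv1 x hx],
      by rw [hi2, hi1], by rw [ho2, ho1]⟩
    simp only [Stg.costs]
    omega

end Pool.Agent.OMVU
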