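import Pool.Agent.OMVU.Arrays
import Pool.Agent.OMVU.StgComp

/-! The program in the structured language. -/

namespace Pool.Agent.OMVU

open Finset
open CCL (Ex Cn Prog St Run blk)

/-- The bits of the matrix, row by row. -/
def matL (m n : ℕ) (X : ℕ → ℕ → ℕ) : List ℕ :=
  (List.range m).flatMap fun r => (List.range n).map (X r)

/-- The bits of a vector. -/
def vecL (n : ℕ) (x : ℕ → ℕ) : List ℕ := (List.range n).map x

/-- Read the size of the matrix and the matrix. -/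
def rdMat : Prog := blk [
  .read 3, .put sm (.const 0) (.var 3), .read 4, .put sn (.const 0) (.var 4),
  .set 5 (.const 0), .set 6 (.const 0),
  .loop (.lt (.var 6) (.var 3)) (blk [
    .set 7 (.const 0),
    .loop (.lt (.var 7) (.var 4)) (blk [
      .read 8, .put aX (.var 5) (.var 8),
      .set 5 (.add (.var 5) (.const 1)), .set 7 (.add (.var 7) (.const 1))]),
    .set 6 (.add (.var 6) (.const 1))])]

/-- Read a vector. -/
def rdVec : Prog := blk [
  .set 3 (.get sn (.const 0)), .set 4 (.const 0),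
  .loop (.lt (.var 4) (.var 3)) (blk [
    .read 5, .put aV (.var 4) (.var 5), .set 4 (.add (.var 4) (.const 1))])]

/-- Write the product. -/
def wrOut : Prog := blk [
  .set 3 (.get sm (.const 0)), .set 4 (.const 0),
  .loop (.lt (.var 4) (.var 3)) (blk [
    .write (.get aOUT (.var 4)), .set 4 (.add (.var 4) (.const 1))])]

/-- The preprocessing. -/
def prePr : Prog := blk [rdMat, cStgs preL]

/-- A query. -/
def qPr : Prog := blk [rdVec, cStgs qryL, wrOut]

/-- The arrays after reading the matrix. -/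
def ar0 (m n : ℕ) (X : ℕ → ℕ → ℕ) : Ar := fun A k =>
  if A = aX then (if k < m * n then X (k / n) (k % n) else 0)
  else if A = sm then (if k = 0 then m else 0)
  else if A = sn then (if k = 0 then n else 0) else 0

/-- Write the vector. -/
def setV (n : ℕ) (x : ℕ → ℕ) (a : Ar) : Ar := fun A k => if A = aV ∧ k < n then x k else a A k

/-! ### Auxiliary statements -/

theorem vecL_drop {n k : ℕ} {x : ℕ → ℕ} (hk : k < n) :
    (vecL n x).drop k = x k :: (vecL n x).drop (k + 1) := by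
  have h : k < (vecL n x).length := by simpa [vecL] using hk
  rw [List.drop_eq_getElem_cons h]
  simp [vecL]

theorem vecL_drop_all (n : ℕ) (x : ℕ → ℕ) : (vecL n x).drop n = [] :=
  List.drop_eq_nil_of_le (by simp [vecL])

theorem matL_eq (m n : ℕ) (X : ℕ → ℕ → ℕ) :
    matL m n X = vecL (m * n) fun k => X (k / n) (k % n) := by
  induction m with
  | zero => simp [matL, vecL]
  | succ m ih =>
    have h1 : matL (m + 1) n X = matL m n X ++ (List.range n).map (X m) := by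
      simp [matL, List.range_succ]
    rw [h1, ih, vecL, vecL, Nat.succ_mul, List.range_add, List.map_append, List.map_map]
    congr 1
    refine List.map_congr_left fun i hi => ?_
    have hi' := List.mem_range.1 hi
    simp only [Function.comp]
    rw [Nat.mul_comm m n, Nat.mul_add_div (by omega), Nat.div_eq_of_lt hi', Nat.add_zero,
      Nat.mul_add_mod, Nat.mod_eq_of_lt hi']

/-- Counting loops. -/
theorem loop_cnt {b N c x y : ℕ} {body : Prog} {I : ℕ → St → Prop}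
    (h0 : ∀ k s, I k s → s.v x = k ∧ s.v y = N)
    (hb : ∀ k < N, ∀ s, I k s → CCL.Sp b body s fun s' t => t ≤ c ∧ I (k + 1) s') :
    ∀ (m k : ℕ), k + m = N → ∀ s, I k s →
      CCL.Sp b (.loop (.lt (.var x) (.var y)) body) s fun s' t =>
        t ≤ m * (c + 3) + 3 ∧ I N s' := by
  intro m
  induction m with
  | zero =>
    intro k hk s hs
    have hk' : k = N := hk
    subst hk'
    obtain ⟨h1, h2⟩ := h0 _ _ hs
    refine ⟨s, _, .loop_end body ⟨trivial, trivial⟩ ?_, ?_, hs⟩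
    · show ¬ s.v x < s.v y
      rw [h1, h2]
      exact lt_irrefl _
    · simp
  | succ m ih =>
    intro k hk s hs
    obtain ⟨h1, h2⟩ := h0 _ _ hs
    obtain ⟨s1, t1, hr1, ht1, hI1⟩ := hb k (by omega) s hs
    obtain ⟨s2, t2, hr2, ht2, hI2⟩ := ih (k + 1) (by omega) s1 hI1
    refine ⟨s2, _, .loop_step ⟨trivial, trivial⟩ ?_ hr1 hr2, ?_, hI2⟩
    · show s.v x < s.v y
      rw [h1, h2]
      omega
    · have h3 : (m + 1) * (c + 3) = m * (c + 3) + (c + 3) := by ring
      rw [h3]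
      simp only [CCL.Cn.cost, CCL.Ex.cost]
      omega

/-- The arrays when `i` entries of the matrix are read. -/
def arI (m n : ℕ) (Y : ℕ → ℕ) (i : ℕ) : Ar := fun A k =>
  if A = aX then (if k < i then Y k else 0)
  else if A = sm then (if k = 0 then m else 0)
  else if A = sn then (if k = 0 then n else 0) else 0

/-- The state when `i` entries of the matrix are read. -/
structure RInv (m n : ℕ) (Y : ℕ → ℕ) (l o : List ℕ) (i : ℕ) (s : St) : Prop where
  v3 : s.v 3 = m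
  v4 : s.v 4 = n
  v5 : s.v 5 = i
  arr : ∀ A < 120, s.a A = arI m n Y i A
  loc : ∀ x < 100, s.a 120 x = 0
  inp : s.inp = (vecL (m * n) Y).drop i ++ l
  out : s.out = o

theorem arI_succ (m n : ℕ) (Y : ℕ → ℕ) (i : ℕ) :
    setA (arI m n Y i) aX i (Y i) = arI m n Y (i + 1) := by
  funext A k
  unfold setA arI
  by_cases hA : A = aX
  · subst hA
    by_cases hk : k = i
    · subst hk
      simp
    · have h1 : (k < i + 1) = (k < i) := by
        apply propext
        omega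
      simp [hk, h1]
  · simp [hA]

theorem rd_step {b m n i j : ℕ} {Y : ℕ → ℕ} {l o : List ℕ} {s : St}
    (h : RInv m n Y l o i s) (hi : i < m * n) (h7 : s.v 7 = j) (hb : m * n + n + 200 ≤ b)
    (hj : j < n) :
    CCL.Sp b (blk [
      .read 8, .put aX (.var 5) (.var 8),
      .set 5 (.add (.var 5) (.const 1)), .set 7 (.add (.var 7) (.const 1))]) s
      fun s' t => t ≤ 13 ∧ RInv m n Y l o (i + 1) s' ∧ s'.v 6 = s.v 6 ∧ s'.v 7 = j + 1 := by
  have hin : s.inp = Y i :: ((vecL (m * n) Y).drop (i + 1) ++ l) := by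
    rw [h.inp, vecL_drop hi, List.cons_append]
  refine CCL.Sp.cons (CCL.Sp.read hin (CCL.Sp.cons (CCL.Sp.put trivial trivial
    (CCL.Sp.cons (CCL.Sp.set ⟨trivial, ?_, ?_⟩ (CCL.Sp.cons (CCL.Sp.set ⟨trivial, ?_, ?_⟩
    (CCL.Sp.nil ⟨?_, ⟨?_, ?_, ?_, ?_, ?_, ?_, ?_⟩, ?_, ?_⟩))))))))
  · show 1 ≤ b
    omega
  · show s.v 5 + 1 ≤ b
    rw [h.v5]
    omega
  · show 1 ≤ b
    omega
  · show s.v 7 + 1 ≤ b
    omega
  · simp
  · exact h.v3
  · exact h.v4
  · show s.v 5 + 1 = i + 1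
    rw [h.v5]
  · show ∀ A < 120, (((s.setv 8 (Y i)).seti _).seta aX (s.v 5) (Y i)).a A = _
    rw [h.v5, ← arI_succ]
    exact seta_arr (s := ((s.setv 8 (Y i)).seti _)) (fun B hB => h.arr B hB) _ _
  · intro x hx
    simp only [CCL.St.setv_a]
    rw [CCL.St.seta_a_ne _ (by decide)]
    exact h.loc x hx
  · rfl
  · exact h.out
  · rfl
  · show s.v 7 + 1 = j + 1
    rw [h7]

/-- The state when `i` entries of the vector are read. -/
structure VInv (n : ℕ) (x : ℕ → ℕ) (a : Ar) (l o : List ℕ) (i : ℕ) (s : St) : Prop where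
  v3 : s.v 3 = n
  v4 : s.v 4 = i
  arr : ∀ A < 120, s.a A = setV i x a A
  loc : ∀ x < 100, s.a 120 x = 0
  inp : s.inp = (vecL n x).drop i ++ l
  out : s.out = o

theorem setV_zero (x : ℕ → ℕ) (a : Ar) : setV 0 x a = a := by
  funext A k
  simp [setV]

theorem setV_succ (x : ℕ → ℕ) (a : Ar) (i : ℕ) :
    setA (setV i x a) aV i (x i) = setV (i + 1) x a := by
  funext A k
  unfold setA setV
  by_cases hA : A = aV
  · subst hA
    by_cases hk : k = i
    · subst hk
      simp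
    · have h1 : (k < i + 1) = (k < i) := by
        apply propext
        omega
      simp [hk, h1]
  · simp [hA]

theorem ord_wf {l : List Stg} (h : Stg.ord l = true) : ∀ g ∈ l, g.wf = true := by
  induction l with
  | nil => intro g hg; simp at hg
  | cons g l ih =>
    simp only [Stg.ord, Bool.and_eq_true] at h
    intro g' hg'
    rcases List.mem_cons.1 hg' with rfl | hg'
    · exact h.1.1.1
    · exact ih h.2 g' hg'

theorem rdMat_spec {b m n : ℕ} {X : ℕ → ℕ → ℕ} {l : List ℕ} {s : St} (hv : s.v = fun _ => 0)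
    (ha : s.a = fun _ _ => 0) (hi : s.inp = m :: n :: (matL m n X ++ l))
    (hb : m * n + m + n + 200 ≤ b) :
    ∃ (s' : St) (t : ℕ), Run b rdMat s s' t ∧ t ≤ 100 * (m * n + m + 1) ∧
      Holds s' (ar0 m n X) ∧ s'.inp = l ∧ s'.out = s.out := by
  rw [matL_eq] at hi
  set Y : ℕ → ℕ := fun k => X (k / n) (k % n) with hY
  have har : ar0 m n X = arI m n Y (m * n) := rfl
  rw [har]
  -- the inner loop
  have hin : ∀ r < m, ∀ s', (RInv m n Y l s.out (r * n) s' ∧ s'.v 6 = r) →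
      CCL.Sp b (blk [
        .set 7 (.const 0),
        .loop (.lt (.var 7) (.var 4)) (blk [
          .read 8, .put aX (.var 5) (.var 8),
          .set 5 (.add (.var 5) (.const 1)), .set 7 (.add (.var 7) (.const 1))]),
        .set 6 (.add (.var 6) (.const 1))]) s' fun s'' t => t ≤ n * 16 + 10 ∧
          (RInv m n Y l s.out ((r + 1) * n) s'' ∧ s''.v 6 = r + 1) := by
    rintro r hr s' ⟨h1, h6⟩
    refine CCL.Sp.cons (CCL.Sp.set (Nat.zero_le _) (CCL.Sp.cons (CCL.Sp.mono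
      (loop_cnt (c := 13) (N := n)
        (I := fun k s1 => RInv m n Y l s.out (r * n + k) s1 ∧ s1.v 6 = r ∧ s1.v 7 = k)
        (fun k s1 h => ⟨h.2.2, h.1.v4⟩) ?_ n 0 (by omega) _ ⟨?_, ?_, ?_⟩) ?_)))
    · rintro k hk s1 ⟨h2, h3, h4⟩
      refine CCL.Sp.mono (rd_step h2 ?_ h4 (by omega) hk) ?_
      · calc r * n + k < r * n + n := by omega
          _ = (r + 1) * n := by ring
          _ ≤ m * n := Nat.mul_le_mul_right _ hr
      · rintro s2 t ⟨h5, h6, h7, h8⟩
        exact ⟨h5, h6, h7.trans h3, h8⟩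
    · exact ⟨h1.v3, h1.v4, h1.v5, h1.arr, h1.loc, h1.inp, h1.out⟩
    · exact h6
    · rfl
    · rintro s1 t1 ⟨ht, h2, h3, h4⟩
      have h5 : r * n + n = (r + 1) * n := by ring
      rw [h5] at h2
      refine CCL.Sp.cons (CCL.Sp.set ⟨trivial, ?_, ?_⟩ (CCL.Sp.nil ⟨?_, ⟨h2.v3, h2.v4, h2.v5,
        h2.arr, h2.loc, h2.inp, h2.out⟩, ?_⟩))
      · show 1 ≤ b
        omega
      · show s1.v 6 + 1 ≤ b
        omega
      · simp only [CCL.Ex.cost]
        omega
      · show s1.v 6 + 1 = r + 1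
        rw [h3]
  have hout := loop_cnt (b := b) (c := n * 16 + 10) (N := m) (x := 6) (y := 3)
    (I := fun k s1 => RInv m n Y l s.out (k * n) s1 ∧ s1.v 6 = k)
    (fun k s1 h => ⟨h.2, h.1.v3⟩) hin m 0 (by omega)
  refine CCL.Sp.cons (CCL.Sp.read hi (CCL.Sp.cons (CCL.Sp.put (Nat.zero_le _) trivial
    (CCL.Sp.cons (CCL.Sp.read rfl (CCL.Sp.cons (CCL.Sp.put (Nat.zero_le _) trivial
    (CCL.Sp.cons (CCL.Sp.set (Nat.zero_le _) (CCL.Sp.cons (CCL.Sp.set (Nat.zero_le _)
    (CCL.Sp.cons (CCL.Sp.mono (hout _ ⟨⟨?_, ?_, ?_, ?_, ?_, ?_, ?_⟩, ?_⟩) ?_)))))))))))))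
  · rfl
  · rfl
  · exact (Nat.zero_mul n).symm
  · intro A hA
    rw [Nat.zero_mul]
    funext k
    simp only [CCL.St.seta, CCL.St.setv, CCL.St.seti, ha, arI, Function.update_apply,
      CCL.Ex.eval]
    by_cases h1 : A = sn
    · subst h1
      simp [Function.update_apply]
    · by_cases h2 : A = sm
      · subst h2
        simp [Function.update_apply]
      · simp [h1, h2]
  · intro x hx
    simp [CCL.St.seta, CCL.St.setv, CCL.St.seti, ha]
  · simp
  · rfl
  · rfl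
  · rintro s1 t1 ⟨ht, h1, h6⟩
    refine CCL.Sp.nil ⟨?_, ⟨h1.arr, h1.loc⟩, ?_, h1.out⟩
    · have h2 : m * (n * 16 + 10 + 3) = 16 * (m * n) + 13 * m := by ring
      rw [h2] at ht
      simp only [CCL.Ex.cost]
      omega
    · rw [h1.inp, vecL_drop_all]
      rfl

theorem rdVec_spec {b n : ℕ} {x : ℕ → ℕ} {l : List ℕ} {s : St} {a : Ar} (h : Holds s a)
    (hn : a sn 0 = n) (hi : s.inp = vecL n x ++ l) (hb : n + 200 ≤ b) :
    ∃ (s' : St) (t : ℕ), Run b rdVec s s' t ∧ t ≤ 100 * (n + 1) ∧ Holds s' (setV n x a) ∧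
      s'.inp = l ∧ s'.out = s.out := by
  have hloop := loop_cnt (b := b) (c := 13) (N := n) (x := 4) (y := 3)
    (body := blk [.read 5, .put aV (.var 4) (.var 5), .set 4 (.add (.var 4) (.const 1))])
    (I := fun k s1 => VInv n x a l s.out k s1) (fun k s1 h => ⟨h.v4, h.v3⟩) ?_ n 0 (by omega)
  · refine CCL.Sp.cons (CCL.Sp.set (Nat.zero_le _) (CCL.Sp.cons (CCL.Sp.set (Nat.zero_le _)
      (CCL.Sp.cons (CCL.Sp.mono (hloop _ ⟨?_, ?_, ?_, ?_, ?_, ?_⟩) ?_)))))
    · exact congrFun (h.arr sn (by decide)) 0 |>.trans hn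
    · rfl
    · intro A hA
      rw [setV_zero]
      exact h.arr A hA
    · exact h.loc
    · exact hi
    · rfl
    · rintro s1 t1 ⟨ht, h1⟩
      refine CCL.Sp.nil ⟨?_, ⟨h1.arr, h1.loc⟩, ?_, h1.out⟩
      · simp only [CCL.Ex.cost]
        omega
      · rw [h1.inp, vecL_drop_all]
        rfl
  · intro k hk s1 h1
    have hin : s1.inp = x k :: ((vecL n x).drop (k + 1) ++ l) := by
      rw [h1.inp, vecL_drop hk, List.cons_append]
    refine CCL.Sp.cons (CCL.Sp.read hin (CCL.Sp.cons (CCL.Sp.put trivial trivial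
      (CCL.Sp.cons (CCL.Sp.set ⟨trivial, ?_, ?_⟩ (CCL.Sp.nil ⟨?_, ?_, ?_, ?_, ?_, ?_, ?_⟩))))))
    · show 1 ≤ b
      omega
    · show s1.v 4 + 1 ≤ b
      rw [h1.v4]
      omega
    · simp
    · exact h1.v3
    · show s1.v 4 + 1 = k + 1
      rw [h1.v4]
    · show ∀ A < 120, (((s1.setv 5 (x k)).seti _).seta aV (s1.v 4) (x k)).a A = _
      rw [h1.v4, ← setV_succ]
      exact seta_arr (s := ((s1.setv 5 (x k)).seti _)) (fun B hB => h1.arr B hB) _ _
    · intro y hy
      simp only [CCL.St.setv_a]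
      rw [CCL.St.seta_a_ne _ (by decide)]
      exact h1.loc y hy
    · rfl
    · exact h1.out

theorem wrOut_spec {b m : ℕ} {s : St} {a : Ar} (h : Holds s a) (hm : a sm 0 = m)
    (hb : m + 200 ≤ b) :
    ∃ (s' : St) (t : ℕ), Run b wrOut s s' t ∧ t ≤ 100 * (m + 1) ∧ Holds s' a ∧
      s'.inp = s.inp ∧ s'.out = s.out ++ (List.range m).map (a aOUT) := by
  have hloop := loop_cnt (b := b) (c := 8) (N := m) (x := 4) (y := 3)
    (body := blk [.write (.get aOUT (.var 4)), .set 4 (.add (.var 4) (.const 1))])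
    (I := fun k s1 => s1.v 4 = k ∧ s1.v 3 = m ∧ s1.a = s.a ∧ s1.inp = s.inp ∧
      s1.out = s.out ++ (List.range k).map (a aOUT)) (fun k s1 h => ⟨h.1, h.2.1⟩) ?_ m 0
      (by omega)
  · refine CCL.Sp.cons (CCL.Sp.set (Nat.zero_le _) (CCL.Sp.cons (CCL.Sp.set (Nat.zero_le _)
      (CCL.Sp.cons (CCL.Sp.mono (hloop _ ⟨?_, ?_, ?_, ?_, ?_⟩) ?_)))))
    · rfl
    · exact congrFun (h.arr sm (by decide)) 0 |>.trans hm
    · rfl
    · rfl
    · simp
    · rintro s1 t1 ⟨ht, h1, h2, h3, h4, h5⟩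
      refine CCL.Sp.nil ⟨?_, ⟨?_, ?_⟩, h4, h5⟩
      · simp only [CCL.Ex.cost]
        omega
      · rw [h3]
        exact h.arr
      · rw [h3]
        exact h.loc
  · rintro k hk s1 ⟨h1, h2, h3, h4, h5⟩
    refine CCL.Sp.cons (CCL.Sp.write trivial (CCL.Sp.cons (CCL.Sp.set ⟨trivial, ?_, ?_⟩
      (CCL.Sp.nil ⟨?_, ?_, h2, h3, h4, ?_⟩))))
    · show 1 ≤ b
      omega
    · show s1.v 4 + 1 ≤ b
      omega
    · simp
    · show s1.v 4 + 1 = k + 1
      rw [h1]
    · show s1.out ++ [s1.a aOUT (s1.v 4)] = _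
      rw [h5, h3, h1, h.arr aOUT (by decide), List.range_succ, List.map_append,
        List.append_assoc]
      rfl

theorem pre_run {b m n : ℕ} {X : ℕ → ℕ → ℕ} {l : List ℕ} {s : St} (hv : s.v = fun _ => 0)
    (ha : s.a = fun _ _ => 0) (hi : s.inp = m :: n :: (matL m n X ++ l))
    (hb : Stg.wts preL (ar0 m n X) + 100 + (preL.map Stg.sd).sum + m * n + m + n + 200 ≤ b) :
    ∃ (s' : St) (t : ℕ), Run b prePr s s' t ∧
      t ≤ Stg.costs preL (ar0 m n X) + 100 * (m * n + m + 2) ∧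
      Holds s' (Stg.runs preL (ar0 m n X)) ∧ s'.inp = l ∧ s'.out = s.out := by
  obtain ⟨s1, t1, hr1, ht1, hH1, hi1, ho1⟩ := rdMat_spec (b := b) (m := m) (n := n) (X := X)
    (l := l) hv ha hi (by omega)
  obtain ⟨s2, t2, hr2, ht2, hH2, -, hi2, ho2⟩ := cStgs_spec preL (ord_wf preL_ord) (b := b) hH1
    (by omega) (by omega)
  exact ⟨s2, _, .seq hr1 (.seq hr2 (.skip _)), by omega, hH2, hi2.trans hi1, ho2.trans ho1⟩

/-- A query leads from `a` to `qst n x a`. -/
def qst (n : ℕ) (x : ℕ → ℕ) (a : Ar) : Ar := Stg.runs qryL (setV n x a)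

theorem qry_run {b m n : ℕ} {x : ℕ → ℕ} {l : List ℕ} {s : St} {a : Ar} (h : Holds s a)
    (hm : a sm 0 = m) (hn : a sn 0 = n) (hi : s.inp = vecL n x ++ l)
    (hb : Stg.wts qryL (setV n x a) + 100 + (qryL.map Stg.sd).sum + m + n + 200 ≤ b) :
    ∃ (s' : St) (t : ℕ), Run b qPr s s' t ∧
      t ≤ Stg.costs qryL (setV n x a) + 100 * (m + n + 3) ∧ Holds s' (qst n x a) ∧
      s'.inp = l ∧ s'.out = s.out ++ (List.range m).map (qst n x a aOUT) := by
  obtain ⟨s1, t1, hr1, ht1, hH1, hi1, ho1⟩ := rdVec_spec (b := b) h hn hi (by omega)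
  obtain ⟨s2, t2, hr2, ht2, hH2, -, hi2, ho2⟩ := cStgs_spec qryL (ord_wf qryL_ord) (b := b) hH1
    (by omega) (by omega)
  have hm2 : qst n x a sm 0 = m := by
    unfold qst
    rw [Stg.runs_ne qryL _ (B := sm) (by simp [qryL, gXS, gAD, gZ, gW, gOUT, Stg.tgt])]
    simpa [setV] using hm
  obtain ⟨s3, t3, hr3, ht3, hH3, hi3, ho3⟩ := wrOut_spec (b := b) hH2 hm2 (by omega)
  exact ⟨s3, _, .seq hr1 (.seq hr2 (.seq hr3 (.skip _))), by omega, hH3,
    hi3.trans (hi2.trans hi1), by rw [ho3, ho2, ho1]; rfl⟩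

end Pool.Agent.OMVU
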