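import Pool.Agent.OMVU.OutT
import Pool.Agent.OMVU.AdrT
import Pool.Agent.OMVU.Gad1
import Pool.Agent.OMVU.Gad2

/-! The output is the product of the matrix and the vector. -/

namespace Pool.Agent.OMVU

open Finset

variable {m n b : ℕ} {X : ℕ → ℕ → ℕ} {x : ℕ → ℕ} {a : Ar} {mt : ℕ → ℕ → ℕ}
  {fd : FD (pe b) (pq b) mt}

/-- The lowest bit of a sum. -/
theorem low_sum {e q : ℕ} {mt : ℕ → ℕ → ℕ} (fd : FD e q mt) {k : ℕ} (hq : q = 2 ^ k) (n : ℕ)
    (f : ℕ → ℕ) (hf : ∀ i < n, f i < q) : ∀ z < q, fd.φ z = ∑ i ∈ range n, fd.φ (f i) →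
    z % 2 = (∑ i ∈ range n, f i) % 2 := by
  induction n with
  | zero =>
    intro z hz h
    rw [sum_range_zero, ← fd.zero] at h
    have h0 : z = 0 := fd.inj z hz 0 (by omega) h
    rw [h0, sum_range_zero]
  | succ n ih =>
    intro z hz h
    have hfn := hf n (Nat.lt_succ_self n)
    have h1 : z ^^^ f n < q := by
      rw [hq] at hz hfn ⊢
      exact Nat.xor_lt_two_pow hz hfn
    have h2 : fd.φ (z ^^^ f n) = ∑ i ∈ range n, fd.φ (f i) := by
      rw [fd.add z hz _ hfn, h, sum_range_succ, add_assoc, CharTwo.add_self_eq_zero, add_zero]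
    have h3 := ih (fun i hi => hf i (by omega)) _ h1 h2
    rw [Nat.xor_mod_two_eq] at h3
    rw [sum_range_succ]
    omega

/-- The table depends only on the symbols `k < K`. -/
theorem tab_congr (fd : FD (pe b) (pq b) mt) (cd sg bl : ℕ → ℕ) (μ : ℕ → ℕ → fd.F) (u : ℕ)
    {y y' : ℕ → fd.F} (h : ∀ k < pK b, y k = y' k) :
    tabF fd cd sg bl μ u y = tabF fd cd sg bl μ u y' := by
  have hl : 1 ≤ pl b := by
    have : 1 ≤ pD b := Nat.one_le_two_pow
    unfold pl
    omega
  have hK : pK b = pl b * 4096 := rfl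
  have h1 : ∀ w, esy fd w y = esy fd w y' := by
    intro w
    unfold esy
    refine sum_congr rfl (fun J hJ => prod_congr rfl (fun j hj => ?_))
    have hj' : j < pl b := mem_range.1 ((mem_powersetCard.1 hJ).1 hj)
    have hd : dg 4096 w j < 4096 := Nat.mod_lt _ (by norm_num)
    apply h
    rw [hK]
    exact idx_lt hj' hd
  unfold tabF
  simp only [h1]
  rw [h 0 (by rw [hK]; omega)]

/-- Sums over groups, symbols and bits. -/
theorem sum_three {A : Type*} [AddCommMonoid A] (G N e : ℕ) (F : ℕ → A) :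
    ∑ i ∈ range G, ∑ l ∈ range N, ∑ j ∈ range e, F (i * (N * e) + (l * e + j)) =
      ∑ c ∈ range (G * (N * e)), F c := by
  have h1 : ∀ (a b : ℕ) (F : ℕ → A), ∑ i ∈ range a, ∑ j ∈ range b, F (i * b + j) =
      ∑ c ∈ range (a * b), F c := by
    intro a b F
    induction a with
    | zero => simp
    | succ a ih => rw [sum_range_succ, ih, Nat.succ_mul, sum_range_add]
  rw [← h1 G (N * e) F]
  refine sum_congr rfl (fun i _ => ?_)
  rw [← h1 N e (fun c => F (i * (N * e) + c))]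

/-- The scalar product. -/
theorem sum_ext0 {T : ℕ} (hT : n ≤ T) {r : ℕ} (hr : r < m) :
    ∑ c ∈ range T, xm m n X r c * xv n x c = ∑ c ∈ range n, X r c * x c := by
  rw [← sum_subset (range_subset_range.2 hT)
    (f := fun c => xm m n X r c * xv n x c)]
  · refine sum_congr rfl (fun c hc => ?_)
    have hc' := mem_range.1 hc
    simp only [xm, xv]
    rw [if_pos ⟨hr, hc'⟩, if_pos hc']
  · intro c _ hc
    rw [mem_range] at hc
    simp only [xv]
    rw [if_neg hc, mul_zero]

/-- The parity of a symbol product. -/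
theorem par_bits {e : ℕ} {f g : ℕ → ℕ} (hf : ∀ j < e, f j ≤ 1) (hg : ∀ j < e, g j ≤ 1) :
    par e (∑ j ∈ range e, f j * 2 ^ j) (∑ j ∈ range e, g j * 2 ^ j) =
      (∑ j ∈ range e, f j * g j) % 2 := by
  unfold par
  congr 1
  refine sum_congr rfl (fun j hj => ?_)
  have hj' := mem_range.1 hj
  have h1 := (dg_sum (B := 2) (K := e) (f := f) two_pos
    (fun k hk => Nat.lt_succ_of_le (hf k hk))).2 j hj'
  have h2 := (dg_sum (B := 2) (K := e) (f := g) two_pos
    (fun k hk => Nat.lt_succ_of_le (hg k hk))).2 j hj'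
  unfold dg at h1 h2
  rw [h1, h2]

/-- The cells of one column group. -/
theorem out_group (hB : Big m n b) (hR : RowOK n b a) (hC : CodeOK b (a aCD))
    (μ : ℕ → ℕ → fd.F) (y : ℕ → fd.F) {ρ : ℕ} (hρ : ρ < pR b) :
    ∑ v ∈ range (pG b), decF fd (rnum b ρ) v * tabF fd (a aCD) (a aSG) (a aBL) μ v
        (fun k => ∑ l ∈ range (pN b), coefA fd (a aCD) (a aSG) (a aBL) v k l * y l) +
      ∑ k ∈ range ((nbad b (a aSG) ((ρ + 1) * pB b) - nbad b (a aSG) (ρ * pB b)) * pC b),
        tabF fd (a aCD) (a aSG) (a aBL) μ (pG b + nbad b (a aSG) (ρ * pB b) * pC b + k)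
          (fun k' => ∑ l ∈ range (pN b),
            coefA fd (a aCD) (a aSG) (a aBL) (pG b + nbad b (a aSG) (ρ * pB b) * pC b + k) k' l *
              y l) =
      ∑ l ∈ range (pN b), μ ρ l * y l ^ pD b := by
  rw [gadget_grid hB.four fd hC (a aSG) (a aBL) μ y hρ,
    gadget_bad fd (a aCD) (a aSG) (a aBL) hR.bl_lt hR.bl_bad hR.bl_rank hR.bl_of μ y hρ,
    ← sum_add_distrib]
  refine sum_congr rfl (fun l _ => ?_)
  split_ifs <;> simp

/-- The value of the output in the field. -/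
theorem out_field (hE : Full m n X x a) (hB : Big m n b) (hS : ScalOK m n b a)
    (hF : FldOK b a fd) (hR : RowOK n b a) (hC : CodeOK b (a aCD))
    (hT : TabOK m n b a fd) (hI2 : Idx2 m n b a)
    (hA : AdrOK n b x a fd) (hZ : ZOK m n b a fd) (hW : WOK m n b a fd) {r : ℕ} (hr : r < m) :
    ∃ z < pq b, a aOUT r = z % 2 ∧ fd.φ z = ∑ i ∈ range (nGc n b), ∑ l ∈ range (pN b),
      fd.φ (a aMM (((r / pR b * nGc n b + i) * pR b + r % pR b) * pN b + l)) *
        fd.φ (a aXS (i * pN b + l)) ^ pD b := by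
  obtain ⟨z, hz, hz2, hzφ⟩ := out_ok hE hB hS hF hR hI2 hZ hW
    (fun τ _ p hp => g1_rv_lt hp) hr
  refine ⟨z, hz, hz2, ?_⟩
  rw [hzφ]
  have hRp : 0 < pR b := by
    rcases Nat.eq_zero_or_pos (pR b) with h0 | h0
    · exfalso
      have h1 : 0 < pRb b := Nat.mul_pos (Nat.mul_pos (Nat.two_pow_pos b) (Nat.two_pow_pos b))
        (Nat.mul_pos (Nat.mul_pos (by norm_num) (g1_h b)) (g1_h b))
      have h2 : 0 < pR b := Nat.pow_pos h1
      omega
    · exact h0
  have hρ : r % pR b < pR b := Nat.mod_lt _ hRp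
  have hj : r / pR b < nJ m b := Nat.lt_succ_of_le (Nat.div_le_div_right hr.le)
  have hκ := (rnum_spec hρ (fun p hp => g1_rv_lt hp)).1
  rw [hW.eq _ hj _ hκ]
  -- every value of `Z` is a sum over the column groups
  have hZu : ∀ u < nt b (a aSG),
      fd.φ (a aZ ((r / pR b * nGc n b + (nGc n b - 1)) * nt b (a aSG) + 1 + u)) =
      ∑ i ∈ range (nGc n b), tabF fd (a aCD) (a aSG) (a aBL)
        (fun τ l => fd.φ (a aMM (((r / pR b * nGc n b + i) * pR b + τ) * pN b + l))) u
        (fun k => ∑ l ∈ range (pN b), coefA fd (a aCD) (a aSG) (a aBL) u k l *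
          fd.φ (a aXS (i * pN b + l))) := by
    intro u hu
    rw [hZ.eq _ hj u hu]
    refine sum_congr rfl (fun i hi => ?_)
    have hi' := mem_range.1 hi
    rw [hT.eq _ (idx_lt hj hi') u hu _ (hA.ad_lt i hi' u hu)]
    exact tab_congr fd _ _ _ _ u (fun k hk => hA.ad i hi' u hu k hk)
  have ht : nt b (a aSG) = pG b + nbad b (a aSG) (pR b * pB b) * pC b := rfl
  have hgrid : ∀ v < pG b, v < nt b (a aSG) := fun v hv => by rw [ht]; omega
  have hN12 : nbad b (a aSG) (r % pR b * pB b) ≤ nbad b (a aSG) ((r % pR b + 1) * pB b) :=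
    nbad_mono b _ (Nat.mul_le_mul_right _ (Nat.le_succ _))
  have hN2R : nbad b (a aSG) ((r % pR b + 1) * pB b) ≤ nbad b (a aSG) (pR b * pB b) :=
    nbad_mono b _ (Nat.mul_le_mul_right _ hρ)
  have hbadc : ∀ k < (nbad b (a aSG) ((r % pR b + 1) * pB b) -
      nbad b (a aSG) (r % pR b * pB b)) * pC b,
      pG b + nbad b (a aSG) (r % pR b * pB b) * pC b + k < nt b (a aSG) := by
    intro k hk
    rw [ht]
    generalize nbad b (a aSG) (r % pR b * pB b) = N1 at *
    generalize nbad b (a aSG) ((r % pR b + 1) * pB b) = N2 at *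
    generalize nbad b (a aSG) (pR b * pB b) = N3 at *
    have h1 : N2 * pC b = N1 * pC b + (N2 - N1) * pC b := by
      rw [← Nat.add_mul]
      exact congrArg (· * pC b) (by omega)
    have h2 : N2 * pC b ≤ N3 * pC b := Nat.mul_le_mul_right _ hN2R
    omega
  have e1 : ∑ v ∈ range (pG b), decF fd (rnum b (r % pR b)) v *
        fd.φ (a aZ ((r / pR b * nGc n b + (nGc n b - 1)) * nt b (a aSG) + 1 + v)) =
      ∑ i ∈ range (nGc n b), ∑ v ∈ range (pG b), decF fd (rnum b (r % pR b)) v *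
        tabF fd (a aCD) (a aSG) (a aBL)
        (fun τ l => fd.φ (a aMM (((r / pR b * nGc n b + i) * pR b + τ) * pN b + l))) v
        (fun k => ∑ l ∈ range (pN b), coefA fd (a aCD) (a aSG) (a aBL) v k l *
          fd.φ (a aXS (i * pN b + l))) := by
    rw [sum_comm]
    refine sum_congr rfl (fun v hv => ?_)
    rw [hZu v (hgrid v (mem_range.1 hv)), mul_sum]
  have e2 : ∑ k ∈ range ((nbad b (a aSG) ((r % pR b + 1) * pB b) -
          nbad b (a aSG) (r % pR b * pB b)) * pC b),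
        fd.φ (a aZ ((r / pR b * nGc n b + (nGc n b - 1)) * nt b (a aSG) + 1 +
          (pG b + nbad b (a aSG) (r % pR b * pB b) * pC b + k))) =
      ∑ i ∈ range (nGc n b), ∑ k ∈ range ((nbad b (a aSG) ((r % pR b + 1) * pB b) -
          nbad b (a aSG) (r % pR b * pB b)) * pC b), tabF fd (a aCD) (a aSG) (a aBL)
        (fun τ l => fd.φ (a aMM (((r / pR b * nGc n b + i) * pR b + τ) * pN b + l)))
          (pG b + nbad b (a aSG) (r % pR b * pB b) * pC b + k)
        (fun k' => ∑ l ∈ range (pN b), coefA fd (a aCD) (a aSG) (a aBL)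
          (pG b + nbad b (a aSG) (r % pR b * pB b) * pC b + k) k' l *
            fd.φ (a aXS (i * pN b + l))) := by
    rw [sum_comm]
    exact sum_congr rfl (fun k hk => hZu _ (hbadc k (mem_range.1 hk)))
  rw [e1, e2, ← sum_add_distrib]
  refine sum_congr rfl (fun i _ => ?_)
  exact out_group hB hR hC
    (fun τ l => fd.φ (a aMM (((r / pR b * nGc n b + i) * pR b + τ) * pN b + l)))
    (fun l => fd.φ (a aXS (i * pN b + l))) hρ

theorem out_eq (hE : Full m n X x a) (hB : Big m n b) (hX : ∀ r c, X r c ≤ 1)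
    (hx : ∀ c, x c ≤ 1) (hS : ScalOK m n b a) (hF : FldOK b a fd) (hR : RowOK n b a)
    (hC : CodeOK b (a aCD)) (_hG : GadOK b a fd) (hM : MulOK m n b X a fd)
    (hT : TabOK m n b a fd) (_hI1 : Idx1 m n b a) (hI2 : Idx2 m n b a)
    (hA : AdrOK n b x a fd) (hZ : ZOK m n b a fd) (hW : WOK m n b a fd) {r : ℕ} (hr : r < m) :
    a aOUT r = (∑ c ∈ range n, X r c * x c) % 2 := by
  obtain ⟨z, hz, hz2, hzφ⟩ := out_field hE hB hS hF hR hC hT hI2 hA hZ hW hr
  have hRp : 0 < pR b := Nat.pow_pos (Nat.mul_pos (Nat.mul_pos (Nat.two_pow_pos b)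
    (Nat.two_pow_pos b)) (Nat.mul_pos (Nat.mul_pos (by norm_num) (g1_h b)) (g1_h b)))
  have hρ : r % pR b < pR b := Nat.mod_lt _ hRp
  have hj : r / pR b < nJ m b := Nat.lt_succ_of_le (Nat.div_le_div_right hr.le)
  have hN : 0 < pN b := Nat.mul_pos (g1_C_pos b) (g1_pB_pos b)
  have hxm : ∀ r c, xm m n X r c ≤ 1 := fun r c => by
    unfold xm
    split_ifs
    · exact hX r c
    · exact Nat.zero_le _
  have hxv : ∀ c, xv n x c ≤ 1 := fun c => by
    unfold xv
    split_ifs
    · exact hx c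
    · exact Nat.zero_le _
  -- every product is the value of a number
  have hch : ∀ i < nGc n b, ∀ l < pN b, ∃ y < pq b, fd.φ y =
      fd.φ (a aMM (((r / pR b * nGc n b + i) * pR b + r % pR b) * pN b + l)) *
        fd.φ (a aXS (i * pN b + l)) ^ pD b ∧
      y % 2 = (∑ j ∈ range (pe b), xm m n X r (i * (pN b * pe b) + (l * pe b + j)) *
        xv n x (i * (pN b * pe b) + (l * pe b + j))) % 2 := by
    intro i hi l hl
    obtain ⟨y, hy, hyφ⟩ := fd.surj
      (fd.φ (a aMM (((r / pR b * nGc n b + i) * pR b + r % pR b) * pN b + l)) *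
        fd.φ (a aXS (i * pN b + l)) ^ pD b)
    refine ⟨y, hy, hyφ, ?_⟩
    have hmm := hM.mm _ (idx_lt hj hi) _ hρ l hl
    have harg := hM.arg_lt (r / pR b * nGc n b + i) (r % pR b) l
    have hrr : (r / pR b * nGc n b + i) / nGc n b * pR b + r % pR b = r := by
      rw [idx_div hi]
      exact Nat.div_add_mod' r (pR b)
    have hii : (r / pR b * nGc n b + i) % nGc n b = i := idx_mod hi
    rw [hrr, hii] at hmm harg
    rw [hmm] at hyφ
    have h1 := hM.mu _ harg _ (hA.xs_lt i hi l hl) y hy hyφ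
    rw [h1, hA.xs i hi l hl]
    exact par_bits (fun j _ => hxm _ _) (fun j _ => hxv _)
  choose! y hy using hch
  have hyn : ∀ k < nGc n b * pN b, y (k / pN b) (k % pN b) < pq b := by
    intro k hk
    have h1 : k / pN b < nGc n b := Nat.div_lt_of_lt_mul (by rwa [mul_comm])
    exact (hy _ h1 _ (Nat.mod_lt _ hN)).1
  have hdouble : ∀ {A : Type} [AddCommMonoid A] (F : ℕ → ℕ → A),
      ∑ k ∈ range (nGc n b * pN b), F (k / pN b) (k % pN b) =
      ∑ i ∈ range (nGc n b), ∑ l ∈ range (pN b), F i l := by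
    intro A _ F
    have h1 := sum_three (nGc n b) (pN b) 1 (fun k => F (k / pN b) (k % pN b))
    rw [mul_one] at h1
    rw [← h1]
    refine sum_congr rfl (fun i _ => sum_congr rfl (fun l hl => ?_))
    have hl' := mem_range.1 hl
    rw [sum_range_one, mul_one, add_zero, idx_div hl', idx_mod hl']
  have hsum : fd.φ z = ∑ k ∈ range (nGc n b * pN b), fd.φ (y (k / pN b) (k % pN b)) := by
    rw [hdouble (fun i l => fd.φ (y i l)), hzφ]
    refine sum_congr rfl (fun i hi => sum_congr rfl (fun l hl => ?_))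
    exact ((hy i (mem_range.1 hi) l (mem_range.1 hl)).2.1).symm
  have hlow := low_sum fd (k := pe b) rfl (nGc n b * pN b)
    (fun k => y (k / pN b) (k % pN b)) hyn z hz hsum
  rw [hz2, hlow, hdouble (fun i l => y i l)]
  have hT' : n ≤ nGc n b * (pN b * pe b) := by
    have hNe : 0 < pN b * pe b := Nat.mul_pos hN (Nat.succ_pos _)
    have := Nat.lt_mul_div_succ n hNe
    rw [mul_comm] at this
    exact this.le
  rw [← sum_ext0 (X := X) (x := x) hT' hr, ← sum_three]
  rw [sum_nat_mod, sum_nat_mod (range (nGc n b)) 2 (fun i => ∑ l ∈ range (pN b), ∑ j ∈ range (pe b),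
    xm m n X r (i * (pN b * pe b) + (l * pe b + j)) *
      xv n x (i * (pN b * pe b) + (l * pe b + j)))]
  refine congrArg (· % 2) (sum_congr rfl (fun i hi => ?_))
  rw [sum_nat_mod, sum_nat_mod (range (pN b)) 2 (fun l => ∑ j ∈ range (pe b),
    xm m n X r (i * (pN b * pe b) + (l * pe b + j)) *
      xv n x (i * (pN b * pe b) + (l * pe b + j)))]
  refine congrArg (· % 2) (sum_congr rfl (fun l hl => ?_))
  exact (hy i (mem_range.1 hi) l (mem_range.1 hl)).2.2

end Pool.Agent.OMVU
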