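import Pool.Agent.OMVU.Folds

/-! The output. -/

namespace Pool.Agent.OMVU

open Finset

variable {m n b : ℕ} {X : ℕ → ℕ → ℕ} {x : ℕ → ℕ} {a : Ar} {mt : ℕ → ℕ → ℕ}
  {fd : FD (pe b) (pq b) mt}

private theorem dsum_lt {q : ℕ} {f : ℕ → ℕ} {k : ℕ} (h : ∀ p < k, f p < q) :
    ∑ p ∈ range k, f p * q ^ p < q ^ k := by
  induction k with
  | zero => simp
  | succ k ih =>
    rw [sum_range_succ]
    have h1 := ih (fun p hp => h p (by omega))
    have h2 : (f k + 1) * q ^ k ≤ q * q ^ k := Nat.mul_le_mul_right _ (h k (by omega))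
    calc _ < q ^ k + f k * q ^ k := by omega
      _ = (f k + 1) * q ^ k := by ring
      _ ≤ q * q ^ k := h2
      _ = q ^ (k + 1) := by ring

private theorem dsum_dg {q : ℕ} {f : ℕ → ℕ} {k : ℕ} (h : ∀ p < k, f p < q) :
    ∀ p < k, dg q (∑ i ∈ range k, f i * q ^ i) p = f p := by
  induction k with
  | zero => intro p hp; omega
  | succ k ih =>
    intro p hp
    have hq : 0 < q := lt_of_le_of_lt (Nat.zero_le _) (h p hp)
    have h1 := dsum_lt (fun p hp => h p (by omega : p < k + 1)) (k := k)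
    unfold dg at ih ⊢
    rw [sum_range_succ]
    rcases Nat.lt_succ_iff_lt_or_eq.1 hp with h2 | rfl
    · have h3 : f k * q ^ k = f k * q ^ (k - p - 1) * q * q ^ p := by
        have : q ^ k = q ^ (k - p - 1) * q * q ^ p := by
          rw [← pow_succ, ← pow_add]
          congr 1
          omega
        rw [this]; ring
      rw [h3, Nat.add_mul_div_right _ _ (pow_pos hq p), Nat.add_mul_mod_self_right]
      exact ih (fun p hp => h p (by omega)) p h2
    · rw [Nat.add_mul_div_right _ _ (pow_pos hq p), Nat.div_eq_of_lt h1, Nat.zero_add,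
        Nat.mod_eq_of_lt (h p (by omega))]

/-- `rnum` is a number of a grid point and has the digits `rv`. -/
theorem rnum_spec {b ρ : ℕ} (hρ : ρ < pR b)
    (hrv : ∀ p < 2 * pM b, rv b ρ p < pq b) :
    rnum b ρ < pG b ∧ ∀ p < 2 * pM b, dg (pq b) (rnum b ρ) p = rv b ρ p :=
  ⟨dsum_lt hrv, dsum_dg hrv⟩

private theorem pR_pos' (b : ℕ) : 0 < pR b := by
  have h1 : 0 < pM b := Nat.pow_pos two_pos
  have h2 : 0 < ph b := by unfold ph; omega
  have h3 : 0 < pD b := Nat.pow_pos two_pos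
  exact Nat.pow_pos (Nat.mul_pos (Nat.mul_pos h3 h3)
    (Nat.mul_pos (Nat.mul_pos two_pos h2) h2))

private theorem nbad_mono' {b : ℕ} {sg : ℕ → ℕ} {p p' : ℕ} (h : p ≤ p') : nbad b sg p ≤ nbad b sg p' :=
  sum_le_sum_of_subset (range_subset_range.2 h)

private theorem out_fin (hF : FldOK b a fd) {u i Y P : ℕ} (hi : i < pq b)
    (hf : ∀ k < u, a aZ (Y + (P + k)) < pq b) :
    iter (fun k w => min (a aXT (a aMQ w + a aZ (Y + P + k))) (pq b)) i u < pq b ∧
      fd.φ (iter (fun k w => min (a aXT (a aMQ w + a aZ (Y + P + k))) (pq b)) i u) =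
        fd.φ i + ∑ k ∈ range u, fd.φ (a aZ (Y + (P + k))) :=
  xor_fold hF hi hf (fun k _ w => by rw [Nat.add_assoc Y P k])

private theorem out_idx {N1 N2 NR G C t : ℕ} (ht : t = G + NR * C) (hN12 : N1 ≤ N2) (hN2 : N2 ≤ NR)
    {k : ℕ} (hk : k < (N2 - N1) * C) : G + N1 * C + k < t := by
  have h1 : N1 * C + k < N2 * C := by
    have : N2 * C = N1 * C + (N2 - N1) * C := by
      rw [← Nat.add_mul]; congr 1; omega
    omega
  have h2 : N2 * C ≤ NR * C := Nat.mul_le_mul_right _ hN2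
  omega

private theorem out_idx2 {jj J g t z c : ℕ} (hj : jj < J) (hg : 0 < g) (hz : z < t) (hc : c = J * g * t) :
    (jj * g + (g - 1)) * t + 1 + z ≤ c := by
  have h4 : jj * g + (g - 1) < J * g := idx_lt hj (by omega)
  have h5 := idx_lt h4 hz
  omega

theorem out_ok (hE : Full m n X x a) (hB : Big m n b) (hS : ScalOK m n b a)
    (hF : FldOK b a fd) (hR : RowOK n b a) (hI : Idx2 m n b a) (hZ : ZOK m n b a fd)
    (hW : WOK m n b a fd)
    (hrv : ∀ τ < pR b, ∀ p < 2 * pM b, rv b τ p < pq b) {r : ℕ} (hr : r < m) :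
    ∃ z < pq b, a aOUT r = z % 2 ∧
      fd.φ z = fd.φ (a aW ((r / pR b * (2 * pM b + 1) + 2 * pM b) * pG b +
        rnum b (r % pR b))) +
      ∑ k ∈ range ((nbad b (a aSG) ((r % pR b + 1) * pB b) -
          nbad b (a aSG) (r % pR b * pB b)) * pC b),
        fd.φ (a aZ ((r / pR b * nGc n b + (nGc n b - 1)) * nt b (a aSG) + 1 +
          (pG b + nbad b (a aSG) (r % pR b * pB b) * pC b + k))) := by
  have hRp := pR_pos' b
  have hρ : r % pR b < pR b := Nat.mod_lt _ hRp
  have hj : r / pR b < nJ m b := by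
    have : r / pR b ≤ m / pR b := Nat.div_le_div_right hr.le
    exact Nat.lt_succ_of_le this
  have hκ := (rnum_spec hρ (hrv _ hρ)).1
  have hi := hW.lt _ hj _ hκ
  have h0 : Stg.Sat a gOUT := hE.qry gOUT (by simp [qryL])
  have hrm : r < (RE.sc sm).eval a (loc0 0) := by
    rw [RE.eval_sc, hS.m0]; exact hr
  have h : a aOUT r = iter (fun k w => min (a aXT (a aMQ w + a aZ (a aOZ r + k))) (a sq 0))
      (a aW (a aOW r)) (a aON r) % 2 := h0 r hrm
  rw [hI.ow r hr, hI.on r hr, hI.oz r hr, hS.q0] at h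
  have hN12 : nbad b (a aSG) (r % pR b * pB b) ≤ nbad b (a aSG) ((r % pR b + 1) * pB b) :=
    nbad_mono' (Nat.mul_le_mul_right _ (Nat.le_succ _))
  have hN2R : nbad b (a aSG) ((r % pR b + 1) * pB b) ≤ nbad b (a aSG) (pR b * pB b) :=
    nbad_mono' (Nat.mul_le_mul_right _ hρ)
  have ht : nt b (a aSG) = pG b + nbad b (a aSG) (pR b * pB b) * pC b := rfl
  have hgc : 0 < nGc n b := Nat.succ_pos _
  generalize hρ' : r % pR b = ρ at *
  generalize hjj : r / pR b = jj at *
  generalize nbad b (a aSG) (ρ * pB b) = N1 at *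
  generalize nbad b (a aSG) ((ρ + 1) * pB b) = N2 at *
  have hf : ∀ k < (N2 - N1) * pC b, a aZ ((jj * nGc n b + (nGc n b - 1)) * nt b (a aSG) + 1 +
      (pG b + N1 * pC b + k)) < pq b := by
    intro k hk
    exact hZ.lt _ (out_idx2 hj hgc (out_idx ht hN12 hN2R hk) (Nat.mul_assoc _ _ _).symm)
  have key := out_fin hF hi hf
  exact ⟨_, key.1, h, key.2⟩

end Pool.Agent.OMVU
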