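import Pool.Agent.OMVU.Wt

/-! After a well ordered list of stages all the equations of the stages hold. -/

namespace Pool.Agent.OMVU

/-- The value of an expression depends only on the arrays it reads. -/
theorem RE.eval_congr' (e : RE) {a b : Ar} (h : ∀ B, e.wf B = false → a B = b B) :
    ∀ ρ, e.eval a ρ = e.eval b ρ := by
  induction e generalizing a b with
  | const c => intro ρ; rfl
  | var x => intro ρ; rfl
  | add p q hp hq =>
      intro ρ
      simp only [RE.eval]
      rw [hp (fun B hB => h B (by simp [RE.wf, hB])) ρ, hq (fun B hB => h B (by simp [RE.wf, hB])) ρ]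
  | sub p q hp hq =>
      intro ρ
      simp only [RE.eval]
      rw [hp (fun B hB => h B (by simp [RE.wf, hB])) ρ, hq (fun B hB => h B (by simp [RE.wf, hB])) ρ]
  | mul p q hp hq =>
      intro ρ
      simp only [RE.eval]
      rw [hp (fun B hB => h B (by simp [RE.wf, hB])) ρ, hq (fun B hB => h B (by simp [RE.wf, hB])) ρ]
  | div p q hp hq =>
      intro ρ
      simp only [RE.eval]
      rw [hp (fun B hB => h B (by simp [RE.wf, hB])) ρ, hq (fun B hB => h B (by simp [RE.wf, hB])) ρ]
  | mod p q hp hq =>
      intro ρ
      simp only [RE.eval]
      rw [hp (fun B hB => h B (by simp [RE.wf, hB])) ρ, hq (fun B hB => h B (by simp [RE.wf, hB])) ρ]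
  | get A i hi =>
      intro ρ
      simp only [RE.eval]
      rw [hi (fun B hB => h B (by simp [RE.wf, hB])) ρ, h A (by simp [RE.wf])]
  | ite u v p q hu hv hp hq =>
      intro ρ
      simp only [RE.eval]
      rw [hu (fun B hB => h B (by simp [RE.wf, hB])) ρ, hv (fun B hB => h B (by simp [RE.wf, hB])) ρ,
        hp (fun B hB => h B (by simp [RE.wf, hB])) ρ, hq (fun B hB => h B (by simp [RE.wf, hB])) ρ]
  | sum x n e hn he =>
      intro ρ
      simp only [RE.eval]
      rw [hn (fun B hB => h B (by simp [RE.wf, hB])) ρ]
      refine Finset.sum_congr rfl fun k _ => ?_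
      exact he (fun B hB => h B (by simp [RE.wf, hB])) _
  | fnd x n e hn he =>
      intro ρ
      simp only [RE.eval]
      rw [hn (fun B hB => h B (by simp [RE.wf, hB])) ρ]
      congr 1
      funext k
      exact he (fun B hB => h B (by simp [RE.wf, hB])) _
  | fold x y n i c e hn hi hc he =>
      intro ρ
      simp only [RE.eval]
      rw [hn (fun B hB => h B (by simp [RE.wf, hB])) ρ, hi (fun B hB => h B (by simp [RE.wf, hB])) ρ,
        hc (fun B hB => h B (by simp [RE.wf, hB])) ρ]
      congr 1
      funext k w
      rw [he (fun B hB => h B (by simp [RE.wf, hB])) _]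

namespace Stg

/-- The stage does not read the array `B`. -/
def rf (B : ℕ) : Stg → Bool
  | put _ i e => i.wf B && e.wf B
  | fill _ n e => n.wf B && e.wf B
  | recf _ n c e => n.wf B && c.wf B && e.wf B

/-- A `recf` stage reads its own array only in `e`; the other stages do not read their
own array. -/
def own : Stg → Bool
  | put A i e => i.wf A && e.wf A
  | fill A n e => n.wf A && e.wf A
  | recf A n c _ => n.wf A && c.wf A

/-- Every array is written at most once, and read only after it was written. -/
def ord : List Stg → Bool
  | [] => true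
  | g :: l => g.wf && g.own && (l.all fun g' => g.rf g'.tgt && decide (g'.tgt ≠ g.tgt)) && ord l

/-- The arrays satisfy the equations of the stage. -/
def Sat (a : Ar) : Stg → Prop
  | put A i e => a A (i.eval a (loc0 0)) = e.eval a (loc0 0)
  | fill A n e => ∀ k < n.eval a (loc0 0), a A k = e.eval a (loc0 k)
  | recf A n c e => ∃ o : ℕ → ℕ, ∀ k < n.eval a (loc0 0),
      a A k = min (e.eval (fun B j => if B = A ∧ k ≤ j then o j else a B j) (loc0 k))
        (c.eval a (loc0 0))

/-- The list writes only the arrays in the list. -/
theorem runs_ne (l : List Stg) (a : Ar) {B : ℕ} (h : ∀ g ∈ l, g.tgt ≠ B) :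
    runs l a B = a B := by
  induction l generalizing a with
  | nil => rfl
  | cons g l ih =>
      simp only [runs]
      rw [ih _ (fun g' hg' => h g' (List.mem_cons_of_mem _ hg'))]
      exact run_ne g a (h g List.mem_cons_self).symm

/-- The equations of a stage depend only on the arrays it reads and writes. -/
theorem Sat.congr {g : Stg} {a b : Ar} (h : ∀ B, g.rf B = false ∨ B = g.tgt → a B = b B)
    (hs : Sat a g) : Sat b g := by
  cases g with
  | put A i e =>
      have hi := RE.eval_congr' i (a := a) (b := b)
        (fun B hB => h B (Or.inl (by simp [rf, hB]))) (loc0 0)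
      have he := RE.eval_congr' e (a := a) (b := b)
        (fun B hB => h B (Or.inl (by simp [rf, hB]))) (loc0 0)
      have hA := h A (Or.inr rfl)
      simp only [Sat] at hs ⊢
      rw [← hi, ← he, ← hA]
      exact hs
  | fill A n e =>
      have hn := RE.eval_congr' n (a := a) (b := b)
        (fun B hB => h B (Or.inl (by simp [rf, hB]))) (loc0 0)
      have he := RE.eval_congr' e (a := a) (b := b)
        (fun B hB => h B (Or.inl (by simp [rf, hB])))
      have hA := h A (Or.inr rfl)
      simp only [Sat] at hs ⊢
      rw [← hn, ← hA]
      intro k hk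
      rw [hs k hk, he]
  | recf A n c e =>
      have hn := RE.eval_congr' n (a := a) (b := b)
        (fun B hB => h B (Or.inl (by simp [rf, hB]))) (loc0 0)
      have hc := RE.eval_congr' c (a := a) (b := b)
        (fun B hB => h B (Or.inl (by simp [rf, hB]))) (loc0 0)
      have hA := h A (Or.inr rfl)
      obtain ⟨o, ho⟩ := hs
      refine ⟨o, ?_⟩
      rw [← hn, ← hA, ← hc]
      intro k hk
      rw [ho k hk]
      congr 1
      refine RE.eval_congr' e (fun B hB => ?_) _
      funext j
      rw [h B (Or.inl (by simp [rf, hB]))]

/-- The equations of a stage hold after it is executed. -/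
theorem Sat.run {g : Stg} (hw : g.wf = true) (ho : g.own = true) (a : Ar) : Sat (g.run a) g := by
  have hne : ∀ B, B ≠ g.tgt → a B = g.run a B := fun B hB => (run_ne g a hB).symm
  cases g with
  | put A i e =>
      simp only [own, Bool.and_eq_true] at ho
      have hi := RE.eval_congr ho.1 (a := a) (b := (put A i e).run a) hne (loc0 0)
      have he := RE.eval_congr ho.2 (a := a) (b := (put A i e).run a) hne (loc0 0)
      simp only [Sat]
      rw [← hi, ← he, run_put]
      simp [setA]
  | fill A n e =>
      simp only [own, Bool.and_eq_true] at ho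
      have hn := RE.eval_congr ho.1 (a := a) (b := (fill A n e).run a) hne (loc0 0)
      have he := RE.eval_congr ho.2 (a := a) (b := (fill A n e).run a) hne
      simp only [Sat]
      rw [← hn]
      intro k hk
      rw [run_fill ho.2 a hk, ← he]
  | recf A n c e =>
      simp only [own, Bool.and_eq_true] at ho
      have hn := RE.eval_congr ho.1 (a := a) (b := (recf A n c e).run a) hne (loc0 0)
      have hc := RE.eval_congr ho.2 (a := a) (b := (recf A n c e).run a) hne (loc0 0)
      refine ⟨a A, ?_⟩
      rw [← hn, ← hc]
      intro k hk
      rw [run_recf a hk]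
      congr 2
      funext B j
      by_cases hB : B = A
      · subst hB
        by_cases hj : j < k
        · simp [hj, not_le.mpr hj]
        · simp [hj, not_lt.mp hj]
      · simp [hB, hne B hB]

theorem sat_runs (l : List Stg) (hl : ord l = true) (a : Ar) : ∀ g ∈ l, Sat (runs l a) g := by
  induction l generalizing a with
  | nil => intro g hg; simp at hg
  | cons g l ih =>
      simp only [ord, Bool.and_eq_true, List.all_eq_true, decide_eq_true_eq] at hl
      obtain ⟨⟨⟨hw, ho⟩, hall⟩, hord⟩ := hl
      intro g' hg'
      simp only [runs]
      rcases List.mem_cons.1 hg' with rfl | hg'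
      · refine Sat.congr (a := g'.run a) (fun B hB => ?_) (Sat.run hw ho a)
        refine (runs_ne l (g'.run a) fun h hh => ?_).symm
        rintro rfl
        have := hall h hh
        rcases hB with hB | hB
        · rw [this.1] at hB
          exact Bool.noConfusion hB
        · exact this.2 hB
      · exact ih hord (g.run a) g' hg'

end Stg

end Pool.Agent.OMVU
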