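import Pool.Agent.OMVU.Arrays

/-! The meaning of the arrays. -/

namespace Pool.Agent.OMVU

open Finset

/-- The matrix extended by zero. -/
def xm (m n : ℕ) (X : ℕ → ℕ → ℕ) (r c : ℕ) : ℕ := if r < m ∧ c < n then X r c else 0

/-- The number of column groups. -/
def nGc (n b : ℕ) : ℕ := n / (pN b * pe b) + 1
/-- The number of row groups. -/
def nJ (m b : ℕ) : ℕ := m / pR b + 1
/-- The number of bad pairs before `p`. -/
def nbad (b : ℕ) (sg : ℕ → ℕ) (p : ℕ) : ℕ := ∑ p' ∈ range p, bad b sg p'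
/-- The number of cells. -/
def nt (b : ℕ) (sg : ℕ → ℕ) : ℕ := pG b + nbad b sg (pR b * pB b) * pC b

/-- The scalars, the powers of two and the powers of `Rb`. -/
structure ScalOK (m n b : ℕ) (a : Ar) : Prop where
  m0 : a sm 0 = m
  n0 : a sn 0 = n
  p2 : ∀ i ≤ 16 * pE b, a aP2 i = 2 ^ i
  b0 : a sb 0 = b
  D0 : a sD 0 = pD b
  M0 : a sM 0 = pM b
  e0 : a se 0 = pe b
  q0 : a sq 0 = pq b
  h0 : a sh 0 = ph b
  l0 : a sl 0 = pl b
  K0 : a sK 0 = pK b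
  Q0 : a sQ 0 = pQ b
  C0 : a sC 0 = pC b
  B0 : a sB 0 = pB b
  N0 : a sN 0 = pN b
  Rb0 : a sRb 0 = pRb b
  rp : ∀ i ≤ pM b, a aRP i = pRb b ^ i
  R0 : a sR 0 = pR b
  M20 : a sM2 0 = 2 * pM b
  G0 : a sG 0 = pG b
  S0 : a sS 0 = 4096 ^ pl b
  Ne0 : a sNe 0 = pN b * pe b
  Gc0 : a sGc 0 = nGc n b
  J0 : a sJ 0 = nJ m b

/-- Addition, multiplication and powers in the field. -/
structure FldOK (b : ℕ) (a : Ar) {mt : ℕ → ℕ → ℕ} (fd : FD (pe b) (pq b) mt) : Prop where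
  xt : ∀ x < pq b, ∀ y < pq b, a aXT (x * pq b + y) = x ^^^ y
  mq : ∀ x < pq b, a aMQ x = x * pq b
  mtt : ∀ x < pq b, ∀ y < pq b, a aMT (x * pq b + y) = mt x y
  pw_lt : ∀ x < pq b, ∀ k < pq b, a aPW (x * pq b + k) < pq b
  pw : ∀ x < pq b, ∀ k < pq b, fd.φ (a aPW (x * pq b + k)) = fd.φ x ^ k

/-- Rows, bad pairs, cells. -/
structure RowOK (n b : ℕ) (a : Ar) : Prop where
  rv : ∀ τ < pR b, ∀ p < 2 * pM b, a aRV (τ * (2 * pM b) + p) = rv b τ p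
  bd : ∀ p < pR b * pB b, a aBD p = bad b (a aSG) p
  nb0 : a snb 0 = nbad b (a aSG) (pR b * pB b)
  t0 : a st 0 = nt b (a aSG)
  Gt0 : a sGt 0 = nGc n b * nt b (a aSG)
  bl_lt : ∀ k < nbad b (a aSG) (pR b * pB b), a aBL k < pR b * pB b
  bl_bad : ∀ k < nbad b (a aSG) (pR b * pB b), bad b (a aSG) (a aBL k) = 1
  bl_rank : ∀ k < nbad b (a aSG) (pR b * pB b), nbad b (a aSG) (a aBL k) = k
  bl_of : ∀ p < pR b * pB b, bad b (a aSG) p = 1 → a aBL (nbad b (a aSG) p) = p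
  bs : ∀ τ ≤ pR b, a aBS τ = nbad b (a aSG) (τ * pB b)

section

variable {b : ℕ} {mt : ℕ → ℕ → ℕ} (fd : FD (pe b) (pq b) mt)

/-- The monomial of the column `l` at the grid point `v`. -/
noncomputable def monC (sg : ℕ → ℕ) (v l : ℕ) : fd.F :=
  ∏ p ∈ range (2 * pM b), fd.φ (dg (pq b) v p) ^ uv b sg l p

/-- The monomial of the row `τ` and the column `l` at the grid point `v`. -/
noncomputable def monK (sg : ℕ → ℕ) (v τ l : ℕ) : fd.F :=
  ∏ p ∈ range (2 * pM b), fd.φ (dg (pq b) v p) ^ (rv b τ p - pD b * uv b sg l p)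

/-- The elementary symmetric function of degree `D` in the symbols of the code word `w`;
`y` gives the symbols of the address. -/
noncomputable def esy (w : ℕ) (y : ℕ → fd.F) : fd.F :=
  ∑ J ∈ powersetCard (pD b) (range (pl b)), ∏ j ∈ J, y (j * 4096 + dg 4096 w j)

/-- The decoding functional. -/
noncomputable def decF (κ v : ℕ) : fd.F :=
  ∏ p ∈ range (2 * pM b), fd.φ (dg (pq b) v p) ^ (pq b - 1 - dg (pq b) κ p)

/-- The exponent vector of the row `ρ` as a number. -/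
def rnum (b ρ : ℕ) : ℕ := ∑ p ∈ range (2 * pM b), rv b ρ p * pq b ^ p

/-- The coefficient of the column `l` in the symbol `k` of the address of the cell `u`. -/
noncomputable def coefA (cd sg bl : ℕ → ℕ) (u k l : ℕ) : fd.F :=
  if u < pG b then
    if dg 4096 (cd (l / pB b)) (k / 4096) = k % 4096 then monC fd sg u l else 0
  else if k = 0 ∧ l = (u - pG b) % pC b * pB b + bl ((u - pG b) / pC b) % pB b then 1 else 0

/-- The table of the cell `u` at the address with the symbols `y`; `μ τ l` is the matrix. -/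
noncomputable def tabF (cd sg bl : ℕ → ℕ) (μ : ℕ → ℕ → fd.F) (u : ℕ) (y : ℕ → fd.F) : fd.F :=
  if u < pG b then
    ∑ τ ∈ range (pR b), ∑ l ∈ range (pN b), if bad b sg (τ * pB b + l % pB b) = 0 then
      μ τ l * monK fd sg u τ l * esy fd (cd (l / pB b)) y else 0
  else μ (bl ((u - pG b) / pC b) / pB b)
      ((u - pG b) % pC b * pB b + bl ((u - pG b) / pC b) % pB b) * y 0 ^ pD b

end

/-- The arrays of the gadget. -/
structure GadOK (b : ℕ) (a : Ar) {mt : ℕ → ℕ → ℕ} (fd : FD (pe b) (pq b) mt) : Prop where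
  ca_lt : ∀ u < nt b (a aSG), ∀ k < pK b, ∀ l < pN b, a aCA ((u * pK b + k) * pN b + l) < pq b
  ca : ∀ u < nt b (a aSG), ∀ k < pK b, ∀ l < pN b,
    fd.φ (a aCA ((u * pK b + k) * pN b + l)) = coefA fd (a aCD) (a aSG) (a aBL) u k l
  mk_lt : ∀ v < pG b, ∀ τ < pR b, ∀ l < pN b, a aMK ((v * pR b + τ) * pN b + l) < pq b
  mkk : ∀ v < pG b, ∀ τ < pR b, ∀ l < pN b,
    fd.φ (a aMK ((v * pR b + τ) * pN b + l)) = monK fd (a aSG) v τ l
  ed_lt : ∀ c < pC b, ∀ w < pQ b, a aED (c * pQ b + w) < pq b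
  ed : ∀ c < pC b, ∀ w < pQ b, fd.φ (a aED (c * pQ b + w)) =
    esy fd (a aCD c) (fun k => fd.φ (dg (pq b) w k))

/-- The multipliers. -/
structure MulOK (m n b : ℕ) (X : ℕ → ℕ → ℕ) (a : Ar) {mt : ℕ → ℕ → ℕ}
    (fd : FD (pe b) (pq b) mt) : Prop where
  mu_lt : ∀ f < pq b, a aMU f < pq b
  mu : ∀ f < pq b, ∀ x < pq b, ∀ z < pq b, fd.φ z = fd.φ (a aMU f) * fd.φ x ^ pD b →
    z % 2 = par (pe b) f x
  arg_lt : ∀ g τ l, (∑ j ∈ range (pe b), xm m n X (g / nGc n b * pR b + τ)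
      (g % nGc n b * (pN b * pe b) + (l * pe b + j)) * 2 ^ j) < pq b
  mm : ∀ g < nJ m b * nGc n b, ∀ τ < pR b, ∀ l < pN b,
    a aMM ((g * pR b + τ) * pN b + l) = a aMU (∑ j ∈ range (pe b),
      xm m n X (g / nGc n b * pR b + τ) (g % nGc n b * (pN b * pe b) + (l * pe b + j)) * 2 ^ j)

/-- The tables. -/
structure TabOK (m n b : ℕ) (a : Ar) {mt : ℕ → ℕ → ℕ} (fd : FD (pe b) (pq b) mt) : Prop where
  lt : ∀ g < nJ m b * nGc n b, ∀ u < nt b (a aSG), ∀ w < pQ b,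
    a aTT ((g * nt b (a aSG) + u) * pQ b + w) < pq b
  eq : ∀ g < nJ m b * nGc n b, ∀ u < nt b (a aSG), ∀ w < pQ b,
    fd.φ (a aTT ((g * nt b (a aSG) + u) * pQ b + w)) =
      tabF fd (a aCD) (a aSG) (a aBL) (fun τ l => fd.φ (a aMM ((g * pR b + τ) * pN b + l))) u
        (fun k => fd.φ (dg (pq b) w k))

/-- The index tables for the addresses and the table values. -/
structure Idx1 (m n b : ℕ) (a : Ar) : Prop where
  ub : ∀ i < nGc n b, ∀ u < nt b (a aSG), a aUB (i * nt b (a aSG) + u) = u * (pK b * pN b)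
  xb : ∀ i < nGc n b, ∀ u < nt b (a aSG), a aXB (i * nt b (a aSG) + u) = i * pN b
  pqq : ∀ k < pK b, a aPQ k = pq b ^ k
  kn : ∀ k < pK b, a aKN k = k * pN b
  Zn0 : a sZn 0 = nJ m b * (nGc n b * nt b (a aSG)) + 1
  pv0 : ∀ jj < nJ m b, ∀ u < nt b (a aSG),
    a aPV ((jj * nGc n b) * nt b (a aSG) + u + 1) = 0
  pv : ∀ jj < nJ m b, ∀ i, i + 1 < nGc n b → ∀ u < nt b (a aSG),
    a aPV ((jj * nGc n b + (i + 1)) * nt b (a aSG) + u + 1) =
      (jj * nGc n b + i) * nt b (a aSG) + u + 1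
  tq : ∀ k < nJ m b * (nGc n b * nt b (a aSG)), a aTQ (k + 1) = k * pQ b
  km : ∀ jj < nJ m b, ∀ i < nGc n b, ∀ u < nt b (a aSG),
    a aKM ((jj * nGc n b + i) * nt b (a aSG) + u + 1) = i * nt b (a aSG) + u

/-- The index tables for the transform and the output. -/
structure Idx2 (m n b : ℕ) (a : Ar) : Prop where
  Wn0 : a sWn 0 = nJ m b * ((2 * pM b + 1) * pG b)
  wf0 : ∀ jj < nJ m b, ∀ v < pG b, a aWF ((jj * (2 * pM b + 1)) * pG b + v) = 0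
  wf1 : ∀ jj < nJ m b, ∀ s < 2 * pM b, ∀ v < pG b,
    a aWF ((jj * (2 * pM b + 1) + (s + 1)) * pG b + v) = s + 1
  wp0 : ∀ jj < nJ m b, ∀ v < pG b, a aWP ((jj * (2 * pM b + 1)) * pG b + v) =
    (jj * nGc n b + (nGc n b - 1)) * nt b (a aSG) + 1 + v
  wp1 : ∀ jj < nJ m b, ∀ s < 2 * pM b, ∀ v < pG b,
    a aWP ((jj * (2 * pM b + 1) + (s + 1)) * pG b + v) =
      (jj * (2 * pM b + 1) + s) * pG b + (v - dg (pq b) v s * pq b ^ s)
  ws1 : ∀ jj < nJ m b, ∀ s < 2 * pM b, ∀ v < pG b,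
    a aWS ((jj * (2 * pM b + 1) + (s + 1)) * pG b + v) = pq b ^ s
  wd1 : ∀ jj < nJ m b, ∀ s < 2 * pM b, ∀ v < pG b,
    a aWD ((jj * (2 * pM b + 1) + (s + 1)) * pG b + v) = dg (pq b) v s * pq b
  ow : ∀ r < m, a aOW r = (r / pR b * (2 * pM b + 1) + 2 * pM b) * pG b + rnum b (r % pR b)
  oz : ∀ r < m, a aOZ r = (r / pR b * nGc n b + (nGc n b - 1)) * nt b (a aSG) + 1 +
    (pG b + nbad b (a aSG) (r % pR b * pB b) * pC b)
  on : ∀ r < m, a aON r = (nbad b (a aSG) ((r % pR b + 1) * pB b) -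
    nbad b (a aSG) (r % pR b * pB b)) * pC b

/-- The table of the decoder. -/
structure DecOK (b : ℕ) (a : Ar) {mt : ℕ → ℕ → ℕ} (fd : FD (pe b) (pq b) mt) : Prop where
  lt : ∀ y < pq b, ∀ x < pq b, a aDD (y * pq b + x) < pq b
  eq : ∀ y < pq b, ∀ x < pq b, fd.φ (a aDD (y * pq b + x)) = fd.φ x ^ (pq b - 1 - y)

/-- The arrays after a query with the vector `x`. -/
structure Full (m n : ℕ) (X : ℕ → ℕ → ℕ) (x : ℕ → ℕ) (a : Ar) : Prop extends Eqs m n X a where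
  vec : ∀ c < n, a aV c = x c
  vec0 : ∀ c, n ≤ c → a aV c = 0
  qry : ∀ g ∈ qryL, Stg.Sat a g

/-- The vector extended by zero. -/
def xv (n : ℕ) (x : ℕ → ℕ) (c : ℕ) : ℕ := if c < n then x c else 0

/-- Symbols and addresses. -/
structure AdrOK (n b : ℕ) (x : ℕ → ℕ) (a : Ar) {mt : ℕ → ℕ → ℕ}
    (fd : FD (pe b) (pq b) mt) : Prop where
  xs : ∀ i < nGc n b, ∀ l < pN b, a aXS (i * pN b + l) =
    ∑ j ∈ range (pe b), xv n x (i * (pN b * pe b) + (l * pe b + j)) * 2 ^ j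
  xs_lt : ∀ i < nGc n b, ∀ l < pN b, a aXS (i * pN b + l) < pq b
  ad_lt : ∀ i < nGc n b, ∀ u < nt b (a aSG), a aAD (i * nt b (a aSG) + u) < pQ b
  ad : ∀ i < nGc n b, ∀ u < nt b (a aSG), ∀ k < pK b,
    fd.φ (dg (pq b) (a aAD (i * nt b (a aSG) + u)) k) =
      ∑ l ∈ range (pN b), coefA fd (a aCD) (a aSG) (a aBL) u k l * fd.φ (a aXS (i * pN b + l))

/-- The sums of the table values. -/
structure ZOK (m n b : ℕ) (a : Ar) {mt : ℕ → ℕ → ℕ} (fd : FD (pe b) (pq b) mt) : Prop where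
  lt : ∀ k ≤ nJ m b * (nGc n b * nt b (a aSG)), a aZ k < pq b
  eq : ∀ jj < nJ m b, ∀ u < nt b (a aSG),
    fd.φ (a aZ ((jj * nGc n b + (nGc n b - 1)) * nt b (a aSG) + 1 + u)) =
      ∑ i ∈ range (nGc n b), fd.φ (a aTT (((jj * nGc n b + i) * nt b (a aSG) + u) * pQ b +
        a aAD (i * nt b (a aSG) + u)))

/-- The transform. -/
structure WOK (m n b : ℕ) (a : Ar) {mt : ℕ → ℕ → ℕ} (fd : FD (pe b) (pq b) mt) : Prop where
  lt : ∀ jj < nJ m b, ∀ κ < pG b, a aW ((jj * (2 * pM b + 1) + 2 * pM b) * pG b + κ) < pq b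
  eq : ∀ jj < nJ m b, ∀ κ < pG b,
    fd.φ (a aW ((jj * (2 * pM b + 1) + 2 * pM b) * pG b + κ)) = ∑ v ∈ range (pG b),
      decF fd κ v * fd.φ (a aZ ((jj * nGc n b + (nGc n b - 1)) * nt b (a aSG) + 1 + v))

end Pool.Agent.OMVU
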